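import Pool.Agent.LibLG5.P4

/-!
LibUF16 (MP_ff81b6_nt): definitions.

`TU w z r0 B n` replaces the exact indicator `rho w z B n` of LibLG5 by the product over the blocks `QB w z j` of the truncated
inclusion-exclusion sums of length `2 (r0 + j)`; all averages of polynomials in these functions are then computed exactly (up to a power of `z`).
-/

open Finset Filter

namespace Pool.Agent.LibUF16

open Pool.Agent.LibRG87 Pool.Agent.LibLG5

/-- truncated alternating sum of binomial coefficients -/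
noncomputable def tau (r N : ℕ) : ℝ := ∑ t ∈ range (2 * r + 1), (-1 : ℝ) ^ t * (N.choose t : ℝ)

open scoped Classical in
/-- the number of primes in `Q` which divide `n + a` for some `a ∈ B` -/
noncomputable def NQ (Q B : Finset ℕ) (n : ℕ) : ℕ := (Q.filter fun p => ∃ a ∈ B, p ∣ n + a).card

/-- the truncated sieve function of the set `B` -/
noncomputable def TU (w z r0 : ℕ) (B : Finset ℕ) (n : ℕ) : ℝ :=
  ∏ j ∈ range (JJ z), tau (r0 + j) (NQ (QB w z j) B n)

/-- the period of the small primes -/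
noncomputable def QS (w z : ℕ) : ℕ := ∏ p ∈ PP w z, p

/-- the period of the large primes -/
noncomputable def QL (z k1 : ℕ) : ℕ := ∏ p ∈ PP z (z ^ k1), p

/-- the moments of `TU` -/
noncomputable def RR (w z r0 e : ℕ) (B : Finset ℕ) : ℝ := mean (QS w z) fun n => TU w z r0 B n ^ e

/-- `F` is a combination of indicators of residue classes modulo divisors of `Q`, the sum of the absolute values of the
coefficients is at most `A` -/
def NormLe (Q : ℕ) (A : ℝ) (F : ℕ → ℝ) : Prop :=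
  ∃ (κ : Type) (_ : Fintype κ) (α : κ → ℝ) (D r : κ → ℕ), (∀ i, 0 < D i ∧ D i ∣ Q) ∧ ∑ i, |α i| ≤ A ∧
    ∀ n, F n = ∑ i, α i * (if n % D i = r i then 1 else 0)

section

variable {ι : Type} [Fintype ι] [DecidableEq ι] (P : Finset ℕ)

/-- the general sum: coefficients `y`, functions `T` -/
noncomputable def PhiG (b : ι → ℕ) (y : (P → Option ι) → ℝ) (T : (P → Option ι) → ℕ → ℝ) (n : ℕ) : ℝ :=
  ∑ β, y β * T β n * ee P b β n

/-- its diagonal; the functions `T` have the period `q` -/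
noncomputable def dgG (q : ℕ) (y : (P → Option ι) → ℝ) (T : (P → Option ι) → ℕ → ℝ) : ℝ :=
  ∑ β, y β ^ 2 * mean q (fun n => T β n ^ 2) / ph (sp P β)

/-- the functions `T` attached to the positions used, and to the set `E` -/
noncomputable def TE (w z r0 : ℕ) (b : ι → ℕ) (E : Finset ℕ) (β : P → Option ι) (n : ℕ) : ℝ :=
  TU w z r0 (E ∪ su P b β) n

end

section

variable {ι : Type} [Fintype ι] [DecidableEq ι]

/-- the function `Φ` of one window -/
noncomputable def PHT (z q0 k1 r0 : ℕ) (b : ι → ℕ) (n : ℕ) : ℝ :=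
  PhiG (PP z (z ^ k1)) b (y5 (PP z (z ^ k1)) z q0 k1) (TE (PP z (z ^ k1)) (wf z) z r0 b ∅) n

/-- its mean square -/
noncomputable def DT (z q0 k1 r0 : ℕ) (b : ι → ℕ) : ℝ :=
  dgG (PP z (z ^ k1)) (QS (wf z) z) (y5 (PP z (z ^ k1)) z q0 k1) (TE (PP z (z ^ k1)) (wf z) z r0 b ∅)

/-- the collapsed function of the position `i` -/
noncomputable def FT (z q0 k1 r0 : ℕ) (b : ι → ℕ) (i : ι) (n : ℕ) : ℝ :=
  PhiG (PP z (z ^ k1)) b (ys5 (PP z (z ^ k1)) z q0 k1 i) (TE (PP z (z ^ k1)) (wf z) z r0 b {b i}) n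

/-- its mean square -/
noncomputable def DFT (z q0 k1 r0 : ℕ) (b : ι → ℕ) (i : ι) : ℝ :=
  dgG (PP z (z ^ k1)) (QS (wf z) z) (ys5 (PP z (z ^ k1)) z q0 k1 i) (TE (PP z (z ^ k1)) (wf z) z r0 b {b i})

/-- the majorant of `Φ²` at the `n` with a rough position -/
noncomputable def YT (z q0 k1 r0 : ℕ) (b : ι → ℕ) (n : ℕ) : ℝ := ∑ i, FT z q0 k1 r0 b i n ^ 2

/-- its mean -/
noncomputable def DY (z q0 k1 r0 : ℕ) (b : ι → ℕ) : ℝ := ∑ i, DFT z q0 k1 r0 b i

/-- the majorant for the fourth powers: sum over the sets of at most `K'` positions -/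
noncomputable def TH (z r0 K' : ℕ) (b : ι → ℕ) (n : ℕ) : ℝ :=
  ∑ B ∈ (univ : Finset (Finset ι)).filter (fun B => B.card ≤ K'), TU (wf z) z r0 (B.image b) n ^ 4

/-- its mean -/
noncomputable def DTH (z r0 K' : ℕ) (b : ι → ℕ) : ℝ :=
  ∑ B ∈ (univ : Finset (Finset ι)).filter (fun B => B.card ≤ K'), RR (wf z) z r0 4 (B.image b)

end

end Pool.Agent.LibUF16
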