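import Mathlib

/-!
LibUF16: the two sided law of a block.
-/

open Finset

namespace Pool.Agent.LibUF16

/-- the sum of `f #U #U'` against the product law with the factors `l p` -/
noncomputable def SH (Q : Finset ℕ) (l : ℕ → Bool → Bool → ℝ) (f : ℕ → ℕ → ℝ) : ℝ :=
  ∑ U ∈ Q.powerset, ∑ U' ∈ Q.powerset, f U.card U'.card *
    ∏ p ∈ Q, l p (decide (p ∈ U)) (decide (p ∈ U'))

/-- the sum of `g #U` against the product law with the factors `a p` -/
noncomputable def SG (Q : Finset ℕ) (a : ℕ → Bool → ℝ) (g : ℕ → ℝ) : ℝ :=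
  ∑ U ∈ Q.powerset, g U.card * ∏ p ∈ Q, a p (decide (p ∈ U))

end Pool.Agent.LibUF16
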