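import Pool.Agent.LibUF16.N2

/-!
Row E1: the mean of a product of functions of coprime periods, and of the product over the blocks.
`mean_mul`: `LibLG5.crt_sum` (S1) with `f x y = F x * G y` (`Function.Periodic.map_mod_nat`). `prod_blocks_nat`: from `LibLG5.prod_blocks`
(`lt_JJ`) with `F p = p` after a cast to `ℝ`. `mean_blocks`: induction on `J ≤ JJ z` with the period `∏ j ∈ range J, ∏ p ∈ QB w z j, p`; the blocks
are disjoint sets of primes (`QB_disjoint`), so the periods are coprime (`Nat.Coprime.prod_left`, `Nat.coprime_primes`).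
-/

open Finset Filter

namespace Pool.Agent.LibUF16

open Pool.Agent.LibRG87 Pool.Agent.LibLG5

theorem mean_mul {Q₁ Q₂ : ℕ} (h1 : 0 < Q₁) (h2 : 0 < Q₂) (h : Nat.Coprime Q₁ Q₂) (F G : ℕ → ℝ)
    (hF : Function.Periodic F Q₁) (hG : Function.Periodic G Q₂) :
    mean (Q₁ * Q₂) (fun n => F n * G n) = mean Q₁ F * mean Q₂ G := by
  unfold mean
  have h3 : ∑ n ∈ range (Q₁ * Q₂), F n * G n = (∑ x ∈ range Q₁, F x) * ∑ y ∈ range Q₂, G y := by
    rw [Finset.sum_mul_sum]
    rw [← crt_sum Q₁ Q₂ h1 h2 h (fun x y => F x * G y)]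
    refine Finset.sum_congr rfl fun n _ => ?_
    rw [hF.map_mod_nat, hG.map_mod_nat]
  rw [h3]
  push_cast
  rw [mul_div_mul_comm]

theorem prod_blocks_nat (w z : ℕ) : QS w z = ∏ j ∈ range (JJ z), ∏ p ∈ QB w z j, p := by
  have h := prod_blocks w z (JJ z) (lt_JJ z) (fun p => (p : ℝ))
  have h2 : ((QS w z : ℕ) : ℝ) = ((∏ j ∈ range (JJ z), ∏ p ∈ QB w z j, p : ℕ) : ℝ) := by
    unfold QS
    push_cast
    exact h.symm
  exact Nat.cast_injective h2

private theorem E1_pos (w z j : ℕ) : 0 < ∏ p ∈ QB w z j, p := by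
  refine Finset.prod_pos fun p hp => ?_
  exact (mem_PPi.1 (QB_subset _ _ _ hp)).2.pos

private theorem E1_ind (w z : ℕ) (G : ℕ → ℕ → ℝ)
    (hG : ∀ j, Function.Periodic (G j) (∏ p ∈ QB w z j, p)) (J : ℕ) :
    mean (∏ j ∈ range J, ∏ p ∈ QB w z j, p) (fun n => ∏ j ∈ range J, G j n) =
      ∏ j ∈ range J, mean (∏ p ∈ QB w z j, p) (G j) := by
  induction J with
  | zero => simp [mean]
  | succ J ih =>
    rw [Finset.prod_range_succ, Finset.prod_range_succ, ← ih, ← mean_mul]
    · congr 1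
      funext n
      rw [Finset.prod_range_succ]
    · exact Finset.prod_pos fun j _ => E1_pos w z j
    · exact E1_pos w z J
    · refine Nat.Coprime.prod_left fun j hj => Nat.Coprime.prod_left fun p hp =>
        Nat.Coprime.prod_right fun q hq => ?_
      have hp' := (mem_PPi.1 (QB_subset _ _ _ hp)).2
      have hq' := (mem_PPi.1 (QB_subset _ _ _ hq)).2
      refine (Nat.coprime_primes hp' hq').2 ?_
      rintro rfl
      have hne : j ≠ J := by
        have := Finset.mem_range.1 hj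
        omega
      exact (Finset.disjoint_left.1 (QB_disjoint w z j J hne)) hp hq
    · intro n
      refine Finset.prod_congr rfl fun j hj => ?_
      obtain ⟨k, hk⟩ := Finset.dvd_prod_of_mem (fun j => ∏ p ∈ QB w z j, p) hj
      have h1 := (hG j).nat_mul k n
      rw [hk, mul_comm]
      simpa using h1
    · exact hG J

theorem mean_blocks (w z : ℕ) (G : ℕ → ℕ → ℝ)
    (hG : ∀ j, Function.Periodic (G j) (∏ p ∈ QB w z j, p)) :
    mean (QS w z) (fun n => ∏ j ∈ range (JJ z), G j n) =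
      ∏ j ∈ range (JJ z), mean (∏ p ∈ QB w z j, p) (G j) := by
  rw [prod_blocks_nat]
  exact E1_ind w z G hG (JJ z)

end Pool.Agent.LibUF16
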