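import Pool.Agent.LibUF16.T1

/-!
Row T2: pointwise facts on `NQ` and `TU`.
`TU_insert`: the set of the primes hit does not change. `TU_four`: `tau_four` in each block, with
`NQ (B i) ≤ NQ (⋃ B i) ≤ ∑ NQ (B i)`; the factors are nonnegative (`Finset.prod_le_prod`, `Finset.prod_comm`, `Finset.prod_pow`).
-/

open Finset Filter

namespace Pool.Agent.LibUF16

open Pool.Agent.LibRG87 Pool.Agent.LibLG5

theorem NQ_mono (P : Finset ℕ) {B B' : Finset ℕ} (h : B ⊆ B') (n : ℕ) :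
    NQ P B n ≤ NQ P B' n := by
  classical
  unfold NQ
  refine Finset.card_le_card fun p hp => ?_
  rw [Finset.mem_filter] at hp ⊢
  obtain ⟨hp1, a, ha, hpa⟩ := hp
  exact ⟨hp1, a, h ha, hpa⟩

theorem NQ_eq_zero {P B : Finset ℕ} {n : ℕ} : NQ P B n = 0 ↔ ∀ p ∈ P, ∀ a ∈ B, ¬ p ∣ n + a := by
  classical
  unfold NQ
  rw [Finset.card_eq_zero, Finset.filter_eq_empty_iff]
  constructor
  · intro h p hp a ha hpa
    exact h hp ⟨a, ha, hpa⟩
  · rintro h p hp ⟨a, ha, hpa⟩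
    exact h p hp a ha hpa

theorem NQ_biUnion_le (P : Finset ℕ) (B : Fin 4 → Finset ℕ) (n : ℕ) :
    NQ P (Finset.univ.biUnion B) n ≤ ∑ i, NQ P (B i) n := by
  classical
  unfold NQ
  refine le_trans (Finset.card_le_card ?_) (Finset.card_biUnion_le
    (s := (Finset.univ : Finset (Fin 4))) (t := fun i => P.filter fun p => ∃ a ∈ B i, p ∣ n + a))
  intro p hp
  rw [Finset.mem_filter] at hp
  obtain ⟨hp1, a, ha, hpa⟩ := hp
  obtain ⟨i, -, hi⟩ := Finset.mem_biUnion.1 ha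
  exact Finset.mem_biUnion.2 ⟨i, Finset.mem_univ i, Finset.mem_filter.2 ⟨hp1, a, hi, hpa⟩⟩

theorem TU_nonneg (w z r0 : ℕ) (B : Finset ℕ) (n : ℕ) : 0 ≤ TU w z r0 B n :=
  Finset.prod_nonneg fun _ _ => tau_nonneg _ _

theorem TU_empty (w z r0 n : ℕ) : TU w z r0 ∅ n = 1 := by
  refine Finset.prod_eq_one fun j _ => ?_
  rw [NQ_eq_zero.2 fun p _ a ha => absurd ha (Finset.notMem_empty a), tau_zero]

theorem TU_rough (w z r0 : ℕ) (B : Finset ℕ) (n : ℕ) (h : ∀ p ∈ PP w z, ∀ a ∈ B, ¬ p ∣ n + a) :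
    TU w z r0 B n = 1 := by
  refine Finset.prod_eq_one fun j _ => ?_
  rw [NQ_eq_zero.2 fun p hp a ha => h p (QB_subset w z j hp) a ha, tau_zero]

theorem TU_insert (w z r0 : ℕ) (B : Finset ℕ) (n x : ℕ) (h : ∀ p ∈ PP w z, ¬ p ∣ n + x) :
    TU w z r0 (insert x B) n = TU w z r0 B n := by
  classical
  refine Finset.prod_congr rfl fun j _ => ?_
  congr 1
  unfold NQ
  congr 1
  refine Finset.filter_congr fun p hp => ?_
  constructor
  · rintro ⟨a, ha, hpa⟩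
    rcases Finset.mem_insert.1 ha with rfl | ha
    · exact absurd hpa (h p (QB_subset w z j hp))
    · exact ⟨a, ha, hpa⟩
  · rintro ⟨a, ha, hpa⟩
    exact ⟨a, Finset.mem_insert_of_mem ha, hpa⟩

theorem TU_four (w z r0 : ℕ) (B : Fin 4 → Finset ℕ) (n : ℕ) :
    ∏ i, TU w z r0 (B i) n ≤ TU w z r0 (Finset.univ.biUnion B) n ^ 4 := by
  unfold TU
  rw [Finset.prod_comm, ← Finset.prod_pow]
  refine Finset.prod_le_prod (fun j _ => Finset.prod_nonneg fun i _ => tau_nonneg _ _) fun j _ => ?_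
  exact tau_four _ _ _ (fun i => NQ_mono _ (Finset.subset_biUnion_of_mem B (Finset.mem_univ i)) n)
    (NQ_biUnion_le _ B n)

end Pool.Agent.LibUF16
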