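import Pool.Agent.LibUF16.E0
import Pool.Agent.LibUF16.T2

/-!
Row E2: the law of `(NQ Q B, NQ Q B')` in a period.
`f (NQ Q B n) (NQ Q B' n) = ∑_U ∑_U' f #U #U' ∏_{p ∈ Q} [decide (hit B p n) = decide (p ∈ U) ∧ decide (hit B' p n) = decide (p ∈ U')]`: only
`U = {p ∈ Q | hit B p n}`, `U' = ...` gives a nonzero product. Each factor is `p`-periodic (as in `LibLG5.xp_periodic`), so the mean of the product over
`p ∈ Q` is the product of the means (`LibLG5.sum_prod_period`, S1; divide by `∏ p`). `lam_left`, `lam_right`: sum the indicators, `mean_xp`.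
`lam_both`: if no `a ∈ B` and `a' ∈ B'` are congruent mod `p`, both events never happen together; always `lam true true ≤ nuP B p / p ≤ k/p`.
-/

open Finset Filter

namespace Pool.Agent.LibUF16

open Pool.Agent.LibRG87 Pool.Agent.LibLG5

open scoped Classical in
/-- joint law of the events `∃ a ∈ B, p ∣ n + a` and `∃ a ∈ B', p ∣ n + a` -/
noncomputable def lam (B B' : Finset ℕ) (p : ℕ) (u u' : Bool) : ℝ :=
  mean p fun n => if decide (∃ a ∈ B, p ∣ n + a) = u ∧ decide (∃ a ∈ B', p ∣ n + a) = u' then 1 else 0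

/-- law of the event `∃ a ∈ B, p ∣ n + a` -/
noncomputable def lam1 (B : Finset ℕ) (p : ℕ) (u : Bool) : ℝ :=
  if u then (nuP B p : ℝ) / p else 1 - (nuP B p : ℝ) / p

theorem E2_hit_add (B : Finset ℕ) {p m : ℕ} (h : p ∣ m) (n : ℕ) :
    (∃ a ∈ B, p ∣ n + m + a) ↔ ∃ a ∈ B, p ∣ n + a := by
  constructor
  · rintro ⟨a, ha, h1⟩
    exact ⟨a, ha, (Nat.dvd_add_right h).1 (by rw [show m + (n + a) = n + m + a by ring]; exact h1)⟩
  · rintro ⟨a, ha, h1⟩
    exact ⟨a, ha, by rw [show n + m + a = m + (n + a) by ring]; exact (Nat.dvd_add_right h).2 h1⟩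

theorem E2_NQ_add (Q B : Finset ℕ) (n : ℕ) : NQ Q B (n + ∏ p ∈ Q, p) = NQ Q B n := by
  unfold NQ
  congr 1
  refine Finset.filter_congr fun p hp => ?_
  exact E2_hit_add B (Finset.dvd_prod_of_mem (fun p => p) hp) n

theorem NQ_periodic (Q B : Finset ℕ) (g : ℕ → ℝ) : Function.Periodic (fun n => g (NQ Q B n)) (∏ p ∈ Q, p) := by
  intro n
  show g (NQ Q B (n + ∏ p ∈ Q, p)) = g (NQ Q B n)
  rw [E2_NQ_add]

theorem NQ_periodic2 (Q B B' : Finset ℕ) (f : ℕ → ℕ → ℝ) :
    Function.Periodic (fun n => f (NQ Q B n) (NQ Q B' n)) (∏ p ∈ Q, p) := by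
  intro n
  show f (NQ Q B (n + ∏ p ∈ Q, p)) (NQ Q B' (n + ∏ p ∈ Q, p)) = f (NQ Q B n) (NQ Q B' n)
  rw [E2_NQ_add, E2_NQ_add]

open scoped Classical in
/-- the indicator of the event with prescribed outcome -/
noncomputable def E2_ind (B B' : Finset ℕ) (u u' : Bool) (p n : ℕ) : ℝ :=
  if decide (∃ a ∈ B, p ∣ n + a) = u ∧ decide (∃ a ∈ B', p ∣ n + a) = u' then 1 else 0

theorem E2_ind_periodic (B B' : Finset ℕ) (u u' : Bool) (p : ℕ) :
    Function.Periodic (E2_ind B B' u u' p) p := by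
  intro n
  unfold E2_ind
  simp only [E2_hit_add B (dvd_refl p) n, E2_hit_add B' (dvd_refl p) n]

theorem E2_lam (B B' : Finset ℕ) (p : ℕ) (u u' : Bool) :
    lam B B' p u u' = mean p (E2_ind B B' u u' p) := rfl

open scoped Classical in
/-- the indicator of the event with prescribed outcome, one set -/
noncomputable def E2_ind1 (B : Finset ℕ) (u : Bool) (p n : ℕ) : ℝ :=
  if decide (∃ a ∈ B, p ∣ n + a) = u then 1 else 0

theorem E2_ind1_periodic (B : Finset ℕ) (u : Bool) (p : ℕ) :
    Function.Periodic (E2_ind1 B u p) p := by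
  intro n
  unfold E2_ind1
  simp only [E2_hit_add B (dvd_refl p) n]

theorem E2_mean_prod (Q : Finset ℕ) (hQ : ∀ p ∈ Q, p.Prime) (g : ℕ → ℕ → ℝ)
    (hg : ∀ p ∈ Q, Function.Periodic (g p) p) :
    mean (∏ p ∈ Q, p) (fun n => ∏ p ∈ Q, g p n) = ∏ p ∈ Q, mean p (g p) := by
  unfold mean
  rw [sum_prod_period Q hQ g hg, Finset.prod_div_distrib]
  push_cast
  rfl

theorem E2_mean_sum {ι : Type} (s : Finset ι) (q : ℕ) (c : ι → ℝ) (g : ι → ℕ → ℝ) :
    mean q (fun n => ∑ i ∈ s, c i * g i n) = ∑ i ∈ s, c i * mean q (g i) := by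
  unfold mean
  rw [Finset.sum_comm, Finset.sum_div]
  refine Finset.sum_congr rfl fun i _ => ?_
  rw [← Finset.mul_sum, mul_div_assoc]

theorem mean_NQ2 (Q B B' : Finset ℕ) (hQ : ∀ p ∈ Q, p.Prime) (f : ℕ → ℕ → ℝ) :
    mean (∏ p ∈ Q, p) (fun n => f (NQ Q B n) (NQ Q B' n)) = SH Q (lam B B') f := by
  classical
  have h1 : ∀ n, f (NQ Q B n) (NQ Q B' n) = ∑ V ∈ Q.powerset ×ˢ Q.powerset, f V.1.card V.2.card *
      ∏ p ∈ Q, E2_ind B B' (decide (p ∈ V.1)) (decide (p ∈ V.2)) p n := by
    intro n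
    set A := Q.filter fun p => ∃ a ∈ B, p ∣ n + a with hA
    set A' := Q.filter fun p => ∃ a ∈ B', p ∣ n + a with hA'
    have e1 : NQ Q B n = A.card := by
      unfold NQ
      rw [hA]
    have e2 : NQ Q B' n = A'.card := by
      unfold NQ
      rw [hA']
    have h2 : ∀ V ∈ Q.powerset ×ˢ Q.powerset,
        ∏ p ∈ Q, E2_ind B B' (decide (p ∈ V.1)) (decide (p ∈ V.2)) p n =
          if V = (A, A') then 1 else 0 := by
      intro V hV
      obtain ⟨hV1, hV2⟩ := Finset.mem_product.1 hV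
      rw [Finset.mem_powerset] at hV1 hV2
      unfold E2_ind
      rw [Finset.prod_boole]
      have h3 : (∀ p ∈ Q, decide (∃ a ∈ B, p ∣ n + a) = decide (p ∈ V.1) ∧
          decide (∃ a ∈ B', p ∣ n + a) = decide (p ∈ V.2)) ↔ V = (A, A') := by
        simp only [decide_eq_decide]
        constructor
        · intro h
          refine Prod.ext ?_ ?_
          · ext p
            rw [hA, Finset.mem_filter]
            constructor
            · intro hp
              exact ⟨hV1 hp, (h p (hV1 hp)).1.2 hp⟩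
            · rintro ⟨hp, h4⟩
              exact (h p hp).1.1 h4
          · ext p
            rw [hA', Finset.mem_filter]
            constructor
            · intro hp
              exact ⟨hV2 hp, (h p (hV2 hp)).2.2 hp⟩
            · rintro ⟨hp, h4⟩
              exact (h p hp).2.1 h4
        · rintro rfl p hp
          simp only [hA, hA', Finset.mem_filter, hp, true_and]
      simp only [h3]
    rw [Finset.sum_congr rfl fun V hV => by rw [h2 V hV], Finset.sum_eq_single (A, A')]
    · rw [if_pos rfl, mul_one, e1, e2]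
    · intro V _ hne
      rw [if_neg hne, mul_zero]
    · intro h
      exact absurd (Finset.mem_product.2 ⟨Finset.mem_powerset.2 (Finset.filter_subset _ _),
        Finset.mem_powerset.2 (Finset.filter_subset _ _)⟩) h
  have h2 : (fun n => f (NQ Q B n) (NQ Q B' n)) = fun n => ∑ V ∈ Q.powerset ×ˢ Q.powerset,
      f V.1.card V.2.card *
      ∏ p ∈ Q, E2_ind B B' (decide (p ∈ V.1)) (decide (p ∈ V.2)) p n := funext h1
  rw [h2, E2_mean_sum (Q.powerset ×ˢ Q.powerset) _ (fun V => f V.1.card V.2.card)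
    (fun V n => ∏ p ∈ Q, E2_ind B B' (decide (p ∈ V.1)) (decide (p ∈ V.2)) p n)]
  unfold SH
  rw [Finset.sum_product]
  refine Finset.sum_congr rfl fun U _ => Finset.sum_congr rfl fun U' _ => ?_
  rw [E2_mean_prod Q hQ (fun p n => E2_ind B B' (decide (p ∈ U)) (decide (p ∈ U')) p n)
    fun p _ => E2_ind_periodic B B' _ _ p]
  rfl

theorem E2_mean_ind1 (B : Finset ℕ) (p : ℕ) (hp : 0 < p) (u : Bool) :
    mean p (E2_ind1 B u p) = lam1 B p u := by
  have hp0 : (p : ℝ) ≠ 0 := by exact_mod_cast hp.ne'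
  cases u with
  | true =>
    have h1 : E2_ind1 B true p = xp B p := by
      funext n
      unfold E2_ind1 xp
      by_cases h : ∃ a ∈ B, p ∣ n + a
      · simp only [h, decide_true, if_true]
      · simp only [h, decide_false, if_false]
        simp
    rw [h1, mean_xp B p hp]
    rfl
  | false =>
    have h1 : E2_ind1 B false p = fun n => 1 - xp B p n := by
      funext n
      unfold E2_ind1 xp
      by_cases h : ∃ a ∈ B, p ∣ n + a
      · simp only [h, decide_true, if_true]
        simp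
      · simp only [h, decide_false, if_false]
        simp
    have h2 : lam1 B p false = 1 - mean p (xp B p) := by
      rw [mean_xp B p hp]
      rfl
    rw [h1, h2]
    unfold mean
    rw [Finset.sum_sub_distrib, sub_div]
    simp [hp0]

theorem mean_NQ (Q B : Finset ℕ) (hQ : ∀ p ∈ Q, p.Prime) (g : ℕ → ℝ) :
    mean (∏ p ∈ Q, p) (fun n => g (NQ Q B n)) = SG Q (lam1 B) g := by
  classical
  have h1 : ∀ n, g (NQ Q B n) = ∑ V ∈ Q.powerset, g V.card *
      ∏ p ∈ Q, E2_ind1 B (decide (p ∈ V)) p n := by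
    intro n
    set A := Q.filter fun p => ∃ a ∈ B, p ∣ n + a with hA
    have e1 : NQ Q B n = A.card := by
      unfold NQ
      rw [hA]
    have h2 : ∀ V ∈ Q.powerset,
        ∏ p ∈ Q, E2_ind1 B (decide (p ∈ V)) p n = if V = A then 1 else 0 := by
      intro V hV
      rw [Finset.mem_powerset] at hV
      unfold E2_ind1
      rw [Finset.prod_boole]
      have h3 : (∀ p ∈ Q, decide (∃ a ∈ B, p ∣ n + a) = decide (p ∈ V)) ↔ V = A := by
        simp only [decide_eq_decide]
        constructor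
        · intro h
          ext p
          rw [hA, Finset.mem_filter]
          constructor
          · intro hp
            exact ⟨hV hp, (h p (hV hp)).2 hp⟩
          · rintro ⟨hp, h4⟩
            exact (h p hp).1 h4
        · rintro rfl p hp
          simp only [hA, Finset.mem_filter, hp, true_and]
      simp only [h3]
    rw [Finset.sum_congr rfl fun V hV => by rw [h2 V hV], Finset.sum_eq_single A]
    · rw [if_pos rfl, mul_one, e1]
    · intro V _ hne
      rw [if_neg hne, mul_zero]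
    · intro h
      exact absurd (Finset.mem_powerset.2 (Finset.filter_subset _ _)) h
  have h2 : (fun n => g (NQ Q B n)) = fun n => ∑ V ∈ Q.powerset, g V.card *
      ∏ p ∈ Q, E2_ind1 B (decide (p ∈ V)) p n := funext h1
  rw [h2, E2_mean_sum Q.powerset _ (fun V => g V.card)
    (fun V n => ∏ p ∈ Q, E2_ind1 B (decide (p ∈ V)) p n)]
  unfold SG
  refine Finset.sum_congr rfl fun U _ => ?_
  rw [E2_mean_prod Q hQ (fun p n => E2_ind1 B (decide (p ∈ U)) p n)
    fun p _ => E2_ind1_periodic B _ p]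
  congr 1
  exact Finset.prod_congr rfl fun p hp => E2_mean_ind1 B p (hQ p hp).pos _

theorem lam_nonneg (B B' : Finset ℕ) (p : ℕ) (u u' : Bool) : 0 ≤ lam B B' p u u' := by
  rw [E2_lam]
  unfold mean
  refine div_nonneg (Finset.sum_nonneg fun n _ => ?_) (Nat.cast_nonneg p)
  unfold E2_ind
  split_ifs <;> norm_num

theorem lam_total (B B' : Finset ℕ) (p : ℕ) (hp : 0 < p) :
    lam B B' p false false + lam B B' p true false + lam B B' p false true + lam B B' p true true = 1 := by
  have hp0 : (p : ℝ) ≠ 0 := by exact_mod_cast hp.ne'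
  simp only [E2_lam]
  unfold mean
  rw [← add_div, ← add_div, ← add_div, ← Finset.sum_add_distrib, ← Finset.sum_add_distrib,
    ← Finset.sum_add_distrib]
  have h : ∀ n ∈ range p, E2_ind B B' false false p n + E2_ind B B' true false p n +
      E2_ind B B' false true p n + E2_ind B B' true true p n = 1 := by
    intro n _
    unfold E2_ind
    by_cases h1 : ∃ a ∈ B, p ∣ n + a <;> by_cases h2 : ∃ a ∈ B', p ∣ n + a <;> simp [h1, h2]
  rw [Finset.sum_congr rfl h]
  simp [hp0]

theorem lam_left (B B' : Finset ℕ) (p : ℕ) (hp : 0 < p) :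
    lam B B' p true false + lam B B' p true true = (nuP B p : ℝ) / p := by
  rw [← mean_xp B p hp]
  simp only [E2_lam]
  unfold mean
  rw [← add_div, ← Finset.sum_add_distrib]
  congr 1
  refine Finset.sum_congr rfl fun n _ => ?_
  unfold E2_ind xp
  by_cases h1 : ∃ a ∈ B, p ∣ n + a <;> by_cases h2 : ∃ a ∈ B', p ∣ n + a <;> simp [h1, h2]

theorem lam_right (B B' : Finset ℕ) (p : ℕ) (hp : 0 < p) :
    lam B B' p false true + lam B B' p true true = (nuP B' p : ℝ) / p := by
  rw [← mean_xp B' p hp]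
  simp only [E2_lam]
  unfold mean
  rw [← add_div, ← Finset.sum_add_distrib]
  congr 1
  refine Finset.sum_congr rfl fun n _ => ?_
  unfold E2_ind xp
  by_cases h1 : ∃ a ∈ B, p ∣ n + a <;> by_cases h2 : ∃ a ∈ B', p ∣ n + a <;> simp [h1, h2]

theorem lam_both_le (B B' : Finset ℕ) (p k : ℕ) (hp : 0 < p) (hB : B.card ≤ k) :
    lam B B' p true true ≤ (k : ℝ) / p := by
  have h1 := lam_left B B' p hp
  have h2 := lam_nonneg B B' p true false
  have h3 : (nuP B p : ℝ) ≤ k := by exact_mod_cast (nuP_le B p).trans hB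
  have h4 : (nuP B p : ℝ) / p ≤ (k : ℝ) / p := div_le_div_of_nonneg_right h3 (Nat.cast_nonneg p)
  linarith

theorem lam_both_eq_zero (B B' : Finset ℕ) (p : ℕ)
    (h : ¬ ∃ a ∈ B, ∃ a' ∈ B', a % p = a' % p) : lam B B' p true true = 0 := by
  rw [E2_lam]
  unfold mean
  rw [Finset.sum_eq_zero, zero_div]
  intro n _
  unfold E2_ind
  rw [if_neg]
  rintro ⟨h1, h2⟩
  rw [decide_eq_true_eq] at h1 h2
  obtain ⟨a, ha, h3⟩ := h1
  obtain ⟨a', ha', h4⟩ := h2
  refine h ⟨a, ha, a', ha', ?_⟩
  have h5 : n + a ≡ n + a' [MOD p] :=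
    ((Nat.modEq_zero_iff_dvd).2 h3).trans ((Nat.modEq_zero_iff_dvd).2 h4).symm
  exact Nat.ModEq.add_left_cancel' n h5

end Pool.Agent.LibUF16
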