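import Pool.Agent.LibUF16.E0

/-!
Row E3 (ONLY MATHLIB): product laws. `SH_insert`: `Finset.sum_powerset_insert` twice (the sets `U`, `insert p U` with `p ∉ U`), `Finset.prod_insert`; for `U ⊆ Q`
and `q ∈ Q` the membership in `insert p U` is the membership in `U` because `q ≠ p`. `SH_le`: induction on `Q` for all `c, f`.
`SH_hybrid`: induction on `Q`, for all `c ≥ 0` and all `f` with `0 ≤ f n m ≤ c Λ^(n+m)`: by `SH_insert`, with `f_{uu'} n m = f (n+u) (m+u') ≤ c Λ^(u+u') Λ^(n+m)`,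
`SH (insert p Q) l f = ∑ l p u u' SH Q l f_{uu'} ≤ ∑ l p u u' SH Q π f_{uu'} + G p * c (1+Λ)² (∑_Q κ) ∏_Q G` (induction hypothesis), and
`∑ l p u u' SH Q π f_{uu'} ≤ ∑ π p u u' SH Q π f_{uu'} + κ p ∑_{uu'} c Λ^(u+u') ∏_Q G` (`SH_le` for `π`), `∑_{uu'} Λ^(u+u') = (1+Λ)²`, `1 ≤ G p`.
`SH_prod`: the double sum factors. `SG_prod`: `∑_U Λ^#U ∏ a = ∏ (a p false + Λ a p true)` (`Finset.prod_add` or induction, `SG_insert`).
-/

open Finset

namespace Pool.Agent.LibUF16

theorem E3_prod (Q : Finset ℕ) (p : ℕ) (hp : p ∉ Q) (l : ℕ → Bool → Bool → ℝ)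
    (U U' V V' : Finset ℕ) (hV : ∀ q ∈ Q, (q ∈ V ↔ q ∈ U)) (hV' : ∀ q ∈ Q, (q ∈ V' ↔ q ∈ U')) :
    ∏ q ∈ insert p Q, l q (decide (q ∈ V)) (decide (q ∈ V')) =
      l p (decide (p ∈ V)) (decide (p ∈ V')) *
        ∏ q ∈ Q, l q (decide (q ∈ U)) (decide (q ∈ U')) := by
  rw [Finset.prod_insert hp]
  congr 1
  refine Finset.prod_congr rfl fun q hq => ?_
  rw [decide_eq_decide.2 (hV q hq), decide_eq_decide.2 (hV' q hq)]

theorem E3_mem (Q : Finset ℕ) (p : ℕ) (hp : p ∉ Q) (U : Finset ℕ) :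
    ∀ q ∈ Q, (q ∈ insert p U ↔ q ∈ U) := by
  intro q hq
  rw [Finset.mem_insert]
  constructor
  · rintro (rfl | h)
    · exact absurd hq hp
    · exact h
  · exact Or.inr

theorem SH_insert (Q : Finset ℕ) (p : ℕ) (hp : p ∉ Q) (l : ℕ → Bool → Bool → ℝ) (f : ℕ → ℕ → ℝ) :
    SH (insert p Q) l f = l p false false * SH Q l f + l p true false * SH Q l (fun n m => f (n + 1) m) +
      l p false true * SH Q l (fun n m => f n (m + 1)) +
      l p true true * SH Q l (fun n m => f (n + 1) (m + 1)) := by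
  have hpU : ∀ U ∈ Q.powerset, p ∉ U := fun U hU h => hp (Finset.mem_powerset.1 hU h)
  have hself : ∀ (U : Finset ℕ), ∀ q ∈ Q, (q ∈ U ↔ q ∈ U) := fun _ _ _ => Iff.rfl
  have h1 : SH (insert p Q) l f = ∑ U ∈ Q.powerset, ∑ U' ∈ Q.powerset,
      (l p false false * (f U.card U'.card *
          ∏ q ∈ Q, l q (decide (q ∈ U)) (decide (q ∈ U'))) +
        l p false true * (f U.card (U'.card + 1) *
          ∏ q ∈ Q, l q (decide (q ∈ U)) (decide (q ∈ U'))) +
        l p true false * (f (U.card + 1) U'.card *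
          ∏ q ∈ Q, l q (decide (q ∈ U)) (decide (q ∈ U'))) +
        l p true true * (f (U.card + 1) (U'.card + 1) *
          ∏ q ∈ Q, l q (decide (q ∈ U)) (decide (q ∈ U')))) := by
    unfold SH
    rw [Finset.sum_powerset_insert hp, ← Finset.sum_add_distrib]
    refine Finset.sum_congr rfl fun U hU => ?_
    rw [Finset.sum_powerset_insert hp, Finset.sum_powerset_insert hp, ← Finset.sum_add_distrib,
      ← Finset.sum_add_distrib, ← Finset.sum_add_distrib]
    refine Finset.sum_congr rfl fun U' hU' => ?_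
    have hU1 := hpU U hU
    have hU2 := hpU U' hU'
    rw [E3_prod Q p hp l U U' U U' (hself U) (hself U'),
      E3_prod Q p hp l U U' U (insert p U') (hself U) (E3_mem Q p hp U'),
      E3_prod Q p hp l U U' (insert p U) U' (E3_mem Q p hp U) (hself U'),
      E3_prod Q p hp l U U' (insert p U) (insert p U') (E3_mem Q p hp U) (E3_mem Q p hp U'),
      Finset.card_insert_of_notMem hU1, Finset.card_insert_of_notMem hU2,
      decide_eq_false hU1, decide_eq_false hU2, decide_eq_true (Finset.mem_insert_self p U),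
      decide_eq_true (Finset.mem_insert_self p U')]
    ring
  rw [h1]
  unfold SH
  simp only [Finset.sum_add_distrib, Finset.mul_sum]
  ring

theorem SH_nonneg (Q : Finset ℕ) (l : ℕ → Bool → Bool → ℝ) (f : ℕ → ℕ → ℝ)
    (hl : ∀ p ∈ Q, ∀ u u', 0 ≤ l p u u') (hf : ∀ n m, 0 ≤ f n m) : 0 ≤ SH Q l f := by
  unfold SH
  exact Finset.sum_nonneg fun U _ => Finset.sum_nonneg fun U' _ =>
    mul_nonneg (hf _ _) (Finset.prod_nonneg fun p hp => hl p hp _ _)

theorem E3_empty (l : ℕ → Bool → Bool → ℝ) (f : ℕ → ℕ → ℝ) : SH ∅ l f = f 0 0 := by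
  unfold SH
  rw [Finset.powerset_empty, Finset.sum_singleton, Finset.sum_singleton, Finset.prod_empty,
    Finset.card_empty, mul_one]

theorem SH_le (Q : Finset ℕ) (l : ℕ → Bool → Bool → ℝ) (f : ℕ → ℕ → ℝ) {c Λ : ℝ} (hc : 0 ≤ c)
    (hΛ : 0 ≤ Λ) (hl : ∀ p ∈ Q, ∀ u u', 0 ≤ l p u u') (hf : ∀ n m, f n m ≤ c * Λ ^ (n + m))
    (G : ℕ → ℝ) (hG : ∀ p ∈ Q, l p false false + Λ * (l p true false + l p false true) +
      Λ ^ 2 * l p true true ≤ G p) : SH Q l f ≤ c * ∏ p ∈ Q, G p := by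
  induction Q using Finset.induction_on generalizing c f with
  | empty =>
    rw [E3_empty, Finset.prod_empty, mul_one]
    have := hf 0 0
    rwa [add_zero, pow_zero, mul_one] at this
  | insert p Q hp ih =>
    have hl' : ∀ q ∈ Q, ∀ u u', 0 ≤ l q u u' := fun q hq => hl q (Finset.mem_insert_of_mem hq)
    have hG' : ∀ q ∈ Q, l q false false + Λ * (l q true false + l q false true) +
      Λ ^ 2 * l q true true ≤ G q := fun q hq => hG q (Finset.mem_insert_of_mem hq)
    have hlp := hl p (Finset.mem_insert_self p Q)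
    have hGp := hG p (Finset.mem_insert_self p Q)
    have hG0 : ∀ q ∈ Q, 0 ≤ G q := by
      intro q hq
      refine le_trans ?_ (hG' q hq)
      have h1 := hl' q hq
      have := h1 false false
      have := h1 true false
      have := h1 false true
      have := h1 true true
      positivity
    have hP : 0 ≤ ∏ q ∈ Q, G q := Finset.prod_nonneg hG0
    have i1 := ih f hc hl' hf hG'
    have i2 := ih (fun n m => f (n + 1) m) (c := c * Λ) (by positivity) hl' (fun n m => by
      refine (hf (n + 1) m).trans (le_of_eq ?_)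
      ring) hG'
    have i3 := ih (fun n m => f n (m + 1)) (c := c * Λ) (by positivity) hl' (fun n m => by
      refine (hf n (m + 1)).trans (le_of_eq ?_)
      ring) hG'
    have i4 := ih (fun n m => f (n + 1) (m + 1)) (c := c * Λ ^ 2) (by positivity) hl' (fun n m => by
      refine (hf (n + 1) (m + 1)).trans (le_of_eq ?_)
      ring) hG'
    rw [SH_insert Q p hp, Finset.prod_insert hp]
    have j1 := mul_le_mul_of_nonneg_left i1 (hlp false false)
    have j2 := mul_le_mul_of_nonneg_left i2 (hlp true false)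
    have j3 := mul_le_mul_of_nonneg_left i3 (hlp false true)
    have j4 := mul_le_mul_of_nonneg_left i4 (hlp true true)
    have j5 := mul_le_mul_of_nonneg_right hGp (mul_nonneg hc hP)
    linarith

theorem SH_hybrid (Q : Finset ℕ) (l π : ℕ → Bool → Bool → ℝ) (f : ℕ → ℕ → ℝ) {c Λ : ℝ} (hc : 0 ≤ c)
    (hΛ : 0 ≤ Λ) (hl : ∀ p ∈ Q, ∀ u u', 0 ≤ l p u u') (hπ : ∀ p ∈ Q, ∀ u u', 0 ≤ π p u u')
    (hf0 : ∀ n m, 0 ≤ f n m) (hf : ∀ n m, f n m ≤ c * Λ ^ (n + m)) (G κ : ℕ → ℝ)
    (hG1 : ∀ p ∈ Q, 1 ≤ G p) (hκ0 : ∀ p ∈ Q, 0 ≤ κ p)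
    (hκ : ∀ p ∈ Q, ∀ u u', |l p u u' - π p u u'| ≤ κ p)
    (hG : ∀ p ∈ Q, l p false false + Λ * (l p true false + l p false true) +
      Λ ^ 2 * l p true true ≤ G p)
    (hG' : ∀ p ∈ Q, π p false false + Λ * (π p true false + π p false true) +
      Λ ^ 2 * π p true true ≤ G p) :
    SH Q l f ≤ SH Q π f + c * (1 + Λ) ^ 2 * (∑ p ∈ Q, κ p) * ∏ p ∈ Q, G p := by
  induction Q using Finset.induction_on generalizing c f with
  | empty =>
    rw [E3_empty, E3_empty, Finset.sum_empty, mul_zero, zero_mul, add_zero]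
  | insert p Q hp ih =>
    have hm : ∀ q ∈ Q, q ∈ insert p Q := fun q hq => Finset.mem_insert_of_mem hq
    have hs := Finset.mem_insert_self p Q
    have hlp := hl p hs
    have hπp := hπ p hs
    have hκp := hκ p hs
    have hκp0 := hκ0 p hs
    have hGp1 := hG1 p hs
    have hP : 0 ≤ ∏ q ∈ Q, G q := Finset.prod_nonneg fun q hq => zero_le_one.trans (hG1 q (hm q hq))
    have hK : 0 ≤ ∑ q ∈ Q, κ q := Finset.sum_nonneg fun q hq => hκ0 q (hm q hq)
    have IH : ∀ (f : ℕ → ℕ → ℝ) (c : ℝ), 0 ≤ c → (∀ n m, 0 ≤ f n m) →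
        (∀ n m, f n m ≤ c * Λ ^ (n + m)) →
        SH Q l f ≤ SH Q π f + c * (1 + Λ) ^ 2 * (∑ p ∈ Q, κ p) * ∏ p ∈ Q, G p ∧
          SH Q π f ≤ c * ∏ p ∈ Q, G p ∧ 0 ≤ SH Q π f := by
      intro f c hc hf0 hf
      exact ⟨ih f hc (fun q hq => hl q (hm q hq)) (fun q hq => hπ q (hm q hq)) hf0 hf
        (fun q hq => hG1 q (hm q hq)) (fun q hq => hκ0 q (hm q hq)) (fun q hq => hκ q (hm q hq))
        (fun q hq => hG q (hm q hq)) (fun q hq => hG' q (hm q hq)),
        SH_le Q π f hc hΛ (fun q hq => hπ q (hm q hq)) hf G (fun q hq => hG' q (hm q hq)),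
        SH_nonneg Q π f (fun q hq => hπ q (hm q hq)) hf0⟩
    obtain ⟨a1, b1, c1⟩ := IH f c hc hf0 hf
    obtain ⟨a2, b2, c2⟩ := IH (fun n m => f (n + 1) m) (c * Λ) (by positivity)
      (fun n m => hf0 _ _) (fun n m => by
        refine (hf (n + 1) m).trans (le_of_eq ?_)
        ring)
    obtain ⟨a3, b3, c3⟩ := IH (fun n m => f n (m + 1)) (c * Λ) (by positivity)
      (fun n m => hf0 _ _) (fun n m => by
        refine (hf n (m + 1)).trans (le_of_eq ?_)
        ring)
    obtain ⟨a4, b4, c4⟩ := IH (fun n m => f (n + 1) (m + 1)) (c * Λ ^ 2) (by positivity)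
      (fun n m => hf0 _ _) (fun n m => by
        refine (hf (n + 1) (m + 1)).trans (le_of_eq ?_)
        ring)
    rw [SH_insert Q p hp, SH_insert Q p hp, Finset.prod_insert hp, Finset.sum_insert hp]
    set P := ∏ q ∈ Q, G q with hPdef
    set Ks := ∑ q ∈ Q, κ q with hKdef
    -- the replacement in the coordinates of Q
    have j1 := mul_le_mul_of_nonneg_left a1 (hlp false false)
    have j2 := mul_le_mul_of_nonneg_left a2 (hlp true false)
    have j3 := mul_le_mul_of_nonneg_left a3 (hlp false true)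
    have j4 := mul_le_mul_of_nonneg_left a4 (hlp true true)
    have hE : 0 ≤ c * (1 + Λ) ^ 2 * Ks * P := by positivity
    have j5 := mul_le_mul_of_nonneg_right (hG p hs) hE
    -- the replacement in the coordinate p
    have k0 : ∀ u u' (x : ℝ), 0 ≤ x → l p u u' * x ≤ π p u u' * x + κ p * x := by
      intro u u' x hx
      have h1 := (le_abs_self _).trans (hκp u u')
      have h2 := mul_le_mul_of_nonneg_right h1 hx
      linarith
    have k1 := k0 false false _ c1
    have k2 := k0 true false _ c2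
    have k3 := k0 false true _ c3
    have k4 := k0 true true _ c4
    have m1 := mul_le_mul_of_nonneg_left b1 hκp0
    have m2 := mul_le_mul_of_nonneg_left b2 hκp0
    have m3 := mul_le_mul_of_nonneg_left b3 hκp0
    have m4 := mul_le_mul_of_nonneg_left b4 hκp0
    have hF : 0 ≤ κ p * (c * (1 + Λ) ^ 2 * P) := by positivity
    have m5 := mul_le_mul_of_nonneg_left hGp1 hF
    linarith

theorem SH_prod (Q : Finset ℕ) (a b : ℕ → Bool → ℝ) (g h : ℕ → ℝ) :
    SH Q (fun p u u' => a p u * b p u') (fun n m => g n * h m) = SG Q a g * SG Q b h := by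
  unfold SH SG
  rw [Finset.sum_mul_sum]
  refine Finset.sum_congr rfl fun U _ => Finset.sum_congr rfl fun U' _ => ?_
  rw [Finset.prod_mul_distrib]
  ring

theorem SG_mono (Q : Finset ℕ) (a : ℕ → Bool → ℝ) (g h : ℕ → ℝ) (ha : ∀ p ∈ Q, ∀ u, 0 ≤ a p u)
    (hgh : ∀ n, g n ≤ h n) : SG Q a g ≤ SG Q a h := by
  unfold SG
  exact Finset.sum_le_sum fun U _ => mul_le_mul_of_nonneg_right (hgh _)
    (Finset.prod_nonneg fun p hp => ha p hp _)

theorem E3_SG_insert (Q : Finset ℕ) (p : ℕ) (hp : p ∉ Q) (a : ℕ → Bool → ℝ) (g : ℕ → ℝ) :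
    SG (insert p Q) a g = a p false * SG Q a g + a p true * SG Q a (fun n => g (n + 1)) := by
  unfold SG
  rw [Finset.sum_powerset_insert hp, Finset.mul_sum, Finset.mul_sum]
  congr 1
  · refine Finset.sum_congr rfl fun U hU => ?_
    have hU1 : p ∉ U := fun h => hp (Finset.mem_powerset.1 hU h)
    rw [Finset.prod_insert hp, decide_eq_false hU1]
    ring
  · refine Finset.sum_congr rfl fun U hU => ?_
    have hU1 : p ∉ U := fun h => hp (Finset.mem_powerset.1 hU h)
    rw [Finset.prod_insert hp, decide_eq_true (Finset.mem_insert_self p U),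
      Finset.card_insert_of_notMem hU1]
    have h1 : ∏ q ∈ Q, a q (decide (q ∈ insert p U)) = ∏ q ∈ Q, a q (decide (q ∈ U)) := by
      refine Finset.prod_congr rfl fun q hq => ?_
      rw [decide_eq_decide.2 (E3_mem Q p hp U q hq)]
    rw [h1]
    ring

theorem SG_pow (Q : Finset ℕ) (a : ℕ → Bool → ℝ) (Λ : ℝ) :
    SG Q a (fun n => Λ ^ n) = ∏ p ∈ Q, (a p false + Λ * a p true) := by
  induction Q using Finset.induction_on with
  | empty =>
    unfold SG
    rw [Finset.powerset_empty, Finset.sum_singleton, Finset.prod_empty, Finset.prod_empty,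
      Finset.card_empty]
    beta_reduce
    rw [pow_zero, mul_one]
  | insert p Q hp ih =>
    rw [E3_SG_insert Q p hp, Finset.prod_insert hp, ← ih]
    have h1 : SG Q a (fun n => Λ ^ (n + 1)) = Λ * SG Q a (fun n => Λ ^ n) := by
      unfold SG
      rw [Finset.mul_sum]
      refine Finset.sum_congr rfl fun U _ => ?_
      ring
    rw [h1]
    ring

theorem SG_zero (Q : Finset ℕ) (a : ℕ → Bool → ℝ) :
    SG Q a (fun n => if n = 0 then 1 else 0) = ∏ p ∈ Q, a p false := by
  unfold SG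
  rw [Finset.sum_eq_single ∅]
  · rw [Finset.card_empty]
    beta_reduce
    rw [if_pos rfl, one_mul]
    refine Finset.prod_congr rfl fun q _ => ?_
    rw [decide_eq_false (Finset.notMem_empty q)]
  · intro U _ hU
    beta_reduce
    rw [if_neg (fun h => hU (Finset.card_eq_zero.1 h)), zero_mul]
  · intro h
    exact absurd (Finset.empty_mem_powerset Q) h

end Pool.Agent.LibUF16
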