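import Pool.Agent.LibUF16.E2
import Pool.Agent.LibUF16.E3

/-!
Row E4: decorrelation in one block.
-/

open Finset Filter

namespace Pool.Agent.LibUF16

open Pool.Agent.LibRG87 Pool.Agent.LibLG5

theorem E4_nu_le (B : Finset ℕ) (p k : ℕ) (hB : B.card ≤ k) : (nuP B p : ℝ) / p ≤ (k : ℝ) / p := by
  apply div_le_div_of_nonneg_right _ (Nat.cast_nonneg p)
  have h1 : nuP B p ≤ k := (card_image_le).trans hB
  exact_mod_cast h1

theorem E4_nu_nonneg (B : Finset ℕ) (p : ℕ) : 0 ≤ (nuP B p : ℝ) / p := by positivity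

theorem E4_mean_ge (Q B : Finset ℕ) (k : ℕ) (hB : B.card ≤ k)
    (hQ : ∀ p ∈ Q, p.Prime ∧ 2 * k ≤ p) {C0 : ℝ} (hC0 : ∑ p ∈ Q, (1 : ℝ) / p ≤ C0) (g : ℕ → ℝ)
    (hg0 : g 0 = 1) (hg : ∀ n, 0 ≤ g n) :
    Real.exp (-(2 * k * C0)) ≤ mean (∏ p ∈ Q, p) (fun n => g (NQ Q B n)) := by
  have hx : ∀ p ∈ Q, 0 ≤ (nuP B p : ℝ) / p ∧ (nuP B p : ℝ) / p ≤ 1 / 2 := by
    intro p hp
    refine ⟨E4_nu_nonneg B p, (E4_nu_le B p k hB).trans ?_⟩
    have hp0 : (0 : ℝ) < p := by exact_mod_cast (hQ p hp).1.pos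
    have h2 : (2 : ℝ) * k ≤ p := by exact_mod_cast (hQ p hp).2
    rw [div_le_div_iff₀ hp0 (by norm_num)]
    linarith
  rw [mean_NQ Q B (fun p hp => (hQ p hp).1) g]
  have h1 : SG Q (lam1 B) (fun n => if n = 0 then 1 else 0) ≤ SG Q (lam1 B) g := by
    apply SG_mono
    · intro p hp u
      unfold lam1
      split_ifs
      · exact (hx p hp).1
      · linarith [(hx p hp).2]
    · intro n
      split_ifs with h
      · rw [h, hg0]
      · exact hg n
  refine le_trans ?_ h1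
  rw [SG_zero]
  have h2 : ∏ p ∈ Q, lam1 B p false = ∏ p ∈ Q, (1 - (nuP B p : ℝ) / p) := by
    refine prod_congr rfl fun p _ => ?_
    unfold lam1
    simp
  rw [h2]
  refine le_trans (Real.exp_le_exp.2 ?_) (prod_ge Q (fun p => (nuP B p : ℝ) / p) hx)
  have h3 : ∑ p ∈ Q, (nuP B p : ℝ) / p ≤ k * C0 := by
    calc ∑ p ∈ Q, (nuP B p : ℝ) / p ≤ ∑ p ∈ Q, (k : ℝ) * (1 / p) := by
          refine sum_le_sum fun p _ => ?_
          refine (E4_nu_le B p k hB).trans (le_of_eq ?_)
          ring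
      _ = k * ∑ p ∈ Q, (1 : ℝ) / p := (mul_sum _ _ _).symm
      _ ≤ k * C0 := mul_le_mul_of_nonneg_left hC0 (Nat.cast_nonneg k)
  linarith

open scoped Classical in
theorem block_dec (Q B B' : Finset ℕ) (k : ℕ) (hB : B.card ≤ k) (hB' : B'.card ≤ k)
    (hQ : ∀ p ∈ Q, p.Prime ∧ 2 * k ≤ p) {C0 : ℝ} (hC0 : ∑ p ∈ Q, (1 : ℝ) / p ≤ C0) (g : ℕ → ℝ) {Λ : ℝ}
    (hΛ : 1 ≤ Λ) (hg0 : g 0 = 1) (hg : ∀ n, 0 ≤ g n ∧ g n ≤ Λ ^ n) :
    mean (∏ p ∈ Q, p) (fun n => g (NQ Q B n) * g (NQ Q B' n)) ≤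
      (1 + (1 + Λ) ^ 2 * Real.exp ((2 * k * Λ ^ 2 + 4 * k) * C0) *
        ∑ p ∈ Q, ((k : ℝ) ^ 2 / p ^ 2 +
          if ∃ a ∈ B, ∃ a' ∈ B', a % p = a' % p then (k : ℝ) / p else 0)) *
        (mean (∏ p ∈ Q, p) (fun n => g (NQ Q B n)) * mean (∏ p ∈ Q, p) (fun n => g (NQ Q B' n))) := by
  have hpos : ∀ p ∈ Q, (0 : ℝ) < p := fun p hp => by exact_mod_cast (hQ p hp).1.pos
  have hhalf : ∀ p ∈ Q, (k : ℝ) / p ≤ 1 / 2 := by
    intro p hp
    have h2 : (2 : ℝ) * k ≤ p := by exact_mod_cast (hQ p hp).2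
    rw [div_le_div_iff₀ (hpos p hp) (by norm_num)]
    linarith
  have hl1 : ∀ (A : Finset ℕ), A.card ≤ k → ∀ p ∈ Q, ∀ u, 0 ≤ lam1 A p u := by
    intro A hA p hp u
    have h1 := E4_nu_nonneg A p
    have h2 := E4_nu_le A p k hA
    have h3 := hhalf p hp
    unfold lam1
    split_ifs
    · exact h1
    · linarith
  have hΛ0 : 0 ≤ Λ := by linarith
  have hΛ2 : Λ ≤ Λ ^ 2 := by nlinarith
  have hΛ21 : 1 ≤ Λ ^ 2 := by nlinarith
  have hκ0 : ∀ p ∈ Q, (0 : ℝ) ≤ (k : ℝ) ^ 2 / p ^ 2 +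
      if ∃ a ∈ B, ∃ a' ∈ B', a % p = a' % p then (k : ℝ) / p else 0 := by
    intro p _
    have h1 : (0 : ℝ) ≤ (k : ℝ) / p := by positivity
    have h2 : (0 : ℝ) ≤ (k : ℝ) ^ 2 / p ^ 2 := by positivity
    split_ifs <;> linarith
  have hyb := SH_hybrid Q (lam B B') (fun p u u' => lam1 B p u * lam1 B' p u')
    (fun n m => g n * g m) (c := 1) (Λ := Λ) zero_le_one hΛ0
    (fun p _ u u' => lam_nonneg B B' p u u')
    (fun p hp u u' => mul_nonneg (hl1 B hB p hp u) (hl1 B' hB' p hp u'))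
    (fun n m => mul_nonneg (hg n).1 (hg m).1)
    (fun n m => by
      rw [one_mul, pow_add]
      exact mul_le_mul (hg n).2 (hg m).2 (hg m).1 (pow_nonneg hΛ0 _))
    (fun p => Real.exp (2 * k * Λ ^ 2 / p))
    (fun p => (k : ℝ) ^ 2 / p ^ 2 +
          if ∃ a ∈ B, ∃ a' ∈ B', a % p = a' % p then (k : ℝ) / p else 0)
    (fun p _ => Real.one_le_exp (by positivity)) hκ0
    (fun p hp u u' => by
      have hp0 : 0 < p := (hQ p hp).1.pos
      have ht0 := lam_nonneg B B' p true true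
      have htk := lam_both_le B B' p k hp0 hB
      have e1 := lam_left B B' p hp0
      have e2 := lam_right B B' p hp0
      have e3 := lam_total B B' p hp0
      have hx0 := E4_nu_nonneg B p
      have hx0' := E4_nu_nonneg B' p
      have hxk := E4_nu_le B p k hB
      have hxk' := E4_nu_le B' p k hB'
      have hxx0 : 0 ≤ (nuP B p : ℝ) / p * ((nuP B' p : ℝ) / p) := mul_nonneg hx0 hx0'
      have hxx : (nuP B p : ℝ) / p * ((nuP B' p : ℝ) / p) ≤ (k : ℝ) ^ 2 / p ^ 2 := by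
        refine (mul_le_mul hxk hxk' hx0' (hx0.trans hxk)).trans (le_of_eq ?_)
        rw [div_mul_div_comm, ← sq, ← sq]
      have hmain : |lam B B' p true true - (nuP B p : ℝ) / p * ((nuP B' p : ℝ) / p)| ≤
          (k : ℝ) ^ 2 / p ^ 2 +
            if ∃ a ∈ B, ∃ a' ∈ B', a % p = a' % p then (k : ℝ) / p else 0 := by
        split_ifs with hcol
        · rw [abs_le]
          constructor <;> linarith
        · rw [lam_both_eq_zero B B' p hcol, zero_sub, abs_neg, abs_of_nonneg hxx0]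
          linarith
      have hL1t : lam1 B p true = (nuP B p : ℝ) / p := by
        unfold lam1
        rw [if_pos rfl]
      have hL1f : lam1 B p false = 1 - (nuP B p : ℝ) / p := by
        unfold lam1
        simp
      have hL2t : lam1 B' p true = (nuP B' p : ℝ) / p := by
        unfold lam1
        rw [if_pos rfl]
      have hL2f : lam1 B' p false = 1 - (nuP B' p : ℝ) / p := by
        unfold lam1
        simp
      rcases u with _ | _ <;> rcases u' with _ | _
      · have h1 : lam B B' p false false - lam1 B p false * lam1 B' p false =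
            lam B B' p true true - (nuP B p : ℝ) / p * ((nuP B' p : ℝ) / p) := by
          rw [hL1f, hL2f]
          linear_combination e3 - e1 - e2
        rw [h1]
        exact hmain
      · have h1 : lam B B' p false true - lam1 B p false * lam1 B' p true =
            -(lam B B' p true true - (nuP B p : ℝ) / p * ((nuP B' p : ℝ) / p)) := by
          rw [hL1f, hL2t]
          linear_combination e2
        rw [h1, abs_neg]
        exact hmain
      · have h1 : lam B B' p true false - lam1 B p true * lam1 B' p false =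
            -(lam B B' p true true - (nuP B p : ℝ) / p * ((nuP B' p : ℝ) / p)) := by
          rw [hL1t, hL2f]
          linear_combination e1
        rw [h1, abs_neg]
        exact hmain
      · rw [hL1t, hL2t]
        exact hmain)
    (fun p hp => by
      have hp0 : 0 < p := (hQ p hp).1.pos
      have ht := lam_nonneg B B' p true true
      have htf := lam_nonneg B B' p true false
      have hft := lam_nonneg B B' p false true
      have e1 := lam_left B B' p hp0
      have e2 := lam_right B B' p hp0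
      have e3 := lam_total B B' p hp0
      have hxk := E4_nu_le B p k hB
      have hxk' := E4_nu_le B' p k hB'
      have h1 : Λ * (lam B B' p true false + lam B B' p false true) ≤
          Λ ^ 2 * (lam B B' p true false + lam B B' p false true) :=
        mul_le_mul_of_nonneg_right hΛ2 (by linarith)
      have h2 : Λ ^ 2 * (lam B B' p true false + lam B B' p false true + lam B B' p true true) ≤
          Λ ^ 2 * (2 * (k / p)) := mul_le_mul_of_nonneg_left (by linarith) (by positivity)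
      have h3 : 2 * (k : ℝ) * Λ ^ 2 / p = Λ ^ 2 * (2 * (k / p)) := by ring
      refine le_trans ?_ (Real.add_one_le_exp _)
      rw [h3]
      linarith)
    (fun p hp => by
      have hx0 := E4_nu_nonneg B p
      have hx0' := E4_nu_nonneg B' p
      have hxk := E4_nu_le B p k hB
      have hxk' := E4_nu_le B' p k hB'
      have hh := hhalf p hp
      have hL1t : lam1 B p true = (nuP B p : ℝ) / p := by
        unfold lam1
        rw [if_pos rfl]
      have hL1f : lam1 B p false = 1 - (nuP B p : ℝ) / p := by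
        unfold lam1
        simp
      have hL2t : lam1 B' p true = (nuP B' p : ℝ) / p := by
        unfold lam1
        rw [if_pos rfl]
      have hL2f : lam1 B' p false = 1 - (nuP B' p : ℝ) / p := by
        unfold lam1
        simp
      rw [hL1t, hL1f, hL2t, hL2f]
      generalize (nuP B p : ℝ) / p = x at *
      generalize (nuP B' p : ℝ) / p = x' at *
      have h3 : 2 * (k : ℝ) * Λ ^ 2 / p = Λ ^ 2 * (2 * (k / p)) := by ring
      refine le_trans ?_ (Real.add_one_le_exp _)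
      rw [h3]
      have hxx : 0 ≤ x * x' := mul_nonneg hx0 hx0'
      have h5 : 0 ≤ x * (1 - x') := mul_nonneg hx0 (by linarith)
      have h6 : 0 ≤ (1 - x) * x' := mul_nonneg (by linarith) hx0'
      have h1 : Λ * (x * (1 - x') + (1 - x) * x') ≤ Λ ^ 2 * (x * (1 - x') + (1 - x) * x') :=
        mul_le_mul_of_nonneg_right hΛ2 (by linarith)
      have h2 : Λ ^ 2 * (x * (1 - x') + (1 - x) * x' + x * x') ≤ Λ ^ 2 * (2 * (k / p)) :=
        mul_le_mul_of_nonneg_left (by nlinarith) (by positivity)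
      have h4 : (1 - x) * (1 - x') ≤ 1 := by nlinarith
      linarith)
  have hmean2 := mean_NQ2 Q B B' (fun p hp => (hQ p hp).1) (fun n m => g n * g m)
  rw [hmean2]
  have hprod := SH_prod Q (lam1 B) (lam1 B') g g
  rw [hprod, ← mean_NQ Q B (fun p hp => (hQ p hp).1) g,
    ← mean_NQ Q B' (fun p hp => (hQ p hp).1) g, one_mul] at hyb
  refine hyb.trans ?_
  have hM1 := E4_mean_ge Q B k hB hQ hC0 g hg0 (fun n => (hg n).1)
  have hM2 := E4_mean_ge Q B' k hB' hQ hC0 g hg0 (fun n => (hg n).1)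
  set M1 := mean (∏ p ∈ Q, p) (fun n => g (NQ Q B n)) with hM1d
  set M2 := mean (∏ p ∈ Q, p) (fun n => g (NQ Q B' n)) with hM2d
  set Sk := ∑ p ∈ Q, ((k : ℝ) ^ 2 / p ^ 2 +
          if ∃ a ∈ B, ∃ a' ∈ B', a % p = a' % p then (k : ℝ) / p else 0) with hSk
  have hSk0 : 0 ≤ Sk := sum_nonneg hκ0
  have hMM : Real.exp (-(4 * k * C0)) ≤ M1 * M2 := by
    have h1 : Real.exp (-(4 * k * C0)) = Real.exp (-(2 * k * C0)) * Real.exp (-(2 * k * C0)) := by
      rw [← Real.exp_add]
      congr 1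
      ring
    rw [h1]
    exact mul_le_mul hM1 hM2 (Real.exp_pos _).le ((Real.exp_pos _).le.trans hM1)
  have hone : 1 ≤ Real.exp (4 * k * C0) * (M1 * M2) := by
    have h1 : Real.exp (4 * k * C0) * Real.exp (-(4 * k * C0)) = 1 := by
      rw [← Real.exp_add, add_neg_cancel, Real.exp_zero]
    calc (1 : ℝ) = Real.exp (4 * k * C0) * Real.exp (-(4 * k * C0)) := h1.symm
      _ ≤ _ := mul_le_mul_of_nonneg_left hMM (Real.exp_pos _).le
  have hG : ∏ p ∈ Q, Real.exp (2 * k * Λ ^ 2 / p) ≤ Real.exp (2 * k * Λ ^ 2 * C0) := by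
    rw [← Real.exp_sum]
    apply Real.exp_le_exp.2
    have h1 : ∑ p ∈ Q, 2 * (k : ℝ) * Λ ^ 2 / p = 2 * k * Λ ^ 2 * ∑ p ∈ Q, (1 : ℝ) / p := by
      rw [mul_sum]
      refine sum_congr rfl fun p _ => ?_
      ring
    rw [h1]
    exact mul_le_mul_of_nonneg_left hC0 (by positivity)
  have hexp : Real.exp ((2 * k * Λ ^ 2 + 4 * k) * C0) =
      Real.exp (2 * k * Λ ^ 2 * C0) * Real.exp (4 * k * C0) := by
    rw [← Real.exp_add]
    congr 1
    ring
  have hcoef : 0 ≤ (1 + Λ) ^ 2 * Sk := mul_nonneg (sq_nonneg _) hSk0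
  calc M1 * M2 + (1 + Λ) ^ 2 * Sk * ∏ p ∈ Q, Real.exp (2 * k * Λ ^ 2 / p)
      ≤ M1 * M2 + (1 + Λ) ^ 2 * Sk * (Real.exp (2 * k * Λ ^ 2 * C0) * 1) := by
        rw [mul_one]
        linarith [mul_le_mul_of_nonneg_left hG hcoef]
    _ ≤ M1 * M2 + (1 + Λ) ^ 2 * Sk * (Real.exp (2 * k * Λ ^ 2 * C0) *
        (Real.exp (4 * k * C0) * (M1 * M2))) := by
        have h1 := mul_le_mul_of_nonneg_left hone (Real.exp_pos (2 * k * Λ ^ 2 * C0)).le
        linarith [mul_le_mul_of_nonneg_left h1 hcoef]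
    _ = _ := by
        rw [hexp]
        ring

end Pool.Agent.LibUF16
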