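import Pool.Agent.LibUF16.E2
import Pool.Agent.LibUF16.E3

/-!
Row E5: first moment in one block. `mean_NQ` (E2): the mean is `SG Q (lam1 B) g`. Lower bound: `[n = 0] ≤ g n` (`SG_mono`, `SG_zero`; `lam1 ≥ 0` as
`nuP B p ≤ k ≤ p`). Upper bound: `g n ≤ [n = 0] + A^(-(2r+1)) (A Λ)^n` for all `n` (`n = 0`; `1 ≤ n ≤ 2r`: `g n = 0`; `n ≥ 2r+1`: `Λ^n ≤ A^(-(2r+1)) A^n Λ^n`), and
`SG Q a (fun n => (A Λ)^n) = ∏ (1 - x + A Λ x) ≤ exp (A Λ ∑ x) ≤ exp (A Λ k C0)`, `x = nuP B p/p ≤ k/p` (`SG_pow`). Finally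
`1 ≤ exp (2 k C0) ∏ (1 - x)` (`LibLG5.prod_ge` or `one_sub_ge`, S4; `x ≤ 1/2`).
-/

open Finset Filter

namespace Pool.Agent.LibUF16

open Pool.Agent.LibRG87 Pool.Agent.LibLG5

theorem E5_SG_lin (Q : Finset ℕ) (a : ℕ → Bool → ℝ) (f h : ℕ → ℝ) (c : ℝ) :
    SG Q a (fun n => f n + c * h n) = SG Q a f + c * SG Q a h := by
  unfold SG
  rw [Finset.mul_sum, ← Finset.sum_add_distrib]
  exact Finset.sum_congr rfl (fun U _ => by ring)

theorem E5_lam1 (B : Finset ℕ) (k p : ℕ) (hB : B.card ≤ k) (hp : p.Prime ∧ 2 * k ≤ p) :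
    0 ≤ (nuP B p : ℝ) / p ∧ (nuP B p : ℝ) / p ≤ k * (1 / p) ∧ (nuP B p : ℝ) / p ≤ 1 / 2 := by
  have hp0 : (0 : ℝ) < p := by exact_mod_cast hp.1.pos
  have h1 : (nuP B p : ℝ) ≤ k := by exact_mod_cast (nuP_le B p).trans hB
  have h2 : (2 : ℝ) * k ≤ p := by exact_mod_cast hp.2
  refine ⟨by positivity, ?_, ?_⟩
  · rw [mul_one_div]
    exact div_le_div_of_nonneg_right h1 hp0.le
  · rw [div_le_iff₀ hp0]
    linarith

theorem E5_bound (g : ℕ → ℝ) (r : ℕ) {Λ A : ℝ}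
    (hΛ : 1 ≤ Λ) (hA : 1 ≤ A) (hg0 : g 0 = 1) (hg : ∀ n, 0 ≤ g n ∧ g n ≤ Λ ^ n)
    (hgr : ∀ n, 1 ≤ n → n ≤ 2 * r → g n = 0) (n : ℕ) :
    g n ≤ (if n = 0 then 1 else 0) + (A ^ (2 * r + 1))⁻¹ * (A * Λ) ^ n := by
  have hA0 : 0 < A := by linarith
  have hΛ0 : 0 < Λ := by linarith
  rcases Nat.eq_zero_or_pos n with rfl | hn
  · rw [if_pos rfl, hg0]
    have : 0 ≤ (A ^ (2 * r + 1))⁻¹ * (A * Λ) ^ 0 := by positivity
    linarith
  · rw [if_neg (by omega)]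
    rcases le_or_gt n (2 * r) with h | h
    · rw [hgr n hn h]
      have : 0 ≤ (A ^ (2 * r + 1))⁻¹ * (A * Λ) ^ n := by positivity
      linarith
    · rw [zero_add, mul_pow, ← mul_assoc]
      have h1 : 1 ≤ (A ^ (2 * r + 1))⁻¹ * A ^ n := by
        rw [inv_mul_eq_div, one_le_div (by positivity)]
        exact pow_le_pow_right₀ hA (by omega)
      calc g n ≤ Λ ^ n := (hg n).2
        _ = 1 * Λ ^ n := (one_mul _).symm
        _ ≤ _ := mul_le_mul_of_nonneg_right h1 (by positivity)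

/-- first moment in one block; `g` vanishes on `[1, 2 r]` -/
theorem block_mean (Q B : Finset ℕ) (k r : ℕ) (hB : B.card ≤ k)
    (hQ : ∀ p ∈ Q, p.Prime ∧ 2 * k ≤ p) {C0 : ℝ} (hC0 : ∑ p ∈ Q, (1 : ℝ) / p ≤ C0) (g : ℕ → ℝ) {Λ A : ℝ}
    (hΛ : 1 ≤ Λ) (hA : 1 ≤ A) (hg0 : g 0 = 1) (hg : ∀ n, 0 ≤ g n ∧ g n ≤ Λ ^ n)
    (hgr : ∀ n, 1 ≤ n → n ≤ 2 * r → g n = 0) :
    ∏ p ∈ Q, (1 - (nuP B p : ℝ) / p) ≤ mean (∏ p ∈ Q, p) (fun n => g (NQ Q B n)) ∧
      mean (∏ p ∈ Q, p) (fun n => g (NQ Q B n)) ≤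
        (1 + (A ^ (2 * r + 1))⁻¹ * Real.exp ((A * Λ + 2) * k * C0)) *
          ∏ p ∈ Q, (1 - (nuP B p : ℝ) / p) := by
  have hx : ∀ p ∈ Q, 0 ≤ (nuP B p : ℝ) / p ∧ (nuP B p : ℝ) / p ≤ k * (1 / p) ∧
      (nuP B p : ℝ) / p ≤ 1 / 2 := fun p hp => E5_lam1 B k p hB (hQ p hp)
  have hlam : ∀ p ∈ Q, ∀ u, 0 ≤ lam1 B p u := by
    intro p hp u
    have := hx p hp
    cases u with
    | false =>
      simp only [lam1, Bool.false_eq_true, if_false]
      linarith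
    | true =>
      simp only [lam1, if_true]
      exact this.1
  have hfalse : ∀ p, lam1 B p false = 1 - (nuP B p : ℝ) / p := by
    intro p
    simp [lam1]
  have htrue : ∀ p, lam1 B p true = (nuP B p : ℝ) / p := by
    intro p
    simp [lam1]
  have hzero : SG Q (lam1 B) (fun n => if n = 0 then 1 else 0) =
      ∏ p ∈ Q, (1 - (nuP B p : ℝ) / p) := by
    rw [SG_zero]
    exact Finset.prod_congr rfl (fun p _ => hfalse p)
  have hA0 : 0 < A := by linarith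
  have hΛ0 : 0 < Λ := by linarith
  rw [mean_NQ Q B (fun p hp => (hQ p hp).1) g]
  constructor
  · rw [← hzero]
    refine SG_mono Q (lam1 B) _ _ hlam (fun n => ?_)
    rcases Nat.eq_zero_or_pos n with rfl | hn
    · rw [if_pos rfl, hg0]
    · rw [if_neg (by omega)]
      exact (hg n).1
  · have hup : SG Q (lam1 B) g ≤ SG Q (lam1 B)
        (fun n => (if n = 0 then 1 else 0) + (A ^ (2 * r + 1))⁻¹ * (A * Λ) ^ n) :=
      SG_mono Q (lam1 B) _ _ hlam (fun n => E5_bound g r hΛ hA hg0 hg hgr n)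
    rw [E5_SG_lin, hzero, SG_pow] at hup
    have hsum : ∑ p ∈ Q, (nuP B p : ℝ) / p ≤ k * C0 := by
      calc ∑ p ∈ Q, (nuP B p : ℝ) / p ≤ ∑ p ∈ Q, k * (1 / (p : ℝ)) :=
            Finset.sum_le_sum (fun p hp => (hx p hp).2.1)
        _ = k * ∑ p ∈ Q, 1 / (p : ℝ) := by rw [Finset.mul_sum]
        _ ≤ k * C0 := mul_le_mul_of_nonneg_left hC0 (Nat.cast_nonneg _)
    have hprod1 : ∏ p ∈ Q, (lam1 B p false + A * Λ * lam1 B p true) ≤
        Real.exp (A * Λ * (k * C0)) := by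
      calc ∏ p ∈ Q, (lam1 B p false + A * Λ * lam1 B p true)
          ≤ ∏ p ∈ Q, Real.exp (A * Λ * ((nuP B p : ℝ) / p)) := by
            refine Finset.prod_le_prod (fun p hp => ?_) (fun p hp => ?_)
            · have h1 := hlam p hp false
              have h2 := hlam p hp true
              positivity
            · rw [hfalse, htrue]
              have h1 := Real.add_one_le_exp (A * Λ * ((nuP B p : ℝ) / p))
              have h2 := (hx p hp).1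
              linarith
        _ = Real.exp (A * Λ * ∑ p ∈ Q, (nuP B p : ℝ) / p) := by
            rw [← Real.exp_sum, Finset.mul_sum]
        _ ≤ _ := Real.exp_le_exp.mpr (mul_le_mul_of_nonneg_left hsum (by positivity))
    have hprod2 : Real.exp (-(2 * (k * C0))) ≤ ∏ p ∈ Q, (1 - (nuP B p : ℝ) / p) := by
      refine le_trans (Real.exp_le_exp.mpr ?_) (prod_ge Q (fun p => (nuP B p : ℝ) / p)
        (fun p hp => ⟨(hx p hp).1, (hx p hp).2.2⟩))
      linarith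
    have hprod3 : Real.exp (A * Λ * (k * C0)) ≤ Real.exp ((A * Λ + 2) * k * C0) *
        ∏ p ∈ Q, (1 - (nuP B p : ℝ) / p) := by
      calc Real.exp (A * Λ * (k * C0)) =
          Real.exp ((A * Λ + 2) * k * C0) * Real.exp (-(2 * (k * C0))) := by
            rw [← Real.exp_add]
            congr 1
            ring
        _ ≤ _ := mul_le_mul_of_nonneg_left hprod2 (Real.exp_pos _).le
    calc SG Q (lam1 B) g ≤ _ := hup
      _ ≤ ∏ p ∈ Q, (1 - (nuP B p : ℝ) / p) + (A ^ (2 * r + 1))⁻¹ *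
          (Real.exp ((A * Λ + 2) * k * C0) * ∏ p ∈ Q, (1 - (nuP B p : ℝ) / p)) := by
          have := mul_le_mul_of_nonneg_left (hprod1.trans hprod3)
            (show (0 : ℝ) ≤ (A ^ (2 * r + 1))⁻¹ by positivity)
          linarith
      _ = _ := by ring

end Pool.Agent.LibUF16
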