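import Pool.Agent.LibUF16.E1
import Pool.Agent.LibUF16.E4
import Pool.Agent.LibUF16.T2
import Pool.Agent.LibLG5.S6

/-!
Row E6: decorrelation of the products over all blocks. `mean_blocks` for `G j n = tau (r0+j) (NQ ..)^e * tau (r0+j) (NQ ..)^e` and for the two factors
(`NQ_periodic`, `NQ_periodic2`), `block_dec` in each block with `k = K + 1`, `g N = tau (r0+j) N ^ e`, `Λ = 2^e` (`tau_le`, `tau_zero`, `tau_nonneg`),
`C0` from `LibLG5.block_sum` (S3), the primes of `QB` are `> w ≥ 2 k` eventually (`wf_tendsto`); `∏ (1 + a_j) ≤ exp (∑ a_j)`; the sum over the blocks is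
the sum over `PP w z` (`LibLG5.prod_blocks` is for products: use `Finset.sum_biUnion`/`exists_block`, or the inequality `∑_j ∑_{QB j} ≤ ∑_{PP w z}` from
`QB_disjoint`, `QB_subset`, nonnegative terms); `∑_{p > w} k²/p² ≤ 2 k²/w` (`sum_Ioo_inv_sq_le`); the collision terms: at most `K² log(log² z)/log w` primes
(`LibLG5.card_Col`, S6, with `N = log² z`), each `k/p ≤ k/w`, `log log z ≤ 4 w + 4` (`loglog_le`), so everything tends to `0` as `w = wf z → ∞`
(compare the proof of `LibLG5.VV_union'`). Finally `exp x ≤ 1 + δ` for small `x`.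
-/

open Finset Filter

namespace Pool.Agent.LibUF16

open Pool.Agent.LibRG87 Pool.Agent.LibLG5

theorem RR_nonneg (w z r0 e : ℕ) (B : Finset ℕ) : 0 ≤ RR w z r0 e B := by
  unfold RR mean
  exact div_nonneg (Finset.sum_nonneg fun n _ => pow_nonneg (TU_nonneg _ _ _ _ _) _) (Nat.cast_nonneg _)

theorem TU_periodic (w z r0 : ℕ) (B : Finset ℕ) : Function.Periodic (TU w z r0 B) (QS w z) := by
  intro n
  unfold TU
  refine Finset.prod_congr rfl fun j hj => ?_
  have hdvd : (∏ p ∈ QB w z j, p) ∣ QS w z := by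
    rw [prod_blocks_nat]
    exact Finset.dvd_prod_of_mem _ hj
  obtain ⟨m, hm⟩ := hdvd
  have h := (NQ_periodic (QB w z j) B (tau (r0 + j))).nsmul m
  rw [smul_eq_mul, mul_comm, ← hm] at h
  exact h n

private theorem E6_RR (w z r0 e : ℕ) (B : Finset ℕ) : RR w z r0 e B =
    ∏ j ∈ range (JJ z), mean (∏ p ∈ QB w z j, p) (fun n => tau (r0 + j) (NQ (QB w z j) B n) ^ e) := by
  unfold RR
  rw [← mean_blocks w z (fun j n => tau (r0 + j) (NQ (QB w z j) B n) ^ e)
    (fun j => NQ_periodic (QB w z j) B (fun N => tau (r0 + j) N ^ e))]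
  congr 1
  funext n
  unfold TU
  rw [Finset.prod_pow]

private theorem E6_RR2 (w z r0 e : ℕ) (B B' : Finset ℕ) :
    mean (QS w z) (fun n => TU w z r0 B n ^ e * TU w z r0 B' n ^ e) =
    ∏ j ∈ range (JJ z), mean (∏ p ∈ QB w z j, p)
      (fun n => tau (r0 + j) (NQ (QB w z j) B n) ^ e * tau (r0 + j) (NQ (QB w z j) B' n) ^ e) := by
  rw [← mean_blocks w z (fun j n => tau (r0 + j) (NQ (QB w z j) B n) ^ e * tau (r0 + j) (NQ (QB w z j) B' n) ^ e)
    (fun j => NQ_periodic2 (QB w z j) B B' (fun N N' => tau (r0 + j) N ^ e * tau (r0 + j) N' ^ e))]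
  congr 1
  funext n
  unfold TU
  rw [← Finset.prod_pow, ← Finset.prod_pow, Finset.prod_mul_distrib]

private theorem E6_sum_blocks (w z : ℕ) (f : ℕ → ℝ) :
    ∑ j ∈ range (JJ z), ∑ p ∈ QB w z j, f p = ∑ p ∈ PP w z, f p := by
  have h := prod_blocks w z (JJ z) (lt_JJ z) (fun p => Real.exp (f p))
  simp_rw [← Real.exp_sum] at h
  exact Real.exp_injective h

private theorem E6_sq (w z K : ℕ) : ∑ p ∈ PP w z, (K : ℝ) ^ 2 / (p : ℝ) ^ 2 ≤ (K : ℝ) ^ 2 * (2 / (w + 1)) := by
  have h1 : ∑ p ∈ PP w z, (K : ℝ) ^ 2 / (p : ℝ) ^ 2 = (K : ℝ) ^ 2 * ∑ p ∈ PP w z, ((p : ℝ) ^ 2)⁻¹ := by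
    rw [Finset.mul_sum]
    rfl
  rw [h1]
  refine mul_le_mul_of_nonneg_left ?_ (by positivity)
  refine le_trans ?_ (sum_Ioo_inv_sq_le w (z + 1))
  refine Finset.sum_le_sum_of_subset_of_nonneg ?_ fun i _ _ => by positivity
  intro p hp
  obtain ⟨⟨h2, h3⟩, -⟩ := mem_PPi.1 hp
  exact Finset.mem_Ioo.2 ⟨h2, by omega⟩

private theorem E6_col (w z K : ℕ) (B B' : Finset ℕ) (hw : 1 ≤ w) :
    ∑ p ∈ PP w z, (if p ∈ Col w z B B' then (K : ℝ) / p else 0) ≤ (Col w z B B').card * ((K : ℝ) / w) := by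
  rw [← Finset.sum_filter]
  have h1 : (PP w z).filter (fun p => p ∈ Col w z B B') = Col w z B B' := by
    ext p
    rw [Finset.mem_filter]
    constructor
    · intro h
      exact h.2
    · intro h
      exact ⟨(Finset.mem_filter.1 h).1, h⟩
  rw [h1, ← nsmul_eq_mul]
  refine Finset.sum_le_card_nsmul _ _ _ fun p hp => ?_
  obtain ⟨⟨h2, -⟩, -⟩ := mem_PPi.1 (Finset.mem_filter.1 hp).1
  have h3 : (w : ℝ) ≤ p := by exact_mod_cast h2.le
  have h4 : (0 : ℝ) < w := by exact_mod_cast hw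
  exact div_le_div_of_nonneg_left (Nat.cast_nonneg _) h4 h3

theorem RR_dec (K e : ℕ) {δ : ℝ} (hδ : 0 < δ) : ∀ᶠ z : ℕ in atTop, ∀ (r0 : ℕ) (B B' : Finset ℕ),
    B.card ≤ K → B'.card ≤ K → Disjoint B B' → (∀ a ∈ B ∪ B', (a : ℝ) ≤ Real.log z ^ 2) →
      mean (QS (wf z) z) (fun n => TU (wf z) z r0 B n ^ e * TU (wf z) z r0 B' n ^ e) ≤
        (1 + δ) * (RR (wf z) z r0 e B * RR (wf z) z r0 e B') := by
  obtain ⟨C0, hC1, hC0⟩ := block_sum
  set Λ : ℝ := 2 ^ e with hΛ
  have hΛ1 : 1 ≤ Λ := one_le_pow₀ (by norm_num)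
  set E : ℝ := (1 + Λ) ^ 2 * Real.exp ((2 * K * Λ ^ 2 + 4 * K) * C0) with hE
  have hE0 : 0 < E := by positivity
  have hlogw : Tendsto (fun z : ℕ => Real.log (wf z : ℝ)) atTop atTop :=
    Real.tendsto_log_atTop.comp (tendsto_natCast_atTop_atTop.comp wf_tendsto')
  have hld : 0 < Real.log (1 + δ) := Real.log_pos (by linarith)
  filter_upwards [hlogw.eventually_ge_atTop (E * (2 * (K : ℝ) ^ 2 + 16 * (K : ℝ) ^ 3) / Real.log (1 + δ)),
    wf_tendsto'.eventually_ge_atTop (2 * K + 2), eventually_ge_atTop 4] with z h1 h2 hz4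
  intro r0 B B' hB hB' hd hN
  set w := wf z with hw
  have hw2 : 2 ≤ w := by omega
  have hwR : (2 : ℝ) ≤ w := by exact_mod_cast hw2
  have hlw : 0 < Real.log w := Real.log_pos (by linarith)
  have hlz1 : 1 ≤ Real.log z := by
    have h3 : Real.exp 1 ≤ z := by
      have h4 : (4 : ℝ) ≤ z := by exact_mod_cast hz4
      have := Real.exp_one_lt_d9
      linarith
    calc (1 : ℝ) = Real.log (Real.exp 1) := (Real.log_exp 1).symm
      _ ≤ Real.log z := Real.log_le_log (Real.exp_pos _) h3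
  have hcol := card_Col w z K B B' hB hB' hd (Real.log z ^ 2) (one_le_pow₀ hlz1) hN hw2
  have hll := loglog_le z hz4
  rw [← hw] at hll
  rw [Real.log_pow] at hcol
  push_cast at hcol
  have hK0 : (0 : ℝ) ≤ K := Nat.cast_nonneg _
  set f : ℕ → ℝ := fun p => (K : ℝ) ^ 2 / (p : ℝ) ^ 2 + (if p ∈ Col w z B B' then (K : ℝ) / p else 0) with hf
  have hf0 : ∀ p, 0 ≤ f p := by
    intro p
    simp only [hf]
    split_ifs <;> positivity
  have hfsum : ∑ p ∈ PP w z, f p ≤ (2 * (K : ℝ) ^ 2 + 16 * (K : ℝ) ^ 3) / Real.log w := by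
    simp only [hf]
    rw [Finset.sum_add_distrib]
    have a1 := E6_sq w z K
    have a2 := E6_col w z K B B' (by omega)
    have a3 : (Col w z B B').card * ((K : ℝ) / w) ≤ 16 * (K : ℝ) ^ 3 / Real.log w := by
      have h4 : ((Col w z B B').card : ℝ) ≤ K ^ 2 * (2 * (4 * w + 4)) / Real.log w := by
        rw [le_div_iff₀ hlw]
        refine hcol.trans ?_
        refine mul_le_mul_of_nonneg_left ?_ (by positivity)
        linarith
      calc ((Col w z B B').card : ℝ) * ((K : ℝ) / w)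
          ≤ (K ^ 2 * (2 * (4 * w + 4)) / Real.log w) * ((K : ℝ) / w) :=
            mul_le_mul_of_nonneg_right h4 (by positivity)
        _ = (K : ℝ) ^ 3 * (8 * (w + 1) / w) / Real.log w := by
            field_simp
            ring
        _ ≤ (K : ℝ) ^ 3 * 16 / Real.log w := by
            refine div_le_div_of_nonneg_right ?_ hlw.le
            refine mul_le_mul_of_nonneg_left ?_ (by positivity)
            rw [div_le_iff₀ (by linarith)]
            linarith
        _ = _ := by ring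
    have a4 : (K : ℝ) ^ 2 * (2 / (w + 1)) ≤ 2 * (K : ℝ) ^ 2 / Real.log w := by
      have h5 : Real.log w ≤ w + 1 := by
        have := Real.log_le_sub_one_of_pos (show (0 : ℝ) < w by linarith)
        linarith
      calc (K : ℝ) ^ 2 * (2 / (w + 1)) = 2 * (K : ℝ) ^ 2 / (w + 1) := by ring
        _ ≤ _ := div_le_div_of_nonneg_left (by positivity) hlw h5
    calc _ ≤ 2 * (K : ℝ) ^ 2 / Real.log w + 16 * (K : ℝ) ^ 3 / Real.log w :=
          add_le_add (a1.trans a4) (a2.trans a3)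
      _ = _ := by ring
  set a : ℕ → ℝ := fun j => E * ∑ p ∈ QB w z j, f p with ha
  have ha0 : ∀ j, 0 ≤ a j := fun j => mul_nonneg hE0.le (Finset.sum_nonneg fun p _ => hf0 p)
  have hprod : ∏ j ∈ range (JJ z), (1 + a j) ≤ 1 + δ := by
    have b1 : ∏ j ∈ range (JJ z), (1 + a j) ≤ Real.exp (∑ j ∈ range (JJ z), a j) := by
      rw [Real.exp_sum]
      refine Finset.prod_le_prod (fun j _ => by have := ha0 j; positivity) fun j _ => ?_
      rw [add_comm]
      exact Real.add_one_le_exp _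
    refine b1.trans ?_
    rw [← Real.log_le_log_iff (Real.exp_pos _) (by linarith), Real.log_exp]
    simp only [ha]
    rw [← Finset.mul_sum, E6_sum_blocks]
    calc E * ∑ p ∈ PP w z, f p ≤ E * ((2 * (K : ℝ) ^ 2 + 16 * (K : ℝ) ^ 3) / Real.log w) :=
          mul_le_mul_of_nonneg_left hfsum hE0.le
      _ ≤ Real.log (1 + δ) := by
          rw [← mul_div_assoc, div_le_iff₀ hlw]
          rw [div_le_iff₀ hld] at h1
          linarith
  have hblock : ∀ j, mean (∏ p ∈ QB w z j, p)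
      (fun n => tau (r0 + j) (NQ (QB w z j) B n) ^ e * tau (r0 + j) (NQ (QB w z j) B' n) ^ e) ≤
      (1 + a j) * (mean (∏ p ∈ QB w z j, p) (fun n => tau (r0 + j) (NQ (QB w z j) B n) ^ e) *
        mean (∏ p ∈ QB w z j, p) (fun n => tau (r0 + j) (NQ (QB w z j) B' n) ^ e)) := by
    intro j
    have hQ : ∀ p ∈ QB w z j, p.Prime ∧ 2 * K ≤ p := by
      intro p hp
      obtain ⟨⟨h3, -⟩, h4⟩ := mem_PPi.1 (QB_subset _ _ _ hp)
      exact ⟨h4, by omega⟩
    have h3 := block_dec (QB w z j) B B' K hB hB' hQ (hC0 w z j) (fun N => tau (r0 + j) N ^ e) hΛ1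
      (by simp only [tau_zero, one_pow]) (fun n => ⟨pow_nonneg (tau_nonneg _ _) _, by
        rw [hΛ, ← pow_mul, mul_comm, pow_mul]
        exact pow_le_pow_left₀ (tau_nonneg _ _) (tau_le _ _) _⟩)
    have h5 : (∑ p ∈ QB w z j, ((K : ℝ) ^ 2 / (p : ℝ) ^ 2 +
          if ∃ a ∈ B, ∃ a' ∈ B', a % p = a' % p then (K : ℝ) / p else 0)) = ∑ p ∈ QB w z j, f p := by
      refine Finset.sum_congr rfl fun p hp => ?_
      simp only [hf]
      congr 1
      by_cases hc : ∃ a ∈ B, ∃ a' ∈ B', a % p = a' % p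
      · have hc' : p ∈ Col w z B B' := Finset.mem_filter.2 ⟨QB_subset _ _ _ hp, hc⟩
        rw [if_pos hc, if_pos hc']
      · have hc' : p ∉ Col w z B B' := fun h => hc (Finset.mem_filter.1 h).2
        rw [if_neg hc, if_neg hc']
    refine h3.trans (le_of_eq ?_)
    congr 1
    simp only [ha, hE]
    congr 2
  rw [E6_RR2, E6_RR, E6_RR]
  calc _ ≤ ∏ j ∈ range (JJ z), ((1 + a j) * (mean (∏ p ∈ QB w z j, p) (fun n => tau (r0 + j) (NQ (QB w z j) B n) ^ e) *
        mean (∏ p ∈ QB w z j, p) (fun n => tau (r0 + j) (NQ (QB w z j) B' n) ^ e))) := by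
        refine Finset.prod_le_prod (fun j _ => ?_) fun j _ => hblock j
        unfold mean
        exact div_nonneg (Finset.sum_nonneg fun n _ => mul_nonneg (pow_nonneg (tau_nonneg _ _) _)
          (pow_nonneg (tau_nonneg _ _) _)) (Nat.cast_nonneg _)
    _ = (∏ j ∈ range (JJ z), (1 + a j)) *
        ((∏ j ∈ range (JJ z), mean (∏ p ∈ QB w z j, p) (fun n => tau (r0 + j) (NQ (QB w z j) B n) ^ e)) *
          ∏ j ∈ range (JJ z), mean (∏ p ∈ QB w z j, p) (fun n => tau (r0 + j) (NQ (QB w z j) B' n) ^ e)) := by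
        rw [Finset.prod_mul_distrib, Finset.prod_mul_distrib]
    _ ≤ _ := by
        refine mul_le_mul_of_nonneg_right hprod (mul_nonneg (Finset.prod_nonneg fun j _ => ?_)
          (Finset.prod_nonneg fun j _ => ?_))
        · unfold mean
          exact div_nonneg (Finset.sum_nonneg fun n _ => pow_nonneg (tau_nonneg _ _) _) (Nat.cast_nonneg _)
        · unfold mean
          exact div_nonneg (Finset.sum_nonneg fun n _ => pow_nonneg (tau_nonneg _ _) _) (Nat.cast_nonneg _)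

end Pool.Agent.LibUF16
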