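import Pool.Agent.LibUF16.E1
import Pool.Agent.LibUF16.E5
import Pool.Agent.LibUF16.T2
import Pool.Agent.LibLG5.S6

/-!
Row E7: `RR` versus `VV`. `RR w z r0 e B = ∏_j mean_j (tau (r0+j) (NQ ..)^e)` (`mean_blocks`, `NQ_periodic`, `Finset.prod_pow`),
`VV w z B = ∏_j ∏_{p ∈ QB j} (1 - nuP B p/p)` (`LibLG5.prod_blocks`, `lt_JJ`). `block_mean` in each block with `r = r0 + j`, `g N = tau r N ^ e`
(`tau_eq_zero`; `1 ≤ e`), `Λ = 2^e`, `A = 2`, `k = K`, `C0` of `LibLG5.block_sum`; the primes are `> w ≥ 2 K` eventually. So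
`VV ≤ RR ≤ ∏_j (1 + 2^(-2(r0+j)-1) E) VV ≤ exp (E 4^(-r0)) VV` with `E = exp ((2^(e+1) + 2) K C0)` (`∑_j 2^(-2j-1) ≤ 1`).
`RR_le_C`: `C = exp E`. `RR_two_le` (`e = 2`, `E = exp (10 K C0)`): `E 4^(-r0) ≤ exp (10 K C0 - r0) ≤ 1/2 ≤ log 2` if `r0 ≥ C1 (K+1)`, `C1 ≥ 10 C0 + 1`.
`one_le_RR_empty`: `TU ∅ = 1`.
-/

open Finset Filter

namespace Pool.Agent.LibUF16

open Pool.Agent.LibRG87 Pool.Agent.LibLG5

private theorem E7_RR (w z r0 e : ℕ) (B : Finset ℕ) : RR w z r0 e B =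
    ∏ j ∈ range (JJ z), mean (∏ p ∈ QB w z j, p) (fun n => tau (r0 + j) (NQ (QB w z j) B n) ^ e) := by
  unfold RR
  rw [← mean_blocks w z (fun j n => tau (r0 + j) (NQ (QB w z j) B n) ^ e)
    (fun j => NQ_periodic (QB w z j) B (fun N => tau (r0 + j) N ^ e))]
  congr 1
  funext n
  unfold TU
  rw [Finset.prod_pow]

private theorem E7_VV (w z : ℕ) (B : Finset ℕ) : VV w z B =
    ∏ j ∈ range (JJ z), ∏ p ∈ QB w z j, (1 - (nuP B p : ℝ) / p) := by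
  unfold VV
  rw [prod_blocks w z (JJ z) (lt_JJ z) (fun p => 1 - (nuP B p : ℝ) / p)]

private theorem E7_block (C0 : ℝ) (hC0 : ∀ w z j : ℕ, ∑ p ∈ QB w z j, (1 : ℝ) / p ≤ C0) (K e : ℕ) (he : 1 ≤ e)
    (w z r0 : ℕ) (hw : 2 * K ≤ w) (B : Finset ℕ) (hB : B.card ≤ K) (j : ℕ) :
    ∏ p ∈ QB w z j, (1 - (nuP B p : ℝ) / p) ≤
      mean (∏ p ∈ QB w z j, p) (fun n => tau (r0 + j) (NQ (QB w z j) B n) ^ e) ∧
    mean (∏ p ∈ QB w z j, p) (fun n => tau (r0 + j) (NQ (QB w z j) B n) ^ e) ≤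
      (1 + ((2 : ℝ) ^ (2 * (r0 + j) + 1))⁻¹ * Real.exp ((2 * 2 ^ e + 2) * K * C0)) *
        ∏ p ∈ QB w z j, (1 - (nuP B p : ℝ) / p) := by
  have hQ : ∀ p ∈ QB w z j, p.Prime ∧ 2 * K ≤ p := by
    intro p hp
    obtain ⟨⟨h3, -⟩, h4⟩ := mem_PPi.1 (QB_subset _ _ _ hp)
    exact ⟨h4, by omega⟩
  have hΛ1 : (1 : ℝ) ≤ 2 ^ e := one_le_pow₀ (by norm_num)
  exact block_mean (QB w z j) B K (r0 + j) hB hQ (hC0 w z j) (fun N => tau (r0 + j) N ^ e) hΛ1 (by norm_num)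
    (by simp only [tau_zero, one_pow]) (fun n => ⟨pow_nonneg (tau_nonneg _ _) _, by
      rw [← pow_mul, mul_comm, pow_mul]
      exact pow_le_pow_left₀ (tau_nonneg _ _) (tau_le _ _) _⟩)
    (fun n h1 h2 => by
      simp only [tau_eq_zero (r0 + j) n h1 h2]
      exact zero_pow (by omega))

private theorem E7_geom (r0 J : ℕ) :
    ∑ j ∈ range J, ((2 : ℝ) ^ (2 * (r0 + j) + 1))⁻¹ ≤ ((4 : ℝ) ^ r0)⁻¹ := by
  have h1 : ∀ j, ((2 : ℝ) ^ (2 * (r0 + j) + 1))⁻¹ = ((4 : ℝ) ^ r0)⁻¹ * ((1 / 2) * (1 / 4) ^ j) := by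
    intro j
    have h2 : (2 : ℝ) ^ (2 * (r0 + j) + 1) = 4 ^ r0 * (4 ^ j * 2) := by
      rw [pow_succ, pow_mul, pow_add]
      norm_num
      ring
    rw [h2, mul_inv, mul_inv, one_div_pow, one_div, one_div]
    ring
  rw [Finset.sum_congr rfl fun j _ => h1 j, ← Finset.mul_sum, ← Finset.mul_sum]
  have h3 : ∑ j ∈ range J, ((1 : ℝ) / 4) ^ j ≤ 2 := by
    have h4 : ∑ j ∈ range J, ((1 : ℝ) / 4) ^ j = 4 / 3 * (1 - (1 / 4) ^ J) := by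
      rw [geom_sum_eq (by norm_num)]
      ring
    rw [h4]
    have h5 : (0 : ℝ) ≤ (1 / 4) ^ J := by positivity
    linarith
  calc ((4 : ℝ) ^ r0)⁻¹ * (1 / 2 * ∑ j ∈ range J, ((1 : ℝ) / 4) ^ j) ≤ ((4 : ℝ) ^ r0)⁻¹ * 1 := by
        refine mul_le_mul_of_nonneg_left ?_ (by positivity)
        linarith
    _ = _ := mul_one _

private theorem E7_main (C0 : ℝ) (hC0 : ∀ w z j : ℕ, ∑ p ∈ QB w z j, (1 : ℝ) / p ≤ C0) (K e : ℕ) (he : 1 ≤ e)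
    (w z r0 : ℕ) (hw : 2 * K ≤ w) (B : Finset ℕ) (hB : B.card ≤ K) :
    VV w z B ≤ RR w z r0 e B ∧
      RR w z r0 e B ≤ Real.exp (((4 : ℝ) ^ r0)⁻¹ * Real.exp ((2 * 2 ^ e + 2) * K * C0)) * VV w z B := by
  have hb := E7_block C0 hC0 K e he w z r0 hw B hB
  have hv0 : ∀ j, 0 ≤ ∏ p ∈ QB w z j, (1 - (nuP B p : ℝ) / p) := fun j =>
    Finset.prod_nonneg fun p hp => (fac_bd w z B p (QB_subset _ _ _ hp)).1
  set E : ℝ := Real.exp ((2 * 2 ^ e + 2) * K * C0) with hE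
  have hE0 : 0 < E := Real.exp_pos _
  rw [E7_RR, E7_VV]
  refine ⟨Finset.prod_le_prod (fun j _ => hv0 j) fun j _ => (hb j).1, ?_⟩
  calc _ ≤ ∏ j ∈ range (JJ z), ((1 + ((2 : ℝ) ^ (2 * (r0 + j) + 1))⁻¹ * E) *
        ∏ p ∈ QB w z j, (1 - (nuP B p : ℝ) / p)) :=
        Finset.prod_le_prod (fun j _ => (hv0 j).trans (hb j).1) fun j _ => (hb j).2
    _ = (∏ j ∈ range (JJ z), (1 + ((2 : ℝ) ^ (2 * (r0 + j) + 1))⁻¹ * E)) *
        ∏ j ∈ range (JJ z), ∏ p ∈ QB w z j, (1 - (nuP B p : ℝ) / p) := Finset.prod_mul_distrib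
    _ ≤ _ := by
        refine mul_le_mul_of_nonneg_right ?_ (Finset.prod_nonneg fun j _ => hv0 j)
        have b1 : ∏ j ∈ range (JJ z), (1 + ((2 : ℝ) ^ (2 * (r0 + j) + 1))⁻¹ * E) ≤
            Real.exp (∑ j ∈ range (JJ z), ((2 : ℝ) ^ (2 * (r0 + j) + 1))⁻¹ * E) := by
          rw [Real.exp_sum]
          refine Finset.prod_le_prod (fun j _ => by positivity) fun j _ => ?_
          rw [add_comm]
          exact Real.add_one_le_exp _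
        refine b1.trans (Real.exp_le_exp.2 ?_)
        rw [← Finset.sum_mul]
        exact mul_le_mul_of_nonneg_right (E7_geom r0 _) hE0.le

theorem VV_le_RR (K e : ℕ) (he : 1 ≤ e) : ∀ᶠ z : ℕ in atTop, ∀ (r0 : ℕ) (B : Finset ℕ), B.card ≤ K →
    VV (wf z) z B ≤ RR (wf z) z r0 e B := by
  obtain ⟨C0, hC1, hC0⟩ := block_sum
  filter_upwards [wf_tendsto'.eventually_ge_atTop (2 * K)] with z hz r0 B hB
  exact (E7_main C0 hC0 K e he (wf z) z r0 hz B hB).1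

theorem RR_two_le : ∃ C1 : ℕ, ∀ K r0 : ℕ, C1 * (K + 1) ≤ r0 → ∀ᶠ z : ℕ in atTop,
    ∀ B : Finset ℕ, B.card ≤ K → RR (wf z) z r0 2 B ≤ 2 * VV (wf z) z B := by
  obtain ⟨C0, hC1, hC0⟩ := block_sum
  refine ⟨⌈10 * C0 + 1⌉₊, fun K r0 hr0 => ?_⟩
  filter_upwards [wf_tendsto'.eventually_ge_atTop (2 * K)] with z hz B hB
  refine (E7_main C0 hC0 K 2 (by norm_num) (wf z) z r0 hz B hB).2.trans ?_
  refine mul_le_mul_of_nonneg_right ?_ (VV_nonneg' _ _ _)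
  have h1 : (10 * C0 + 1) * (K + 1) ≤ r0 := by
    have h2 : 10 * C0 + 1 ≤ (⌈10 * C0 + 1⌉₊ : ℝ) := Nat.le_ceil _
    have h3 : ((⌈10 * C0 + 1⌉₊ : ℝ)) * (K + 1) ≤ r0 := by exact_mod_cast hr0
    refine le_trans (mul_le_mul_of_nonneg_right h2 (by positivity)) h3
  have h4 : ((4 : ℝ) ^ r0)⁻¹ ≤ Real.exp (-(r0 : ℝ)) := by
    rw [Real.exp_neg]
    refine inv_anti₀ (Real.exp_pos _) ?_
    have h5 : Real.exp (r0 : ℝ) = Real.exp 1 ^ r0 := by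
      rw [← Real.exp_nat_mul, mul_one]
    rw [h5]
    refine pow_le_pow_left₀ (Real.exp_pos _).le ?_ _
    have := Real.exp_one_lt_d9
    linarith
  have h6 : ((4 : ℝ) ^ r0)⁻¹ * Real.exp ((2 * 2 ^ 2 + 2) * K * C0) ≤ Real.log 2 := by
    calc ((4 : ℝ) ^ r0)⁻¹ * Real.exp ((2 * 2 ^ 2 + 2) * K * C0)
        ≤ Real.exp (-(r0 : ℝ)) * Real.exp ((2 * 2 ^ 2 + 2) * K * C0) :=
          mul_le_mul_of_nonneg_right h4 (Real.exp_pos _).le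
      _ = Real.exp (-(r0 : ℝ) + (2 * 2 ^ 2 + 2) * K * C0) := (Real.exp_add _ _).symm
      _ ≤ Real.exp (-1) := by
          refine Real.exp_le_exp.2 ?_
          have hK0 : (0 : ℝ) ≤ K := Nat.cast_nonneg _
          nlinarith
      _ ≤ 1 / 2 := by
          rw [Real.exp_neg, one_div]
          refine inv_anti₀ (by norm_num) ?_
          have := Real.add_one_le_exp (1 : ℝ)
          linarith
      _ ≤ Real.log 2 := by
          have := Real.log_two_gt_d9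
          linarith
  calc Real.exp _ ≤ Real.exp (Real.log 2) := Real.exp_le_exp.2 h6
    _ = 2 := Real.exp_log (by norm_num)

theorem RR_le_C (K e : ℕ) (he : 1 ≤ e) : ∃ C : ℝ, 1 ≤ C ∧ ∀ᶠ z : ℕ in atTop, ∀ (r0 : ℕ) (B : Finset ℕ),
    B.card ≤ K → RR (wf z) z r0 e B ≤ C * VV (wf z) z B := by
  obtain ⟨C0, hC1, hC0⟩ := block_sum
  refine ⟨Real.exp (Real.exp ((2 * 2 ^ e + 2) * K * C0)), Real.one_le_exp (Real.exp_pos _).le, ?_⟩
  filter_upwards [wf_tendsto'.eventually_ge_atTop (2 * K)] with z hz r0 B hB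
  refine (E7_main C0 hC0 K e he (wf z) z r0 hz B hB).2.trans ?_
  refine mul_le_mul_of_nonneg_right (Real.exp_le_exp.2 ?_) (VV_nonneg' _ _ _)
  refine mul_le_of_le_one_left (Real.exp_pos _).le ?_
  exact inv_le_one_of_one_le₀ (one_le_pow₀ (by norm_num))

end Pool.Agent.LibUF16
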