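import Pool.Agent.LibUF16.E7
import Pool.Agent.LibUF16.Defs

/-!
LibUF16: parameters and data of one window.
-/

open Finset Filter

namespace Pool.Agent.LibUF16

open Pool.Agent.LibRG87 Pool.Agent.LibLG5

/-- a window: positions `b`, injective, at most `log² z`, of sieved size at most `64 l k1` -/
structure Win (l : ℝ) (k1 z : ℕ) {ι : Type} [Fintype ι] (b : ι → ℕ) : Prop where
  inj : Function.Injective b
  bd : ∀ i, 1 ≤ b i ∧ (b i : ℝ) ≤ Real.log z ^ 2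
  card : (Fintype.card ι : ℝ) * V1 (wf z) z ≤ 64 * l * k1

/-- the progression `c + W m`, `m < M`; it may start far away, at most at `z ^ (32 k1 + A)` -/
structure Dat (A k1 z c M : ℕ) : Prop where
  hM : z ^ (32 * k1 - 1) ≤ M
  hc : ∀ m < M, c + primorial (wf z) * m ≤ z ^ (32 * k1 + A)

/-- admissible parameters -/
structure Par (l : ℝ) (q0 k1 K : ℕ) : Prop where
  hl : 1 ≤ l
  hq0 : 1 ≤ q0
  hk1 : 8 ≤ k1
  hK : 1 ≤ K
  hKq : 2 * k1 ≤ K * q0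
  hDn : ∀ᶠ z : ℕ in atTop, 0 < Dn (PP z (z ^ k1)) z q0 k1 ∧
      1 ≤ Dn (PP z (z ^ k1)) z q0 k1 * (q0 * Real.log z)
  hRR : ∀ᶠ z : ℕ in atTop, ∀ B : Finset ℕ, B.card ≤ K + 2 →
      RR (wf z) z (k1 / 2) 2 B ≤ 2 * VV (wf z) z B
  hys : ∀ᶠ z : ℕ in atTop, ∀ (ι : Type) [Fintype ι] [DecidableEq ι] (b : ι → ℕ), Win l k1 z b →
      ∑ i, dg (PP z (z ^ k1)) (wf z) z b {b i} (ys5 (PP z (z ^ k1)) z q0 k1 i) ≤
        (1 / 16) * DG z q0 k1 b

end Pool.Agent.LibUF16
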