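import Pool.Agent.LibUF16.M0

/-!
Row M1: the parameters. Follow `LibLG5.M12_choice` and the proof of `LibLG5.block` (M12) with `e = 1/2`: `A, cD` from `NT_D_lower`, `CS` from `NT_S_upper`, `cG` from
`NT_G_lower`; `I` with `(2 (64 l)/cG) (2 (64 l)/(cD I)) ≤ 1/64`, `K = 2 A^I`, then `q0` large: `1 ≤ cD I q0`, `k1 = A^I q0 ≥ 8`, `C1 (K + 3) ≤ k1/2` (`C1` from
`RR_two_le`). `hys` is `hA6, hA7` there: `sum_dg_ys5` (`G0 = cG k1`, `ε = 2 k1 CS k1/z → 0`), `Tbig_le`, `Vstep` from `M12_Vstep`.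
-/

open Finset Filter

namespace Pool.Agent.LibUF16

open Pool.Agent.LibRG87 Pool.Agent.LibLG5

private theorem M1_choice (C1 A : ℕ) (hA : 2 ≤ A) (l cD cG : ℝ) (hl : 1 ≤ l)
    (hcD : 0 < cD) (hcG : 0 < cG) :
    ∃ I q0 : ℕ, 1 ≤ I ∧ 1 ≤ q0 ∧ 8 ≤ A ^ I * q0 ∧ 1 ≤ cD * I * q0 ∧
      (2 * (64 * l) / cG) * (2 * (64 * l) / (cD * I)) ≤ 1 / 32 ∧
      C1 * (2 * A ^ I + 2 + 1) ≤ A ^ I * q0 / 2 := by
  have hl0 : 0 < l := by linarith
  obtain ⟨I, hI⟩ := exists_nat_gt ((2 * (64 * l) / cG) * (2 * (64 * l)) / (cD * (1 / 32)) + 1)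
  have hIpos : (0 : ℝ) < I := by
    have : 0 ≤ (2 * (64 * l) / cG) * (2 * (64 * l)) / (cD * (1 / 32)) := by positivity
    linarith
  have hI1 : 1 ≤ I := by
    have : 0 < I := by exact_mod_cast hIpos
    omega
  have hA1 : 1 ≤ A ^ I := Nat.one_le_pow _ _ (by omega)
  have hev2 : ∀ᶠ q0 : ℕ in atTop, 1 / (cD * I) ≤ (q0 : ℝ) :=
    tendsto_natCast_atTop_atTop.eventually_ge_atTop _
  obtain ⟨q0, hq2, hq3, hq4⟩ := (hev2.and ((eventually_ge_atTop 8).and
    (eventually_ge_atTop (C1 * (2 * A ^ I + 2 + 1) * 2)))).exists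
  have hle : q0 ≤ A ^ I * q0 := by
    calc q0 = 1 * q0 := (one_mul _).symm
      _ ≤ A ^ I * q0 := Nat.mul_le_mul_right _ hA1
  refine ⟨I, q0, hI1, by omega, hq3.trans hle, ?_, ?_, ?_⟩
  · rw [div_le_iff₀ (by positivity)] at hq2
    linarith
  · have hI2 : (2 * (64 * l) / cG) * (2 * (64 * l)) / (cD * (1 / 32)) ≤ I := by linarith
    rw [div_le_iff₀ (by positivity)] at hI2
    rw [← mul_div_assoc, div_le_iff₀ (by positivity)]
    nlinarith [hI2]
  · rw [Nat.le_div_iff_mul_le (by norm_num)]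
    exact hq4.trans hle

theorem exists_par (l : ℝ) (hl : 1 ≤ l) : ∃ q0 k1 K : ℕ, Par l q0 k1 K := by
  obtain ⟨C1, hRR⟩ := RR_two_le
  obtain ⟨A, hA2, cD, hcD, hD⟩ := NT_D_lower
  obtain ⟨CS, hCS, hS⟩ := NT_S_upper
  obtain ⟨cG, hcG, hG⟩ := NT_G_lower
  obtain ⟨I, q0, hI1, hq1, hk8, hcDq, hLL, hC1⟩ := M1_choice C1 A hA2 l cD cG hl hcD hcG
  have hl0 : 0 < l := by linarith
  have hA1 : 1 ≤ A ^ I := Nat.one_le_pow _ _ (by omega)
  set k1 : ℕ := A ^ I * q0 with hk1
  set K : ℕ := 2 * A ^ I with hKdef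
  have hk1' : 1 ≤ k1 := by omega
  have hK1 : 1 ≤ K := by omega
  have hKq : 2 * k1 ≤ K * q0 := by rw [hk1, hKdef]; ring_nf; exact le_rfl
  refine ⟨q0, k1, K, hl, hq1, hk8, hK1, hKq, ?_, hRR (K + 2) (k1 / 2) hC1, ?_⟩
  · filter_upwards [hD I q0 hq1, eventually_ge_atTop 3] with z hz hz3
    have hlz : 0 < Real.log z := Real.log_pos (by exact_mod_cast (by omega : 1 < z))
    have hDpos : 0 < cD * I / Real.log z := by
      have : (0 : ℝ) < I := by exact_mod_cast (by omega : 0 < I)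
      positivity
    refine ⟨lt_of_lt_of_le hDpos hz, ?_⟩
    calc (1 : ℝ) ≤ cD * I * q0 := hcDq
      _ = (cD * I / Real.log z) * (q0 * Real.log z) := by field_simp
      _ ≤ Dn (PP z (z ^ k1)) z q0 k1 * (q0 * Real.log z) := by
        apply mul_le_mul_of_nonneg_right hz
        positivity
  · set Λ : ℝ := 64 * l * k1 with hΛ
    have hkR : (8 : ℝ) ≤ k1 := by exact_mod_cast hk8
    have hepsT : Tendsto (fun z : ℕ => (2 * k1 : ℝ) * (CS * k1) / z) atTop (nhds 0) :=
      tendsto_const_nhds.div_atTop tendsto_natCast_atTop_atTop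
    have heps : ∀ᶠ z : ℕ in atTop, (2 * k1 : ℝ) * (CS * k1) / z <
        min 1 (1 / (32 * (2 * (64 * l) / cG))) :=
      hepsT.eventually (gt_mem_nhds (by positivity))
    filter_upwards [hD I q0 hq1, hS k1 hk1', hG k1 (2 * k1) hk1', heps, M12_Vstep K,
      eventually_ge_atTop 3] with z hDz hSz hGz hepsz hVz hz3
    intro ι _ _ b hw
    obtain ⟨hb, hbz, hcard⟩ := hw
    have hz2 : 2 ≤ z := by omega
    have hlz : 0 < Real.log z := Real.log_pos (by exact_mod_cast (by omega : 1 < z))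
    have hIR : (0 : ℝ) < I := by exact_mod_cast (by omega : 0 < I)
    have hq0R : (0 : ℝ) < q0 := by exact_mod_cast (by omega : 0 < q0)
    have hDpos : 0 < Dn (PP z (z ^ k1)) z q0 k1 := lt_of_lt_of_le (by positivity) hDz
    have hD1 : 1 ≤ Dn (PP z (z ^ k1)) z q0 k1 * (q0 * Real.log z) := by
      calc (1 : ℝ) ≤ cD * I * q0 := hcDq
        _ = (cD * I / Real.log z) * (q0 * Real.log z) := by field_simp
        _ ≤ _ := by
          apply mul_le_mul_of_nonneg_right hDz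
          positivity
    have hPp : ∀ p ∈ PP z (z ^ k1), p.Prime := fun p hp => M12_PP_prime hp
    have hPz : ∀ p ∈ PP z (z ^ k1), z < p := fun p hp => M12_PP_gt hp
    have hDG1 : 1 ≤ DG z q0 k1 b := one_le_dg _ _ _ _ hPp (by omega) _ _
    have hDG0 : 0 ≤ DG z q0 k1 b := by linarith
    have hV10 : 0 < V1 (wf z) z := V1_pos _ _
    have hbz2 : ∀ i, (b i : ℝ) ≤ Real.log z ^ 2 := fun i => (hbz i).2
    have hk1R : (0 : ℝ) < k1 := by linarith
    have hcardN : (Fintype.card ι : ℝ) * V1 (wf z) z ≤ Λ := hcard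
    have hcard0 : 0 ≤ (Fintype.card ι : ℝ) * V1 (wf z) z := by positivity
    set ε : ℝ := (2 * k1 : ℝ) * (CS * k1) / z with hε
    have hε0 : 0 ≤ ε := by positivity
    have hcc : ∀ β : PP z (z ^ k1) → Option ι, rr (sp (PP z (z ^ k1)) β) ≤ (z : ℝ) ^ k1 →
        cc5 (PP z (z ^ k1)) z q0 k1 β ≤ ε := by
      intro β hβ
      refine le_trans (cc5_small _ _ _ _ hPp hPz hz2 hq1 hDpos hD1 β hβ) ?_
      rw [hε]
      apply div_le_div_of_nonneg_right _ (Nat.cast_nonneg _)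
      have h1 : ((sp (PP z (z ^ k1)) β).card : ℝ) ≤ 2 * k1 := by
        have h2 := card_sp_le hz2 β hβ
        have h3 : ((sp (PP z (z ^ k1)) β).card : ℝ) ≤ k1 := by exact_mod_cast h2
        linarith
      have h4 : 0 ≤ ∏ p ∈ PP z (z ^ k1), (1 + 1 / ((p : ℝ) - 1)) := by
        apply Finset.prod_nonneg
        intro p hp
        have : (1 : ℝ) < p := by exact_mod_cast (hPp p hp).one_lt
        have : 0 < (p : ℝ) - 1 := by linarith
        positivity
      exact mul_le_mul h1 hSz h4 (by positivity)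
    have hA6 := sum_dg_ys5 z q0 k1 K hz2 hq1 hk1' hKq hDpos hD1 (δ := 1) (G0 := cG * k1) (ε := ε)
      zero_le_one (by positivity) hε0 hVz hGz hcc b hb hbz2
    have hA7 := Tbig_le z q0 k1 K hz2 hq1 hk1' hKq hDpos hD1 (δ := 1) zero_le_one hVz b hb hbz2
    have hTb : Tbig z q0 k1 b ≤ (2 * (64 * l) / (cD * I)) * DG z q0 k1 b := by
      refine le_trans hA7 ?_
      apply mul_le_mul_of_nonneg_right _ hDG0
      have h1 : cD * I / Real.log z * (k1 * Real.log z) ≤
          Dn (PP z (z ^ k1)) z q0 k1 * (k1 * Real.log z) := by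
        apply mul_le_mul_of_nonneg_right hDz; positivity
      have h2 : cD * I / Real.log z * (k1 * Real.log z) = cD * I * k1 := by field_simp
      rw [h2] at h1
      calc (1 + 1) * ((Fintype.card ι : ℝ) * V1 (wf z) z) /
            (Dn (PP z (z ^ k1)) z q0 k1 * (k1 * Real.log z))
          ≤ (1 + 1) * Λ / (cD * I * k1) := by
            apply div_le_div₀ (by positivity) (by linarith) (by positivity) h1
        _ = 2 * (64 * l) / (cD * I) := by
            rw [hΛ]; field_simp; ring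
    have hcoef : (1 + 1) * ((Fintype.card ι : ℝ) * V1 (wf z) z) / (cG * k1) ≤ 2 * (64 * l) / cG := by
      calc (1 + 1) * ((Fintype.card ι : ℝ) * V1 (wf z) z) / (cG * k1)
          ≤ (1 + 1) * Λ / (cG * k1) := by
            apply div_le_div_of_nonneg_right _ (by positivity); linarith
        _ = 2 * (64 * l) / cG := by rw [hΛ]; field_simp; ring
    have hTb0 : 0 ≤ Tbig z q0 k1 b := by
      unfold Tbig
      apply Finset.sum_nonneg
      intro β _
      split_ifs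
      · apply div_nonneg
        · exact mul_nonneg (sq_nonneg _) (VV_nonneg _ _ _)
        · exact (ph_pos (PP z (z ^ k1)) hPp (sp_subset _ β)).le
      · exact le_rfl
    have hε1 : ε ≤ 1 := (hepsz.trans_le (min_le_left _ _)).le
    have hε2 : ε ^ 2 * (2 * (64 * l) / cG) ≤ 1 / 32 := by
      have h1 : ε < 1 / (32 * (2 * (64 * l) / cG)) := hepsz.trans_le (min_le_right _ _)
      rw [lt_div_iff₀ (by positivity)] at h1
      have h2 : ε ^ 2 ≤ ε := by nlinarith
      have h3 : ε ^ 2 * (2 * (64 * l) / cG) ≤ ε * (2 * (64 * l) / cG) :=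
        mul_le_mul_of_nonneg_right h2 (by positivity)
      linarith
    refine le_trans hA6 ?_
    have h1 : Tbig z q0 k1 b + ε ^ 2 * DG z q0 k1 b ≤
        (2 * (64 * l) / (cD * I) + ε ^ 2) * DG z q0 k1 b := by linarith
    calc _ ≤ (2 * (64 * l) / cG) * ((2 * (64 * l) / (cD * I) + ε ^ 2) * DG z q0 k1 b) := by
          apply mul_le_mul hcoef h1 (by positivity) (by positivity)
      _ = ((2 * (64 * l) / cG) * (2 * (64 * l) / (cD * I)) + ε ^ 2 * (2 * (64 * l) / cG)) *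
            DG z q0 k1 b := by ring
      _ ≤ (1 / 32 + 1 / 32) * DG z q0 k1 b := by
          apply mul_le_mul_of_nonneg_right _ hDG0
          linarith
      _ = (1 / 16) * DG z q0 k1 b := by ring

end Pool.Agent.LibUF16
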