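import Pool.Agent.LibUF16.Q6
import Pool.Agent.LibLG5.P2

/-!
Row Q8: the diagonal of a product (general form of `LibLG5.dg_pair`, P2). `ph (sp γ) = ph (sp (lft γ)) ph (sp (rgt γ))` (`P1_sp`, `P1_disj`); the sum over `γ` of the
nonnegative terms is at most the sum over all pairs `(β, β')` (`P2_inj`), and for each pair with `y β, y' β' ≠ 0` the hypothesis applies.
-/

open Finset Filter

namespace Pool.Agent.LibUF16

open Pool.Agent.LibRG87 Pool.Agent.LibLG5

variable {ι ι' : Type} [Fintype ι] [DecidableEq ι] [Fintype ι'] [DecidableEq ι'] (P : Finset ℕ)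

theorem Q8_mean_nonneg (q : ℕ) {F : ℕ → ℝ} (h : ∀ n, 0 ≤ F n) : 0 ≤ mean q F := by
  unfold mean
  exact div_nonneg (Finset.sum_nonneg fun n _ => h n) (Nat.cast_nonneg _)

theorem dgG_nonneg (hP : ∀ p ∈ P, Nat.Prime p) (q : ℕ) (y : (P → Option ι) → ℝ)
    (T : (P → Option ι) → ℕ → ℝ) : 0 ≤ dgG P q y T := by
  unfold dgG
  exact Finset.sum_nonneg fun β _ =>
    div_nonneg (mul_nonneg (sq_nonneg _) (Q8_mean_nonneg q fun n => sq_nonneg _))
      (ph_pos P hP (sp_subset P β)).le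

theorem dgG_pair (hP : ∀ p ∈ P, Nat.Prime p) (q : ℕ) (y : (P → Option ι) → ℝ)
    (y' : (P → Option ι') → ℝ) (T : (P → Option ι) → ℕ → ℝ) (T' : (P → Option ι') → ℕ → ℝ) {δ : ℝ}
    (hδ : 0 ≤ δ)
    (h : ∀ β β', y β ≠ 0 → y' β' ≠ 0 → mean q (fun n => T β n ^ 2 * T' β' n ^ 2) ≤
      (1 + δ) * (mean q (fun n => T β n ^ 2) * mean q (fun n => T' β' n ^ 2))) :
    dgG P q (yP P y y') (TP P T T') ≤ (1 + δ) * (dgG P q y T * dgG P q y' T') := by
  have hph : ∀ {κ : Type} [Fintype κ] [DecidableEq κ] (β : P → Option κ), 0 < ph (sp P β) :=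
    fun β => ph_pos P hP (sp_subset P β)
  let g : (P → Option ι) → ℝ := fun β => y β ^ 2 * mean q (fun n => T β n ^ 2) / ph (sp P β)
  let g' : (P → Option ι') → ℝ := fun β => y' β ^ 2 * mean q (fun n => T' β n ^ 2) / ph (sp P β)
  have hg0 : ∀ β, 0 ≤ g β := fun β =>
    div_nonneg (mul_nonneg (sq_nonneg _) (Q8_mean_nonneg q fun n => sq_nonneg _)) (hph β).le
  have hg0' : ∀ β, 0 ≤ g' β := fun β =>
    div_nonneg (mul_nonneg (sq_nonneg _) (Q8_mean_nonneg q fun n => sq_nonneg _)) (hph β).le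
  have key : ∀ γ : P → Option (ι ⊕ ι'),
      yP P y y' γ ^ 2 * mean q (fun n => TP P T T' γ n ^ 2) / ph (sp P γ) ≤
        (1 + δ) * (g (lft P γ) * g' (rgt P γ)) := by
    intro γ
    by_cases h0 : yP P y y' γ = 0
    · rw [h0]
      have : 0 ≤ (1 + δ) * (g (lft P γ) * g' (rgt P γ)) :=
        mul_nonneg (by linarith) (mul_nonneg (hg0 _) (hg0' _))
      simpa using this
    have h1 : y (lft P γ) ≠ 0 := fun h => h0 (by unfold yP; rw [h, zero_mul])
    have h2 : y' (rgt P γ) ≠ 0 := fun h => h0 (by unfold yP; rw [h, mul_zero])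
    have hv := h _ _ h1 h2
    have hphu : ph (sp P γ) = ph (sp P (lft P γ)) * ph (sp P (rgt P γ)) := by
      rw [P2_sp P γ]
      exact Finset.prod_union (P2_sp_disj P γ)
    have e1 : (1 + δ) * (g (lft P γ) * g' (rgt P γ)) =
        (y (lft P γ) * y' (rgt P γ)) ^ 2 *
          ((1 + δ) * (mean q (fun n => T (lft P γ) n ^ 2) * mean q (fun n => T' (rgt P γ) n ^ 2))) /
            (ph (sp P (lft P γ)) * ph (sp P (rgt P γ))) := by
      simp only [g, g']
      ring
    have e3 : mean q (fun n => TP P T T' γ n ^ 2) =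
        mean q (fun n => T (lft P γ) n ^ 2 * T' (rgt P γ) n ^ 2) := by
      congr 1
      funext n
      unfold TP
      ring
    rw [e1, hphu, e3]
    unfold yP
    exact div_le_div_of_nonneg_right (mul_le_mul_of_nonneg_left hv (sq_nonneg _))
      (mul_pos (hph _) (hph _)).le
  calc dgG P q (yP P y y') (TP P T T')
      = ∑ γ : P → Option (ι ⊕ ι'),
          yP P y y' γ ^ 2 * mean q (fun n => TP P T T' γ n ^ 2) / ph (sp P γ) := rfl
    _ ≤ ∑ γ : P → Option (ι ⊕ ι'), (1 + δ) * (g (lft P γ) * g' (rgt P γ)) :=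
        Finset.sum_le_sum fun γ _ => key γ
    _ = (1 + δ) * ∑ γ : P → Option (ι ⊕ ι'), g (lft P γ) * g' (rgt P γ) := by
        rw [Finset.mul_sum]
    _ ≤ (1 + δ) * ∑ x : (P → Option ι) × (P → Option ι'), g x.1 * g' x.2 := by
        refine mul_le_mul_of_nonneg_left ?_ (by linarith)
        have e2 : ∑ γ : P → Option (ι ⊕ ι'), g (lft P γ) * g' (rgt P γ) =
            ∑ x ∈ (Finset.univ : Finset (P → Option (ι ⊕ ι'))).image
              (fun γ => (lft P γ, rgt P γ)), g x.1 * g' x.2 := by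
          rw [Finset.sum_image fun γ _ γ' _ h => P2_inj P h]
        rw [e2]
        exact Finset.sum_le_sum_of_subset_of_nonneg (Finset.subset_univ _)
          fun x _ _ => mul_nonneg (hg0 _) (hg0' _)
    _ = (1 + δ) * (dgG P q y T * dgG P q y' T') := by
        congr 1
        rw [Fintype.sum_prod_type]
        unfold dgG
        rw [Finset.sum_mul_sum]

end Pool.Agent.LibUF16
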