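import Pool.Agent.LibUF16.M0
import Pool.Agent.LibUF16.Q8

/-!
Row M2: the diagonals. Termwise `VV ≤ RR 2 ≤ 2 VV` (`VV_le_RR (K+2) 2`, `Par.hRR`; `#(E ∪ su β) ≤ K + 2` when the coefficient is `≠ 0`, `y5_supp`, `ys5_supp`), so
`DG ≤ DT ≤ 2 DG` and `DFT i ≤ 2 dg {b i} (ys5 i)`; sum over `i`: `DY ≤ 2 (1/16) DG ≤ DT/8` (`Par.hys`); `1 ≤ DG` (`one_le_dg`). `DY_nonneg`: `dgG_nonneg`.
-/

open Finset Filter

namespace Pool.Agent.LibUF16

open Pool.Agent.LibRG87 Pool.Agent.LibLG5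

section

variable {ι : Type} [Fintype ι] [DecidableEq ι] (P : Finset ℕ)

theorem M2_mean (w z r0 : ℕ) (b : ι → ℕ) (E : Finset ℕ) (β : P → Option ι) :
    mean (QS w z) (fun n => TE P w z r0 b E β n ^ 2) = RR w z r0 2 (E ∪ su P b β) := rfl

theorem M2_le (hP : ∀ p ∈ P, Nat.Prime p) (w z r0 N : ℕ)
    (h1 : ∀ B : Finset ℕ, B.card ≤ N → VV w z B ≤ RR w z r0 2 B) (b : ι → ℕ) (E : Finset ℕ)
    (y : (P → Option ι) → ℝ) (hy : ∀ β, y β ≠ 0 → (E ∪ su P b β).card ≤ N) :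
    dg P w z b E y ≤ dgG P (QS w z) y (TE P w z r0 b E) := by
  unfold dg dgG
  refine Finset.sum_le_sum (fun β _ => ?_)
  rw [M2_mean]
  by_cases hβ : y β = 0
  · simp [hβ]
  · exact div_le_div_of_nonneg_right
      (mul_le_mul_of_nonneg_left (h1 _ (hy β hβ)) (sq_nonneg _)) (ph_pos P hP (sp_subset P β)).le

theorem M2_ge (hP : ∀ p ∈ P, Nat.Prime p) (w z r0 N : ℕ)
    (h1 : ∀ B : Finset ℕ, B.card ≤ N → RR w z r0 2 B ≤ 2 * VV w z B) (b : ι → ℕ) (E : Finset ℕ)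
    (y : (P → Option ι) → ℝ) (hy : ∀ β, y β ≠ 0 → (E ∪ su P b β).card ≤ N) :
    dgG P (QS w z) y (TE P w z r0 b E) ≤ 2 * dg P w z b E y := by
  unfold dg dgG
  rw [Finset.mul_sum]
  refine Finset.sum_le_sum (fun β _ => ?_)
  rw [M2_mean]
  by_cases hβ : y β = 0
  · simp [hβ]
  · rw [← mul_div_assoc]
    refine div_le_div_of_nonneg_right ?_ (ph_pos P hP (sp_subset P β)).le
    calc y β ^ 2 * RR w z r0 2 (E ∪ su P b β)
        ≤ y β ^ 2 * (2 * VV w z (E ∪ su P b β)) :=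
          mul_le_mul_of_nonneg_left (h1 _ (hy β hβ)) (sq_nonneg _)
      _ = _ := by ring

end

theorem diag {l : ℝ} {q0 k1 K : ℕ} (h : Par l q0 k1 K) : ∀ᶠ z : ℕ in atTop,
    ∀ (ι : Type) [Fintype ι] [DecidableEq ι] (b : ι → ℕ), Win l k1 z b →
      1 ≤ DT z q0 k1 (k1 / 2) b ∧ (∀ i, 0 ≤ DFT z q0 k1 (k1 / 2) b i) ∧
        DY z q0 k1 (k1 / 2) b ≤ DT z q0 k1 (k1 / 2) b / 8 := by
  filter_upwards [h.hRR, h.hys, VV_le_RR (K + 2) 2 (by norm_num), eventually_ge_atTop 2]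
    with z hRR hys hVV hz
  intro ι _ _ b hb
  have hP : ∀ p ∈ PP z (z ^ k1), Nat.Prime p := fun p hp => (Finset.mem_filter.1 hp).2
  have hy5 : ∀ β : PP z (z ^ k1) → Option ι, y5 (PP z (z ^ k1)) z q0 k1 β ≠ 0 →
      (∅ ∪ su (PP z (z ^ k1)) b β).card ≤ K + 2 := by
    intro β hβ
    have h1 := (y5_supp (PP z (z ^ k1)) z q0 k1 hP hz h.hq0 h.hKq β hβ).2
    have h2 : (su (PP z (z ^ k1)) b β).card ≤ (sui (PP z (z ^ k1)) β).card :=
      Finset.card_image_le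
    rw [Finset.empty_union]
    omega
  have hys5 : ∀ (i : ι) (β : PP z (z ^ k1) → Option ι), ys5 (PP z (z ^ k1)) z q0 k1 i β ≠ 0 →
      ({b i} ∪ su (PP z (z ^ k1)) b β).card ≤ K + 2 := by
    intro i β hβ
    have h1 := (ys5_supp (PP z (z ^ k1)) z q0 k1 hP hz h.hq0 h.hKq i β hβ).2
    have h2 : (su (PP z (z ^ k1)) b β).card ≤ (sui (PP z (z ^ k1)) β).card :=
      Finset.card_image_le
    have h3 := Finset.card_union_le ({b i} : Finset ℕ) (su (PP z (z ^ k1)) b β)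
    rw [Finset.card_singleton] at h3
    omega
  have hDG : DG z q0 k1 b ≤ DT z q0 k1 (k1 / 2) b :=
    M2_le (PP z (z ^ k1)) hP (wf z) z (k1 / 2) (K + 2) (fun B hB => hVV (k1 / 2) B hB) b ∅ _ hy5
  have hone : 1 ≤ DG z q0 k1 b := one_le_dg (PP z (z ^ k1)) z q0 k1 hP (by omega) (wf z) b
  refine ⟨hone.trans hDG, fun i => dgG_nonneg (PP z (z ^ k1)) hP _ _ _, ?_⟩
  have hDF : ∀ i, DFT z q0 k1 (k1 / 2) b i ≤
      2 * dg (PP z (z ^ k1)) (wf z) z b {b i} (ys5 (PP z (z ^ k1)) z q0 k1 i) := fun i =>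
    M2_ge (PP z (z ^ k1)) hP (wf z) z (k1 / 2) (K + 2) hRR b {b i} _ (hys5 i)
  have h1 : DY z q0 k1 (k1 / 2) b ≤
      2 * ∑ i, dg (PP z (z ^ k1)) (wf z) z b {b i} (ys5 (PP z (z ^ k1)) z q0 k1 i) := by
    unfold DY
    rw [Finset.mul_sum]
    exact Finset.sum_le_sum (fun i _ => hDF i)
  have h2 := hys ι b hb
  linarith

end Pool.Agent.LibUF16
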