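import Pool.Agent.LibUF16.Defs

/-!
Row Q2 (copy of `LibLG5.off_diag`, Q3, with another hypothesis): `|y β y β' v| ≤ |y β| √(v₀ β) |y β'| √(v₀ β') ≤ (Y β + Y β')/2` with
`Y β = y β² v₀ β`; the rest is the same. `mean_cs`: Cauchy-Schwarz (`Finset.sum_mul_sq_le_sq_mul_sq`).
-/

open Finset

namespace Pool.Agent.LibUF16

open Pool.Agent.LibRG87 Pool.Agent.LibLG5

theorem Q2_gg_symm {ι : Type} [DecidableEq ι] (p : ℕ) (o o' : Option ι) : gg p o o' = gg p o' o := by
  cases o with
  | none =>
    cases o' with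
    | none => rfl
    | some j => rfl
  | some i =>
    cases o' with
    | none => rfl
    | some j =>
      simp only [gg, eq_comm (a := i) (b := j)]

theorem Q2_KK_symm {ι : Type} [DecidableEq ι] (P : Finset ℕ) (β β' : P → Option ι) :
    KK P β β' = KK P β' β := by
  unfold KK
  exact Finset.prod_congr rfl fun p _ => Q2_gg_symm _ _ _

theorem mean_cs (q : ℕ) (F G : ℕ → ℝ) :
    mean q (fun n => F n * G n) ^ 2 ≤ mean q (fun n => F n ^ 2) * mean q (fun n => G n ^ 2) := by
  unfold mean
  rw [div_pow, div_mul_div_comm, ← sq]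
  exact div_le_div_of_nonneg_right (Finset.sum_mul_sq_le_sq_mul_sq _ _ _) (sq_nonneg _)

open scoped Classical in
theorem off_diag_cs {ι : Type} [Fintype ι] [DecidableEq ι] (P : Finset ℕ)
    (hP : ∀ p ∈ P, Nat.Prime p) (hP3 : ∀ p ∈ P, 3 ≤ p) (y : (P → Option ι) → ℝ)
    (v : (P → Option ι) → (P → Option ι) → ℝ) (v₀ : (P → Option ι) → ℝ)
    (hv0 : ∀ β, 0 ≤ v₀ β) (hv : ∀ β β', v β β' ^ 2 ≤ v₀ β * v₀ β') {δ : ℝ}
    (hδ : ∀ β, y β ≠ 0 → ∏ p ∈ sp P β, (1 + (Fintype.card ι : ℝ) / ((p : ℝ) - 1)) ≤ 1 + δ) :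
    |∑ β, ∑ β', if β = β' then 0 else y β * y β' * v β β' * KK P β β'| ≤
      δ * ∑ β, y β ^ 2 * v₀ β / ph (sp P β) := by
  have hv00 : ∀ β, 0 ≤ v₀ β := hv0
  have hph : ∀ β : P → Option ι, 0 < ph (sp P β) := fun β => ph_pos P hP (sp_subset P β)
  let Y : (P → Option ι) → ℝ := fun β => y β ^ 2 * v₀ β
  have hY0 : ∀ β, 0 ≤ Y β := fun β => mul_nonneg (sq_nonneg _) (hv00 β)
  let a : (P → Option ι) → (P → Option ι) → ℝ := fun β β' => if β = β' then 0 else |KK P β β'|
  have ha0 : ∀ β β', 0 ≤ a β β' := fun β β' => by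
    change 0 ≤ if β = β' then 0 else |KK P β β'|
    split_ifs
    · exact le_rfl
    · exact abs_nonneg _
  have hasymm : ∀ β β', a β β' = a β' β := fun β β' => by
    change (if β = β' then 0 else |KK P β β'|) = if β' = β then 0 else |KK P β' β|
    rw [Q2_KK_symm P β β']
    by_cases h : β = β'
    · rw [if_pos h, if_pos h.symm]
    · rw [if_neg h, if_neg (fun h' => h h'.symm)]
  have hrow : ∀ β, Y β * ∑ β', a β β' ≤ δ * (Y β / ph (sp P β)) := by
    intro β
    by_cases hy : y β = 0
    · have : Y β = 0 := by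
        show y β ^ 2 * v₀ β = 0
        rw [hy]
        ring
      rw [this]
      simp
    · have h1 : ∑ β', |KK P β β'| = ∑ β', a β β' + 1 / ph (sp P β) := by
        have h2 : ∀ β', |KK P β β'| = a β β' + if β = β' then |KK P β β'| else 0 := by
          intro β'
          change _ = (if β = β' then 0 else |KK P β β'|) + _
          by_cases h : β = β'
          · rw [if_pos h, if_pos h, zero_add]
          · rw [if_neg h, if_neg h, add_zero]
        rw [Finset.sum_congr rfl fun β' _ => h2 β', Finset.sum_add_distrib, Finset.sum_ite_eq,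
          if_pos (Finset.mem_univ _), KK_self, abs_of_pos (one_div_pos.2 (hph β))]
      have h3 := row_sum P hP hP3 β
      have h4 : (∏ p ∈ sp P β, (1 + (Fintype.card ι : ℝ) / ((p : ℝ) - 1))) / ph (sp P β) ≤
          (1 + δ) / ph (sp P β) :=
        div_le_div_of_nonneg_right (hδ β hy) (hph β).le
      have h5 : ∑ β', a β β' ≤ δ * (1 / ph (sp P β)) := by
        have : (1 + δ) / ph (sp P β) = 1 / ph (sp P β) + δ * (1 / ph (sp P β)) := by ring
        linarith
      calc Y β * ∑ β', a β β' ≤ Y β * (δ * (1 / ph (sp P β))) :=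
            mul_le_mul_of_nonneg_left h5 (hY0 β)
        _ = δ * (Y β / ph (sp P β)) := by ring
  have hhalf : ∑ β, ∑ β', Y β' * a β β' = ∑ β, ∑ β', Y β * a β β' := by
    rw [Finset.sum_comm]
    refine Finset.sum_congr rfl fun β _ => Finset.sum_congr rfl fun β' _ => ?_
    rw [hasymm]
  calc |∑ β, ∑ β', (if β = β' then 0 else y β * y β' * v β β' * KK P β β')|
      ≤ ∑ β, ∑ β', |if β = β' then 0 else y β * y β' * v β β' * KK P β β'| :=
        (Finset.abs_sum_le_sum_abs _ _).trans
          (Finset.sum_le_sum fun β _ => Finset.abs_sum_le_sum_abs _ _)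
    _ ≤ ∑ β, ∑ β', ((1 / 2) * (Y β * a β β') + (1 / 2) * (Y β' * a β β')) := by
        refine Finset.sum_le_sum fun β _ => Finset.sum_le_sum fun β' _ => ?_
        by_cases h : β = β'
        · rw [if_pos h, abs_zero]
          have h1 := mul_nonneg (hY0 β) (ha0 β β')
          have h2 := mul_nonneg (hY0 β') (ha0 β β')
          linarith
        · rw [if_neg h, abs_mul]
          have h1 : a β β' = |KK P β β'| := if_neg h
          rw [h1]
          have h4 : |y β * y β' * v β β'| ≤ (1 / 2) * Y β + (1 / 2) * Y β' := by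
            apply abs_le_of_sq_le_sq
            · have h5 : (y β * y β' * v β β') ^ 2 ≤ Y β * Y β' := by
                calc (y β * y β' * v β β') ^ 2 = (y β * y β') ^ 2 * v β β' ^ 2 := by ring
                  _ ≤ (y β * y β') ^ 2 * (v₀ β * v₀ β') :=
                    mul_le_mul_of_nonneg_left (hv β β') (sq_nonneg _)
                  _ = Y β * Y β' := by
                    show _ = (y β ^ 2 * v₀ β) * (y β' ^ 2 * v₀ β')
                    ring
              nlinarith [sq_nonneg (Y β - Y β')]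
            · have := hY0 β
              have := hY0 β'
              linarith
          have h3 := mul_le_mul_of_nonneg_right h4 (abs_nonneg (KK P β β'))
          linarith
    _ = ∑ β, Y β * ∑ β', a β β' := by
        simp only [Finset.sum_add_distrib, ← Finset.mul_sum]
        simp only [Finset.mul_sum] at hhalf ⊢
        rw [← Finset.sum_add_distrib]
        have h1 : ∑ β, ∑ β', (1 / 2 : ℝ) * (Y β' * a β β') =
            ∑ β, ∑ β', (1 / 2 : ℝ) * (Y β * a β β') := by
          simp only [← Finset.mul_sum]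
          rw [show ∑ β, ∑ β', Y β' * a β β' = ∑ β, Y β * ∑ β', a β β' by
            rw [hhalf]
            simp only [Finset.mul_sum]]
        rw [Finset.sum_add_distrib, h1, ← Finset.sum_add_distrib]
        refine Finset.sum_congr rfl fun β _ => ?_
        rw [← Finset.sum_add_distrib]
        refine Finset.sum_congr rfl fun β' _ => ?_
        ring
    _ ≤ ∑ β, δ * (Y β / ph (sp P β)) := Finset.sum_le_sum fun β _ => hrow β
    _ = δ * ∑ β, y β ^ 2 * v₀ β / ph (sp P β) := by
        rw [Finset.mul_sum]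

end Pool.Agent.LibUF16
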