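import Pool.Agent.LibUF16.Q1
import Pool.Agent.LibUF16.Q2
import Pool.Agent.LibLG5.Q6

/-!
Row Q3: the quadratic form. `PhiG² = ∑_{β,β'} y β y β' T_β T_β' ee β ee β'`. For `y β, y β' ≠ 0`: `T_β T_β'` has norm `≤ A²` (`NormLe.mul`), `ee β ee β'`
has norm `≤ 2^(2 kk)` (`ee_norm`, `card_sp_le`), both modulo divisors of `QS * QL` (`NormLe.dvd`), so `NormLe.avg` (N2, `coprime_W`) gives
`|∑_m .. - M mean| ≤ A² 4^kk`, and the mean is `mean QS (T_β T_β') * KK β β'` (`mean_T_ee`; positions incongruent mod `p > z > log² z`).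
The number of `β` with `y β ≠ 0` is at most `(z^kk+1)(N+1)^kk` (`LibLG5.card_cfg`, `Q6_card`), so the total error is
`≤ ((z^kk+1)(N+1)^kk)² 4^kk A²/M ≤ 1/√z` (`Q6_ev`, `Q6_rem` with `b0 = 0`, `V = 1`, `e = 0` may help). Diagonal (`Q6_split`, `KK_self`): `dgG`.
Off diagonal: `off_diag_cs` with `v β β' = mean QS (T_β T_β')`, `v₀ β = mean QS (T_β²)` (`mean_cs`), `δ = 1/√z` (`Q6_delta`).
-/

open Finset Filter

namespace Pool.Agent.LibUF16

open Pool.Agent.LibRG87 Pool.Agent.LibLG5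

theorem Q3_sq {ι : Type} [Fintype ι] [DecidableEq ι] (P : Finset ℕ) (b : ι → ℕ)
    (y : (P → Option ι) → ℝ) (T : (P → Option ι) → ℕ → ℝ) (n : ℕ) :
    PhiG P b y T n ^ 2 = ∑ β, ∑ β', y β * y β' *
      (T β n * T β' n * (ee P b β n * ee P b β' n)) := by
  unfold PhiG
  rw [sq, Finset.sum_mul_sum]
  refine Finset.sum_congr rfl fun β _ => Finset.sum_congr rfl fun β' _ => ?_
  ring

theorem Q3_avg {ι : Type} [Fintype ι] [DecidableEq ι] (P : Finset ℕ) (b : ι → ℕ)
    (y : (P → Option ι) → ℝ) (T : (P → Option ι) → ℕ → ℝ) (M : ℕ) (g : ℕ → ℕ) :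
    avg M (fun m => PhiG P b y T (g m) ^ 2) = ∑ β, ∑ β', y β * y β' *
      ((∑ m ∈ range M, T β (g m) * T β' (g m) * (ee P b β (g m) * ee P b β' (g m))) / M) := by
  unfold avg
  have h1 : ∑ m ∈ range M, PhiG P b y T (g m) ^ 2 = ∑ β, ∑ β', y β * y β' *
      (∑ m ∈ range M, T β (g m) * T β' (g m) * (ee P b β (g m) * ee P b β' (g m))) := by
    simp only [Q3_sq, Finset.mul_sum]
    rw [Finset.sum_comm]
    refine Finset.sum_congr rfl fun β _ => ?_
    rw [Finset.sum_comm]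
  rw [h1, Finset.sum_div]
  refine Finset.sum_congr rfl fun β _ => ?_
  rw [Finset.sum_div]
  refine Finset.sum_congr rfl fun β' _ => ?_
  rw [mul_div_assoc]

open scoped Classical in
/-- the deterministic part -/
theorem Q3_det {ι : Type} [Fintype ι] [DecidableEq ι] (P : Finset ℕ)
    (q z : ℕ) (b : ι → ℕ) (y : (P → Option ι) → ℝ) (T : (P → Option ι) → ℕ → ℝ) (M : ℕ)
    (g : ℕ → ℕ) {Z δ r : ℝ} {kk : ℕ} (hM : 0 < M) (hZ : 0 ≤ Z)
    (hpair : ∀ β β', y β ≠ 0 → y β' ≠ 0 →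
      |∑ m ∈ range M, T β (g m) * T β' (g m) * (ee P b β (g m) * ee P b β' (g m)) -
        M * (mean q (fun n => T β n * T β' n) * KK P β β')| ≤ Z)
    (hy : ∀ β, |y β| ≤ 1) (hy2 : ∀ β, y β ≠ 0 → rr (sp P β) ≤ (z : ℝ) ^ kk)
    (hoff : |∑ β, ∑ β', if β = β' then 0 else y β * y β' *
        mean q (fun n => T β n * T β' n) * KK P β β'| ≤ δ * dgG P q y T)
    (hr : ((((Finset.univ : Finset (P → Option ι)).filter
        (fun β => rr (sp P β) ≤ (z : ℝ) ^ kk)).card : ℝ)) ^ 2 * (Z / M) ≤ r) :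
    |avg M (fun m => PhiG P b y T (g m) ^ 2) - dgG P q y T| ≤ δ * dgG P q y T + r := by
  have hM' : (0 : ℝ) < M := by exact_mod_cast hM
  -- the main term
  have hmain : ∑ β, ∑ β', y β * y β' * mean q (fun n => T β n * T β' n) * KK P β β' =
      dgG P q y T + ∑ β, ∑ β', if β = β' then 0 else y β * y β' *
        mean q (fun n => T β n * T β' n) * KK P β β' := by
    rw [Q6_split]
    congr 1
    unfold dgG
    refine Finset.sum_congr rfl fun β _ => ?_
    rw [KK_self]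
    have h1 : (fun n => T β n * T β n) = fun n => T β n ^ 2 := funext fun n => (sq _).symm
    rw [h1]
    ring
  have hdiff : avg M (fun m => PhiG P b y T (g m) ^ 2) - dgG P q y T =
      (∑ β, ∑ β', if β = β' then 0 else y β * y β' *
        mean q (fun n => T β n * T β' n) * KK P β β') +
      ∑ β, ∑ β', y β * y β' * ((∑ m ∈ range M, T β (g m) * T β' (g m) *
        (ee P b β (g m) * ee P b β' (g m))) / M -
        mean q (fun n => T β n * T β' n) * KK P β β') := by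
    have h1 : ∑ β, ∑ β', y β * y β' * ((∑ m ∈ range M, T β (g m) * T β' (g m) *
        (ee P b β (g m) * ee P b β' (g m))) / M -
        mean q (fun n => T β n * T β' n) * KK P β β') =
        avg M (fun m => PhiG P b y T (g m) ^ 2) -
        ∑ β, ∑ β', y β * y β' * mean q (fun n => T β n * T β' n) * KK P β β' := by
      rw [Q3_avg, ← Finset.sum_sub_distrib]
      refine Finset.sum_congr rfl fun β _ => ?_
      rw [← Finset.sum_sub_distrib]
      refine Finset.sum_congr rfl fun β' _ => ?_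
      ring
    rw [h1, hmain]
    ring
  -- the error of one pair
  have hone : ∀ β β', |y β * y β' * ((∑ m ∈ range M, T β (g m) * T β' (g m) *
        (ee P b β (g m) * ee P b β' (g m))) / M -
        mean q (fun n => T β n * T β' n) * KK P β β')| ≤
      (if rr (sp P β) ≤ (z : ℝ) ^ kk then 1 else 0) *
        (if rr (sp P β') ≤ (z : ℝ) ^ kk then 1 else 0) * (Z / M) := by
    intro β β'
    have hnn : 0 ≤ (if rr (sp P β) ≤ (z : ℝ) ^ kk then (1 : ℝ) else 0) *
        (if rr (sp P β') ≤ (z : ℝ) ^ kk then 1 else 0) * (Z / M) := by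
      refine mul_nonneg (mul_nonneg ?_ ?_) (by positivity)
      · split_ifs <;> norm_num
      · split_ifs <;> norm_num
    by_cases h1 : y β = 0
    · rw [h1, zero_mul, zero_mul, abs_zero]
      exact hnn
    by_cases h2 : y β' = 0
    · rw [h2, mul_zero, zero_mul, abs_zero]
      exact hnn
    rw [if_pos (hy2 β h1), if_pos (hy2 β' h2), one_mul, one_mul, abs_mul]
    have h7 : |y β * y β'| ≤ 1 := by
      rw [abs_mul]
      exact mul_le_one₀ (hy β) (abs_nonneg _) (hy β')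
    have h8 := hpair β β' h1 h2
    have h9 : (∑ m ∈ range M, T β (g m) * T β' (g m) *
        (ee P b β (g m) * ee P b β' (g m))) / M -
        mean q (fun n => T β n * T β' n) * KK P β β' =
        (∑ m ∈ range M, T β (g m) * T β' (g m) *
        (ee P b β (g m) * ee P b β' (g m)) -
        M * (mean q (fun n => T β n * T β' n) * KK P β β')) / M := by
      field_simp
    rw [h9, abs_div, abs_of_pos hM']
    calc |y β * y β'| * (|∑ m ∈ range M, T β (g m) * T β' (g m) *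
          (ee P b β (g m) * ee P b β' (g m)) -
          M * (mean q (fun n => T β n * T β' n) * KK P β β')| / M)
        ≤ 1 * (Z / M) := by
          refine mul_le_mul h7 ?_ (by positivity) zero_le_one
          exact div_le_div_of_nonneg_right h8 hM'.le
      _ = Z / M := one_mul _
  rw [hdiff]
  refine (abs_add_le _ _).trans (add_le_add hoff ?_)
  calc |∑ β, ∑ β', y β * y β' * ((∑ m ∈ range M, T β (g m) * T β' (g m) *
          (ee P b β (g m) * ee P b β' (g m))) / M -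
          mean q (fun n => T β n * T β' n) * KK P β β')|
      ≤ ∑ β, ∑ β', ((if rr (sp P β) ≤ (z : ℝ) ^ kk then 1 else 0) *
          (if rr (sp P β') ≤ (z : ℝ) ^ kk then 1 else 0) * (Z / M)) :=
        (Finset.abs_sum_le_sum_abs _ _).trans (Finset.sum_le_sum fun β _ =>
          (Finset.abs_sum_le_sum_abs _ _).trans (Finset.sum_le_sum fun β' _ => hone β β'))
    _ = ((((Finset.univ : Finset (P → Option ι)).filter
        (fun β => rr (sp P β) ≤ (z : ℝ) ^ kk)).card : ℝ)) ^ 2 * (Z / M) := by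
        rw [Finset.natCast_card_filter, sq, Finset.sum_mul_sum, Finset.sum_mul]
        refine Finset.sum_congr rfl fun β _ => ?_
        rw [Finset.sum_mul]
    _ ≤ r := hr

/-- the remainders -/
theorem Q3_rem {N : ℝ} {z kk M : ℕ} {F A : ℝ} (hz : 3 ≤ z) (hkk : 1 ≤ kk)
    (hl : 1 ≤ Real.log z) (hN0 : 0 ≤ N) (hN : N ≤ Real.log z ^ 2 + 1)
    (h4 : (144 * Real.log z ^ 4) ^ kk ≤ z) (hA : 1 ≤ A)
    (hM : (z : ℝ) ^ (2 * kk + 2) * A ^ 2 ≤ M)
    (hF0 : 0 ≤ F) (hF : F ≤ ((z : ℝ) ^ kk + 1) * (N + 1) ^ kk) :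
    F ^ 2 * ((A ^ 2 * 4 ^ kk) / M) ≤ 1 / Real.sqrt z := by
  have hz' : (3 : ℝ) ≤ z := by exact_mod_cast hz
  have hz0 : (0 : ℝ) < z := by linarith
  have hA0 : 0 < A := by linarith
  have hMp : (0 : ℝ) < (z : ℝ) ^ (2 * kk + 2) * A ^ 2 := by positivity
  have h1 : F ≤ 2 * (z : ℝ) ^ kk * (N + 1) ^ kk := by
    refine hF.trans (mul_le_mul_of_nonneg_right ?_ (by positivity))
    have : (1 : ℝ) ≤ (z : ℝ) ^ kk := one_le_pow₀ (by linarith)
    linarith
  have h2 : F ^ 2 ≤ 4 * (z : ℝ) ^ (2 * kk) * ((N + 1) ^ 2) ^ kk := by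
    calc F ^ 2 ≤ (2 * (z : ℝ) ^ kk * (N + 1) ^ kk) ^ 2 := pow_le_pow_left₀ hF0 h1 2
      _ = 4 * (z : ℝ) ^ (2 * kk) * ((N + 1) ^ 2) ^ kk := by
          rw [mul_pow, mul_pow, ← pow_mul, ← pow_mul, ← pow_mul, mul_comm kk 2]
          norm_num
  have h3 : 4 * (4 * (N + 1) ^ 2) ^ kk ≤ z := by
    have h5 : (4 : ℝ) ≤ 4 ^ kk := by
      calc (4 : ℝ) = 4 ^ 1 := by norm_num
        _ ≤ 4 ^ kk := pow_le_pow_right₀ (by norm_num) hkk
    have h6 : N + 1 ≤ 3 * Real.log z ^ 2 := by nlinarith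
    have h7 : (N + 1) ^ 2 ≤ 9 * Real.log z ^ 4 := by
      calc (N + 1) ^ 2 ≤ (3 * Real.log z ^ 2) ^ 2 := pow_le_pow_left₀ (by linarith) h6 2
        _ = 9 * Real.log z ^ 4 := by ring
    calc 4 * (4 * (N + 1) ^ 2) ^ kk ≤ 4 ^ kk * (4 * (N + 1) ^ 2) ^ kk :=
          mul_le_mul_of_nonneg_right h5 (by positivity)
      _ = (4 * (4 * (N + 1) ^ 2)) ^ kk := by rw [← mul_pow]
      _ ≤ (144 * Real.log z ^ 4) ^ kk := pow_le_pow_left₀ (by positivity) (by linarith) kk
      _ ≤ z := h4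
  have h8 : F ^ 2 * ((A ^ 2 * 4 ^ kk) / M) ≤ 1 / (z : ℝ) := by
    calc F ^ 2 * ((A ^ 2 * 4 ^ kk) / M)
        ≤ (4 * (z : ℝ) ^ (2 * kk) * ((N + 1) ^ 2) ^ kk) *
          ((A ^ 2 * 4 ^ kk) / ((z : ℝ) ^ (2 * kk + 2) * A ^ 2)) := by
          refine mul_le_mul h2 ?_ (by positivity) (by positivity)
          exact div_le_div_of_nonneg_left (by positivity) hMp hM
      _ = (4 * (4 * (N + 1) ^ 2) ^ kk) / (z : ℝ) ^ 2 := by
          have e1 : (z : ℝ) ^ (2 * kk + 2) = (z : ℝ) ^ (2 * kk) * (z : ℝ) ^ 2 := pow_add _ _ _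
          have e2 : (4 * (N + 1) ^ 2) ^ kk = 4 ^ kk * ((N + 1) ^ 2) ^ kk := mul_pow _ _ _
          rw [e1, e2]
          have hz1 : (z : ℝ) ^ (2 * kk) ≠ 0 := by positivity
          field_simp
      _ ≤ (z : ℝ) / (z : ℝ) ^ 2 := div_le_div_of_nonneg_right h3 (by positivity)
      _ = 1 / (z : ℝ) := by
          rw [sq]
          field_simp
  refine h8.trans ?_
  refine one_div_le_one_div_of_le (Real.sqrt_pos.mpr hz0) ?_
  rw [Real.sqrt_le_left hz0.le]
  nlinarith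

theorem QF_T (k1 kk : ℕ) (hk1 : 1 ≤ k1) (hkk : 1 ≤ kk) : ∀ᶠ z : ℕ in atTop,
    ∀ (ι : Type) [Fintype ι] [DecidableEq ι] (b : ι → ℕ) (c M : ℕ) (A : ℝ)
      (y : (PP z (z ^ k1) → Option ι) → ℝ) (T : (PP z (z ^ k1) → Option ι) → ℕ → ℝ),
      Function.Injective b → (∀ i, (b i : ℝ) ≤ Real.log z ^ 2) → 1 ≤ A → (∀ β, |y β| ≤ 1) →
      (∀ β, y β ≠ 0 → rr (sp (PP z (z ^ k1)) β) ≤ (z : ℝ) ^ kk) →
      (∀ β, y β ≠ 0 → NormLe (QS (wf z) z) A (T β)) →
      (z : ℝ) ^ (2 * kk + 2) * A ^ 2 ≤ M →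
      |avg M (fun m => PhiG (PP z (z ^ k1)) b y T (c + primorial (wf z) * m) ^ 2) -
          dgG (PP z (z ^ k1)) (QS (wf z) z) y T| ≤
        (1 / Real.sqrt z) * dgG (PP z (z ^ k1)) (QS (wf z) z) y T + 1 / Real.sqrt z := by
  classical
  filter_upwards [Q6_ev kk hkk] with z hev
  obtain ⟨hz3, hl, hlz, h4, h144⟩ := hev
  intro ι _ _ b c M A y T hb hbl hA hy hy2 hT hM
  have hN : (Fintype.card ι : ℝ) ≤ Real.log z ^ 2 + 1 := Q6_card hb (by positivity) hbl
  have hz0 : (0 : ℝ) < z := by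
    have : (3 : ℝ) ≤ z := by exact_mod_cast hz3
    linarith
  have hA0 : 0 < A := by linarith
  have hM0 : 0 < M := by
    have h1 : (0 : ℝ) < (z : ℝ) ^ (2 * kk + 2) * A ^ 2 := by positivity
    exact_mod_cast h1.trans_le hM
  have hcard : ∀ β, y β ≠ 0 → (sp (PP z (z ^ k1)) β).card ≤ kk := fun β h =>
    card_sp_le (by omega) β (hy2 β h)
  have hprime : ∀ p ∈ PP z (z ^ k1), Nat.Prime p := fun p hp => (Finset.mem_filter.mp hp).2
  have hgt : ∀ p ∈ PP z (z ^ k1), z < p := fun p hp =>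
    (Finset.mem_Ioc.mp (Finset.mem_filter.mp hp).1).1
  have hP3 : ∀ p ∈ PP z (z ^ k1), 3 ≤ p := fun p hp => hz3.trans (hgt p hp).le
  have hmod : ∀ p ∈ PP z (z ^ k1), ∀ i j : ι, i ≠ j → ¬ b i ≡ b j [MOD p] := by
    intro p hp i j hij hmod
    have h1 : ∀ i, b i < p := by
      intro i
      have h2 : (b i : ℝ) < z := (hbl i).trans_lt hlz
      have h3 : b i < z := by exact_mod_cast h2
      exact h3.trans (hgt p hp)
    exact hij (hb (Nat.ModEq.eq_of_lt_of_lt hmod (h1 i) (h1 j)))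
  have hQS : 0 < QS (wf z) z := Finset.prod_pos fun p hp => (Finset.mem_filter.mp hp).2.pos
  have hQL : 0 < QL z k1 := Finset.prod_pos fun p hp => (Finset.mem_filter.mp hp).2.pos
  have hpair : ∀ β β', y β ≠ 0 → y β' ≠ 0 →
      |∑ m ∈ range M, T β (c + primorial (wf z) * m) * T β' (c + primorial (wf z) * m) *
          (ee (PP z (z ^ k1)) b β (c + primorial (wf z) * m) *
            ee (PP z (z ^ k1)) b β' (c + primorial (wf z) * m)) -
        M * (mean (QS (wf z) z) (fun n => T β n * T β' n) * KK (PP z (z ^ k1)) β β')| ≤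
        A ^ 2 * 4 ^ kk := by
    intro β β' h1 h2
    have e1 : NormLe (QS (wf z) z) (A * A) (fun n => T β n * T β' n) := (hT β h1).mul (hT β' h2)
    have e2 := ee_norm (PP z (z ^ k1)) hprime b β β'
    have e3 := (e1.dvd (Dvd.intro (QL z k1) rfl)).mul (e2.dvd (Dvd.intro_left (QS (wf z) z) rfl))
    have e4 := e3.avg (Nat.mul_pos hQS hQL) (coprime_W z k1) c M
    have e5 := mean_T_ee (wf z) z k1 (by omega) b hmod β β' (fun n => T β n * T β' n) e1.periodic
    rw [← e5]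
    refine e4.trans ?_
    rw [← sq]
    refine mul_le_mul_of_nonneg_left ?_ (by positivity)
    have h7 := hcard β h1
    have h8 := hcard β' h2
    calc (2 : ℝ) ^ ((sp (PP z (z ^ k1)) β).card + (sp (PP z (z ^ k1)) β').card)
        ≤ 2 ^ (2 * kk) := pow_le_pow_right₀ (by norm_num) (by omega)
      _ = 4 ^ kk := by rw [pow_mul]; norm_num
  have hoff := off_diag_cs (PP z (z ^ k1)) hprime hP3 y
    (fun β β' => mean (QS (wf z) z) (fun n => T β n * T β' n))
    (fun β => mean (QS (wf z) z) (fun n => T β n ^ 2))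
    (fun β => div_nonneg (Finset.sum_nonneg fun _ _ => sq_nonneg _) (Nat.cast_nonneg _))
    (fun β β' => mean_cs _ _ _)
    (δ := 1 / Real.sqrt z)
    (fun β h => Q6_delta hz3 hl hN h4 β (hcard β h))
  have hcfg := card_cfg (ι := ι) (z := z) (u := z ^ k1) (kk := kk) (by omega)
  have hr := Q3_rem (N := (Fintype.card ι : ℝ)) hz3 hkk hl
    (Nat.cast_nonneg _) hN h144 hA hM (Nat.cast_nonneg _) hcfg
  exact Q3_det (PP z (z ^ k1)) (QS (wf z) z) z b y T M (fun m => c + primorial (wf z) * m)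
    (Z := A ^ 2 * 4 ^ kk) (δ := 1 / Real.sqrt z) (kk := kk)
    hM0 (by positivity) hpair hy hy2 (by unfold dgG; convert hoff) (by convert hr using 5)

end Pool.Agent.LibUF16
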