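import Pool.Agent.LibUF16.N2
import Pool.Agent.LibUF16.T2

/-!
Row T3: the norm of `TU`. `tau r (NQ Q B n) = Ub Q r (fun p => xp B p n)`: `∏_{p ∈ D} xp B p n` is the indicator of `D ⊆ {p hit}`, so the sum over
`D` with `#D = t` is `C(NQ, t)` (`Finset.sum_powerset_apply_card`, `Finset.card_powersetCard`). Then `NormLe.sum`, `NormLe.prod`, `NormLe.per`
(`xp_periodic`, `tot_xp`, `nuP_le`; `p ∣ QS`) give the norm `∑_{D ⊆ QB j, #D ≤ 2(r0+j)} k^#D` for the block `j`; the product over the blocks is the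
first term of `Rem (QB w z) (fun j => r0 + j) (JJ z) (fun _ => k)` (the second one is `≥ 0`), so at most `z^(4 r0 + 6)` by `Rem_le` and `rem_ev`
(S4, S5).
-/

open Finset Filter

namespace Pool.Agent.LibUF16

open Pool.Agent.LibRG87 Pool.Agent.LibLG5

theorem tau_NQ (Q B : Finset ℕ) (r n : ℕ) : tau r (NQ Q B n) = Ub Q r (fun p => xp B p n) := by
  classical
  set H := Q.filter fun p => ∃ a ∈ B, p ∣ n + a with hH
  have hN : NQ Q B n = H.card := by
    unfold NQ
    rw [hH]
  have h1 : Ub Q r (fun p => xp B p n) = ∑ D ∈ H.powerset.filter (fun D => #D ≤ 2 * r), (-1 : ℝ) ^ #D := by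
    unfold Ub blk
    have h2 : H.powerset.filter (fun D => #D ≤ 2 * r) ⊆ Q.powerset.filter (fun D => #D ≤ 2 * r) := by
      intro D hD
      rw [mem_filter, mem_powerset] at hD ⊢
      exact ⟨hD.1.trans (filter_subset _ _), hD.2⟩
    rw [← sum_subset h2]
    · refine sum_congr rfl fun D hD => ?_
      rw [mem_filter, mem_powerset] at hD
      have h3 : ∏ p ∈ D, xp B p n = 1 := by
        refine prod_eq_one fun p hp => ?_
        have h4 := hD.1 hp
        rw [hH, mem_filter] at h4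
        unfold xp
        rw [if_pos h4.2]
      rw [h3, mul_one]
    · intro D hD hD'
      rw [mem_filter, mem_powerset] at hD
      have h3 : ¬ D ⊆ H := by
        intro h
        apply hD'
        rw [mem_filter, mem_powerset]
        exact ⟨h, hD.2⟩
      obtain ⟨p, hp, hpH⟩ := not_subset.1 h3
      have h4 : xp B p n = 0 := by
        unfold xp
        rw [if_neg]
        intro h5
        apply hpH
        rw [hH, mem_filter]
        exact ⟨hD.1 hp, h5⟩
      rw [prod_eq_zero hp h4, mul_zero]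
  rw [h1, hN]
  unfold tau
  rw [← sum_fiberwise_of_maps_to (s := H.powerset.filter (fun D => #D ≤ 2 * r)) (t := range (2 * r + 1))
    (g := fun D => #D) (fun D hD => by
      rw [mem_filter] at hD
      exact mem_range.2 (Nat.lt_succ_of_le hD.2))]
  refine sum_congr rfl fun t ht => ?_
  rw [mem_range] at ht
  have h2 : (H.powerset.filter (fun D => #D ≤ 2 * r)).filter (fun D => #D = t) = H.powersetCard t := by
    ext D
    rw [mem_filter, mem_filter, mem_powerset, mem_powersetCard]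
    constructor
    · rintro ⟨⟨h3, -⟩, h4⟩
      exact ⟨h3, h4⟩
    · rintro ⟨h3, h4⟩
      exact ⟨⟨h3, by omega⟩, h4⟩
  rw [h2, sum_congr rfl (g := fun _ => (-1 : ℝ) ^ t) (fun D hD => by rw [(mem_powersetCard.1 hD).2]),
    sum_const, card_powersetCard, nsmul_eq_mul, mul_comm]

theorem QS_pos (w z : ℕ) : 0 < QS w z := by
  unfold QS
  exact prod_pos fun p hp => (mem_PPi.1 hp).2.pos

private theorem T3_block (w z r k : ℕ) (B Q : Finset ℕ) (hB : B.card ≤ k) (hQ : Q ⊆ PP w z) :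
    NormLe (QS w z) (∑ D ∈ Q.powerset with #D ≤ 2 * r, ∏ _p ∈ D, (k : ℝ)) (fun n => tau r (NQ Q B n)) := by
  classical
  have h1 : NormLe (QS w z) (∑ D ∈ Q.powerset with #D ≤ 2 * r, ∏ _p ∈ D, (k : ℝ))
      (fun n => ∑ D ∈ Q.powerset with #D ≤ 2 * r, (-1 : ℝ) ^ #D * ∏ p ∈ D, xp B p n) := by
    refine NormLe.sum _ _ _ fun D hD => ?_
    rw [mem_filter, mem_powerset] at hD
    have h2 : NormLe (QS w z) (∏ _p ∈ D, (k : ℝ)) (fun n => ∏ p ∈ D, xp B p n) := by
      refine NormLe.prod _ _ _ fun p hp => ?_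
      have hp1 := hQ (hD.1 hp)
      have hp2 : p.Prime := (mem_PPi.1 hp1).2
      have h3 : NormLe (QS w z) (∑ x ∈ range p, |xp B p x|) (xp B p) :=
        NormLe.per hp2.pos (by unfold QS; exact dvd_prod_of_mem _ hp1) _ (xp_periodic B p)
      refine h3.mono ?_
      have h4 := tot_xp B p hp2.pos
      unfold tot at h4
      rw [h4]
      exact_mod_cast (nuP_le B p).trans hB
    have h3 := h2.smul ((-1 : ℝ) ^ #D)
    rw [abs_pow, abs_neg, abs_one, one_pow, one_mul] at h3
    exact h3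
  refine h1.congr fun n => ?_
  rw [tau_NQ]
  rfl

theorem TU_norm (k r0 : ℕ) : ∀ᶠ z : ℕ in atTop, ∀ B : Finset ℕ, B.card ≤ k →
    NormLe (QS (wf z) z) ((z : ℝ) ^ (4 * r0 + 6)) (TU (wf z) z r0 B) := by
  filter_upwards [rem_ev k r0, eventually_ge_atTop 1] with z hz hz1 B hB
  have h1 : NormLe (QS (wf z) z) (∏ j ∈ range (JJ z), ∑ D ∈ (QB (wf z) z j).powerset with #D ≤ 2 * (r0 + j),
      ∏ _p ∈ D, (k : ℝ)) (TU (wf z) z r0 B) := by
    unfold TU
    exact NormLe.prod _ _ _ fun j _ => T3_block (wf z) z (r0 + j) k B _ hB (QB_subset _ _ _)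
  refine h1.mono ?_
  have h2 := Rem_le k (wf z) z r0 (JJ z) hz1 (fun _ => (k : ℝ)) (fun p _ => ⟨Nat.cast_nonneg _, le_rfl⟩)
  refine le_trans ?_ (h2.trans hz)
  unfold Rem
  have h3 : 0 ≤ ∑ i ∈ range (JJ z), ∏ j ∈ range (JJ z),
      (if j = i then ∑ D ∈ (QB (wf z) z j).powersetCard (2 * (r0 + j) + 1), ∏ _p ∈ D, (k : ℝ)
      else ∑ D ∈ (QB (wf z) z j).powerset with #D ≤ 2 * (r0 + j), ∏ _p ∈ D, (k : ℝ)) := by
    refine sum_nonneg fun i _ => prod_nonneg fun j _ => ?_
    split_ifs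
    · exact sum_nonneg fun D _ => prod_nonneg fun p _ => Nat.cast_nonneg _
    · exact sum_nonneg fun D _ => prod_nonneg fun p _ => Nat.cast_nonneg _
  linarith

end Pool.Agent.LibUF16
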