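import Pool.Agent.LibUF16.M0
import Pool.Agent.LibUF16.T3
import Pool.Agent.LibUF16.Q3

/-!
Row M3a: mean of `X = PHT²`. `r0 = k1/2`, `a = 4 r0 + 6 ≤ 2 k1 + 6`. `QF_T` with `kk = 2 k1`, `A = z^a` (`TU_norm K r0`, `#(∅ ∪ su β) ≤ K` when `y5 β ≠ 0`; `y5_abs_le`,
`y5_supp`, `Par.hDn`): `4 k1 + 2 + 2 a ≤ 8 k1 + 14 ≤ 32 k1 - 1`, so the level condition holds; `1/√z ≤ δ` for large `z`.
-/

open Finset Filter

namespace Pool.Agent.LibUF16

open Pool.Agent.LibRG87 Pool.Agent.LibLG5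

private theorem M3a_dgG_nonneg {ι : Type} [Fintype ι] [DecidableEq ι] (P : Finset ℕ)
    (hP : ∀ p ∈ P, Nat.Prime p) (q : ℕ) (y : (P → Option ι) → ℝ)
    (T : (P → Option ι) → ℕ → ℝ) : 0 ≤ dgG P q y T := by
  classical
  unfold dgG
  refine Finset.sum_nonneg fun β _ => ?_
  have h1 : 0 ≤ mean q (fun n => T β n ^ 2) := by
    unfold mean
    exact div_nonneg (Finset.sum_nonneg fun _ _ => sq_nonneg _) (Nat.cast_nonneg _)
  have h2 : 0 < ph (sp P β) := by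
    unfold ph
    refine Finset.prod_pos fun p hp => ?_
    have h3 : p ∈ P := by
      unfold sp at hp
      obtain ⟨q, -, rfl⟩ := Finset.mem_image.1 hp
      exact q.2
    have h4 : (2 : ℝ) ≤ p := by exact_mod_cast (hP p h3).two_le
    linarith
  exact div_nonneg (mul_nonneg (sq_nonneg _) h1) h2.le

private theorem M3a_sqrt {δ : ℝ} (hδ : 0 < δ) : ∀ᶠ z : ℕ in atTop, 1 / Real.sqrt z ≤ δ := by
  have h1 : Tendsto (fun z : ℕ => 1 / Real.sqrt (z : ℝ)) atTop (nhds 0) := by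
    have h2 : Tendsto (fun z : ℕ => Real.sqrt (z : ℝ)) atTop atTop :=
      Real.tendsto_sqrt_atTop.comp tendsto_natCast_atTop_atTop
    have h3 := tendsto_inv_atTop_zero.comp h2
    refine h3.congr fun z => ?_
    simp only [Function.comp_apply, one_div]
  exact (h1.eventually (gt_mem_nhds hδ)).mono fun z hz => le_of_lt hz

theorem X_mean {l : ℝ} {q0 k1 K : ℕ} (h : Par l q0 k1 K) (A : ℕ) {δ : ℝ} (hδ : 0 < δ) : ∀ᶠ z : ℕ in atTop,
    ∀ (ι : Type) [Fintype ι] [DecidableEq ι] (b : ι → ℕ) (c M : ℕ), Win l k1 z b → Dat A k1 z c M →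
      |avg M (fun m => PHT z q0 k1 (k1 / 2) b (c + primorial (wf z) * m) ^ 2) -
          DT z q0 k1 (k1 / 2) b| ≤ δ * (DT z q0 k1 (k1 / 2) b + 1) := by
  have hk1 := h.hk1
  filter_upwards [QF_T k1 (2 * k1) (by omega) (by omega), h.hDn, TU_norm K (k1 / 2), M3a_sqrt hδ,
    eventually_ge_atTop 2] with z hQ hDn hN hs hz2
  intro ι _ _ b c M hW hD
  have hP : ∀ p ∈ PP z (z ^ k1), p.Prime := fun p hp => (Finset.mem_filter.1 hp).2
  have hz1 : (1 : ℝ) ≤ z := by exact_mod_cast (by omega : 1 ≤ z)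
  have key := hQ ι b c M ((z : ℝ) ^ (4 * (k1 / 2) + 6)) (y5 (PP z (z ^ k1)) z q0 k1)
    (TE (PP z (z ^ k1)) (wf z) z (k1 / 2) b ∅) hW.inj (fun i => (hW.bd i).2) (one_le_pow₀ hz1)
    (y5_abs_le (PP z (z ^ k1)) z q0 k1 hP hz2 h.hq0 hDn.1 hDn.2)
    (fun β hβ => (y5_supp (PP z (z ^ k1)) z q0 k1 hP hz2 h.hq0 h.hKq β hβ).1)
    (fun β hβ => by
      refine hN (∅ ∪ su (PP z (z ^ k1)) b β) ?_
      rw [Finset.empty_union]
      exact Finset.card_image_le.trans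
        (y5_supp (PP z (z ^ k1)) z q0 k1 hP hz2 h.hq0 h.hKq β hβ).2)
    (by
      rw [← pow_mul, ← pow_add]
      refine (pow_le_pow_right₀ hz1 (?_ : _ ≤ 32 * k1 - 1)).trans ?_
      · omega
      · exact_mod_cast hD.hM)
  have h0 := M3a_dgG_nonneg (PP z (z ^ k1)) hP (QS (wf z) z) (y5 (PP z (z ^ k1)) z q0 k1)
    (TE (PP z (z ^ k1)) (wf z) z (k1 / 2) b ∅)
  change |avg M (fun m => PHT z q0 k1 (k1 / 2) b (c + primorial (wf z) * m) ^ 2) -
          DT z q0 k1 (k1 / 2) b| ≤ (1 / Real.sqrt z) * DT z q0 k1 (k1 / 2) b + 1 / Real.sqrt z at key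
  change 0 ≤ DT z q0 k1 (k1 / 2) b at h0
  refine key.trans ?_
  rw [mul_add, mul_one]
  exact add_le_add (mul_le_mul_of_nonneg_right hs h0) hs

end Pool.Agent.LibUF16
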