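import Pool.Agent.LibUF16.Q6

/-!
Row Q7: the pairs sharing a prime are pointwise tiny (copy of the proof of `LibLG5.Psi2_le`).
-/

open Finset Filter

namespace Pool.Agent.LibUF16

open Pool.Agent.LibRG87 Pool.Agent.LibLG5

section

variable {ι : Type} [Fintype ι] [DecidableEq ι]

theorem Q7_term (P : Finset ℕ) (K : ℕ) (b : ι → ℕ) (n : ℕ) (y : (P → Option ι) → ℝ)
    (T : (P → Option ι) → ℕ → ℝ) (hy : ∀ β, |y β| ≤ 1)
    (hs : ∀ β, y β ≠ 0 → (sui P β).card ≤ K) {τ : ℝ} (hτ : 0 ≤ τ)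
    (hT : ∀ β, y β ≠ 0 → |T β n| ≤ τ) (p : P) (β : P → Option ι) (hp : β p ≠ none) :
    |y β * T β n * ee P b β n| ≤
      τ * (if β p ≠ none ∧ (sui P β).card ≤ K then |ee P b β n| else 0) := by
  by_cases h0 : y β = 0
  · rw [h0, zero_mul, zero_mul, abs_zero]
    refine mul_nonneg hτ ?_
    split_ifs
    · exact abs_nonneg _
    · exact le_rfl
  · rw [if_pos ⟨hp, hs β h0⟩, abs_mul, abs_mul]
    have h4 : |y β| * |T β n| ≤ 1 * τ :=
      mul_le_mul (hy β) (hT β h0) (abs_nonneg _) zero_le_one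
    rw [one_mul] at h4
    exact mul_le_mul_of_nonneg_right h4 (abs_nonneg _)

end

variable {ι ι' : Type} [Fintype ι] [DecidableEq ι] [Fintype ι'] [DecidableEq ι']

theorem Q7_aux (z k1 K t : ℕ) (P : Finset ℕ) (hPdef : P = PP z (z ^ k1)) (hz : 2 ≤ z) (b : ι → ℕ) (b' : ι' → ℕ)
    (hb : Function.Injective (Sum.elim b b')) (hbz : ∀ i, b i < z) (hbz' : ∀ i, b' i < z)
    (y : (P → Option ι) → ℝ) (y' : (P → Option ι') → ℝ)
    (T : (P → Option ι) → ℕ → ℝ) (T' : (P → Option ι') → ℕ → ℝ)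
    (hy : ∀ β, |y β| ≤ 1) (hy' : ∀ β, |y' β| ≤ 1)
    (hs : ∀ β, y β ≠ 0 → (sui P β).card ≤ K)
    (hs' : ∀ β, y' β ≠ 0 → (sui P β).card ≤ K) (n : ℕ) {τ : ℝ} (hτ : 0 ≤ τ)
    (hT : ∀ β, y β ≠ 0 → |T β n| ≤ τ) (hT' : ∀ β, y' β ≠ 0 → |T' β n| ≤ τ)
    (hn : ∀ i, 0 < n + b i ∧ n + b i ≤ z ^ t) (hn' : ∀ i, 0 < n + b' i ∧ n + b' i ≤ z ^ t) :
    |PsiG P b b' y y' T T' n| ≤
      τ ^ 2 * (((1 + Fintype.card ι : ℝ) * (1 + Fintype.card ι') * ((2 * t + 2) / z)) *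
        ((1 + Fintype.card ι : ℝ) * (1 + Fintype.card ι') *
          (2 ^ t * ∏ p ∈ P, (1 + 1 / ((p : ℝ) - 1))) ^ 2) ^ K) := by
  classical
  have hP : ∀ p ∈ P, p.Prime ∧ z < p := by
    intro p hp
    rw [hPdef] at hp
    unfold PP at hp
    rw [mem_filter, mem_Ioc] at hp
    exact ⟨hp.2, hp.1.1⟩
  set X : ℝ := 2 ^ t * ∏ p ∈ P, (1 + 1 / ((p : ℝ) - 1)) with hX
  have hX1 : 1 ≤ X := P3_X_ge P hP
  let G : P → (P → Option ι) → ℝ := fun p β =>
    if β p ≠ none ∧ (sui P β).card ≤ K then |ee P b β n| else 0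
  let G' : P → (P → Option ι') → ℝ := fun p β =>
    if β p ≠ none ∧ (sui P β).card ≤ K then |ee P b' β n| else 0
  have hG : ∀ p β, 0 ≤ G p β := by
    intro p β
    simp only [G]
    split_ifs
    · exact abs_nonneg _
    · exact le_rfl
  have hG' : ∀ p β, 0 ≤ G' p β := by
    intro p β
    simp only [G']
    split_ifs
    · exact abs_nonneg _
    · exact le_rfl
  have h1 : |PsiG P b b' y y' T T' n| ≤
      ∑ β : P → Option ι, ∑ β' : P → Option ι', τ ^ 2 * ∑ p : P, G p β * G' p β' := by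
    unfold PsiG
    refine (abs_sum_le_sum_abs _ _).trans (sum_le_sum fun β _ =>
      (abs_sum_le_sum_abs _ _).trans (sum_le_sum fun β' _ => ?_))
    split_ifs with hdis
    · rw [abs_zero]
      exact mul_nonneg (sq_nonneg τ) (sum_nonneg fun p _ => mul_nonneg (hG p β) (hG' p β'))
    · rw [not_disjoint_iff] at hdis
      obtain ⟨q, hq1, hq2⟩ := hdis
      unfold sp at hq1 hq2
      rw [mem_image] at hq1 hq2
      obtain ⟨p, hp, hpq⟩ := hq1
      obtain ⟨p', hp', hpq'⟩ := hq2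
      have hpp : p' = p := Subtype.ext (hpq'.trans hpq.symm)
      subst hpp
      have hp1 := (mem_filter.1 hp).2
      have hp2 := (mem_filter.1 hp').2
      rw [abs_mul]
      refine le_trans (mul_le_mul (Q7_term P K b n y T hy hs hτ hT p' β hp1)
        (Q7_term P K b' n y' T' hy' hs' hτ hT' p' β' hp2) (abs_nonneg _)
        (mul_nonneg hτ (hG p' β))) ?_
      have hsing : G p' β * G' p' β' ≤ ∑ p : P, G p β * G' p β' :=
        single_le_sum (f := fun p => G p β * G' p β')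
          (fun p _ => mul_nonneg (hG p β) (hG' p β')) (mem_univ p')
      calc τ * G p' β * (τ * G' p' β') = τ ^ 2 * (G p' β * G' p' β') := by ring
        _ ≤ _ := mul_le_mul_of_nonneg_left hsing (sq_nonneg τ)
  have h1' : ∑ β : P → Option ι, ∑ β' : P → Option ι', τ ^ 2 * ∑ p : P, G p β * G' p β' =
      τ ^ 2 * ∑ β : P → Option ι, ∑ β' : P → Option ι', ∑ p : P, G p β * G' p β' := by
    rw [mul_sum]
    exact sum_congr rfl fun β _ => (mul_sum _ _ _).symm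
  have h2 : ∑ β : P → Option ι, ∑ β' : P → Option ι', ∑ p : P, G p β * G' p β' =
      ∑ p : P, (∑ β, G p β) * ∑ β', G' p β' := by
    rw [sum_comm' (s' := fun _ => univ) (t' := univ) (by simp)]
    have h3 : ∀ β' : P → Option ι', ∑ β : P → Option ι, ∑ p : P, G p β * G' p β' =
        ∑ p : P, (∑ β, G p β) * G' p β' := by
      intro β'
      rw [sum_comm]
      exact sum_congr rfl fun p _ => (sum_mul _ _ _).symm
    rw [sum_congr rfl fun β' _ => h3 β', sum_comm]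
    exact sum_congr rfl fun p _ => (mul_sum _ _ _).symm
  have hc1 : (0 : ℝ) ≤ ((1 + Fintype.card ι : ℝ) * X) ^ K := by positivity
  have hc2 : (0 : ℝ) ≤ ((1 + Fintype.card ι' : ℝ) * X) ^ K := by positivity
  have h4 : ∀ p : P, (∑ β, G p β) * ∑ β', G' p β' ≤
      ((∑ i, |psi p (n + b i)|) * ∑ i', |psi p (n + b' i')|) *
        (((1 + Fintype.card ι : ℝ) * X) ^ K * ((1 + Fintype.card ι' : ℝ) * X) ^ K) := by
    intro p
    have h5 := P3_one P hz hP b n hn p K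
    have h6 := P3_one P hz hP b' n hn' p K
    calc _ ≤ ((∑ i, |psi p (n + b i)|) * ((1 + Fintype.card ι : ℝ) * X) ^ K) *
        ((∑ i', |psi p (n + b' i')|) * ((1 + Fintype.card ι' : ℝ) * X) ^ K) :=
          mul_le_mul h5 h6 (sum_nonneg fun β' _ => hG' p β')
            (mul_nonneg (sum_nonneg fun i _ => abs_nonneg _) hc1)
      _ = _ := by ring
  have h7 : ∑ p : P, ((∑ i, |psi p (n + b i)|) * ∑ i', |psi p (n + b' i')|) ≤
      (1 + Fintype.card ι : ℝ) * (1 + Fintype.card ι') * ((2 * t + 2) / z) := by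
    have h8 : ∑ p : P, ((∑ i, |psi p (n + b i)|) * ∑ i', |psi p (n + b' i')|) =
        ∑ i, ∑ i', ∑ p ∈ P, |psi p (n + b i)| * |psi p (n + b' i')| := by
      have h9 : ∀ p : P, ((∑ i, |psi p (n + b i)|) * ∑ i', |psi p (n + b' i')|) =
          ∑ i, ∑ i', |psi p (n + b i)| * |psi p (n + b' i')| := fun p => sum_mul_sum _ _ _ _
      rw [sum_congr rfl fun p _ => h9 p, sum_comm]
      refine sum_congr rfl fun i _ => ?_
      rw [sum_comm]
      refine sum_congr rfl fun i' _ => ?_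
      rw [← prod_coe_sort_sum P fun p => |psi p (n + b i)| * |psi p (n + b' i')|]
    have hz0 : (0 : ℝ) < z := by
      have : 0 < z := by omega
      exact_mod_cast this
    have hT : (0 : ℝ) ≤ (2 * t + 2) / z := by positivity
    rw [h8]
    calc _ ≤ ∑ _i : ι, ∑ _i' : ι', ((2 * t + 2) / z : ℝ) := by
          refine sum_le_sum fun i _ => sum_le_sum fun i' _ => ?_
          rw [hPdef]
          refine P3_two hz (fun h => ?_) (hbz i) (hbz' i') (hn i) (hn' i')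
          have h10 : (Sum.inl i : ι ⊕ ι') = Sum.inr i' := hb h
          exact Sum.inl_ne_inr h10
      _ = (Fintype.card ι : ℝ) * (Fintype.card ι') * ((2 * t + 2) / z) := by
          simp only [sum_const, card_univ, nsmul_eq_mul]
          ring
      _ ≤ _ := by
          refine mul_le_mul_of_nonneg_right ?_ hT
          have ha : (0 : ℝ) ≤ Fintype.card ι := Nat.cast_nonneg _
          have hb : (0 : ℝ) ≤ Fintype.card ι' := Nat.cast_nonneg _
          nlinarith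
  refine (h1.trans_eq h1').trans (mul_le_mul_of_nonneg_left ?_ (sq_nonneg τ))
  rw [h2]
  calc ∑ p : P, (∑ β, G p β) * ∑ β', G' p β' ≤ ∑ p : P, ((∑ i, |psi p (n + b i)|) * ∑ i', |psi p (n + b' i')|) *
        (((1 + Fintype.card ι : ℝ) * X) ^ K * ((1 + Fintype.card ι' : ℝ) * X) ^ K) :=
          sum_le_sum fun p _ => h4 p
    _ = (∑ p : P, ((∑ i, |psi p (n + b i)|) * ∑ i', |psi p (n + b' i')|)) *
        (((1 + Fintype.card ι : ℝ) * X) ^ K * ((1 + Fintype.card ι' : ℝ) * X) ^ K) :=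
          (sum_mul _ _ _).symm
    _ ≤ ((1 + Fintype.card ι : ℝ) * (1 + Fintype.card ι') * ((2 * t + 2) / z)) *
        (((1 + Fintype.card ι : ℝ) * X) ^ K * ((1 + Fintype.card ι' : ℝ) * X) ^ K) :=
          mul_le_mul_of_nonneg_right h7 (mul_nonneg hc1 hc2)
    _ = _ := by
          rw [← mul_pow]
          congr 2
          ring
where
  prod_coe_sort_sum (P : Finset ℕ) (f : ℕ → ℝ) : ∑ p : P, f p = ∑ p ∈ P, f p :=
    sum_coe_sort P f

theorem PsiG_le (z k1 K t : ℕ) (hz : 2 ≤ z) (b : ι → ℕ) (b' : ι' → ℕ)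
    (hb : Function.Injective (Sum.elim b b')) (hbz : ∀ i, b i < z) (hbz' : ∀ i, b' i < z)
    (y : (PP z (z ^ k1) → Option ι) → ℝ) (y' : (PP z (z ^ k1) → Option ι') → ℝ)
    (T : (PP z (z ^ k1) → Option ι) → ℕ → ℝ) (T' : (PP z (z ^ k1) → Option ι') → ℕ → ℝ)
    (hy : ∀ β, |y β| ≤ 1) (hy' : ∀ β, |y' β| ≤ 1)
    (hs : ∀ β, y β ≠ 0 → (sui (PP z (z ^ k1)) β).card ≤ K)
    (hs' : ∀ β, y' β ≠ 0 → (sui (PP z (z ^ k1)) β).card ≤ K) (n : ℕ) {τ : ℝ} (hτ : 0 ≤ τ)
    (hT : ∀ β, y β ≠ 0 → |T β n| ≤ τ) (hT' : ∀ β, y' β ≠ 0 → |T' β n| ≤ τ)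
    (hn : ∀ i, 0 < n + b i ∧ n + b i ≤ z ^ t) (hn' : ∀ i, 0 < n + b' i ∧ n + b' i ≤ z ^ t) :
    |PsiG (PP z (z ^ k1)) b b' y y' T T' n| ≤
      τ ^ 2 * (((1 + Fintype.card ι : ℝ) * (1 + Fintype.card ι') * ((2 * t + 2) / z)) *
        ((1 + Fintype.card ι : ℝ) * (1 + Fintype.card ι') *
          (2 ^ t * ∏ p ∈ PP z (z ^ k1), (1 + 1 / ((p : ℝ) - 1))) ^ 2) ^ K) := by
  exact Q7_aux z k1 K t (PP z (z ^ k1)) rfl hz b b' hb hbz hbz' y y' T T' hy hy' hs hs' n hτ hT hT'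
    hn hn'

end Pool.Agent.LibUF16
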