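import Pool.Agent.LibUF16.Defs

/-!
Row Q9: the bound of `PsiG_le` is small. `S = ∏ (1 + 1/(p-1)) ≤ CS k1` (`LibLG5.NT_S_upper`), `1 + x ≤ 3 log² z`, so the bound is
`≤ τ² C L^(4(K+1))/z` with `L = log z`; `(τ² C L^j)^4 = τ^8 (C L^j)^4 ≤ z (C L^j)^4 ≤ z²` as `(C L^j)^4 ≤ z` (`LibLG5.log_pow_le`), so `τ² C L^j ≤ √z`
(compare `LibLG5.P4_small`).
-/

open Finset Filter

namespace Pool.Agent.LibUF16

open Pool.Agent.LibRG87 Pool.Agent.LibLG5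

theorem Q9_small {K t z : ℕ} {L S x y τ : ℝ} (hL : 1 ≤ L) (hx0 : 0 ≤ x) (hy0 : 0 ≤ y)
    (hx : x ≤ L ^ 2 + 1) (hy : y ≤ L ^ 2 + 1) {B : ℝ} (hS0 : 0 ≤ S) (hS : S ≤ B) (hz : 0 < z)
    (hτ : 0 ≤ τ) (hτ8 : τ ^ 8 ≤ z)
    (h : ((9 ^ (K + 1) * (2 * t + 2) * (2 ^ t * B) ^ (2 * K)) * L ^ (4 * (K + 1))) ^ 4 ≤ (z : ℝ)) :
    τ ^ 2 * (((1 + x) * (1 + y) * ((2 * t + 2) / z)) *
      ((1 + x) * (1 + y) * (2 ^ t * S) ^ 2) ^ K) ≤ 1 / Real.sqrt z := by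
  have hz' : (0 : ℝ) < z := by exact_mod_cast hz
  have hL2 : 1 ≤ L ^ 2 := one_le_pow₀ hL
  have h1 : (1 + x) * (1 + y) ≤ 9 * L ^ 4 := by
    have h2 : 1 + x ≤ 3 * L ^ 2 := by linarith
    have h3 : 1 + y ≤ 3 * L ^ 2 := by linarith
    calc (1 + x) * (1 + y) ≤ (3 * L ^ 2) * (3 * L ^ 2) :=
          mul_le_mul h2 h3 (by linarith) (by positivity)
      _ = 9 * L ^ 4 := by ring
  have h0 : 0 ≤ (1 + x) * (1 + y) := by positivity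
  have hSB : (2 ^ t * S) ^ 2 ≤ (2 ^ t * B) ^ 2 :=
    pow_le_pow_left₀ (by positivity) (mul_le_mul_of_nonneg_left hS (by positivity)) 2
  have h2 : ((1 + x) * (1 + y) * (2 ^ t * S) ^ 2) ^ K ≤ (9 * L ^ 4 * (2 ^ t * B) ^ 2) ^ K :=
    pow_le_pow_left₀ (by positivity) (mul_le_mul h1 hSB (by positivity) (by positivity)) K
  have h3 : (1 + x) * (1 + y) * ((2 * t + 2) / z) ≤ 9 * L ^ 4 * ((2 * t + 2) / z) :=
    mul_le_mul_of_nonneg_right h1 (by positivity)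
  have h4 := mul_le_mul h3 h2 (by positivity) (by positivity)
  refine (mul_le_mul_of_nonneg_left h4 (sq_nonneg τ)).trans ?_
  set A : ℝ := (9 ^ (K + 1) * (2 * t + 2) * (2 ^ t * B) ^ (2 * K)) * L ^ (4 * (K + 1)) with hA
  have hB0 : 0 ≤ B := hS0.trans hS
  have hA0 : 0 ≤ A := by positivity
  have h5 : 9 * L ^ 4 * ((2 * t + 2) / z) * (9 * L ^ 4 * (2 ^ t * B) ^ 2) ^ K = A / z := by
    rw [hA, mul_pow, mul_pow, ← pow_mul, ← pow_mul, pow_succ, mul_add 4, pow_add L]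
    ring
  rw [h5]
  have h7 : (τ ^ 2 * A) ^ 2 ≤ (z : ℝ) := by
    have h8 : ((τ ^ 2 * A) ^ 2) ^ 2 ≤ (z : ℝ) ^ 2 := by
      calc ((τ ^ 2 * A) ^ 2) ^ 2 = τ ^ 8 * A ^ 4 := by ring
        _ ≤ (z : ℝ) * z := mul_le_mul hτ8 h (by positivity) hz'.le
        _ = (z : ℝ) ^ 2 := by ring
    exact (abs_le_of_sq_le_sq' h8 hz'.le).2
  have h6 : τ ^ 2 * A ≤ Real.sqrt z := Real.le_sqrt_of_sq_le h7
  rw [← mul_div_assoc, div_le_div_iff₀ hz' (Real.sqrt_pos.2 hz')]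
  calc τ ^ 2 * A * Real.sqrt z ≤ Real.sqrt z * Real.sqrt z :=
        mul_le_mul_of_nonneg_right h6 (Real.sqrt_nonneg _)
    _ = 1 * z := by rw [Real.mul_self_sqrt hz'.le, one_mul]

/-- the bound is at most `1/√z` when `τ = z^(1/8)`, i.e. `τ^8 ≤ z` -/
theorem PsiG_small (k1 K t : ℕ) (hk1 : 1 ≤ k1) : ∀ᶠ z : ℕ in atTop, ∀ x y τ : ℝ, 0 ≤ x → 0 ≤ y →
    x ≤ Real.log z ^ 2 + 1 → y ≤ Real.log z ^ 2 + 1 → 0 ≤ τ → τ ^ 8 ≤ z →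
    τ ^ 2 * (((1 + x) * (1 + y) * ((2 * t + 2) / z)) *
        ((1 + x) * (1 + y) *
          (2 ^ t * ∏ p ∈ PP z (z ^ k1), (1 + 1 / ((p : ℝ) - 1))) ^ 2) ^ K) ≤ 1 / Real.sqrt z := by
  obtain ⟨CS, hCS1, hCS⟩ := NT_S_upper
  have hA := log_pow_le 4 (4 * (K + 1)) (by norm_num)
    (9 ^ (K + 1) * (2 * t + 2) * (2 ^ t * ((CS : ℝ) * k1)) ^ (2 * K))
  filter_upwards [hCS k1 hk1, hA, eventually_ge_atTop 4] with z hS hA hz4
  intro x y τ hx0 hy0 hx hy hτ hτ8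
  have hL1 : 1 ≤ Real.log z := by
    have h1 : Real.log 4 ≤ Real.log z := Real.log_le_log (by norm_num) (by exact_mod_cast hz4)
    have h2 : Real.log 4 = 2 * Real.log 2 := by
      rw [show (4 : ℝ) = 2 ^ 2 by norm_num, Real.log_pow]
      norm_num
    have h3 := Real.log_two_gt_d9
    linarith
  refine Q9_small hL1 hx0 hy0 hx hy ?_ hS (by omega) hτ hτ8 hA
  refine prod_nonneg fun p hp => ?_
  have hp' : p.Prime := by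
    unfold PP at hp
    rw [mem_filter] at hp
    exact hp.2
  have h1 : (2 : ℝ) ≤ p := by exact_mod_cast hp'.two_le
  have h2 : 0 ≤ 1 / ((p : ℝ) - 1) := div_nonneg zero_le_one (by linarith)
  linarith

end Pool.Agent.LibUF16
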