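import Pool.Agent.LibUF16.T2

/-!
Row T4: a pointwise bound. `TU ≤ 2^(∑_j NQ (QB j) B n) = 2^(NQ (PP w z) B n)` (`tau_le`, the blocks are disjoint: `QB_disjoint`, `QB_subset`), and
`NQ (PP w z) B n ≤ ∑_{a ∈ B} #{p ∈ PP w z | p ∣ n + a}`; the number of primes `> w` dividing `n + a ≤ z^t` is at most `t log z / log w`
(`w^# ≤ ∏ p ≤ n + a`), so `TU^s ≤ 2^(s K t log z/log w) ≤ z` once `log w ≥ s K t` (`wf_tendsto`).
-/

open Finset Filter

namespace Pool.Agent.LibUF16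

open Pool.Agent.LibRG87 Pool.Agent.LibLG5

theorem T4_cnt (w z m : ℕ) (hm : 0 < m) :
    w ^ ((PP w z).filter fun p => p ∣ m).card ≤ m := by
  have h1 : ∏ p ∈ (PP w z).filter (fun p => p ∣ m), p ∣ m := by
    apply Finset.prod_primes_dvd
    · intro p hp
      have h2 := (Finset.mem_filter.1 hp).1
      exact Nat.Prime.prime (Finset.mem_filter.1 h2).2
    · intro p hp
      exact (Finset.mem_filter.1 hp).2
  refine le_trans ?_ (Nat.le_of_dvd hm h1)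
  apply Finset.pow_card_le_prod
  intro p hp
  have h2 := (Finset.mem_filter.1 hp).1
  exact (Finset.mem_Ioc.1 (Finset.mem_filter.1 h2).1).1.le

theorem T4_NQ (P B : Finset ℕ) (n : ℕ) :
    NQ P B n ≤ ∑ a ∈ B, (P.filter fun p => p ∣ n + a).card := by
  classical
  unfold NQ
  refine le_trans (Finset.card_le_card ?_) Finset.card_biUnion_le
  intro p hp
  obtain ⟨h1, a, ha, h2⟩ := Finset.mem_filter.1 hp
  rw [Finset.mem_biUnion]
  exact ⟨a, ha, Finset.mem_filter.2 ⟨h1, h2⟩⟩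

theorem T4_pow (w z t K : ℕ) (hz : 1 ≤ z) (B : Finset ℕ) (n : ℕ) (hw : 1 ≤ w) (hK : B.card ≤ K)
    (hB : ∀ a ∈ B, 0 < n + a ∧ n + a ≤ z ^ t) : w ^ NQ (PP w z) B n ≤ z ^ (K * t) := by
  calc w ^ NQ (PP w z) B n ≤ w ^ ∑ a ∈ B, ((PP w z).filter fun p => p ∣ n + a).card :=
        Nat.pow_le_pow_right hw (T4_NQ _ _ _)
    _ = ∏ a ∈ B, w ^ ((PP w z).filter fun p => p ∣ n + a).card :=
        (Finset.prod_pow_eq_pow_sum _ _ _).symm
    _ ≤ ∏ a ∈ B, z ^ t := by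
        refine Finset.prod_le_prod' fun a ha => ?_
        exact (T4_cnt w z (n + a) (hB a ha).1).trans (hB a ha).2
    _ = (z ^ t) ^ B.card := Finset.prod_const _
    _ ≤ (z ^ t) ^ K := Nat.pow_le_pow_right (Nat.pow_pos hz) hK
    _ = z ^ (K * t) := by rw [← pow_mul, mul_comm]

theorem T4_sum (w z : ℕ) (B : Finset ℕ) (n : ℕ) :
    ∑ j ∈ range (JJ z), NQ (QB w z j) B n ≤ NQ (PP w z) B n := by
  classical
  unfold NQ
  rw [← Finset.card_biUnion]
  · apply Finset.card_le_card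
    intro p hp
    rw [Finset.mem_biUnion] at hp
    obtain ⟨j, -, hp⟩ := hp
    obtain ⟨h1, h2⟩ := Finset.mem_filter.1 hp
    exact Finset.mem_filter.2 ⟨QB_subset w z j h1, h2⟩
  · intro i _ j _ hij
    exact Finset.disjoint_filter_filter (QB_disjoint w z i j hij)

theorem T4_TU (w z r0 : ℕ) (B : Finset ℕ) (n : ℕ) :
    TU w z r0 B n ≤ 2 ^ NQ (PP w z) B n := by
  unfold TU
  calc ∏ j ∈ range (JJ z), tau (r0 + j) (NQ (QB w z j) B n)
      ≤ ∏ j ∈ range (JJ z), (2 : ℝ) ^ NQ (QB w z j) B n :=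
        Finset.prod_le_prod (fun j _ => tau_nonneg _ _) (fun j _ => tau_le _ _)
    _ = (2 : ℝ) ^ ∑ j ∈ range (JJ z), NQ (QB w z j) B n := Finset.prod_pow_eq_pow_sum _ _ _
    _ ≤ (2 : ℝ) ^ NQ (PP w z) B n := pow_le_pow_right₀ (by norm_num) (T4_sum w z B n)

theorem T4_nat (w z t K s N : ℕ) (hz : 1 ≤ z) (hw : 2 ≤ w) (hw2 : 2 ^ (s * (K * t)) ≤ w)
    (h : w ^ N ≤ z ^ (K * t)) : 2 ^ (N * s) ≤ z := by
  rcases Nat.eq_zero_or_pos (K * t) with h0 | h0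
  · rw [h0, pow_zero] at h
    have hN : N = 0 := by
      by_contra hN
      have h1 : 2 ^ 1 ≤ w ^ N := by
        calc 2 ^ 1 ≤ 2 ^ N := Nat.pow_le_pow_right (by norm_num) (Nat.one_le_iff_ne_zero.2 hN)
          _ ≤ w ^ N := Nat.pow_le_pow_left hw N
      omega
    rw [hN, zero_mul, pow_zero]
    exact hz
  · have h1 : (2 ^ (N * s)) ^ (K * t) ≤ z ^ (K * t) := by
      calc (2 ^ (N * s)) ^ (K * t) = (2 ^ (s * (K * t))) ^ N := by
            rw [← pow_mul, ← pow_mul]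
            congr 1
            ring
        _ ≤ w ^ N := Nat.pow_le_pow_left hw2 N
        _ ≤ z ^ (K * t) := h
    exact (Nat.pow_le_pow_iff_left h0.ne').1 h1

theorem TU_pow_le (K t s : ℕ) : ∀ᶠ z : ℕ in atTop, ∀ (r0 : ℕ) (B : Finset ℕ) (n : ℕ), B.card ≤ K →
    (∀ a ∈ B, 0 < n + a ∧ n + a ≤ z ^ t) → TU (wf z) z r0 B n ^ s ≤ z := by
  filter_upwards [wf_tendsto.eventually_ge_atTop (max 2 (2 ^ (s * (K * t)))),
    eventually_ge_atTop 1] with z hw hz r0 B n hK hB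
  have hw1 : 2 ≤ wf z := le_trans (le_max_left _ _) hw
  have hw2 : 2 ^ (s * (K * t)) ≤ wf z := le_trans (le_max_right _ _) hw
  have h1 := T4_pow (wf z) z t K hz B n (by omega) hK hB
  have h2 := T4_nat (wf z) z t K s _ hz hw1 hw2 h1
  calc TU (wf z) z r0 B n ^ s ≤ ((2 : ℝ) ^ NQ (PP (wf z) z) B n) ^ s :=
        pow_le_pow_left₀ (TU_nonneg _ _ _ _ _) (T4_TU _ _ _ _ _) s
    _ = ((2 ^ (NQ (PP (wf z) z) B n * s) : ℕ) : ℝ) := by
        rw [← pow_mul]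
        push_cast
        rfl
    _ ≤ z := by exact_mod_cast h2

end Pool.Agent.LibUF16
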