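import Pool.Agent.LibUF16.M0
import Pool.Agent.LibUF16.T3
import Pool.Agent.LibUF16.Q3

/-!
Row M4a: mean of `YT = ∑_i FT_i²`. `r0 = k1/2`, `a = 4 r0 + 6 ≤ 2 k1 + 6`; `card ι ≤ log² z` (`LibLG5.P4_card`). `QF_T` for each `i` with `kk = 3 k1`, `A = z^a`
(`TU_norm (K+2) r0`, `#({b i} ∪ su β) ≤ K + 2`, `ys5_supp`, `ys5_abs_le`): `6 k1 + 2 + 2 a ≤ 10 k1 + 14 ≤ 32 k1 - 1`; sum over `i`: the error is
`≤ (1/√z) DY + card ι/√z`, and `log² z/√z → 0`.
-/

open Finset Filter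

namespace Pool.Agent.LibUF16

open Pool.Agent.LibRG87 Pool.Agent.LibLG5

private theorem M4a_dgG_nonneg {ι : Type} [Fintype ι] [DecidableEq ι] (P : Finset ℕ)
    (hP : ∀ p ∈ P, Nat.Prime p) (q : ℕ) (y : (P → Option ι) → ℝ)
    (T : (P → Option ι) → ℕ → ℝ) : 0 ≤ dgG P q y T := by
  classical
  unfold dgG
  refine Finset.sum_nonneg fun β _ => ?_
  have h1 : 0 ≤ mean q (fun n => T β n ^ 2) := by
    unfold mean
    exact div_nonneg (Finset.sum_nonneg fun _ _ => sq_nonneg _) (Nat.cast_nonneg _)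
  have h2 : 0 < ph (sp P β) := by
    unfold ph
    refine Finset.prod_pos fun p hp => ?_
    have h3 : p ∈ P := by
      unfold sp at hp
      obtain ⟨q, -, rfl⟩ := Finset.mem_image.1 hp
      exact q.2
    have h4 : (2 : ℝ) ≤ p := by exact_mod_cast (hP p h3).two_le
    linarith
  exact div_nonneg (mul_nonneg (sq_nonneg _) h1) h2.le

private theorem M4a_log {δ : ℝ} (hδ : 0 < δ) :
    ∀ᶠ z : ℕ in atTop, Real.log z ^ 2 * (1 / Real.sqrt z) ≤ δ := by
  have h1 : (fun x : ℝ => Real.log x ^ (2 : ℝ)) =o[atTop] fun x => x ^ (1 / 2 : ℝ) :=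
    isLittleO_log_rpow_rpow_atTop 2 (by norm_num)
  have h2 := (h1.def hδ).and (eventually_ge_atTop 1)
  have h3 := tendsto_natCast_atTop_atTop.eventually h2
  filter_upwards [h3] with z hz
  obtain ⟨ha, hb⟩ := hz
  have h4 : 0 ≤ Real.log (z : ℝ) := Real.log_nonneg hb
  rw [Real.norm_of_nonneg (Real.rpow_nonneg h4 _), Real.norm_of_nonneg (by positivity),
    ← Real.sqrt_eq_rpow] at ha
  have h5 : Real.log (z : ℝ) ^ (2 : ℝ) = Real.log (z : ℝ) ^ 2 := by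
    exact_mod_cast Real.rpow_natCast (Real.log (z : ℝ)) 2
  rw [h5] at ha
  have h6 : 0 < Real.sqrt (z : ℝ) := Real.sqrt_pos.2 (by linarith)
  rw [mul_one_div, div_le_iff₀ h6]
  exact ha

private theorem M4a_avg_sum {ι : Type} [Fintype ι] (M : ℕ) (F : ι → ℕ → ℝ) :
    avg M (fun m => ∑ i, F i m) = ∑ i, avg M (F i) := by
  unfold avg
  rw [Finset.sum_comm, Finset.sum_div]

theorem Y_mean {l : ℝ} {q0 k1 K : ℕ} (h : Par l q0 k1 K) (A : ℕ) {δ : ℝ} (hδ : 0 < δ) : ∀ᶠ z : ℕ in atTop,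
    ∀ (ι : Type) [Fintype ι] [DecidableEq ι] (b : ι → ℕ) (c M : ℕ), Win l k1 z b → Dat A k1 z c M →
      |avg M (fun m => YT z q0 k1 (k1 / 2) b (c + primorial (wf z) * m)) -
          DY z q0 k1 (k1 / 2) b| ≤ δ * (DY z q0 k1 (k1 / 2) b + 1) := by
  have hk1 := h.hk1
  filter_upwards [QF_T k1 (3 * k1) (by omega) (by omega), h.hDn, TU_norm (K + 2) (k1 / 2),
    M4a_log hδ, eventually_ge_atTop 3] with z hQ hDn hN hs hz3
  intro ι _ _ b c M hW hD
  have hz2 : 2 ≤ z := by omega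
  have hP : ∀ p ∈ PP z (z ^ k1), p.Prime := fun p hp => (Finset.mem_filter.1 hp).2
  have hz1 : (1 : ℝ) ≤ z := by exact_mod_cast (by omega : 1 ≤ z)
  have hlog : 1 ≤ Real.log (z : ℝ) := by
    have h1 : Real.exp 1 ≤ z := by
      have h2 := Real.exp_one_lt_d9
      have h3 : (3 : ℝ) ≤ z := by exact_mod_cast hz3
      linarith
    exact (Real.le_log_iff_exp_le (by linarith)).2 h1
  have hsq : 0 < 1 / Real.sqrt (z : ℝ) := by
    have : 0 < Real.sqrt (z : ℝ) := Real.sqrt_pos.2 (by linarith)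
    positivity
  have hs1 : 1 / Real.sqrt (z : ℝ) ≤ δ := by
    refine le_trans ?_ hs
    exact le_mul_of_one_le_left hsq.le (one_le_pow₀ hlog)
  have key : ∀ i, |avg M (fun m => FT z q0 k1 (k1 / 2) b i (c + primorial (wf z) * m) ^ 2) -
      DFT z q0 k1 (k1 / 2) b i| ≤
        (1 / Real.sqrt z) * DFT z q0 k1 (k1 / 2) b i + 1 / Real.sqrt z := fun i =>
    hQ ι b c M ((z : ℝ) ^ (4 * (k1 / 2) + 6)) (ys5 (PP z (z ^ k1)) z q0 k1 i)
      (TE (PP z (z ^ k1)) (wf z) z (k1 / 2) b {b i}) hW.inj (fun i => (hW.bd i).2)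
      (one_le_pow₀ hz1)
      (ys5_abs_le (PP z (z ^ k1)) z q0 k1 hP hz2 h.hq0 hDn.1 hDn.2 i)
      (fun β hβ => (ys5_supp (PP z (z ^ k1)) z q0 k1 hP hz2 h.hq0 h.hKq i β hβ).1)
      (fun β hβ => by
        refine hN ({b i} ∪ su (PP z (z ^ k1)) b β) ?_
        refine (Finset.card_union_le _ _).trans ?_
        have h1 : (su (PP z (z ^ k1)) b β).card ≤ K + 1 := Finset.card_image_le.trans
          (ys5_supp (PP z (z ^ k1)) z q0 k1 hP hz2 h.hq0 h.hKq i β hβ).2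
        rw [Finset.card_singleton]
        omega)
      (by
        rw [← pow_mul, ← pow_add]
        refine (pow_le_pow_right₀ hz1 (?_ : _ ≤ 32 * k1 - 1)).trans ?_
        · omega
        · exact_mod_cast hD.hM)
  have h0 : 0 ≤ DY z q0 k1 (k1 / 2) b := Finset.sum_nonneg fun i _ =>
    M4a_dgG_nonneg (PP z (z ^ k1)) hP (QS (wf z) z) (ys5 (PP z (z ^ k1)) z q0 k1 i)
      (TE (PP z (z ^ k1)) (wf z) z (k1 / 2) b {b i})
  have h1 : avg M (fun m => YT z q0 k1 (k1 / 2) b (c + primorial (wf z) * m)) -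
      DY z q0 k1 (k1 / 2) b =
      ∑ i, (avg M (fun m => FT z q0 k1 (k1 / 2) b i (c + primorial (wf z) * m) ^ 2) -
        DFT z q0 k1 (k1 / 2) b i) := by
    rw [Finset.sum_sub_distrib]
    unfold YT DY
    rw [M4a_avg_sum M fun i m => FT z q0 k1 (k1 / 2) b i (c + primorial (wf z) * m) ^ 2]
  rw [h1]
  have hcard : (Fintype.card ι : ℝ) ≤ Real.log z ^ 2 :=
    P4_card b hW.inj (by positivity) hW.bd
  calc |∑ i, (avg M (fun m => FT z q0 k1 (k1 / 2) b i (c + primorial (wf z) * m) ^ 2) -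
        DFT z q0 k1 (k1 / 2) b i)|
      ≤ ∑ i, |avg M (fun m => FT z q0 k1 (k1 / 2) b i (c + primorial (wf z) * m) ^ 2) -
        DFT z q0 k1 (k1 / 2) b i| := Finset.abs_sum_le_sum_abs _ _
    _ ≤ ∑ i, ((1 / Real.sqrt z) * DFT z q0 k1 (k1 / 2) b i + 1 / Real.sqrt z) :=
        Finset.sum_le_sum fun i _ => key i
    _ = (1 / Real.sqrt z) * DY z q0 k1 (k1 / 2) b + Fintype.card ι * (1 / Real.sqrt z) := by
        rw [Finset.sum_add_distrib, ← Finset.mul_sum, Finset.sum_const, Finset.card_univ,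
          nsmul_eq_mul]
        rfl
    _ ≤ δ * DY z q0 k1 (k1 / 2) b + δ := by
        refine add_le_add (mul_le_mul_of_nonneg_right hs1 h0) ?_
        exact (mul_le_mul_of_nonneg_right hcard hsq.le).trans hs
    _ = δ * (DY z q0 k1 (k1 / 2) b + 1) := by ring

end Pool.Agent.LibUF16
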