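import Pool.Agent.LibUF16.M0
import Pool.Agent.LibUF16.T3
import Pool.Agent.LibUF16.Q3
import Pool.Agent.LibUF16.T4
import Pool.Agent.LibUF16.Q7
import Pool.Agent.LibUF16.Q8
import Pool.Agent.LibUF16.Q9
import Pool.Agent.LibUF16.E6

/-!
Row M4b: pair of `YT = ∑_i FT_i²` (compare `LibLG5.pair`, P4, and row M3b). `r0 = k1/2`, `a = 4 r0 + 6 ≤ 2 k1 + 6`; `card ι ≤ log² z` (`LibLG5.P4_card`).
`YT YT' = ∑_{i,i'} (FT_i FT'_i')²`, `FT_i FT'_i' = PhiG (Sum.elim b b') (yP ..) (TP ..) + PsiG` (`PhiG_mul`), `(F + Ψ)² ≤ (1 + η) F² + (1 + 1/η) Ψ²`, `QF_T` with `kk = 6 k1`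
(`ys5_supp`, `yP_supp`), `A = z^(2a)`: `12 k1 + 2 + 4 a ≤ 20 k1 + 26 ≤ 32 k1 - 1`; `dgG ≤ (1 + η) DFT_i DFT'_i'` (`dgG_pair`, `RR_dec (K+2) 2`, the sets `{b i} ∪ su β`,
`{b' i'} ∪ su β'` are disjoint); `|Ψ| ≤ 1/√z` (`PsiG_le` with `K + 1`, `PsiG_small`, `τ = z^(1/8)` from `TU_pow_le (K+2) t 8`, `t = 32 k1 + 1`); sum over `i, i'`
(`∑ ∑ DFT_i DFT'_i' = DY DY'`): the constants give `card ι card ι' (..)/√z → 0`.
-/

open Finset Filter

namespace Pool.Agent.LibUF16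

open Pool.Agent.LibRG87 Pool.Agent.LibLG5

theorem M4b_final {e r D D2 AF : ℝ} (he : 0 < e) (he1 : e < 1) (hr0 : 0 ≤ r) (hr : r ≤ e / 64)
    (hD : 0 ≤ D) (hD2 : D2 ≤ (1 + e / 16) * D) (hAF : AF ≤ D2 + (r * D2 + r)) :
    (1 + e / 16) * AF + (1 + 16 / e) * r ^ 2 ≤ (1 + e) * D + (3 + 16 / e) * r := by
  have h1 : AF ≤ (1 + r) * ((1 + e / 16) * D) + r := by
    have h2 : (1 + r) * D2 ≤ (1 + r) * ((1 + e / 16) * D) :=
      mul_le_mul_of_nonneg_left hD2 (by linarith)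
    linarith
  have h2 : (1 + e / 16) * AF ≤ (1 + e / 16) * ((1 + r) * ((1 + e / 16) * D) + r) :=
    mul_le_mul_of_nonneg_left h1 (by linarith)
  have h3 : (1 + e / 16) * ((1 + r) * (1 + e / 16)) ≤ 1 + e := by
    have h4 : (1 + e / 16) * ((1 + r) * (1 + e / 16)) ≤
        (1 + e / 16) * ((1 + e / 64) * (1 + e / 16)) :=
      mul_le_mul_of_nonneg_left (mul_le_mul_of_nonneg_right (by linarith) (by linarith))
        (by linarith)
    have h5 : (1 + e / 16) * ((1 + e / 64) * (1 + e / 16)) ≤ 1 + e := by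
      have e2 : e ^ 2 ≤ e := by nlinarith
      have e3 : e ^ 3 ≤ e := by
        have : e ^ 3 = e * e ^ 2 := by ring
        rw [this]
        nlinarith [sq_nonneg e]
      nlinarith
    linarith
  have h4 := mul_le_mul_of_nonneg_right h3 hD
  have h5 : r ^ 2 ≤ r := by nlinarith
  have h6 : 0 < 1 + 16 / e := by positivity
  have h7 : (1 + 16 / e) * r ^ 2 ≤ (1 + 16 / e) * r := mul_le_mul_of_nonneg_left h5 h6.le
  have h8 : (1 + e / 16) * r ≤ 2 * r := mul_le_mul_of_nonneg_right (by linarith) hr0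
  nlinarith

/-- the pair of two general functions of two windows -/
theorem M4b_gen (A k1 K K' a r0 : ℕ) (hk1 : 8 ≤ k1) (ha : 1 ≤ a)
    (hexp : 2 * (2 * a) + 2 + 4 * (4 * r0 + 6) ≤ 32 * k1 - 1) {e : ℝ} (he : 0 < e) (he1 : e < 1) :
    ∀ᶠ z : ℕ in atTop, ∀ (ι ι' : Type) [Fintype ι] [DecidableEq ι] [Fintype ι'] [DecidableEq ι']
      (b : ι → ℕ) (b' : ι' → ℕ) (c M : ℕ), Function.Injective (Sum.elim b b') →
      (∀ i, 1 ≤ b i ∧ (b i : ℝ) ≤ Real.log z ^ 2) → (∀ i, 1 ≤ b' i ∧ (b' i : ℝ) ≤ Real.log z ^ 2) →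
      Dat A k1 z c M →
      ∀ (y : (PP z (z ^ k1) → Option ι) → ℝ) (y' : (PP z (z ^ k1) → Option ι') → ℝ)
        (E : (PP z (z ^ k1) → Option ι) → Finset ℕ) (E' : (PP z (z ^ k1) → Option ι') → Finset ℕ),
      (∀ β, |y β| ≤ 1) → (∀ β, |y' β| ≤ 1) →
      (∀ β, y β ≠ 0 → rr (sp (PP z (z ^ k1)) β) ≤ (z : ℝ) ^ a ∧ (sui (PP z (z ^ k1)) β).card ≤ K) →
      (∀ β, y' β ≠ 0 → rr (sp (PP z (z ^ k1)) β) ≤ (z : ℝ) ^ a ∧ (sui (PP z (z ^ k1)) β).card ≤ K) →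
      (∀ β, y β ≠ 0 → (E β).card ≤ K' ∧ ∀ x ∈ E β, ∃ i, b i = x) →
      (∀ β, y' β ≠ 0 → (E' β).card ≤ K' ∧ ∀ x ∈ E' β, ∃ i, b' i = x) →
      avg M (fun m =>
          PhiG (PP z (z ^ k1)) b y (fun β n => TU (wf z) z r0 (E β) n) (c + primorial (wf z) * m) ^ 2 *
          PhiG (PP z (z ^ k1)) b' y' (fun β n => TU (wf z) z r0 (E' β) n)
            (c + primorial (wf z) * m) ^ 2) ≤
        (1 + e) * (dgG (PP z (z ^ k1)) (QS (wf z) z) y (fun β n => TU (wf z) z r0 (E β) n) *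
          dgG (PP z (z ^ k1)) (QS (wf z) z) y' (fun β n => TU (wf z) z r0 (E' β) n)) +
          (3 + 16 / e) * (1 / Real.sqrt z) := by
  obtain ⟨t, ht⟩ : ∃ t : ℕ, t = 32 * k1 + A + 1 := ⟨_, rfl⟩
  have hQ := QF_T k1 (2 * a) (by omega) (by omega)
  have hN := TU_norm K' r0
  have hR := RR_dec K' 2 (δ := e / 16) (by positivity)
  have hT8 := TU_pow_le K' t 8
  have hS := PsiG_small k1 K t (by omega)
  have hlog2 := log_pow_le 1 2 le_rfl 2
  filter_upwards [hQ, hN, hR, hT8, hS, hlog2, eventually_ge_atTop 4,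
    eventually_ge_atTop ⌈(64 / e) ^ 2⌉₊] with z hQ hN hR hT8 hS hlog2 hz4 hze
  intro ι ι' _ _ _ _ b b' c M hinj hb hb' hD y y' E E' hy hy' hys hys' hE hE'
  have hz0 : 0 < z := by omega
  have hz2 : 2 ≤ z := by omega
  have hz1r : (1 : ℝ) ≤ z := by exact_mod_cast hz0
  have hzr : (0 : ℝ) < z := by exact_mod_cast hz0
  have hL2 : 2 * Real.log z ^ 2 ≤ z := by
    rw [pow_one] at hlog2
    exact hlog2
  have hL2' : Real.log z ^ 2 < z := by nlinarith [sq_nonneg (Real.log z)]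
  have hMpos : 0 < M := lt_of_lt_of_le (pow_pos hz0 _) hD.hM
  obtain ⟨r, hrdef⟩ : ∃ r : ℝ, r = 1 / Real.sqrt z := ⟨_, rfl⟩
  have hr0 : 0 ≤ r := by
    rw [hrdef]
    positivity
  have hr : r ≤ e / 64 := by
    have h1 : (64 / e) ^ 2 ≤ (z : ℝ) := (Nat.le_ceil _).trans (by exact_mod_cast hze)
    have h2 : 64 / e ≤ Real.sqrt z := Real.le_sqrt_of_sq_le h1
    have h3 : 0 < 64 / e := by positivity
    have h4 : 1 / Real.sqrt z ≤ 1 / (64 / e) := one_div_le_one_div_of_le h3 h2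
    rw [hrdef]
    refine h4.trans (le_of_eq ?_)
    rw [one_div_div]
  have hP : ∀ p ∈ PP z (z ^ k1), p.Prime := by
    intro p hp
    unfold PP at hp
    rw [mem_filter] at hp
    exact hp.2
  have hinjb : Function.Injective b := fun i j h => Sum.inl_injective (hinj (by simpa using h))
  have hinjb' : Function.Injective b' := fun i j h => Sum.inr_injective (hinj (by simpa using h))
  have hcb := P4_card b hinjb (by positivity) hb
  have hcb' := P4_card b' hinjb' (by positivity) hb'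
  obtain ⟨T, hTdef⟩ : ∃ T : (PP z (z ^ k1) → Option ι) → ℕ → ℝ,
      T = fun β n => TU (wf z) z r0 (E β) n := ⟨_, rfl⟩
  obtain ⟨T', hTdef'⟩ : ∃ T' : (PP z (z ^ k1) → Option ι') → ℕ → ℝ,
      T' = fun β n => TU (wf z) z r0 (E' β) n := ⟨_, rfl⟩
  rw [← hTdef, ← hTdef', ← hrdef]
  -- the numbers
  have hnum : ∀ m < M, ∀ x : ℕ, 1 ≤ x → (x : ℝ) ≤ Real.log z ^ 2 →
      0 < c + primorial (wf z) * m + x ∧ c + primorial (wf z) * m + x ≤ z ^ t := by
    intro m hm x hx1 hx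
    have h1 := hD.hc m hm
    have h2 : x < z := by exact_mod_cast hx.trans_lt hL2'
    have h3 : z ≤ z ^ (32 * k1 + A) := Nat.le_self_pow (by omega) z
    have h4 : z ^ t = z ^ (32 * k1 + A) * z := by rw [ht, pow_succ]
    have h5 : z ^ (32 * k1 + A) * 2 ≤ z ^ (32 * k1 + A) * z := Nat.mul_le_mul_left _ hz2
    exact ⟨by omega, by omega⟩
  obtain ⟨τ, hτdef⟩ : ∃ τ : ℝ, τ = (z : ℝ) ^ (1 / 8 : ℝ) := ⟨_, rfl⟩
  have hτ0 : 0 ≤ τ := by
    rw [hτdef]
    positivity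
  have hτ8 : τ ^ 8 = z := by
    rw [hτdef, ← Real.rpow_natCast, ← Real.rpow_mul hzr.le]
    norm_num
  have hpw : ∀ (B : Finset ℕ) (n : ℕ), B.card ≤ K' → (∀ x ∈ B, 0 < n + x ∧ n + x ≤ z ^ t) →
      |TU (wf z) z r0 B n| ≤ τ := by
    intro B n hB hx
    have h1 := hT8 r0 B n hB hx
    have h2 := TU_nonneg (wf z) z r0 B n
    rw [abs_of_nonneg h2]
    rw [← hτ8] at h1
    exact le_of_pow_le_pow_left₀ (by norm_num) hτ0 h1
  have hPsi : ∀ m < M, |PsiG (PP z (z ^ k1)) b b' y y' T T' (c + primorial (wf z) * m)| ≤ r := by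
    intro m hm
    refine (PsiG_le z k1 K t hz2 b b' hinj
      (fun i => by exact_mod_cast (hb i).2.trans_lt hL2')
      (fun i => by exact_mod_cast (hb' i).2.trans_lt hL2') y y' T T' hy hy'
      (fun β h => (hys β h).2) (fun β h => (hys' β h).2) _ hτ0
      (fun β h => ?_) (fun β h => ?_)
      (fun i => hnum m hm _ (hb i).1 (hb i).2) (fun i => hnum m hm _ (hb' i).1 (hb' i).2)).trans ?_
    · rw [hTdef]
      refine hpw (E β) _ (hE β h).1 fun x hx => ?_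
      obtain ⟨i, rfl⟩ := (hE β h).2 x hx
      exact hnum m hm _ (hb i).1 (hb i).2
    · rw [hTdef']
      refine hpw (E' β) _ (hE' β h).1 fun x hx => ?_
      obtain ⟨i, rfl⟩ := (hE' β h).2 x hx
      exact hnum m hm _ (hb' i).1 (hb' i).2
    · rw [hrdef]
      exact hS _ _ τ (Nat.cast_nonneg _) (Nat.cast_nonneg _) (by linarith) (by linarith) hτ0 hτ8.le
  -- the pointwise bound
  have hpt : ∀ m < M, PhiG (PP z (z ^ k1)) b y T (c + primorial (wf z) * m) ^ 2 *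
      PhiG (PP z (z ^ k1)) b' y' T' (c + primorial (wf z) * m) ^ 2 ≤
        (1 + e / 16) * PhiG (PP z (z ^ k1)) (Sum.elim b b') (yP (PP z (z ^ k1)) y y')
          (TP (PP z (z ^ k1)) T T') (c + primorial (wf z) * m) ^ 2 + (1 + 16 / e) * r ^ 2 := by
    intro m hm
    rw [← mul_pow, PhiG_mul]
    exact P4_sq he (hPsi m hm)
  refine (P4_avg hMpos _ (fun m => PhiG (PP z (z ^ k1)) (Sum.elim b b') (yP (PP z (z ^ k1)) y y')
    (TP (PP z (z ^ k1)) T T') (c + primorial (wf z) * m) ^ 2) _ _ hpt).trans ?_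
  -- the quadratic form
  obtain ⟨A, hAdef⟩ : ∃ A : ℝ, A = (z : ℝ) ^ (4 * r0 + 6) * (z : ℝ) ^ (4 * r0 + 6) := ⟨_, rfl⟩
  have hA1 : 1 ≤ A := by
    rw [hAdef]
    exact one_le_mul_of_one_le_of_one_le (one_le_pow₀ hz1r) (one_le_pow₀ hz1r)
  have hy0 : ∀ γ, yP (PP z (z ^ k1)) y y' γ ≠ 0 →
      y (lft (PP z (z ^ k1)) γ) ≠ 0 ∧ y' (rgt (PP z (z ^ k1)) γ) ≠ 0 := by
    intro γ h
    unfold yP at h
    exact mul_ne_zero_iff.1 h
  have hQ1 := hQ (ι ⊕ ι') (Sum.elim b b') c M A (yP (PP z (z ^ k1)) y y')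
    (TP (PP z (z ^ k1)) T T') hinj
    (by
      rintro (i | i)
      · exact (hb i).2
      · exact (hb' i).2)
    hA1 (yP_abs_le _ y y' hy hy')
    (by
      intro γ h
      have h1 := yP_supp (PP z (z ^ k1)) hP (z := z) (a := a) (a' := a) y y'
        (fun β h => (hys β h).1) (fun β h => (hys' β h).1) γ h
      have e1 : a + a = 2 * a := by ring
      rwa [e1] at h1)
    (by
      intro γ h
      obtain ⟨h1, h2⟩ := hy0 γ h
      rw [hAdef]
      have h3 := (hN (E (lft (PP z (z ^ k1)) γ)) (hE _ h1).1).mul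
        (hN (E' (rgt (PP z (z ^ k1)) γ)) (hE' _ h2).1)
      refine h3.congr fun n => ?_
      unfold TP
      rw [hTdef, hTdef'])
    (by
      have h1 : (z : ℝ) ^ (2 * (2 * a) + 2) * A ^ 2 =
          (z : ℝ) ^ (2 * (2 * a) + 2 + 4 * (4 * r0 + 6)) := by
        rw [hAdef, ← pow_add, ← pow_mul, ← pow_add]
        congr 1
        ring
      rw [h1]
      have h2 : (z : ℝ) ^ (2 * (2 * a) + 2 + 4 * (4 * r0 + 6)) ≤ (z : ℝ) ^ (32 * k1 - 1) :=
        pow_le_pow_right₀ hz1r hexp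
      refine h2.trans ?_
      exact_mod_cast hD.hM)
  have hdg := dgG_pair (PP z (z ^ k1)) hP (QS (wf z) z) y y' T T' (δ := e / 16) (by positivity)
    (by
      intro β β' h1 h2
      rw [hTdef, hTdef']
      refine hR r0 (E β) (E' β') (hE β h1).1 (hE' β' h2).1 ?_ ?_
      · rw [Finset.disjoint_left]
        intro x hx hx'
        obtain ⟨i, hi⟩ := (hE β h1).2 x hx
        obtain ⟨i', hi'⟩ := (hE' β' h2).2 x hx'
        have : Sum.elim b b' (Sum.inl i) = Sum.elim b b' (Sum.inr i') := by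
          simp only [Sum.elim_inl, Sum.elim_inr]
          rw [hi, hi']
        exact Sum.inl_ne_inr (hinj this)
      · intro x hx
        rcases Finset.mem_union.1 hx with hx | hx
        · obtain ⟨i, rfl⟩ := (hE β h1).2 x hx
          exact (hb i).2
        · obtain ⟨i, rfl⟩ := (hE' β' h2).2 x hx
          exact (hb' i).2)
  have hd1 := dgG_nonneg (PP z (z ^ k1)) hP (QS (wf z) z) y T
  have hd2 := dgG_nonneg (PP z (z ^ k1)) hP (QS (wf z) z) y' T'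
  have hQ2 := (abs_le.1 hQ1).2
  rw [← hrdef] at hQ2
  obtain ⟨D, hDdef⟩ : ∃ D : ℝ, D = dgG (PP z (z ^ k1)) (QS (wf z) z) y T *
    dgG (PP z (z ^ k1)) (QS (wf z) z) y' T' := ⟨_, rfl⟩
  have hD0 : 0 ≤ D := by
    rw [hDdef]
    exact mul_nonneg hd1 hd2
  rw [← hDdef] at hdg ⊢
  obtain ⟨D2, hD2def⟩ : ∃ D2 : ℝ, D2 = dgG (PP z (z ^ k1)) (QS (wf z) z)
    (yP (PP z (z ^ k1)) y y') (TP (PP z (z ^ k1)) T T') := ⟨_, rfl⟩
  rw [← hD2def] at hQ2 hdg
  obtain ⟨AF, hAF⟩ : ∃ AF : ℝ, AF = avg M (fun m => PhiG (PP z (z ^ k1)) (Sum.elim b b')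
    (yP (PP z (z ^ k1)) y y') (TP (PP z (z ^ k1)) T T') (c + primorial (wf z) * m) ^ 2) :=
    ⟨_, rfl⟩
  rw [← hAF] at hQ2 ⊢
  exact M4b_final he he1 hr0 hr hD0 hdg (by linarith)

theorem Y_pair {l : ℝ} {q0 k1 K : ℕ} (h : Par l q0 k1 K) (A : ℕ) {δ : ℝ} (hδ : 0 < δ) : ∀ᶠ z : ℕ in atTop,
    ∀ (ι ι' : Type) [Fintype ι] [DecidableEq ι] [Fintype ι'] [DecidableEq ι'] (b : ι → ℕ)
      (b' : ι' → ℕ) (c M : ℕ), Win l k1 z b → Win l k1 z b' → Function.Injective (Sum.elim b b') →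
      Dat A k1 z c M →
      avg M (fun m => YT z q0 k1 (k1 / 2) b (c + primorial (wf z) * m) *
          YT z q0 k1 (k1 / 2) b' (c + primorial (wf z) * m)) ≤
        DY z q0 k1 (k1 / 2) b * DY z q0 k1 (k1 / 2) b' +
          δ * (DY z q0 k1 (k1 / 2) b * DY z q0 k1 (k1 / 2) b' + 1) := by
  obtain ⟨e, hedef⟩ : ∃ e : ℝ, e = min (δ / 2) (1 / 2) := ⟨_, rfl⟩
  have he : 0 < e := by
    rw [hedef]
    exact lt_min (by linarith) (by norm_num)
  have he1 : e < 1 := by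
    rw [hedef]
    exact (min_le_right _ _).trans_lt (by norm_num)
  have heδ : e ≤ δ / 2 := by
    rw [hedef]
    exact min_le_left _ _
  have hk1 := h.hk1
  have hgen := M4b_gen A k1 (K + 1) (K + 2) (3 * k1) (k1 / 2) hk1 (by omega) (by omega) he he1
  have hlog := log_pow_le 2 4 (by norm_num) (2 * (3 + 16 / e) / δ)
  filter_upwards [hgen, h.hDn, eventually_ge_atTop 4, hlog] with z hgen hDn hz4 hlog
  intro ι ι' _ _ _ _ b b' c M hW hW' hinj hD
  have hz0 : 0 < z := by omega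
  have hz2 : 2 ≤ z := by omega
  have hzr : (0 : ℝ) < z := by exact_mod_cast hz0
  have hMpos : 0 < M := lt_of_lt_of_le (pow_pos hz0 _) hD.hM
  have hMr : (0 : ℝ) < M := by exact_mod_cast hMpos
  have hP : ∀ p ∈ PP z (z ^ k1), p.Prime := by
    intro p hp
    unfold PP at hp
    rw [mem_filter] at hp
    exact hp.2
  have hcb := P4_card b hW.inj (by positivity) hW.bd
  have hcb' := P4_card b' hW'.inj (by positivity) hW'.bd
  have hsu : ∀ (α : Type) [Fintype α] [DecidableEq α] (d : α → ℕ) (i : α)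
      (β : PP z (z ^ k1) → Option α), ys5 (PP z (z ^ k1)) z q0 k1 i β ≠ 0 →
      ({d i} ∪ su (PP z (z ^ k1)) d β).card ≤ K + 2 ∧
        ∀ x ∈ {d i} ∪ su (PP z (z ^ k1)) d β, ∃ i, d i = x := by
    intro α _ _ d i β hβ
    constructor
    · have h1 := Finset.card_union_le {d i} (su (PP z (z ^ k1)) d β)
      have h2 := Q6_su_card (PP z (z ^ k1)) d β
      have h3 := (ys5_supp (PP z (z ^ k1)) z q0 k1 hP hz2 h.hq0 h.hKq i β hβ).2
      rw [Finset.card_singleton] at h1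
      omega
    · intro x hx
      rcases Finset.mem_union.1 hx with hx | hx
      · exact ⟨i, (Finset.mem_singleton.1 hx).symm⟩
      · unfold su at hx
        rw [Finset.mem_image] at hx
        obtain ⟨j, -, hj⟩ := hx
        exact ⟨j, hj⟩
  have h1 : ∀ (i : ι) (i' : ι'),
      avg M (fun m => FT z q0 k1 (k1 / 2) b i (c + primorial (wf z) * m) ^ 2 *
        FT z q0 k1 (k1 / 2) b' i' (c + primorial (wf z) * m) ^ 2) ≤
      (1 + e) * (DFT z q0 k1 (k1 / 2) b i * DFT z q0 k1 (k1 / 2) b' i') +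
        (3 + 16 / e) * (1 / Real.sqrt z) := by
    intro i i'
    exact hgen ι ι' b b' c M hinj hW.bd hW'.bd hD (ys5 (PP z (z ^ k1)) z q0 k1 i)
      (ys5 (PP z (z ^ k1)) z q0 k1 i') (fun β => {b i} ∪ su (PP z (z ^ k1)) b β)
      (fun β => {b' i'} ∪ su (PP z (z ^ k1)) b' β)
      (ys5_abs_le _ z q0 k1 hP hz2 h.hq0 hDn.1 hDn.2 i)
      (ys5_abs_le _ z q0 k1 hP hz2 h.hq0 hDn.1 hDn.2 i')
      (ys5_supp _ z q0 k1 hP hz2 h.hq0 h.hKq i) (ys5_supp _ z q0 k1 hP hz2 h.hq0 h.hKq i')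
      (hsu ι b i) (hsu ι' b' i')
  have h2 : avg M (fun m => YT z q0 k1 (k1 / 2) b (c + primorial (wf z) * m) *
      YT z q0 k1 (k1 / 2) b' (c + primorial (wf z) * m)) =
      ∑ i : ι, ∑ i' : ι', avg M (fun m => FT z q0 k1 (k1 / 2) b i (c + primorial (wf z) * m) ^ 2 *
        FT z q0 k1 (k1 / 2) b' i' (c + primorial (wf z) * m) ^ 2) := by
    unfold avg YT
    simp only [Finset.sum_mul_sum]
    rw [Finset.sum_comm, Finset.sum_div]
    refine Finset.sum_congr rfl fun i _ => ?_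
    rw [Finset.sum_comm, Finset.sum_div]
  have h3 : DY z q0 k1 (k1 / 2) b * DY z q0 k1 (k1 / 2) b' =
      ∑ i : ι, ∑ i' : ι', DFT z q0 k1 (k1 / 2) b i * DFT z q0 k1 (k1 / 2) b' i' := by
    unfold DY
    rw [Finset.sum_mul_sum]
  have h4 : ∑ i : ι, ∑ i' : ι',
      avg M (fun m => FT z q0 k1 (k1 / 2) b i (c + primorial (wf z) * m) ^ 2 *
        FT z q0 k1 (k1 / 2) b' i' (c + primorial (wf z) * m) ^ 2) ≤
      ∑ i : ι, ∑ i' : ι', ((1 + e) * (DFT z q0 k1 (k1 / 2) b i * DFT z q0 k1 (k1 / 2) b' i') +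
        (3 + 16 / e) * (1 / Real.sqrt z)) :=
    Finset.sum_le_sum fun i _ => Finset.sum_le_sum fun i' _ => h1 i i'
  have h5 : ∑ i : ι, ∑ i' : ι', ((1 + e) * (DFT z q0 k1 (k1 / 2) b i *
      DFT z q0 k1 (k1 / 2) b' i') + (3 + 16 / e) * (1 / Real.sqrt z)) =
      (1 + e) * (DY z q0 k1 (k1 / 2) b * DY z q0 k1 (k1 / 2) b') +
        (Fintype.card ι : ℝ) * Fintype.card ι' * ((3 + 16 / e) * (1 / Real.sqrt z)) := by
    rw [h3, Finset.mul_sum]
    simp only [Finset.sum_add_distrib, Finset.mul_sum, Finset.sum_const, Finset.card_univ,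
      nsmul_eq_mul]
    ring
  have hd : ∀ (α : Type) [Fintype α] [DecidableEq α] (d : α → ℕ), 0 ≤ DY z q0 k1 (k1 / 2) d := by
    intro α _ _ d
    exact Finset.sum_nonneg fun i _ => dgG_nonneg (PP z (z ^ k1)) hP (QS (wf z) z) _ _
  have hd0 : 0 ≤ DY z q0 k1 (k1 / 2) b * DY z q0 k1 (k1 / 2) b' := mul_nonneg (hd ι b) (hd ι' b')
  have hc0 : 0 < 3 + 16 / e := by positivity
  have hs0 : 0 < Real.sqrt z := Real.sqrt_pos.2 hzr
  have h6 : (Fintype.card ι : ℝ) * Fintype.card ι' * ((3 + 16 / e) * (1 / Real.sqrt z)) ≤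
      δ / 2 := by
    have h7 : (Fintype.card ι : ℝ) * Fintype.card ι' ≤ Real.log z ^ 4 := by
      have : Real.log z ^ 4 = Real.log z ^ 2 * Real.log z ^ 2 := by ring
      rw [this]
      exact mul_le_mul hcb hcb' (Nat.cast_nonneg _) (sq_nonneg _)
    have h8 : 2 * (3 + 16 / e) / δ * Real.log z ^ 4 ≤ Real.sqrt z := Real.le_sqrt_of_sq_le hlog
    have h9 : (Fintype.card ι : ℝ) * Fintype.card ι' * ((3 + 16 / e) * (1 / Real.sqrt z)) ≤
        Real.log z ^ 4 * ((3 + 16 / e) * (1 / Real.sqrt z)) :=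
      mul_le_mul_of_nonneg_right h7 (by positivity)
    refine h9.trans ?_
    have h10 : Real.log z ^ 4 * ((3 + 16 / e) * (1 / Real.sqrt z)) =
        (δ / 2) * ((2 * (3 + 16 / e) / δ * Real.log z ^ 4) / Real.sqrt z) := by
      field_simp
    rw [h10]
    have h11 : (2 * (3 + 16 / e) / δ * Real.log z ^ 4) / Real.sqrt z ≤ 1 := by
      rw [div_le_one hs0]
      exact h8
    nlinarith
  have h7 : e * (DY z q0 k1 (k1 / 2) b * DY z q0 k1 (k1 / 2) b') ≤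
      δ / 2 * (DY z q0 k1 (k1 / 2) b * DY z q0 k1 (k1 / 2) b') :=
    mul_le_mul_of_nonneg_right heδ hd0
  rw [h2]
  refine h4.trans ?_
  rw [h5]
  nlinarith

end Pool.Agent.LibUF16
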