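import Pool.Agent.LibUF16.M5a
import Pool.Agent.LibUF16.T3
import Pool.Agent.LibUF16.E6

/-!
Row M5b: mean and pair of `TH`. `r0 = k1/2`, `a = 4 r0 + 6`, `N = card ι ≤ log² z` (`LibLG5.P4_card`); the number of sets `B` with `#B ≤ K'` is `≤ (1 + N)^K'`
(`LibLG5.P3_count`). `TH_mean`: `TU^4` has norm `≤ z^(4a)` (`TU_norm`, `NormLe.pow`), `NormLe.avg` with `Q = QS`, `W = primorial (wf z)`; the mean is `RR 4`; total error
`≤ (1+N)^K' z^(4a)/M → 0`. `TH_pair`: `TU(B)^4 TU(B')^4` has norm `≤ z^(8a)`, `8 a ≤ 16 k1 + 48 ≤ 32 k1 - 2` (`k1 ≥ 8`), mean `≤ (1+η) RR 4 B RR 4 B'`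
(`RR_dec K' 4`, the images are disjoint), error `(1+N)^(2K') z^(8a)/M ≤ (1+N)^(2K')/z → 0`; `η DTH DTH' ≤ δ/2` by `DTH_le` (row M5a).
-/

open Finset Filter

namespace Pool.Agent.LibUF16

open Pool.Agent.LibRG87 Pool.Agent.LibLG5

theorem M5b_cop (w z : ℕ) : (primorial w).Coprime (QS w z) := by
  unfold QS
  apply Nat.Coprime.prod_right
  intro p hp
  have hp' := mem_filter.1 hp
  have hpr := hp'.2
  have hlt := (mem_Ioc.1 hp'.1).1
  rw [Nat.coprime_comm, hpr.coprime_iff_not_dvd]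
  intro hd
  have h1 : p ∈ (primorial w).primeFactors :=
    Nat.mem_primeFactors.2 ⟨hpr, hd, (primorial_pos w).ne'⟩
  rw [NT_primeFactors_primorial] at h1
  have h2 := mem_range.1 (mem_filter.1 h1).1
  omega

theorem M5b_avg {w z : ℕ} {A : ℝ} {F : ℕ → ℝ} (h : NormLe (QS w z) A F) (c M : ℕ) (hM : 0 < M) :
    |avg M (fun m => F (c + primorial w * m)) - mean (QS w z) F| ≤ A / M := by
  have hM' : (0 : ℝ) < M := by exact_mod_cast hM
  have h1 := h.avg (QS_pos w z) (M5b_cop w z) c M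
  have h2 : avg M (fun m => F (c + primorial w * m)) - mean (QS w z) F =
      (∑ m ∈ range M, F (c + primorial w * m) - M * mean (QS w z) F) / M := by
    unfold avg
    field_simp
  rw [h2, abs_div, abs_of_pos hM']
  exact div_le_div_of_nonneg_right h1 hM'.le

theorem M5b_avg_sum {α : Type*} (s : Finset α) (M : ℕ) (f : α → ℕ → ℝ) :
    avg M (fun m => ∑ B ∈ s, f B m) = ∑ B ∈ s, avg M (f B) := by
  unfold avg
  rw [sum_comm, sum_div]

theorem M5b_avg_mono {M : ℕ} {f g : ℕ → ℝ} (h : ∀ m < M, f m ≤ g m) : avg M f ≤ avg M g := by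
  unfold avg
  exact div_le_div_of_nonneg_right (sum_le_sum fun m hm => h m (mem_range.1 hm)) (Nat.cast_nonneg M)

theorem M5b_err {k1 z M e : ℕ} (hz : 1 ≤ z) (hM : z ^ (32 * k1 - 1) ≤ M) (hk1 : 8 ≤ k1)
    (he : e ≤ 32 * k1 - 2) : (z : ℝ) ^ e / M ≤ 1 / z := by
  have hz0 : (0 : ℝ) < z := by exact_mod_cast hz
  have hz1 : (1 : ℝ) ≤ z := by exact_mod_cast hz
  have hM0 : 0 < M := lt_of_lt_of_le (pow_pos hz _) hM
  have hM' : (0 : ℝ) < M := by exact_mod_cast hM0
  have hMR : (z : ℝ) ^ (32 * k1 - 1) ≤ M := by exact_mod_cast hM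
  rw [div_le_div_iff₀ hM' hz0, one_mul]
  calc (z : ℝ) ^ e * z ≤ (z : ℝ) ^ (32 * k1 - 2) * z :=
        mul_le_mul_of_nonneg_right (pow_le_pow_right₀ hz1 he) hz0.le
    _ = (z : ℝ) ^ (32 * k1 - 1) := by
        rw [← pow_succ]
        congr 1
        omega
    _ ≤ M := hMR

theorem M5b_ev (K' : ℕ) {δ : ℝ} (hδ : 0 < δ) : ∀ᶠ z : ℕ in atTop, ∀ x : ℝ, 0 ≤ x →
    x ≤ Real.log z ^ 2 → (1 + x) ^ K' / z ≤ δ := by
  have h1 : ∀ᶠ z : ℕ in atTop, 1 ≤ Real.log z :=
    (Real.tendsto_log_atTop.comp tendsto_natCast_atTop_atTop).eventually_ge_atTop 1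
  filter_upwards [h1, log_pow_le 1 (2 * K') le_rfl (2 ^ K' / δ), eventually_ge_atTop 1] with
    z hl hp hz x hx0 hx
  have hz0 : (0 : ℝ) < z := by exact_mod_cast hz
  rw [pow_one] at hp
  have h2 : (1 + x) ^ K' ≤ 2 ^ K' * Real.log z ^ (2 * K') := by
    calc (1 + x) ^ K' ≤ (2 * Real.log z ^ 2) ^ K' := by
          apply pow_le_pow_left₀ (by linarith)
          nlinarith
      _ = 2 ^ K' * Real.log z ^ (2 * K') := by rw [mul_pow, ← pow_mul]
  rw [div_le_iff₀ hz0]
  have h3 : 2 ^ K' * Real.log z ^ (2 * K') = δ * (2 ^ K' / δ * Real.log z ^ (2 * K')) := by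
    field_simp
  rw [h3] at h2
  exact h2.trans (mul_le_mul_of_nonneg_left hp hδ.le)

theorem M5b_count {ι : Type} [Fintype ι] [DecidableEq ι] (K' : ℕ) :
    (((univ : Finset (Finset ι)).filter fun B => B.card ≤ K').card : ℝ) ≤
      (1 + (Fintype.card ι : ℝ)) ^ K' := by
  have h := P3_count ι K'
  calc (((univ : Finset (Finset ι)).filter fun B => B.card ≤ K').card : ℝ) ≤
      (((1 + Fintype.card ι) ^ K' : ℕ) : ℝ) := by exact_mod_cast h
    _ = (1 + (Fintype.card ι : ℝ)) ^ K' := by push_cast; ring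

theorem TH_mean (l : ℝ) (hl : 1 ≤ l) (A k1 K' : ℕ) (hk1 : 8 ≤ k1) {δ : ℝ} (hδ : 0 < δ) :
    ∀ᶠ z : ℕ in atTop, ∀ (ι : Type) [Fintype ι] [DecidableEq ι] (b : ι → ℕ) (c M : ℕ),
      Win l k1 z b → Dat A k1 z c M →
      |avg M (fun m => TH z (k1 / 2) K' b (c + primorial (wf z) * m)) - DTH z (k1 / 2) K' b| ≤ δ := by
  filter_upwards [TU_norm K' (k1 / 2), M5b_ev K' hδ, eventually_ge_atTop 1] with
    z hTU hev hz ι _ _ b c M hW hD
  have hz0 : (0 : ℝ) < z := by exact_mod_cast hz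
  have hM0 : 0 < M := lt_of_lt_of_le (pow_pos hz _) hD.hM
  have hM' : (0 : ℝ) < M := by exact_mod_cast hM0
  have hN : (Fintype.card ι : ℝ) ≤ Real.log z ^ 2 := P4_card b hW.inj (sq_nonneg _) hW.bd
  have h1 : ∀ B ∈ (univ : Finset (Finset ι)).filter (fun B => B.card ≤ K'),
      |avg M (fun m => TU (wf z) z (k1 / 2) (B.image b) (c + primorial (wf z) * m) ^ 4) -
        RR (wf z) z (k1 / 2) 4 (B.image b)| ≤ 1 / z := by
    intro B hB
    have hB' : (B.image b).card ≤ K' := card_image_le.trans (mem_filter.1 hB).2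
    have h2 := M5b_avg (F := fun n => TU (wf z) z (k1 / 2) (B.image b) n ^ 4)
      ((hTU (B.image b) hB').pow 4) c M hM0
    refine h2.trans ?_
    rw [← pow_mul]
    exact M5b_err hz hD.hM hk1 (by omega)
  unfold TH DTH
  rw [M5b_avg_sum, ← sum_sub_distrib]
  refine (abs_sum_le_sum_abs _ _).trans ?_
  refine (sum_le_sum h1).trans ?_
  rw [sum_const, nsmul_eq_mul]
  calc (((univ : Finset (Finset ι)).filter fun B => B.card ≤ K').card : ℝ) * (1 / z) ≤
      (1 + (Fintype.card ι : ℝ)) ^ K' * (1 / z) :=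
        mul_le_mul_of_nonneg_right (M5b_count K') (by positivity)
    _ = (1 + (Fintype.card ι : ℝ)) ^ K' / z := by ring
    _ ≤ δ := hev _ (Nat.cast_nonneg _) hN

theorem M5b_RR_nonneg (w z r0 e : ℕ) (B : Finset ℕ) : 0 ≤ RR w z r0 e B := RR_nonneg w z r0 e B

theorem TH_pair (l : ℝ) (hl : 1 ≤ l) (A k1 K' : ℕ) (hk1 : 8 ≤ k1) {δ : ℝ} (hδ : 0 < δ) :
    ∀ᶠ z : ℕ in atTop, ∀ (ι ι' : Type) [Fintype ι] [DecidableEq ι] [Fintype ι'] [DecidableEq ι']
      (b : ι → ℕ) (b' : ι' → ℕ) (c M : ℕ), Win l k1 z b → Win l k1 z b' →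
      Function.Injective (Sum.elim b b') → Dat A k1 z c M →
      avg M (fun m => TH z (k1 / 2) K' b (c + primorial (wf z) * m) *
          TH z (k1 / 2) K' b' (c + primorial (wf z) * m)) ≤
        DTH z (k1 / 2) K' b * DTH z (k1 / 2) K' b' + δ := by
  obtain ⟨C, hC1, hC⟩ := DTH_le l hl k1 K'
  have hC0 : 0 < C := by linarith
  have hη : 0 < δ / (2 * C ^ 2) := by positivity
  filter_upwards [TU_norm K' (k1 / 2), M5b_ev (2 * K') (half_pos hδ), eventually_ge_atTop 1,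
    RR_dec K' 4 hη, hC] with
    z hTU hev hz hdec hC ι ι' _ _ _ _ b b' c M hW hW' hinj hD
  have hz0 : (0 : ℝ) < z := by exact_mod_cast hz
  have hM0 : 0 < M := lt_of_lt_of_le (pow_pos hz _) hD.hM
  have hM' : (0 : ℝ) < M := by exact_mod_cast hM0
  have hN : (Fintype.card ι : ℝ) ≤ Real.log z ^ 2 := P4_card b hW.inj (sq_nonneg _) hW.bd
  have hN' : (Fintype.card ι' : ℝ) ≤ Real.log z ^ 2 := P4_card b' hW'.inj (sq_nonneg _) hW'.bd
  obtain ⟨hD0, hDC⟩ := hC ι b hW
  obtain ⟨hD0', hDC'⟩ := hC ι' b' hW'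
  have h1 : ∀ B ∈ (univ : Finset (Finset ι)).filter (fun B => B.card ≤ K'),
      ∀ B' ∈ (univ : Finset (Finset ι')).filter (fun B' => B'.card ≤ K'),
      avg M (fun m => TU (wf z) z (k1 / 2) (B.image b) (c + primorial (wf z) * m) ^ 4 *
        TU (wf z) z (k1 / 2) (B'.image b') (c + primorial (wf z) * m) ^ 4) ≤
        (1 + δ / (2 * C ^ 2)) * (RR (wf z) z (k1 / 2) 4 (B.image b) *
          RR (wf z) z (k1 / 2) 4 (B'.image b')) + 1 / z := by
    intro B hB B' hB'
    have hBc : (B.image b).card ≤ K' := card_image_le.trans (mem_filter.1 hB).2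
    have hBc' : (B'.image b').card ≤ K' := card_image_le.trans (mem_filter.1 hB').2
    have hdis : Disjoint (B.image b) (B'.image b') := by
      rw [disjoint_left]
      intro x hx hx'
      obtain ⟨i, -, rfl⟩ := mem_image.1 hx
      obtain ⟨j, -, hj⟩ := mem_image.1 hx'
      have h3 : Sum.elim b b' (Sum.inr j) = Sum.elim b b' (Sum.inl i) := hj
      exact absurd (hinj h3) (by simp)
    have hbd : ∀ a ∈ B.image b ∪ B'.image b', (a : ℝ) ≤ Real.log z ^ 2 := by
      intro a ha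
      rcases mem_union.1 ha with h | h
      · obtain ⟨i, -, rfl⟩ := mem_image.1 h
        exact (hW.bd i).2
      · obtain ⟨i, -, rfl⟩ := mem_image.1 h
        exact (hW'.bd i).2
    have h2 := M5b_avg (F := fun n => TU (wf z) z (k1 / 2) (B.image b) n ^ 4 *
        TU (wf z) z (k1 / 2) (B'.image b') n ^ 4)
      (((hTU (B.image b) hBc).pow 4).mul ((hTU (B'.image b') hBc').pow 4)) c M hM0
    have h3 := hdec (k1 / 2) (B.image b) (B'.image b') hBc hBc' hdis hbd
    have h4 : ((z : ℝ) ^ (4 * (k1 / 2) + 6)) ^ 4 * ((z : ℝ) ^ (4 * (k1 / 2) + 6)) ^ 4 / M ≤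
        1 / z := by
      rw [← pow_mul, ← pow_add]
      exact M5b_err hz hD.hM hk1 (by omega)
    have h5 := (abs_le.1 (h2.trans h4)).2
    linarith
  have h2 : avg M (fun m => TH z (k1 / 2) K' b (c + primorial (wf z) * m) *
          TH z (k1 / 2) K' b' (c + primorial (wf z) * m)) =
      ∑ B ∈ (univ : Finset (Finset ι)).filter (fun B => B.card ≤ K'),
        ∑ B' ∈ (univ : Finset (Finset ι')).filter (fun B' => B'.card ≤ K'),
          avg M (fun m => TU (wf z) z (k1 / 2) (B.image b) (c + primorial (wf z) * m) ^ 4 *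
            TU (wf z) z (k1 / 2) (B'.image b') (c + primorial (wf z) * m) ^ 4) := by
    have h3 : (fun m => TH z (k1 / 2) K' b (c + primorial (wf z) * m) *
          TH z (k1 / 2) K' b' (c + primorial (wf z) * m)) =
        fun m => ∑ B ∈ (univ : Finset (Finset ι)).filter (fun B => B.card ≤ K'),
          ∑ B' ∈ (univ : Finset (Finset ι')).filter (fun B' => B'.card ≤ K'),
            TU (wf z) z (k1 / 2) (B.image b) (c + primorial (wf z) * m) ^ 4 *
              TU (wf z) z (k1 / 2) (B'.image b') (c + primorial (wf z) * m) ^ 4 := by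
      funext m
      unfold TH
      rw [sum_mul_sum]
    rw [h3, M5b_avg_sum]
    exact sum_congr rfl fun B _ => M5b_avg_sum _ _ _
  rw [h2]
  refine (sum_le_sum fun B hB => sum_le_sum fun B' hB' => h1 B hB B' hB').trans ?_
  have h3 : ∑ B ∈ (univ : Finset (Finset ι)).filter (fun B => B.card ≤ K'),
        ∑ B' ∈ (univ : Finset (Finset ι')).filter (fun B' => B'.card ≤ K'),
          ((1 + δ / (2 * C ^ 2)) * (RR (wf z) z (k1 / 2) 4 (B.image b) *
          RR (wf z) z (k1 / 2) 4 (B'.image b')) + 1 / z) =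
      (1 + δ / (2 * C ^ 2)) * (DTH z (k1 / 2) K' b * DTH z (k1 / 2) K' b') +
        ((((univ : Finset (Finset ι)).filter fun B => B.card ≤ K').card : ℝ) *
          (((univ : Finset (Finset ι')).filter fun B => B.card ≤ K').card : ℝ)) * (1 / z) := by
    unfold DTH
    rw [sum_mul_sum, mul_sum]
    simp only [sum_add_distrib, sum_const, nsmul_eq_mul, mul_sum]
    ring
  rw [h3]
  have h4 : (1 + δ / (2 * C ^ 2)) * (DTH z (k1 / 2) K' b * DTH z (k1 / 2) K' b') ≤
      DTH z (k1 / 2) K' b * DTH z (k1 / 2) K' b' + δ / 2 := by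
    have h5 : DTH z (k1 / 2) K' b * DTH z (k1 / 2) K' b' ≤ C * C :=
      mul_le_mul hDC hDC' hD0' hC0.le
    have h6 : δ / (2 * C ^ 2) * (DTH z (k1 / 2) K' b * DTH z (k1 / 2) K' b') ≤
        δ / (2 * C ^ 2) * (C * C) := mul_le_mul_of_nonneg_left h5 hη.le
    have h7 : δ / (2 * C ^ 2) * (C * C) = δ / 2 := by field_simp
    linarith
  have h5 : ((((univ : Finset (Finset ι)).filter fun B => B.card ≤ K').card : ℝ) *
          (((univ : Finset (Finset ι')).filter fun B => B.card ≤ K').card : ℝ)) * (1 / z) ≤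
      δ / 2 := by
    have h6 : (1 + (Fintype.card ι : ℝ)) ^ K' ≤ (1 + Real.log z ^ 2) ^ K' :=
      pow_le_pow_left₀ (by positivity) (by linarith) _
    have h6' : (1 + (Fintype.card ι' : ℝ)) ^ K' ≤ (1 + Real.log z ^ 2) ^ K' :=
      pow_le_pow_left₀ (by positivity) (by linarith) _
    have h7 := mul_le_mul ((M5b_count (ι := ι) K').trans h6) ((M5b_count (ι := ι') K').trans h6')
      (Nat.cast_nonneg _) (by positivity)
    calc ((((univ : Finset (Finset ι)).filter fun B => B.card ≤ K').card : ℝ) *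
          (((univ : Finset (Finset ι')).filter fun B => B.card ≤ K').card : ℝ)) * (1 / z) ≤
        ((1 + Real.log z ^ 2) ^ K' * (1 + Real.log z ^ 2) ^ K') * (1 / z) :=
          mul_le_mul_of_nonneg_right h7 (by positivity)
      _ = (1 + Real.log z ^ 2) ^ (2 * K') / z := by
          rw [two_mul, pow_add]; ring
      _ ≤ δ / 2 := hev _ (sq_nonneg _) le_rfl
  linarith

end Pool.Agent.LibUF16
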