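import Pool.Agent.LibUF16.M0
import Pool.Agent.LibUF16.T3

/-!
Row M5c: second moment of `TH`. `r0 = k1/2`, `a = 4 r0 + 6`, `N = card ι ≤ log² z`. `TH² = ∑_{B,B'} TU(B)^4 TU(B')^4 ≤ ∑_{B,B'} TU(B ∪ B')^8` (`TU_four` with `B, B, B', B'`,
squared, `Finset.image_union`), at most `4^(2K')` pairs for a given union `U`, `#U ≤ 2 K'`; `TU(U)^8` has norm `≤ z^(8a)` (`TU_norm`, `NormLe.pow`), `NormLe.avg`:
`avg TU(U)^8 ≤ RR 8 U + z^(8a)/M`, `RR 8 ≤ C VV ≤ 2 C V1^#U` (`RR_le_C`, `VV_le_pow`), number of `U` of size `j` is `≤ N^j`, `N V1 ≤ 64 l k1`; the errors: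
`(1+N)^(2K') z^(8a)/M ≤ (1+N)^(2K')/z ≤ 1` (`8 a ≤ 32 k1 - 2`).
-/

open Finset Filter

namespace Pool.Agent.LibUF16

open Pool.Agent.LibRG87 Pool.Agent.LibLG5

theorem M5c_cop (w z : ℕ) : (primorial w).Coprime (QS w z) := by
  unfold QS
  apply Nat.Coprime.prod_right
  intro p hp
  have hp' := mem_filter.1 hp
  have hpr := hp'.2
  have hlt := (mem_Ioc.1 hp'.1).1
  rw [Nat.coprime_comm, hpr.coprime_iff_not_dvd]
  intro hd
  have h1 : p ∈ (primorial w).primeFactors :=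
    Nat.mem_primeFactors.2 ⟨hpr, hd, (primorial_pos w).ne'⟩
  rw [NT_primeFactors_primorial] at h1
  have h2 := mem_range.1 (mem_filter.1 h1).1
  omega

theorem M5c_avg {w z : ℕ} {A : ℝ} {F : ℕ → ℝ} (h : NormLe (QS w z) A F) (c M : ℕ) (hM : 0 < M) :
    |avg M (fun m => F (c + primorial w * m)) - mean (QS w z) F| ≤ A / M := by
  have hM' : (0 : ℝ) < M := by exact_mod_cast hM
  have h1 := h.avg (QS_pos w z) (M5c_cop w z) c M
  have h2 : avg M (fun m => F (c + primorial w * m)) - mean (QS w z) F =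
      (∑ m ∈ range M, F (c + primorial w * m) - M * mean (QS w z) F) / M := by
    unfold avg
    field_simp
  rw [h2, abs_div, abs_of_pos hM']
  exact div_le_div_of_nonneg_right h1 hM'.le

theorem M5c_avg_sum {α : Type*} (s : Finset α) (M : ℕ) (f : α → ℕ → ℝ) :
    avg M (fun m => ∑ B ∈ s, f B m) = ∑ B ∈ s, avg M (f B) := by
  unfold avg
  rw [sum_comm, sum_div]

theorem M5c_avg_mono {M : ℕ} {f g : ℕ → ℝ} (h : ∀ m, f m ≤ g m) : avg M f ≤ avg M g := by
  unfold avg
  exact div_le_div_of_nonneg_right (sum_le_sum fun m _ => h m) (Nat.cast_nonneg M)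

theorem M5c_avg_mul (M : ℕ) (c : ℝ) (f : ℕ → ℝ) : avg M (fun m => c * f m) = c * avg M f := by
  unfold avg
  rw [← mul_sum, mul_div_assoc]

theorem M5c_err {k1 z M e : ℕ} (hz : 1 ≤ z) (hM : z ^ (32 * k1 - 1) ≤ M) (hk1 : 8 ≤ k1)
    (he : e ≤ 32 * k1 - 2) : (z : ℝ) ^ e / M ≤ 1 / z := by
  have hz0 : (0 : ℝ) < z := by exact_mod_cast hz
  have hz1 : (1 : ℝ) ≤ z := by exact_mod_cast hz
  have hM0 : 0 < M := lt_of_lt_of_le (pow_pos hz _) hM
  have hM' : (0 : ℝ) < M := by exact_mod_cast hM0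
  have hMR : (z : ℝ) ^ (32 * k1 - 1) ≤ M := by exact_mod_cast hM
  rw [div_le_div_iff₀ hM' hz0, one_mul]
  calc (z : ℝ) ^ e * z ≤ (z : ℝ) ^ (32 * k1 - 2) * z :=
        mul_le_mul_of_nonneg_right (pow_le_pow_right₀ hz1 he) hz0.le
    _ = (z : ℝ) ^ (32 * k1 - 1) := by
        rw [← pow_succ]
        congr 1
        omega
    _ ≤ M := hMR

theorem M5c_ev (K' : ℕ) {δ : ℝ} (hδ : 0 < δ) : ∀ᶠ z : ℕ in atTop, ∀ x : ℝ, 0 ≤ x →
    x ≤ Real.log z ^ 2 → (1 + x) ^ K' / z ≤ δ := by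
  have h1 : ∀ᶠ z : ℕ in atTop, 1 ≤ Real.log z :=
    (Real.tendsto_log_atTop.comp tendsto_natCast_atTop_atTop).eventually_ge_atTop 1
  filter_upwards [h1, log_pow_le 1 (2 * K') le_rfl (2 ^ K' / δ), eventually_ge_atTop 1] with
    z hl hp hz x hx0 hx
  have hz0 : (0 : ℝ) < z := by exact_mod_cast hz
  rw [pow_one] at hp
  have h2 : (1 + x) ^ K' ≤ 2 ^ K' * Real.log z ^ (2 * K') := by
    calc (1 + x) ^ K' ≤ (2 * Real.log z ^ 2) ^ K' := by
          apply pow_le_pow_left₀ (by linarith)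
          nlinarith
      _ = 2 ^ K' * Real.log z ^ (2 * K') := by rw [mul_pow, ← pow_mul]
  rw [div_le_iff₀ hz0]
  have h3 : 2 ^ K' * Real.log z ^ (2 * K') = δ * (2 ^ K' / δ * Real.log z ^ (2 * K')) := by
    field_simp
  rw [h3] at h2
  exact h2.trans (mul_le_mul_of_nonneg_left hp hδ.le)

/-- the sum over the small sets -/
theorem M5c_sum {ι : Type} [Fintype ι] [DecidableEq ι] (K : ℕ) {V : ℝ} (hV : 0 ≤ V) :
    ∑ U ∈ (univ : Finset (Finset ι)).filter (fun B => B.card ≤ K), V ^ U.card ≤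
      (K + 1) * (1 + (Fintype.card ι : ℝ) * V) ^ K := by
  have h1 : ∀ U ∈ (univ : Finset (Finset ι)).filter (fun B => B.card ≤ K),
      U.card ∈ range (K + 1) := fun U hU => mem_range.2 (Nat.lt_succ_of_le (mem_filter.1 hU).2)
  rw [← sum_fiberwise_of_maps_to h1]
  have h2 : ∀ j ∈ range (K + 1),
      ∑ U ∈ ((univ : Finset (Finset ι)).filter (fun B => B.card ≤ K)).filter (fun U => U.card = j),
        V ^ U.card ≤ (1 + (Fintype.card ι : ℝ) * V) ^ K := by
    intro j hj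
    have hj' : j ≤ K := Nat.lt_succ_iff.1 (mem_range.1 hj)
    have h3 : ∑ U ∈ ((univ : Finset (Finset ι)).filter (fun B => B.card ≤ K)).filter
        (fun U => U.card = j), V ^ U.card =
        ∑ U ∈ ((univ : Finset (Finset ι)).filter (fun B => B.card ≤ K)).filter
        (fun U => U.card = j), V ^ j :=
      sum_congr rfl fun U hU => by rw [(mem_filter.1 hU).2]
    rw [h3, sum_const, nsmul_eq_mul]
    have h4 : (((univ : Finset (Finset ι)).filter (fun B => B.card ≤ K)).filter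
        (fun U => U.card = j)).card ≤ Fintype.card ι ^ j := by
      have h5 : ((univ : Finset (Finset ι)).filter (fun B => B.card ≤ K)).filter
          (fun U => U.card = j) ⊆ powersetCard j (univ : Finset ι) := by
        intro U hU
        exact mem_powersetCard.2 ⟨subset_univ _, (mem_filter.1 hU).2⟩
      refine (card_le_card h5).trans ?_
      rw [card_powersetCard, card_univ]
      exact Nat.choose_le_pow _ _
    have h6 : ((((univ : Finset (Finset ι)).filter (fun B => B.card ≤ K)).filter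
        (fun U => U.card = j)).card : ℝ) ≤ (Fintype.card ι : ℝ) ^ j := by exact_mod_cast h4
    have hNV : 0 ≤ (Fintype.card ι : ℝ) * V := mul_nonneg (Nat.cast_nonneg _) hV
    calc ((((univ : Finset (Finset ι)).filter (fun B => B.card ≤ K)).filter
        (fun U => U.card = j)).card : ℝ) * V ^ j ≤ (Fintype.card ι : ℝ) ^ j * V ^ j :=
          mul_le_mul_of_nonneg_right h6 (pow_nonneg hV _)
      _ = ((Fintype.card ι : ℝ) * V) ^ j := by rw [mul_pow]
      _ ≤ (1 + (Fintype.card ι : ℝ) * V) ^ j := pow_le_pow_left₀ hNV (by linarith) _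
      _ ≤ (1 + (Fintype.card ι : ℝ) * V) ^ K := pow_le_pow_right₀ (by linarith) hj'
  refine (sum_le_sum h2).trans ?_
  rw [sum_const, card_range, nsmul_eq_mul]
  push_cast
  exact le_rfl

theorem M5c_subsets {ι : Type} [Fintype ι] [DecidableEq ι] (K : ℕ) (U : Finset ι)
    (hU : U.card ≤ 2 * K) :
    ((((univ : Finset (Finset ι)).filter (fun B => B.card ≤ K)).filter (fun B => B ⊆ U)).card : ℝ) ≤
      2 ^ (2 * K) := by
  have h1 : ((univ : Finset (Finset ι)).filter (fun B => B.card ≤ K)).filter (fun B => B ⊆ U) ⊆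
      U.powerset := fun B hB => mem_powerset.2 (mem_filter.1 hB).2
  have h2 := card_le_card h1
  rw [card_powerset] at h2
  calc ((((univ : Finset (Finset ι)).filter (fun B => B.card ≤ K)).filter
      (fun B => B ⊆ U)).card : ℝ) ≤ ((2 ^ U.card : ℕ) : ℝ) := by exact_mod_cast h2
    _ = 2 ^ U.card := by push_cast; ring
    _ ≤ 2 ^ (2 * K) := pow_le_pow_right₀ (by norm_num) hU

theorem M5c_pairs {ι : Type} [Fintype ι] [DecidableEq ι] (K : ℕ) (f : Finset ι → ℝ)
    (hf : ∀ U, 0 ≤ f U) :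
    ∑ B ∈ (univ : Finset (Finset ι)).filter (fun B => B.card ≤ K),
      ∑ B' ∈ (univ : Finset (Finset ι)).filter (fun B => B.card ≤ K), f (B ∪ B') ≤
    (2 ^ (2 * K) * 2 ^ (2 * K)) *
      ∑ U ∈ (univ : Finset (Finset ι)).filter (fun B => B.card ≤ 2 * K), f U := by
  have h1 : ∀ B ∈ (univ : Finset (Finset ι)).filter (fun B => B.card ≤ K),
      ∀ B' ∈ (univ : Finset (Finset ι)).filter (fun B => B.card ≤ K),
      f (B ∪ B') ≤ ∑ U ∈ (univ : Finset (Finset ι)).filter (fun B => B.card ≤ 2 * K),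
        (if B ⊆ U then 1 else 0) * (if B' ⊆ U then 1 else 0) * f U := by
    intro B hB B' hB'
    have h2 : B ∪ B' ∈ (univ : Finset (Finset ι)).filter (fun B => B.card ≤ 2 * K) := by
      rw [mem_filter]
      refine ⟨mem_univ _, (card_union_le _ _).trans ?_⟩
      have := (mem_filter.1 hB).2
      have := (mem_filter.1 hB').2
      omega
    have h3 : f (B ∪ B') = (if B ⊆ B ∪ B' then 1 else 0) * (if B' ⊆ B ∪ B' then 1 else 0) *
        f (B ∪ B') := by
      rw [if_pos subset_union_left, if_pos subset_union_right]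
      ring
    rw [h3]
    refine single_le_sum (f := fun U => (if B ⊆ U then (1 : ℝ) else 0) *
      (if B' ⊆ U then 1 else 0) * f U) (fun U _ => ?_) h2
    refine mul_nonneg (mul_nonneg ?_ ?_) (hf U)
    · split_ifs <;> norm_num
    · split_ifs <;> norm_num
  refine (sum_le_sum fun B hB => sum_le_sum fun B' hB' => h1 B hB B' hB').trans ?_
  have h2 : ∑ B ∈ (univ : Finset (Finset ι)).filter (fun B => B.card ≤ K),
      ∑ B' ∈ (univ : Finset (Finset ι)).filter (fun B => B.card ≤ K),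
        ∑ U ∈ (univ : Finset (Finset ι)).filter (fun B => B.card ≤ 2 * K),
        (if B ⊆ U then (1 : ℝ) else 0) * (if B' ⊆ U then 1 else 0) * f U =
      ∑ U ∈ (univ : Finset (Finset ι)).filter (fun B => B.card ≤ 2 * K),
        ((∑ B ∈ (univ : Finset (Finset ι)).filter (fun B => B.card ≤ K),
          (if B ⊆ U then (1 : ℝ) else 0)) *
        (∑ B ∈ (univ : Finset (Finset ι)).filter (fun B => B.card ≤ K),
          (if B ⊆ U then (1 : ℝ) else 0))) * f U := by
    have h3 : ∀ B ∈ (univ : Finset (Finset ι)).filter (fun B => B.card ≤ K),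
      ∑ B' ∈ (univ : Finset (Finset ι)).filter (fun B => B.card ≤ K),
        ∑ U ∈ (univ : Finset (Finset ι)).filter (fun B => B.card ≤ 2 * K),
        (if B ⊆ U then (1 : ℝ) else 0) * (if B' ⊆ U then 1 else 0) * f U =
      ∑ U ∈ (univ : Finset (Finset ι)).filter (fun B => B.card ≤ 2 * K),
        ∑ B' ∈ (univ : Finset (Finset ι)).filter (fun B => B.card ≤ K),
        (if B ⊆ U then (1 : ℝ) else 0) * (if B' ⊆ U then 1 else 0) * f U :=
      fun B _ => sum_comm
    rw [sum_congr rfl h3, sum_comm]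
    refine sum_congr rfl fun U _ => ?_
    rw [sum_mul_sum, sum_mul]
    exact sum_congr rfl fun B _ => by rw [sum_mul]
  rw [h2, mul_sum]
  refine sum_le_sum fun U hU => ?_
  have hUc := (mem_filter.1 hU).2
  have h3 : (∑ B ∈ (univ : Finset (Finset ι)).filter (fun B => B.card ≤ K),
      (if B ⊆ U then (1 : ℝ) else 0)) ≤ 2 ^ (2 * K) := by
    have h4 := M5c_subsets K U hUc
    rw [natCast_card_filter] at h4
    exact h4
  have h4 : (0 : ℝ) ≤ ∑ B ∈ (univ : Finset (Finset ι)).filter (fun B => B.card ≤ K),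
      (if B ⊆ U then (1 : ℝ) else 0) := sum_nonneg fun B _ => by split_ifs <;> norm_num
  exact mul_le_mul_of_nonneg_right (mul_le_mul h3 h3 h4 (by positivity)) (hf U)

theorem M5c_four (w z r0 : ℕ) (B B' : Finset ℕ) (n : ℕ) :
    TU w z r0 B n ^ 4 * TU w z r0 B' n ^ 4 ≤ TU w z r0 (B ∪ B') n ^ 8 := by
  have h1 := TU_four w z r0 ![B, B, B', B'] n
  have h2 : (univ : Finset (Fin 4)).biUnion ![B, B, B', B'] = B ∪ B' := by
    ext x
    simp only [mem_biUnion, mem_univ, true_and, mem_union, Fin.exists_fin_succ]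
    simp
  rw [h2, Fin.prod_univ_four] at h1
  simp only [Matrix.cons_val_zero, Matrix.cons_val_one, Matrix.cons_val] at h1
  have h3 := TU_nonneg w z r0 B n
  have h4 := TU_nonneg w z r0 B' n
  have h5 : 0 ≤ TU w z r0 B n * TU w z r0 B n * TU w z r0 B' n * TU w z r0 B' n := by positivity
  have h6 := pow_le_pow_left₀ h5 h1 2
  calc TU w z r0 B n ^ 4 * TU w z r0 B' n ^ 4 =
      (TU w z r0 B n * TU w z r0 B n * TU w z r0 B' n * TU w z r0 B' n) ^ 2 := by ring
    _ ≤ (TU w z r0 (B ∪ B') n ^ 4) ^ 2 := h6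
    _ = TU w z r0 (B ∪ B') n ^ 8 := by ring

theorem TH_sq (l : ℝ) (hl : 1 ≤ l) (A k1 K' : ℕ) (hk1 : 8 ≤ k1) : ∃ C : ℝ, 1 ≤ C ∧
    ∀ᶠ z : ℕ in atTop, ∀ (ι : Type) [Fintype ι] [DecidableEq ι] (b : ι → ℕ) (c M : ℕ),
      Win l k1 z b → Dat A k1 z c M →
      avg M (fun m => TH z (k1 / 2) K' b (c + primorial (wf z) * m) ^ 2) ≤ C := by
  obtain ⟨C, hC1, hC⟩ := RR_le_C (2 * K') 8 (by norm_num)
  have hC0 : 0 < C := by linarith
  have hlk : 0 ≤ 64 * l * (k1 : ℝ) := by positivity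
  refine ⟨2 ^ (2 * K') * 2 ^ (2 * K') *
    (2 * C * (((2 * K' : ℕ) : ℝ) + 1) * (1 + 64 * l * k1) ^ (2 * K') + 1), ?_, ?_⟩
  · have h1 : (1 : ℝ) ≤ 2 ^ (2 * K') := one_le_pow₀ (by norm_num)
    have h2 : 0 ≤ 2 * C * (((2 * K' : ℕ) : ℝ) + 1) * (1 + 64 * l * k1) ^ (2 * K') := by
      positivity
    have h3 : (1 : ℝ) ≤ 2 ^ (2 * K') * 2 ^ (2 * K') := one_le_mul_of_one_le_of_one_le h1 h1
    exact one_le_mul_of_one_le_of_one_le h3 (by linarith)
  filter_upwards [TU_norm (2 * K') (k1 / 2), M5c_ev (2 * K') one_pos, eventually_ge_atTop 1, hC,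
    VV_le_pow (2 * K')] with
    z hTU hev hz hC hVV ι _ _ b c M hW hD
  have hz0 : (0 : ℝ) < z := by exact_mod_cast hz
  have hM0 : 0 < M := lt_of_lt_of_le (pow_pos hz _) hD.hM
  have hM' : (0 : ℝ) < M := by exact_mod_cast hM0
  have hN : (Fintype.card ι : ℝ) ≤ Real.log z ^ 2 := P4_card b hW.inj (sq_nonneg _) hW.bd
  have hV1 : 0 ≤ V1 (wf z) z := (V1_pos (wf z) z).le
  have h1 : ∀ n, TH z (k1 / 2) K' b n ^ 2 ≤ (2 ^ (2 * K') * 2 ^ (2 * K')) *
      ∑ U ∈ (univ : Finset (Finset ι)).filter (fun B => B.card ≤ 2 * K'),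
        TU (wf z) z (k1 / 2) (U.image b) n ^ 8 := by
    intro n
    have h2 := M5c_pairs K' (fun U : Finset ι => TU (wf z) z (k1 / 2) (U.image b) n ^ 8)
      (fun U => pow_nonneg (TU_nonneg _ _ _ _ _) _)
    refine le_trans ?_ h2
    unfold TH
    rw [sq, sum_mul_sum]
    refine sum_le_sum fun B _ => sum_le_sum fun B' _ => ?_
    show _ ≤ TU (wf z) z (k1 / 2) ((B ∪ B').image b) n ^ 8
    rw [image_union]
    exact M5c_four _ _ _ _ _ _
  have h2 : ∀ U ∈ (univ : Finset (Finset ι)).filter (fun B => B.card ≤ 2 * K'),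
      avg M (fun m => TU (wf z) z (k1 / 2) (U.image b) (c + primorial (wf z) * m) ^ 8) ≤
        2 * C * V1 (wf z) z ^ U.card + 1 / z := by
    intro U hU
    have hUc := (mem_filter.1 hU).2
    have hUc' : (U.image b).card ≤ 2 * K' := card_image_le.trans hUc
    have hbd : ∀ a ∈ U.image b, (a : ℝ) ≤ Real.log z ^ 2 := by
      intro a ha
      obtain ⟨i, -, rfl⟩ := mem_image.1 ha
      exact (hW.bd i).2
    have h3 := M5c_avg (F := fun n => TU (wf z) z (k1 / 2) (U.image b) n ^ 8)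
      ((hTU (U.image b) hUc').pow 8) c M hM0
    have h4 : ((z : ℝ) ^ (4 * (k1 / 2) + 6)) ^ 8 / M ≤ 1 / z := by
      rw [← pow_mul]
      exact M5c_err hz hD.hM hk1 (by omega)
    have h5 := (abs_le.1 (h3.trans h4)).2
    have h6 := hC (k1 / 2) (U.image b) hUc'
    have h7 := hVV (U.image b) hUc' hbd
    rw [card_image_of_injective _ hW.inj] at h7
    have h8 : C * VV (wf z) z (U.image b) ≤ C * (2 * V1 (wf z) z ^ U.card) :=
      mul_le_mul_of_nonneg_left h7 hC0.le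
    have h9 : mean (QS (wf z) z) (fun n => TU (wf z) z (k1 / 2) (U.image b) n ^ 8) ≤
        C * VV (wf z) z (U.image b) := h6
    linarith
  have h3 : avg M (fun m => TH z (k1 / 2) K' b (c + primorial (wf z) * m) ^ 2) ≤
      (2 ^ (2 * K') * 2 ^ (2 * K')) *
      ∑ U ∈ (univ : Finset (Finset ι)).filter (fun B => B.card ≤ 2 * K'),
        avg M (fun m => TU (wf z) z (k1 / 2) (U.image b) (c + primorial (wf z) * m) ^ 8) := by
    rw [← M5c_avg_sum, ← M5c_avg_mul]
    exact M5c_avg_mono fun m => h1 _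
  refine h3.trans ?_
  refine mul_le_mul_of_nonneg_left ?_ (by positivity)
  refine (sum_le_sum h2).trans ?_
  rw [sum_add_distrib, ← mul_sum]
  have h4 := M5c_sum (ι := ι) (2 * K') hV1
  have h5 : (1 + (Fintype.card ι : ℝ) * V1 (wf z) z) ^ (2 * K') ≤ (1 + 64 * l * k1) ^ (2 * K') :=
    pow_le_pow_left₀ (by positivity) (by linarith [hW.card]) _
  have h6 : 2 * C * ∑ U ∈ (univ : Finset (Finset ι)).filter (fun B => B.card ≤ 2 * K'),
      V1 (wf z) z ^ U.card ≤ 2 * C * (((2 * K' : ℕ) : ℝ) + 1) * (1 + 64 * l * k1) ^ (2 * K') := by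
    calc 2 * C * ∑ U ∈ (univ : Finset (Finset ι)).filter (fun B => B.card ≤ 2 * K'),
          V1 (wf z) z ^ U.card ≤
        2 * C * ((((2 * K' : ℕ) : ℝ) + 1) * (1 + (Fintype.card ι : ℝ) * V1 (wf z) z) ^ (2 * K')) :=
          mul_le_mul_of_nonneg_left h4 (by positivity)
      _ ≤ 2 * C * ((((2 * K' : ℕ) : ℝ) + 1) * (1 + 64 * l * k1) ^ (2 * K')) := by
          refine mul_le_mul_of_nonneg_left ?_ (by positivity)
          exact mul_le_mul_of_nonneg_left h5 (by positivity)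
      _ = _ := by ring
  have h7 : ∑ U ∈ (univ : Finset (Finset ι)).filter (fun B => B.card ≤ 2 * K'), 1 / (z : ℝ) ≤ 1 := by
    rw [sum_const, nsmul_eq_mul]
    have h8 := P3_count ι (2 * K')
    have h9 : (((univ : Finset (Finset ι)).filter fun B => B.card ≤ 2 * K').card : ℝ) ≤
        (1 + (Fintype.card ι : ℝ)) ^ (2 * K') := by
      calc (((univ : Finset (Finset ι)).filter fun B => B.card ≤ 2 * K').card : ℝ) ≤
          (((1 + Fintype.card ι) ^ (2 * K') : ℕ) : ℝ) := by exact_mod_cast h8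
        _ = (1 + (Fintype.card ι : ℝ)) ^ (2 * K') := by push_cast; ring
    calc (((univ : Finset (Finset ι)).filter fun B => B.card ≤ 2 * K').card : ℝ) * (1 / z) ≤
        (1 + (Fintype.card ι : ℝ)) ^ (2 * K') * (1 / z) :=
          mul_le_mul_of_nonneg_right h9 (by positivity)
      _ = (1 + (Fintype.card ι : ℝ)) ^ (2 * K') / z := by ring
      _ ≤ 1 := hev _ (Nat.cast_nonneg _) hN
  linarith

end Pool.Agent.LibUF16
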