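import Pool.Agent.LibUF16.T5

/-!
Row Q5: pointwise bounds. `X = 2^t * ∏ (1 + 1/(p-1)) ≥ 1`. For a set `B` of positions `∑_{β : sui β ⊆ B} |ee β n| ≤ ∏_p (1 + ∑_{i ∈ B} |psi p (n + b i)|)
≤ ∏_{i ∈ B} ∏_p (1 + |psi|) ≤ X^#B` (`LibLG5.P3_one_add`, `P3_prod`; see `LibLG5.P3_sum_F`, or M9 for the same computation).
`PHT`: `|y5| ≤ 1`, `y5 β ≠ 0 → #sui β ≤ K` (`y5_abs_le`, `y5_supp`), group the `β` by `B = sui β`, `su β = B.image b`:
`|PHT| ≤ X^K ∑_{#B ≤ K} TU (B.image b) n`, then `sum_TU_four`. `FT i`: group by `B = insert i (sui β)`, `#B ≤ K + 1` when `ys5 i β ≠ 0` (then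
`y5 (rem i β) ≠ 0` and `insert i (sui β) = insert i (sui (rem i β))`), `{b i} ∪ su β = B.image b`; `|FT i| ≤ X^(K+1) ∑_{i ∈ B, #B ≤ K+1} TU`;
`YT ≤ (∑_i |FT i|)² ≤ (X^(K+1) (K+1) ∑_{#B ≤ K+1} TU)²`.
-/

open Finset Filter

namespace Pool.Agent.LibUF16

open Pool.Agent.LibRG87 Pool.Agent.LibLG5

variable {ι : Type} [Fintype ι] [DecidableEq ι]

/-- the general pointwise bound -/
theorem Q5_gen (P : Finset ℕ) (z k1 t r0 L : ℕ) (hPdef : P = PP z (z ^ k1)) (hz : 2 ≤ z)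
    (b : ι → ℕ) (n : ℕ)
    (hn : ∀ i, 0 < n + b i ∧ n + b i ≤ z ^ t) (S : Finset (Finset ι))
    (hS : ∀ B ∈ S, B.card ≤ L) (U : (P → Option ι) → Finset ι)
    (hsub : ∀ β, sui P β ⊆ U β) (y : (P → Option ι) → ℝ)
    (hy : ∀ β, |y β| ≤ 1) (hU : ∀ β, y β ≠ 0 → U β ∈ S) :
    |∑ β, y β * TU (wf z) z r0 ((U β).image b) n * ee P b β n| ≤
      (2 ^ t * ∏ p ∈ P, (1 + 1 / ((p : ℝ) - 1))) ^ L *
        ∑ B ∈ S, TU (wf z) z r0 (B.image b) n := by
  classical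
  set G : ℝ := 2 ^ t * ∏ p ∈ P, (1 + 1 / ((p : ℝ) - 1)) with hG
  have hG1 : 1 ≤ G := by
    have h1 : (1 : ℝ) ≤ 2 ^ t := one_le_pow₀ (by norm_num)
    have h2 := M9_one_le z (z ^ k1)
    rw [← hPdef] at h2
    rw [hG]
    nlinarith
  have hT : ∀ B : Finset ι, 0 ≤ TU (wf z) z r0 (B.image b) n := fun B => TU_nonneg _ _ _ _ _
  have hterm : ∀ β : P → Option ι,
      |y β * TU (wf z) z r0 ((U β).image b) n * ee P b β n| ≤
      ∑ B ∈ S, if β ∈ Fintype.piFinset (fun _ : P => Finset.insertNone B) then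
        TU (wf z) z r0 (B.image b) n * |ee P b β n| else 0 := by
    intro β
    have hnn : ∀ B ∈ S, (0 : ℝ) ≤
        if β ∈ Fintype.piFinset (fun _ : P => Finset.insertNone B) then
          TU (wf z) z r0 (B.image b) n * |ee P b β n| else 0 := by
      intro B _
      split_ifs
      · exact mul_nonneg (hT B) (abs_nonneg _)
      · exact le_rfl
    by_cases h0 : y β = 0
    · rw [h0, zero_mul, zero_mul, abs_zero]
      exact Finset.sum_nonneg hnn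
    refine le_trans ?_ (Finset.single_le_sum hnn (hU β h0))
    rw [if_pos]
    · rw [abs_mul, abs_mul, abs_of_nonneg (hT (U β)), mul_assoc]
      exact mul_le_of_le_one_left (mul_nonneg (hT _) (abs_nonneg _)) (hy β)
    · rw [Fintype.mem_piFinset]
      intro p
      rw [Finset.mem_insertNone]
      intro i hi
      apply hsub β
      simp only [sui, mem_filter, mem_univ, true_and]
      exact ⟨p, hi⟩
  have h2 : ∀ B ∈ S, ∑ β ∈ Fintype.piFinset (fun _ : P => Finset.insertNone B),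
      |ee P b β n| ≤ G ^ L := by
    intro B hB
    refine (M9_inner P b n B).trans ?_
    calc ∏ i ∈ B, ∏ p ∈ P, (1 + |psi p (n + b i)|)
        ≤ ∏ i ∈ B, G := by
          apply Finset.prod_le_prod
          · intro i _
            exact Finset.prod_nonneg fun p _ => by positivity
          · intro i _
            have h7 := M9_one z (z ^ k1) t (n + b i) hz (hn i).1 (hn i).2
            rwa [← hPdef] at h7
      _ = G ^ B.card := Finset.prod_const _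
      _ ≤ G ^ L := pow_le_pow_right₀ hG1 (hS B hB)
  calc |∑ β, y β * TU (wf z) z r0 ((U β).image b) n * ee P b β n|
      ≤ ∑ β : P → Option ι, |y β * TU (wf z) z r0 ((U β).image b) n * ee P b β n| :=
        Finset.abs_sum_le_sum_abs _ _
    _ ≤ ∑ β : P → Option ι, ∑ B ∈ S,
          (if β ∈ Fintype.piFinset (fun _ : P => Finset.insertNone B) then
            TU (wf z) z r0 (B.image b) n * |ee P b β n| else 0) :=
        Finset.sum_le_sum fun β _ => hterm β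
    _ = ∑ B ∈ S, TU (wf z) z r0 (B.image b) n *
          ∑ β ∈ Fintype.piFinset (fun _ : P => Finset.insertNone B), |ee P b β n| := by
        rw [Finset.sum_comm]
        apply Finset.sum_congr rfl
        intro B _
        rw [← Finset.sum_filter, Finset.mul_sum]
        congr 1
        ext β
        simp
    _ ≤ ∑ B ∈ S, TU (wf z) z r0 (B.image b) n * G ^ L :=
        Finset.sum_le_sum fun B hB => mul_le_mul_of_nonneg_left (h2 B hB) (hT B)
    _ = G ^ L * ∑ B ∈ S, TU (wf z) z r0 (B.image b) n := by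
        rw [← Finset.sum_mul, mul_comm]

theorem Q5_prime {z k1 : ℕ} : ∀ p ∈ PP z (z ^ k1), Nat.Prime p := by
  intro p hp
  rw [PP, mem_filter] at hp
  exact hp.2

theorem Q5_G1 (z k1 t : ℕ) : (0 : ℝ) ≤ 2 ^ t * ∏ p ∈ PP z (z ^ k1), (1 + 1 / ((p : ℝ) - 1)) := by
  have h2 := M9_one_le z (z ^ k1)
  have h1 : (0 : ℝ) ≤ 2 ^ t := by positivity
  exact mul_nonneg h1 (by linarith)

theorem Q5_PHT (z q0 k1 K t r0 : ℕ) (hz : 2 ≤ z) (hq : 1 ≤ q0) (hK : 2 * k1 ≤ K * q0)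
    (hD : 0 < Dn (PP z (z ^ k1)) z q0 k1)
    (hD1 : 1 ≤ Dn (PP z (z ^ k1)) z q0 k1 * (q0 * Real.log z)) (b : ι → ℕ) (n : ℕ)
    (hn : ∀ i, 0 < n + b i ∧ n + b i ≤ z ^ t) :
    |PHT z q0 k1 r0 b n| ≤ (2 ^ t * ∏ p ∈ PP z (z ^ k1), (1 + 1 / ((p : ℝ) - 1))) ^ K *
      ∑ B ∈ (univ : Finset (Finset ι)).filter (fun B => B.card ≤ K),
        TU (wf z) z r0 (B.image b) n := by
  have h := Q5_gen (PP z (z ^ k1)) z k1 t r0 K rfl hz b n hn ((univ : Finset (Finset ι)).filter fun B => B.card ≤ K)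
    (fun B hB => (mem_filter.1 hB).2) (fun β => sui (PP z (z ^ k1)) β)
    (fun β => Finset.Subset.refl _) (y5 (PP z (z ^ k1)) z q0 k1)
    (fun β => y5_abs_le _ z q0 k1 Q5_prime hz hq hD hD1 β)
    (fun β h0 => mem_filter.2 ⟨mem_univ _, (y5_supp _ z q0 k1 Q5_prime hz hq hK β h0).2⟩)
  unfold PHT PhiG TE
  simp only [Finset.empty_union]
  exact h

theorem Q5_mem (P : Finset ℕ) (j : ι) (β : P → Option ι) :
    j ∈ sui P β ↔ ∃ p, β p = some j := by
  unfold sui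
  rw [mem_filter]
  exact and_iff_right (mem_univ _)

theorem Q5_insert (P : Finset ℕ) (i : ι) (β : P → Option ι) :
    insert i (sui P β) = insert i (sui P (rem P i β)) := by
  ext j
  rw [mem_insert, mem_insert, Q5_mem, Q5_mem]
  unfold rem
  constructor
  · rintro (h | ⟨p, hp⟩)
    · exact Or.inl h
    · by_cases hij : j = i
      · exact Or.inl hij
      · refine Or.inr ⟨p, ?_⟩
        rw [if_neg, hp]
        rw [hp]
        intro h
        exact hij (Option.some.inj h)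
  · rintro (h | ⟨p, hp⟩)
    · exact Or.inl h
    · refine Or.inr ⟨p, ?_⟩
      split_ifs at hp
      exact hp

theorem Q5_FT (z q0 k1 K t r0 : ℕ) (hz : 2 ≤ z) (hq : 1 ≤ q0) (hK : 2 * k1 ≤ K * q0)
    (hD : 0 < Dn (PP z (z ^ k1)) z q0 k1)
    (hD1 : 1 ≤ Dn (PP z (z ^ k1)) z q0 k1 * (q0 * Real.log z)) (b : ι → ℕ) (n : ℕ)
    (hn : ∀ i, 0 < n + b i ∧ n + b i ≤ z ^ t) (i : ι) :
    |FT z q0 k1 r0 b i n| ≤ (2 ^ t * ∏ p ∈ PP z (z ^ k1), (1 + 1 / ((p : ℝ) - 1))) ^ (K + 1) *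
      ∑ B ∈ (univ : Finset (Finset ι)).filter (fun B => B.card ≤ K + 1),
        (if i ∈ B then TU (wf z) z r0 (B.image b) n else 0) := by
  classical
  have h := Q5_gen (PP z (z ^ k1)) z k1 t r0 (K + 1) rfl hz b n hn
    (((univ : Finset (Finset ι)).filter fun B => B.card ≤ K + 1).filter fun B => i ∈ B)
    (fun B hB => (mem_filter.1 (mem_filter.1 hB).1).2)
    (fun β => insert i (sui (PP z (z ^ k1)) β))
    (fun β => Finset.subset_insert _ _) (ys5 (PP z (z ^ k1)) z q0 k1 i)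
    (fun β => ys5_abs_le _ z q0 k1 Q5_prime hz hq hD hD1 i β)
    (fun β h0 => by
      have h2 : y5 (PP z (z ^ k1)) z q0 k1 (rem (PP z (z ^ k1)) i β) ≠ 0 := by
        intro h2
        apply h0
        unfold ys5 yc5
        rw [h2]
        simp
      have h3 := (y5_supp _ z q0 k1 Q5_prime hz hq hK _ h2).2
      rw [mem_filter, mem_filter]
      refine ⟨⟨mem_univ _, ?_⟩, mem_insert_self _ _⟩
      rw [Q5_insert]
      exact (Finset.card_insert_le _ _).trans (by omega))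
  rw [Finset.sum_filter] at h
  have e : ∀ β : PP z (z ^ k1) → Option ι, ({b i} : Finset ℕ) ∪ su (PP z (z ^ k1)) b β =
      (insert i (sui (PP z (z ^ k1)) β)).image b := by
    intro β
    rw [Finset.image_insert, Finset.insert_eq]
    rfl
  unfold FT PhiG TE
  simp only [e]
  exact h

theorem PHT_four_le (z q0 k1 K t r0 : ℕ) (hz : 2 ≤ z) (hq : 1 ≤ q0) (hK : 2 * k1 ≤ K * q0)
    (hD : 0 < Dn (PP z (z ^ k1)) z q0 k1)
    (hD1 : 1 ≤ Dn (PP z (z ^ k1)) z q0 k1 * (q0 * Real.log z)) (b : ι → ℕ) (n : ℕ)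
    (hn : ∀ i, 0 < n + b i ∧ n + b i ≤ z ^ t) :
    PHT z q0 k1 r0 b n ^ 4 ≤ (2 ^ t * ∏ p ∈ PP z (z ^ k1), (1 + 1 / ((p : ℝ) - 1))) ^ (4 * K) *
      (2 ^ (16 * K) * TH z r0 (4 * K) b n) := by
  have h1 := Q5_PHT z q0 k1 K t r0 hz hq hK hD hD1 b n hn
  have h2 := sum_TU_four (wf z) z r0 K b n
  have h3 : PHT z q0 k1 r0 b n ^ 4 = |PHT z q0 k1 r0 b n| ^ 4 := by
    rw [← abs_pow, abs_of_nonneg (by positivity)]
  rw [h3]
  have hG := Q5_G1 z k1 t
  refine (pow_le_pow_left₀ (abs_nonneg _) h1 4).trans ?_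
  rw [mul_pow, ← pow_mul, mul_comm K 4]
  exact mul_le_mul_of_nonneg_left h2 (pow_nonneg hG _)

theorem YT_sq_le (z q0 k1 K t r0 : ℕ) (hz : 2 ≤ z) (hq : 1 ≤ q0) (hK : 2 * k1 ≤ K * q0)
    (hD : 0 < Dn (PP z (z ^ k1)) z q0 k1)
    (hD1 : 1 ≤ Dn (PP z (z ^ k1)) z q0 k1 * (q0 * Real.log z)) (b : ι → ℕ) (n : ℕ)
    (hn : ∀ i, 0 < n + b i ∧ n + b i ≤ z ^ t) :
    YT z q0 k1 r0 b n ^ 2 ≤
      (2 ^ t * ∏ p ∈ PP z (z ^ k1), (1 + 1 / ((p : ℝ) - 1))) ^ (4 * (K + 1)) *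
        ((K + 1) ^ 4 * (2 ^ (16 * (K + 1)) * TH z r0 (4 * (K + 1)) b n)) := by
  classical
  have hG := Q5_G1 z k1 t
  set G : ℝ := 2 ^ t * ∏ p ∈ PP z (z ^ k1), (1 + 1 / ((p : ℝ) - 1)) with hGdef
  set S1 : ℝ := ∑ B ∈ (univ : Finset (Finset ι)).filter (fun B => B.card ≤ K + 1),
    TU (wf z) z r0 (B.image b) n with hS1
  have hS0 : 0 ≤ S1 := Finset.sum_nonneg fun B _ => TU_nonneg _ _ _ _ _
  have h1 : ∑ i, |FT z q0 k1 r0 b i n| ≤ G ^ (K + 1) * ((K + 1) * S1) := by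
    calc ∑ i, |FT z q0 k1 r0 b i n|
        ≤ ∑ i : ι, G ^ (K + 1) *
          ∑ B ∈ (univ : Finset (Finset ι)).filter (fun B => B.card ≤ K + 1),
            (if i ∈ B then TU (wf z) z r0 (B.image b) n else 0) :=
          Finset.sum_le_sum fun i _ => Q5_FT z q0 k1 K t r0 hz hq hK hD hD1 b n hn i
      _ = G ^ (K + 1) * ∑ B ∈ (univ : Finset (Finset ι)).filter (fun B => B.card ≤ K + 1),
            (B.card : ℝ) * TU (wf z) z r0 (B.image b) n := by
          rw [← Finset.mul_sum, Finset.sum_comm]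
          congr 1
          refine Finset.sum_congr rfl fun B _ => ?_
          rw [Finset.sum_ite_mem, Finset.univ_inter, Finset.sum_const, nsmul_eq_mul]
      _ ≤ G ^ (K + 1) * ((K + 1) * S1) := by
          refine mul_le_mul_of_nonneg_left ?_ (pow_nonneg hG _)
          rw [hS1, Finset.mul_sum]
          refine Finset.sum_le_sum fun B hB => ?_
          refine mul_le_mul_of_nonneg_right ?_ (TU_nonneg _ _ _ _ _)
          exact_mod_cast (mem_filter.1 hB).2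
  have h2 := sum_TU_four (wf z) z r0 (K + 1) b n
  have h3 : YT z q0 k1 r0 b n ≤ (∑ i, |FT z q0 k1 r0 b i n|) ^ 2 := by
    unfold YT
    rw [sq (∑ i, |FT z q0 k1 r0 b i n|), Finset.sum_mul]
    refine Finset.sum_le_sum fun i _ => ?_
    rw [← sq_abs, sq]
    exact mul_le_mul_of_nonneg_left (Finset.single_le_sum
      (f := fun i => |FT z q0 k1 r0 b i n|) (fun i _ => abs_nonneg _) (mem_univ i)) (abs_nonneg _)
  have h4 : 0 ≤ YT z q0 k1 r0 b n := Finset.sum_nonneg fun i _ => sq_nonneg _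
  have h5 : (0 : ℝ) ≤ ∑ i, |FT z q0 k1 r0 b i n| := Finset.sum_nonneg fun i _ => abs_nonneg _
  calc YT z q0 k1 r0 b n ^ 2 ≤ ((∑ i, |FT z q0 k1 r0 b i n|) ^ 2) ^ 2 :=
        pow_le_pow_left₀ h4 h3 2
    _ = (∑ i, |FT z q0 k1 r0 b i n|) ^ 4 := by rw [← pow_mul]
    _ ≤ (G ^ (K + 1) * ((K + 1) * S1)) ^ 4 := pow_le_pow_left₀ h5 h1 4
    _ = G ^ (4 * (K + 1)) * ((K + 1) ^ 4 * S1 ^ 4) := by ring
    _ ≤ _ := by
        refine mul_le_mul_of_nonneg_left ?_ (pow_nonneg hG _)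
        exact mul_le_mul_of_nonneg_left h2 (by positivity)

theorem TH_mono (z r0 : ℕ) {K K' : ℕ} (hK : K ≤ K') (b : ι → ℕ) (n : ℕ) :
    TH z r0 K b n ≤ TH z r0 K' b n := by
  unfold TH
  refine Finset.sum_le_sum_of_subset_of_nonneg ?_ fun B _ _ => by positivity
  intro B hB
  rw [mem_filter] at hB ⊢
  exact ⟨hB.1, hB.2.trans hK⟩

end Pool.Agent.LibUF16
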