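import Pool.Agent.LibUF16.M0
import Pool.Agent.LibUF16.Q5

/-!
Row M7: `PHT^4` and `YT^2` are at most `C * TH` with the same `K' = 4 (K + 1)`. `PHT_four_le`, `YT_sq_le` with `t = 32 k1 + 1` (`b i ≤ log² z ≤ z`,
`LibLG5.log_pow_le`), `∏ (1 + 1/(p-1)) ≤ CS k1` (`NT_S_upper`), `TH_mono`, `TH ≥ 0`.
-/

open Finset Filter

namespace Pool.Agent.LibUF16

open Pool.Agent.LibRG87 Pool.Agent.LibLG5

theorem TH_nonneg {ι : Type} [Fintype ι] [DecidableEq ι] (z r0 K' : ℕ) (b : ι → ℕ) (n : ℕ) :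
    0 ≤ TH z r0 K' b n := by
  unfold TH
  exact Finset.sum_nonneg fun B _ => by positivity

theorem fourth {l : ℝ} {q0 k1 K : ℕ} (h : Par l q0 k1 K) (A : ℕ) : ∃ C : ℝ, 1 ≤ C ∧ ∀ᶠ z : ℕ in atTop,
    ∀ (ι : Type) [Fintype ι] [DecidableEq ι] (b : ι → ℕ) (c M : ℕ), Win l k1 z b → Dat A k1 z c M →
      ∀ m < M, PHT z q0 k1 (k1 / 2) b (c + primorial (wf z) * m) ^ 4 ≤
          C * TH z (k1 / 2) (4 * (K + 1)) b (c + primorial (wf z) * m) ∧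
        YT z q0 k1 (k1 / 2) b (c + primorial (wf z) * m) ^ 2 ≤
          C * TH z (k1 / 2) (4 * (K + 1)) b (c + primorial (wf z) * m) := by
  obtain ⟨CS, hCS, hS⟩ := NT_S_upper
  have hk1 := h.hk1
  have hS := hS k1 (by omega)
  obtain ⟨t, ht⟩ : ∃ t : ℕ, t = 32 * k1 + A + 1 := ⟨_, rfl⟩
  obtain ⟨X, hX⟩ : ∃ X : ℝ, X = 2 ^ t * ((CS : ℝ) * k1) := ⟨_, rfl⟩
  have hX1 : 1 ≤ X := by
    have e1 : (1 : ℝ) ≤ 2 ^ t := one_le_pow₀ (by norm_num)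
    have e2 : (1 : ℝ) ≤ CS := by exact_mod_cast hCS
    have e3 : (1 : ℝ) ≤ k1 := by
      have : 1 ≤ k1 := by omega
      exact_mod_cast this
    rw [hX]
    exact one_le_mul_of_one_le_of_one_le e1 (one_le_mul_of_one_le_of_one_le e2 e3)
  have hX0 : 0 ≤ X := by linarith
  have hK1 : (1 : ℝ) ≤ ((K : ℝ) + 1) ^ 4 := by
    apply one_le_pow₀
    have : (0 : ℝ) ≤ K := Nat.cast_nonneg K
    linarith
  have h2pow : (1 : ℝ) ≤ 2 ^ (16 * (K + 1)) := one_le_pow₀ (by norm_num)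
  refine ⟨X ^ (4 * (K + 1)) * (((K : ℝ) + 1) ^ 4 * 2 ^ (16 * (K + 1))), ?_, ?_⟩
  · exact one_le_mul_of_one_le_of_one_le (one_le_pow₀ hX1) (one_le_mul_of_one_le_of_one_le hK1 h2pow)
  have hlog := log_pow_le 1 2 le_rfl 1
  filter_upwards [hS, h.hDn, hlog, eventually_ge_atTop 2] with z hS hDn hlog hz2
  intro ι _ _ b c M hW hDat m hm
  set n : ℕ := c + primorial (wf z) * m with hndef
  have hn : ∀ i, 0 < n + b i ∧ n + b i ≤ z ^ t := by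
    intro i
    obtain ⟨hb1, hb2⟩ := hW.bd i
    refine ⟨by omega, ?_⟩
    have hbz : b i ≤ z := by
      have e1 : (b i : ℝ) ≤ z := by
        refine hb2.trans ?_
        simpa using hlog
      exact_mod_cast e1
    have hnz : n ≤ z ^ (32 * k1 + A) := hDat.hc m hm
    have hzz : z ≤ z ^ (32 * k1 + A) := Nat.le_self_pow (by omega) z
    calc n + b i ≤ z ^ (32 * k1 + A) + z ^ (32 * k1 + A) := Nat.add_le_add hnz (hbz.trans hzz)
      _ = z ^ (32 * k1 + A) * 2 := by ring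
      _ ≤ z ^ (32 * k1 + A) * z := Nat.mul_le_mul_left _ hz2
      _ = z ^ t := by rw [ht, pow_succ]
  have hprod0 : 0 ≤ ∏ p ∈ PP z (z ^ k1), (1 + 1 / ((p : ℝ) - 1)) :=
    Finset.prod_nonneg fun p hp => by
      have e1 : 1 < p := (nt_mem.1 hp).2.2.one_lt
      have e2 : (1 : ℝ) < p := by exact_mod_cast e1
      have e3 : 0 < (p : ℝ) - 1 := by linarith
      positivity
  obtain ⟨X', hX'⟩ : ∃ X' : ℝ, X' = 2 ^ t * ∏ p ∈ PP z (z ^ k1), (1 + 1 / ((p : ℝ) - 1)) := ⟨_, rfl⟩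
  have hX'0 : 0 ≤ X' := by rw [hX']; positivity
  have hX'X : X' ≤ X := by
    rw [hX', hX]
    exact mul_le_mul_of_nonneg_left hS (by positivity)
  have hTH0 := TH_nonneg z (k1 / 2) (4 * (K + 1)) b n
  have hP := PHT_four_le z q0 k1 K t (k1 / 2) hz2 h.hq0 h.hKq hDn.1 hDn.2 b n hn
  have hY := YT_sq_le z q0 k1 K t (k1 / 2) hz2 h.hq0 h.hKq hDn.1 hDn.2 b n hn
  rw [← hX'] at hP hY
  constructor
  · refine hP.trans ?_
    have e1 : TH z (k1 / 2) (4 * K) b n ≤ TH z (k1 / 2) (4 * (K + 1)) b n :=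
      TH_mono z (k1 / 2) (by omega) b n
    have e2 : X' ^ (4 * K) ≤ X ^ (4 * (K + 1)) :=
      (pow_le_pow_left₀ hX'0 hX'X _).trans (pow_le_pow_right₀ hX1 (by omega))
    have e3 : (2 : ℝ) ^ (16 * K) ≤ ((K : ℝ) + 1) ^ 4 * 2 ^ (16 * (K + 1)) := by
      have e4 : (2 : ℝ) ^ (16 * K) ≤ 2 ^ (16 * (K + 1)) :=
        pow_le_pow_right₀ (by norm_num) (by omega)
      have e5 : (1 : ℝ) * 2 ^ (16 * (K + 1)) ≤ ((K : ℝ) + 1) ^ 4 * 2 ^ (16 * (K + 1)) :=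
        mul_le_mul_of_nonneg_right hK1 (by positivity)
      linarith
    have hTH1 := TH_nonneg z (k1 / 2) (4 * K) b n
    calc X' ^ (4 * K) * (2 ^ (16 * K) * TH z (k1 / 2) (4 * K) b n)
        ≤ X ^ (4 * (K + 1)) *
          (((K : ℝ) + 1) ^ 4 * 2 ^ (16 * (K + 1)) * TH z (k1 / 2) (4 * (K + 1)) b n) := by
          apply mul_le_mul e2 (mul_le_mul e3 e1 hTH1 (by positivity)) (by positivity) (by positivity)
      _ = X ^ (4 * (K + 1)) * (((K : ℝ) + 1) ^ 4 * 2 ^ (16 * (K + 1))) *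
          TH z (k1 / 2) (4 * (K + 1)) b n := by ring
  · refine hY.trans ?_
    have e2 : X' ^ (4 * (K + 1)) ≤ X ^ (4 * (K + 1)) := pow_le_pow_left₀ hX'0 hX'X _
    calc X' ^ (4 * (K + 1)) * (((K : ℝ) + 1) ^ 4 * (2 ^ (16 * (K + 1)) *
          TH z (k1 / 2) (4 * (K + 1)) b n))
        ≤ X ^ (4 * (K + 1)) * (((K : ℝ) + 1) ^ 4 * (2 ^ (16 * (K + 1)) *
          TH z (k1 / 2) (4 * (K + 1)) b n)) := by
          apply mul_le_mul_of_nonneg_right e2 (by positivity)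
      _ = X ^ (4 * (K + 1)) * (((K : ℝ) + 1) ^ 4 * 2 ^ (16 * (K + 1))) *
          TH z (k1 / 2) (4 * (K + 1)) b n := by ring

end Pool.Agent.LibUF16
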