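import Mathlib

/-!
Row M8 (ONLY MATHLIB): Chebyshev and the deterministic count.
`cheb`: `∑_m (∑_j (a j m - μ j))² ≤ J² M (1 + 2 v) η + J M B`: for `i ≠ j` the term is `≤ M (μ i μ j + η) - μ i M (μ j - η) - μ j M (μ i - η) + M μ i μ j`,
for `i = j` it is `≤ B M - 2 μ j M (μ j - η) + μ j² M ≤ B M + 2 v η M`; every bad `m` contributes at least `(s J)²`.
`count`: over the killed `j` the sum of `X j` is `≥ (7/8) J - (1/4) J ≥ J/2` (`X j ≤ Y j` for the others, `Y ≥ 0`); Cauchy-Schwarz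
(`Finset.sum_mul_sq_le_sq_mul_sq` or `sq_sum_le_card_mul_sum_sq`): `(J/2)² ≤ #killed ∑ X j² ≤ #killed C ∑ H j ≤ #killed C 2 C' J`.
-/

open Finset

namespace Pool.Agent.LibUF16

open scoped Classical in
theorem cheb {M : ℕ} (I : Finset ℕ) (hI : I.Nonempty) (a : ℕ → ℕ → ℝ) (μ : ℕ → ℝ) {v B η s : ℝ}
    (hη : 0 ≤ η) (hs : 0 < s) (hμ : ∀ j ∈ I, 0 ≤ μ j ∧ μ j ≤ v)
    (h1 : ∀ j ∈ I, |∑ m ∈ range M, a j m - μ j * M| ≤ η * M)
    (h2 : ∀ i ∈ I, ∀ j ∈ I, i ≠ j → ∑ m ∈ range M, a i m * a j m ≤ (μ i * μ j + η) * M)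
    (h3 : ∀ j ∈ I, ∑ m ∈ range M, a j m ^ 2 ≤ B * M) :
    (((range M).filter fun m => s * I.card ≤ |∑ j ∈ I, a j m - ∑ j ∈ I, μ j|).card : ℝ) ≤
      ((1 + 2 * v) * η + B / I.card) / s ^ 2 * M := by
  obtain ⟨j₀, hj₀⟩ := hI
  have hv : 0 ≤ v := (hμ j₀ hj₀).1.trans (hμ j₀ hj₀).2
  have hJ : (0 : ℝ) < I.card := by
    have : 0 < I.card := Finset.card_pos.2 ⟨j₀, hj₀⟩
    exact_mod_cast this
  have hM : (0 : ℝ) ≤ M := Nat.cast_nonneg M
  have hconst : ∀ c : ℝ, ∑ m ∈ range M, c = M * c := fun c => by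
    rw [Finset.sum_const, Finset.card_range, nsmul_eq_mul]
  -- the products
  have hpair : ∀ i ∈ I, ∀ j ∈ I, ∑ m ∈ range M, (a i m - μ i) * (a j m - μ j) ≤
      (1 + 2 * v) * η * M + if i = j then B * M else 0 := by
    intro i hi j hj
    have e1 : ∑ m ∈ range M, (a i m - μ i) * (a j m - μ j) =
        ∑ m ∈ range M, a i m * a j m - μ i * ∑ m ∈ range M, a j m - μ j * ∑ m ∈ range M, a i m +
          M * (μ i * μ j) := by
      rw [← hconst (μ i * μ j), Finset.mul_sum, Finset.mul_sum, ← Finset.sum_sub_distrib,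
        ← Finset.sum_sub_distrib, ← Finset.sum_add_distrib]
      refine Finset.sum_congr rfl fun m _ => ?_
      ring
    have hi1 := (abs_le.1 (h1 i hi)).1
    have hj1 := (abs_le.1 (h1 j hj)).1
    have hi2 := hμ i hi
    have hj2 := hμ j hj
    have hηM : 0 ≤ η * M := mul_nonneg hη hM
    have k1 : μ i * (μ j * M - η * M) ≤ μ i * ∑ m ∈ range M, a j m :=
      mul_le_mul_of_nonneg_left (by linarith) hi2.1
    have k2 : μ j * (μ i * M - η * M) ≤ μ j * ∑ m ∈ range M, a i m :=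
      mul_le_mul_of_nonneg_left (by linarith) hj2.1
    have k3 : μ i * (η * M) ≤ v * (η * M) := mul_le_mul_of_nonneg_right hi2.2 hηM
    have k4 : μ j * (η * M) ≤ v * (η * M) := mul_le_mul_of_nonneg_right hj2.2 hηM
    rw [e1]
    by_cases hij : i = j
    · rw [if_pos hij]
      subst hij
      have k5 := h3 i hi
      have k6 : ∑ m ∈ range M, a i m * a i m = ∑ m ∈ range M, a i m ^ 2 :=
        Finset.sum_congr rfl fun m _ => by ring
      have k7 : 0 ≤ μ i * μ i * M := mul_nonneg (mul_nonneg hi2.1 hi2.1) hM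
      rw [k6]
      nlinarith
    · rw [if_neg hij, add_zero]
      have k5 := h2 i hi j hj hij
      nlinarith
  have hD : ∀ m, ∑ j ∈ I, a j m - ∑ j ∈ I, μ j = ∑ j ∈ I, (a j m - μ j) := fun m => by
    rw [Finset.sum_sub_distrib]
  have hsq : ∑ m ∈ range M, (∑ j ∈ I, a j m - ∑ j ∈ I, μ j) ^ 2 ≤
      (I.card : ℝ) ^ 2 * ((1 + 2 * v) * η * M) + I.card * (B * M) := by
    have e1 : ∑ m ∈ range M, (∑ j ∈ I, a j m - ∑ j ∈ I, μ j) ^ 2 =
        ∑ i ∈ I, ∑ j ∈ I, ∑ m ∈ range M, (a i m - μ i) * (a j m - μ j) := by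
      have e2 : ∀ m ∈ range M, (∑ j ∈ I, a j m - ∑ j ∈ I, μ j) ^ 2 =
          ∑ i ∈ I, ∑ j ∈ I, (a i m - μ i) * (a j m - μ j) := by
        intro m _
        rw [hD, pow_two, Finset.sum_mul_sum]
      rw [Finset.sum_congr rfl e2, Finset.sum_comm]
      refine Finset.sum_congr rfl fun i _ => ?_
      rw [Finset.sum_comm]
    rw [e1]
    calc ∑ i ∈ I, ∑ j ∈ I, ∑ m ∈ range M, (a i m - μ i) * (a j m - μ j)
        ≤ ∑ i ∈ I, ∑ j ∈ I, ((1 + 2 * v) * η * M + if i = j then B * M else 0) :=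
          Finset.sum_le_sum fun i hi => Finset.sum_le_sum fun j hj => hpair i hi j hj
      _ = ∑ i ∈ I, (I.card * ((1 + 2 * v) * η * M) + B * M) := by
          refine Finset.sum_congr rfl fun i hi => ?_
          rw [Finset.sum_add_distrib, Finset.sum_const, nsmul_eq_mul, Finset.sum_ite_eq,
            if_pos hi]
      _ = _ := by
          rw [Finset.sum_const, nsmul_eq_mul]
          ring
  set S := (range M).filter fun m => s * I.card ≤ |∑ j ∈ I, a j m - ∑ j ∈ I, μ j| with hS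
  have hbad : (S.card : ℝ) * (s * I.card) ^ 2 ≤
      ∑ m ∈ range M, (∑ j ∈ I, a j m - ∑ j ∈ I, μ j) ^ 2 := by
    have h4 : ∑ m ∈ S, (s * I.card) ^ 2 ≤ ∑ m ∈ S, (∑ j ∈ I, a j m - ∑ j ∈ I, μ j) ^ 2 := by
      refine Finset.sum_le_sum fun m hm => ?_
      have h5 := (Finset.mem_filter.1 hm).2
      rw [← sq_abs (∑ j ∈ I, a j m - ∑ j ∈ I, μ j)]
      exact pow_le_pow_left₀ (by positivity) h5 2
    rw [Finset.sum_const, nsmul_eq_mul] at h4
    refine h4.trans (Finset.sum_le_sum_of_subset_of_nonneg (Finset.filter_subset _ _) ?_)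
    intro m _ _
    exact sq_nonneg _
  have hpos : 0 < (s * (I.card : ℝ)) ^ 2 := by positivity
  have hfin : ((1 + 2 * v) * η + B / I.card) / s ^ 2 * M =
      ((I.card : ℝ) ^ 2 * ((1 + 2 * v) * η * M) + I.card * (B * M)) / (s * I.card) ^ 2 := by
    field_simp
  rw [hfin, le_div_iff₀ hpos]
  exact hbad.trans hsq

open scoped Classical in
theorem count (I : Finset ℕ) (X Y H : ℕ → ℝ) (R : ℕ → Prop) {C C' : ℝ} (hC : 1 ≤ C) (hC' : 1 ≤ C')
    (hX : ∀ j ∈ I, 0 ≤ X j) (hY : ∀ j ∈ I, 0 ≤ Y j) (hH : ∀ j ∈ I, 0 ≤ H j)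
    (hXY : ∀ j ∈ I, ¬ R j → X j ≤ Y j) (hXH : ∀ j ∈ I, X j ^ 2 ≤ C * H j)
    (h1 : (7 / 8) * (I.card : ℝ) ≤ ∑ j ∈ I, X j) (h2 : ∑ j ∈ I, Y j ≤ (1 / 4) * (I.card : ℝ))
    (h3 : ∑ j ∈ I, H j ≤ 2 * C' * I.card) :
    (1 / (8 * C * C')) * (I.card : ℝ) ≤ ((I.filter R).card : ℝ) := by
  have hJ : (0 : ℝ) ≤ I.card := Nat.cast_nonneg _
  rcases hJ.lt_or_eq with hJ | hJ
  swap
  · rw [← hJ, mul_zero]
    exact Nat.cast_nonneg _
  have hC0 : 0 < C := by linarith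
  have hC0' : 0 < C' := by linarith
  have e1 := Finset.sum_filter_add_sum_filter_not I R X
  have k1 : ∑ j ∈ I.filter (fun j => ¬ R j), X j ≤ ∑ j ∈ I, Y j := by
    calc ∑ j ∈ I.filter (fun j => ¬ R j), X j ≤ ∑ j ∈ I.filter (fun j => ¬ R j), Y j :=
          Finset.sum_le_sum fun j hj => hXY j (Finset.mem_filter.1 hj).1 (Finset.mem_filter.1 hj).2
      _ ≤ ∑ j ∈ I, Y j :=
          Finset.sum_le_sum_of_subset_of_nonneg (Finset.filter_subset _ _) fun j hj _ => hY j hj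
  have k2 : (1 / 2) * (I.card : ℝ) ≤ ∑ j ∈ I.filter R, X j := by linarith
  have k3 : (∑ j ∈ I.filter R, X j) ^ 2 ≤ ((I.filter R).card : ℝ) * ∑ j ∈ I.filter R, X j ^ 2 :=
    sq_sum_le_card_mul_sum_sq
  have k4 : ∑ j ∈ I.filter R, X j ^ 2 ≤ C * ∑ j ∈ I, H j := by
    calc ∑ j ∈ I.filter R, X j ^ 2 ≤ ∑ j ∈ I.filter R, C * H j :=
          Finset.sum_le_sum fun j hj => hXH j (Finset.mem_filter.1 hj).1
      _ ≤ ∑ j ∈ I, C * H j :=
          Finset.sum_le_sum_of_subset_of_nonneg (Finset.filter_subset _ _) fun j hj _ =>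
            mul_nonneg hC0.le (hH j hj)
      _ = C * ∑ j ∈ I, H j := by rw [Finset.mul_sum]
  have k5 : C * ∑ j ∈ I, H j ≤ C * (2 * C' * I.card) := mul_le_mul_of_nonneg_left h3 hC0.le
  have k6 : ((1 / 2) * (I.card : ℝ)) ^ 2 ≤ ((I.filter R).card : ℝ) * (C * (2 * C' * I.card)) := by
    calc ((1 / 2) * (I.card : ℝ)) ^ 2 ≤ (∑ j ∈ I.filter R, X j) ^ 2 :=
          pow_le_pow_left₀ (by positivity) k2 2
      _ ≤ _ := k3
      _ ≤ _ := mul_le_mul_of_nonneg_left (k4.trans k5) (Nat.cast_nonneg _)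
  have k7 : (I.card : ℝ) * I.card ≤ (((I.filter R).card : ℝ) * (8 * C * C')) * I.card := by
    nlinarith
  have k8 : (I.card : ℝ) ≤ ((I.filter R).card : ℝ) * (8 * C * C') := le_of_mul_le_mul_right k7 hJ
  rw [one_div, inv_mul_le_iff₀ (by positivity)]
  linarith

end Pool.Agent.LibUF16
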