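import Pool.Agent.LibUF16.T2

/-!
Row Q4: collapse (copy of `LibLG5.collapse5`, M5, with `TU` for `rho`; `M5_su_ins`, `M5_prod_ins`, `ee_ins`, `split` are there; instead of
`M5_rho'` use `TU_insert` twice). `PHT_sq_le`: if `Nb ≠ 0` some position `i` is rough, `PHT = FT i`, the other squares are `≥ 0`.
-/

open Finset Filter

namespace Pool.Agent.LibUF16

open Pool.Agent.LibRG87 Pool.Agent.LibLG5

variable {ι : Type} [Fintype ι] [DecidableEq ι]

omit [Fintype ι] [DecidableEq ι] in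
/-- two sets which agree up to `x` -/
theorem Q4_TU {w z r0 n x : ℕ} (B B' : Finset ℕ) (h : ∀ p ∈ PP w z, ¬ p ∣ n + x)
    (hB : insert x B = insert x B') : TU w z r0 B n = TU w z r0 B' n := by
  rw [← TU_insert w z r0 B n x h, ← TU_insert w z r0 B' n x h, hB]

theorem Q4_collapse (P : Finset ℕ) (z q0 k1 r0 : ℕ) (hP : ∀ p ∈ P, Nat.Prime p) (hz : 2 ≤ z)
    (w : ℕ) (b : ι → ℕ) (i : ι) (n : ℕ)
    (hn : ∀ p ∈ PP w z, ¬ p ∣ n + b i) (hn' : ∀ p ∈ P, ¬ p ∣ n + b i) :
    PhiG P b (y5 P z q0 k1) (TE P w z r0 b ∅) n =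
      PhiG P b (ys5 P z q0 k1 i) (TE P w z r0 b {b i}) n := by
  classical
  unfold PhiG TE
  rw [split P i (fun β => y5 P z q0 k1 β * TU w z r0 (∅ ∪ su P b β) n * ee P b β n),
    split P i (fun β => ys5 P z q0 k1 i β * TU w z r0 ({b i} ∪ su P b β) n * ee P b β n)]
  refine Finset.sum_congr rfl fun β _ => ?_
  by_cases hβ : ∀ p, β p ≠ some i
  · rw [if_pos hβ, if_pos hβ]
    set R : ℝ := TU w z r0 (su P b β) n * ee P b β n with hR
    -- the left side
    have h1 : ∀ A ∈ (P \ sp P β).powerset,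
        y5 P z q0 k1 (ins P i A β) * TU w z r0 (∅ ∪ su P b (ins P i A β)) n *
          ee P b (ins P i A β) n =
        (if rr A * rr (sp P β) ≤ (z : ℝ) ^ (2 * k1) then f5 P z q0 k1 A / ph A else 0) *
          ((∏ j, f5 P z q0 k1 (fb P β j)) * R) := by
      intro A hA
      rw [Finset.mem_powerset] at hA
      have h2 : TU w z r0 (∅ ∪ su P b (ins P i A β)) n = TU w z r0 (su P b β) n := by
        rw [Finset.empty_union]
        exact Q4_TU _ _ hn (M5_su_ins P b i hβ hA)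
      rw [h2, ee_ins P b i hβ hA n hn']
      unfold y5
      rw [rr_sp_ins P i hβ hA, M5_prod_ins P z q0 k1 i hβ hA, hR]
      split_ifs
      · ring
      · ring
    -- the right side
    have h3 : ∀ A ∈ (P \ sp P β).powerset,
        ys5 P z q0 k1 i (ins P i A β) * TU w z r0 ({b i} ∪ su P b (ins P i A β)) n *
          ee P b (ins P i A β) n =
        (if rr A ≤ (z : ℝ) ^ k1 then 1 / ph A else 0) *
          (yc5 P z q0 k1 i β / Gn (P \ sp P β) z k1 * R) := by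
      intro A hA
      rw [Finset.mem_powerset] at hA
      have h2 : TU w z r0 ({b i} ∪ su P b (ins P i A β)) n = TU w z r0 (su P b β) n := by
        refine Q4_TU _ _ hn ?_
        rw [← Finset.insert_eq, Finset.insert_idem, M5_su_ins P b i hβ hA]
      rw [h2, ee_ins P b i hβ hA n hn']
      unfold ys5
      rw [fb_ins_self P i hβ hA, rem_ins P i hβ hA, hR]
      split_ifs
      · ring
      · ring
    rw [Finset.sum_congr rfl h1, Finset.sum_congr rfl h3, ← Finset.sum_mul, ← Finset.sum_mul,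
      ← Finset.sum_filter, ← Finset.sum_filter]
    have h4 : ∑ A ∈ (P \ sp P β).powerset with rr A ≤ (z : ℝ) ^ k1, 1 / ph A =
        Gn (P \ sp P β) z k1 := rfl
    have h5 : ∑ A ∈ (P \ sp P β).powerset with rr A * rr (sp P β) ≤ (z : ℝ) ^ (2 * k1),
        f5 P z q0 k1 A / ph A = cc5 P z q0 k1 β := rfl
    rw [h4, h5]
    have h6 : Gn (P \ sp P β) z k1 ≠ 0 := by
      have := one_le_Gn (P \ sp P β) z k1 (fun p hp => hP p (Finset.mem_sdiff.1 hp).1)
        (by omega)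
      linarith
    have h7 : yc5 P z q0 k1 i β = cc5 P z q0 k1 β * ∏ j, f5 P z q0 k1 (fb P β j) := by
      unfold yc5
      rw [if_pos hβ]
      by_cases h8 : rr (sp P β) ≤ (z : ℝ) ^ (2 * k1)
      · unfold y5
        rw [if_pos h8]
        ring
      · rw [cc5_eq_zero P z q0 k1 hP β (not_le.1 h8)]
        ring
    rw [h7]
    field_simp
  · rw [if_neg hβ, if_neg hβ]

theorem collapse_T (z q0 k1 r0 : ℕ) (hz : 2 ≤ z) (b : ι → ℕ) (i : ι) (n : ℕ)
    (hn : ∀ p ∈ PP (wf z) z, ¬ p ∣ n + b i) (hn' : ∀ p ∈ PP z (z ^ k1), ¬ p ∣ n + b i) :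
    PHT z q0 k1 r0 b n = FT z q0 k1 r0 b i n := by
  unfold PHT FT
  exact Q4_collapse (PP z (z ^ k1)) z q0 k1 r0 (fun p hp => (Finset.mem_filter.1 hp).2) hz
    (wf z) b i n hn hn'

theorem PHT_sq_le (z q0 k1 r0 : ℕ) (hz : 2 ≤ z) (b : ι → ℕ) (n : ℕ)
    (h : Nb (wf z) z (z ^ k1) b n ≠ 0) : PHT z q0 k1 r0 b n ^ 2 ≤ YT z q0 k1 r0 b n := by
  classical
  obtain ⟨i, hi⟩ := Finset.card_pos.1 (Nat.pos_of_ne_zero h)
  obtain ⟨-, h1, h2⟩ := Finset.mem_filter.1 hi
  rw [collapse_T z q0 k1 r0 hz b i n h1 h2]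
  unfold YT
  exact Finset.single_le_sum (f := fun i => FT z q0 k1 r0 b i n ^ 2) (fun j _ => sq_nonneg _)
    (Finset.mem_univ i)

end Pool.Agent.LibUF16
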