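import Pool.Agent.LibUF16.M1
import Pool.Agent.LibUF16.M2
import Pool.Agent.LibUF16.M3a
import Pool.Agent.LibUF16.M3b
import Pool.Agent.LibUF16.M4a
import Pool.Agent.LibUF16.M4b
import Pool.Agent.LibUF16.M5b
import Pool.Agent.LibUF16.M5c
import Pool.Agent.LibUF16.M7
import Pool.Agent.LibUF16.M8
import Pool.Agent.LibUF16.Q4
import Pool.Agent.LibVO95.B1

/-!
Row M10: one class. `b_j = Subtype.val : SC W c (S j) → ℕ`, `Win` from the hypotheses, `Sum.elim` injective by `B1_inj`. For `j ∈ I`, `m < M`: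
`X j m = PHT²/DT`, `Y j m = YT/DT`, `H j m = TH` (`K' = 4 (K+1)`), `μX = 1`, `μY = DY/DT ≤ 1/8`, `μH = DTH ≤ C'` (`C' ≥ 1` from `DTH_le`).
-/

open Finset Filter

namespace Pool.Agent.LibUF16

open Pool.Agent.LibRG87 Pool.Agent.LibLG5 Pool.Agent.LibVO95

/-- every element of `n + S` has a prime factor at most `u` -/
def Killed (u : ℕ) (S : Finset ℕ) (n : ℕ) : Prop := ∀ s ∈ S, ∃ p : ℕ, p.Prime ∧ p ≤ u ∧ p ∣ n + s

open scoped Classical in
theorem M10_core {M : ℕ} (I : Finset ℕ) (hI : I.Nonempty) (X Y H : ℕ → ℕ → ℝ) (R : ℕ → ℕ → Prop)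
    (d dy dh : ℕ → ℝ) {C C' B δ : ℝ} (hC : 1 ≤ C) (hC' : 1 ≤ C') (hB : 0 ≤ B) (hδ : 0 ≤ δ)
    (hδI : δ * I.card ≤ 1)
    (hX : ∀ j ∈ I, ∀ m < M, 0 ≤ X j m) (hY : ∀ j ∈ I, ∀ m < M, 0 ≤ Y j m)
    (hH : ∀ j ∈ I, ∀ m < M, 0 ≤ H j m)
    (hd : ∀ j ∈ I, 1 ≤ d j) (hdy : ∀ j ∈ I, 0 ≤ dy j ∧ dy j ≤ d j / 8)
    (hdh : ∀ j ∈ I, 0 ≤ dh j ∧ dh j ≤ C')
    (hX1 : ∀ j ∈ I, |∑ m ∈ range M, X j m - d j * M| ≤ δ * (d j + 1) * M)
    (hY1 : ∀ j ∈ I, |∑ m ∈ range M, Y j m - dy j * M| ≤ δ * (dy j + 1) * M)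
    (hH1 : ∀ j ∈ I, |∑ m ∈ range M, H j m - dh j * M| ≤ δ * M)
    (hX2 : ∀ i ∈ I, ∀ j ∈ I, i ≠ j → ∑ m ∈ range M, X i m * X j m ≤
      (d i * d j + δ * (d i * d j + 1)) * M)
    (hY2 : ∀ i ∈ I, ∀ j ∈ I, i ≠ j → ∑ m ∈ range M, Y i m * Y j m ≤
      (dy i * dy j + δ * (dy i * dy j + 1)) * M)
    (hH2 : ∀ i ∈ I, ∀ j ∈ I, i ≠ j → ∑ m ∈ range M, H i m * H j m ≤ (dh i * dh j + δ) * M)
    (hX4 : ∀ j ∈ I, ∀ m < M, X j m ^ 2 ≤ C * H j m)
    (hY4 : ∀ j ∈ I, ∀ m < M, Y j m ^ 2 ≤ C * H j m)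
    (hH4 : ∀ j ∈ I, ∑ m ∈ range M, H j m ^ 2 ≤ B * M)
    (hR : ∀ j ∈ I, ∀ m < M, ¬ R j m → X j m ≤ Y j m) :
    (((range M).filter fun m => ((I.filter fun j => R j m).card : ℝ) <
      1 / (8 * C * C') * I.card).card : ℝ) ≤
      (128 * (6 + C * (C' + 1)) + (1 + 2 * C' + B)) / I.card * M := by
  have hn1 : 1 ≤ I.card := card_pos.2 hI
  have hn : (1 : ℝ) ≤ I.card := by exact_mod_cast hn1
  have hn0 : (0 : ℝ) < I.card := by linarith
  have hM0 : (0 : ℝ) ≤ M := Nat.cast_nonneg M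
  have hδ1 : δ ≤ 1 := by nlinarith
  have hδn : δ ≤ 1 / I.card := by
    rw [le_div_iff₀ hn0]
    exact hδI
  -- second moments
  have hHs : ∀ j ∈ I, ∑ m ∈ range M, H j m ≤ (C' + 1) * M := by
    intro j hj
    have h1 := (abs_le.1 (hH1 j hj)).2
    have h2 : dh j * M ≤ C' * M := mul_le_mul_of_nonneg_right (hdh j hj).2 hM0
    have h3 : δ * M ≤ 1 * M := mul_le_mul_of_nonneg_right hδ1 hM0
    linarith
  have hsq : ∀ (F : ℕ → ℕ → ℝ), (∀ j ∈ I, ∀ m < M, F j m ^ 2 ≤ C * H j m) → ∀ j ∈ I,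
      ∑ m ∈ range M, (F j m / d j) ^ 2 ≤ C * (C' + 1) * M := by
    intro F hF j hj
    have hdj := hd j hj
    calc ∑ m ∈ range M, (F j m / d j) ^ 2 ≤ ∑ m ∈ range M, C * H j m := by
          refine sum_le_sum fun m hm => ?_
          rw [div_pow]
          refine (div_le_self (sq_nonneg _) (one_le_pow₀ hdj)).trans (hF j hj m (mem_range.1 hm))
      _ = C * ∑ m ∈ range M, H j m := by rw [mul_sum]
      _ ≤ C * ((C' + 1) * M) := mul_le_mul_of_nonneg_left (hHs j hj) (by linarith)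
      _ = C * (C' + 1) * M := by ring
  -- X
  have hcX := cheb (M := M) I hI (fun j m => X j m / d j) (fun _ => 1) (v := 1)
    (B := C * (C' + 1)) (η := 2 * δ) (s := 1 / 8) (by linarith) (by norm_num)
    (fun j _ => ⟨zero_le_one, le_rfl⟩)
    (fun j hj => by
      have hdj := hd j hj
      have h0 : 0 < d j := by linarith
      have h1 := hX1 j hj
      rw [← sum_div]
      have h2 : (∑ m ∈ range M, X j m) / d j - 1 * M = (∑ m ∈ range M, X j m - d j * M) / d j := by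
        field_simp
      rw [h2, abs_div, abs_of_pos h0, div_le_iff₀ h0]
      refine h1.trans ?_
      have h3 : δ * (d j + 1) * M ≤ δ * (2 * d j) * M := by
        apply mul_le_mul_of_nonneg_right _ hM0
        apply mul_le_mul_of_nonneg_left _ hδ
        linarith
      linarith)
    (fun i hi j hj hij => by
      have hdi := hd i hi
      have hdj := hd j hj
      have h0 : 0 < d i * d j := mul_pos (by linarith) (by linarith)
      have h01 : 1 ≤ d i * d j := one_le_mul_of_one_le_of_one_le hdi hdj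
      have h1 := hX2 i hi j hj hij
      have h2 : ∑ m ∈ range M, X i m / d i * (X j m / d j) = (∑ m ∈ range M, X i m * X j m) / (d i * d j) := by
        rw [sum_div]
        refine sum_congr rfl fun m _ => ?_
        rw [div_mul_div_comm]
      rw [h2, div_le_iff₀ h0]
      refine h1.trans ?_
      have h3 : δ * (d i * d j + 1) ≤ δ * (2 * (d i * d j)) := by
        apply mul_le_mul_of_nonneg_left _ hδ
        linarith
      calc (d i * d j + δ * (d i * d j + 1)) * M ≤ (d i * d j + δ * (2 * (d i * d j))) * M :=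
            mul_le_mul_of_nonneg_right (by linarith) hM0
        _ = (1 * 1 + 2 * δ) * M * (d i * d j) := by ring)
    (hsq X hX4)
  -- Y
  have hcY := cheb (M := M) I hI (fun j m => Y j m / d j) (fun j => dy j / d j) (v := 1)
    (B := C * (C' + 1)) (η := 2 * δ) (s := 1 / 8) (by linarith) (by norm_num)
    (fun j hj => by
      have hdj := hd j hj
      have h0 : 0 < d j := by linarith
      have h1 := hdy j hj
      refine ⟨div_nonneg h1.1 h0.le, ?_⟩
      rw [div_le_one h0]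
      linarith)
    (fun j hj => by
      have hdj := hd j hj
      have h0 : 0 < d j := by linarith
      have h1 := hY1 j hj
      have h4 := hdy j hj
      rw [← sum_div]
      have h2 : (∑ m ∈ range M, Y j m) / d j - dy j / d j * M = (∑ m ∈ range M, Y j m - dy j * M) / d j := by
        field_simp
      rw [h2, abs_div, abs_of_pos h0, div_le_iff₀ h0]
      refine h1.trans ?_
      have h3 : δ * (dy j + 1) * M ≤ δ * (2 * d j) * M := by
        apply mul_le_mul_of_nonneg_right _ hM0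
        apply mul_le_mul_of_nonneg_left _ hδ
        linarith
      linarith)
    (fun i hi j hj hij => by
      have hdi := hd i hi
      have hdj := hd j hj
      have h0i : 0 < d i := by linarith
      have h0j : 0 < d j := by linarith
      have h0 : 0 < d i * d j := mul_pos h0i h0j
      have h01 : 1 ≤ d i * d j := one_le_mul_of_one_le_of_one_le hdi hdj
      have h1 := hY2 i hi j hj hij
      have h4i := hdy i hi
      have h4j := hdy j hj
      have h2 : ∑ m ∈ range M, Y i m / d i * (Y j m / d j) = (∑ m ∈ range M, Y i m * Y j m) / (d i * d j) := by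
        rw [sum_div]
        refine sum_congr rfl fun m _ => ?_
        rw [div_mul_div_comm]
      rw [h2, div_le_iff₀ h0]
      refine h1.trans ?_
      have h5 : dy i * dy j ≤ d i * d j :=
        mul_le_mul (by linarith) (by linarith) h4j.1 h0i.le
      have h3 : δ * (dy i * dy j + 1) ≤ δ * (2 * (d i * d j)) := by
        apply mul_le_mul_of_nonneg_left _ hδ
        linarith
      calc (dy i * dy j + δ * (dy i * dy j + 1)) * M ≤ (dy i * dy j + δ * (2 * (d i * d j))) * M :=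
            mul_le_mul_of_nonneg_right (by linarith) hM0
        _ = (dy i / d i * (dy j / d j) + 2 * δ) * M * (d i * d j) := by
            field_simp)
    (hsq Y hY4)
  -- H
  have hcH := cheb (M := M) I hI H dh (v := C') (B := B) (η := δ) (s := 1) hδ one_pos hdh hH1 hH2 hH4
  -- the bad set
  set EX := (range M).filter fun m => 1 / 8 * (I.card : ℝ) ≤ |∑ j ∈ I, X j m / d j - ∑ j ∈ I, (1 : ℝ)|
    with hEX
  set EY := (range M).filter fun m => 1 / 8 * (I.card : ℝ) ≤ |∑ j ∈ I, Y j m / d j - ∑ j ∈ I, dy j / d j|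
    with hEY
  set EH := (range M).filter fun m => 1 * (I.card : ℝ) ≤ |∑ j ∈ I, H j m - ∑ j ∈ I, dh j| with hEH
  have hsub : ((range M).filter fun m => ((I.filter fun j => R j m).card : ℝ) <
      1 / (8 * C * C') * I.card) ⊆ EX ∪ (EY ∪ EH) := by
    intro m hm
    rw [mem_filter, mem_range] at hm
    by_contra hcon
    rw [mem_union, mem_union, not_or, not_or] at hcon
    obtain ⟨hx, hy, hh⟩ := hcon
    rw [hEX, mem_filter, not_and, not_le] at hx
    rw [hEY, mem_filter, not_and, not_le] at hy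
    rw [hEH, mem_filter, not_and, not_le] at hh
    have hx' := abs_lt.1 (hx (mem_range.2 hm.1))
    have hy' := abs_lt.1 (hy (mem_range.2 hm.1))
    have hh' := abs_lt.1 (hh (mem_range.2 hm.1))
    have hs1 : ∑ j ∈ I, (1 : ℝ) = I.card := by simp
    have hs2 : ∑ j ∈ I, dy j / d j ≤ 1 / 8 * (I.card : ℝ) := by
      calc ∑ j ∈ I, dy j / d j ≤ ∑ j ∈ I, (1 / 8 : ℝ) := by
            refine sum_le_sum fun j hj => ?_
            have hdj := hd j hj
            rw [div_le_iff₀ (by linarith)]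
            have := (hdy j hj).2
            linarith
        _ = 1 / 8 * (I.card : ℝ) := by simp; ring
    have hs3 : ∑ j ∈ I, dh j ≤ C' * (I.card : ℝ) := by
      calc ∑ j ∈ I, dh j ≤ ∑ j ∈ I, C' := sum_le_sum fun j hj => (hdh j hj).2
        _ = C' * (I.card : ℝ) := by simp; ring
    have hcount := count I (fun j => X j m / d j) (fun j => Y j m / d j) (fun j => H j m)
      (fun j => R j m) hC hC'
      (fun j hj => div_nonneg (hX j hj m hm.1) (by linarith [hd j hj]))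
      (fun j hj => div_nonneg (hY j hj m hm.1) (by linarith [hd j hj]))
      (fun j hj => hH j hj m hm.1)
      (fun j hj hr => div_le_div_of_nonneg_right (hR j hj m hm.1 hr) (by linarith [hd j hj]))
      (fun j hj => by
        rw [div_pow]
        exact (div_le_self (sq_nonneg _) (one_le_pow₀ (hd j hj))).trans (hX4 j hj m hm.1))
      (by rw [hs1] at hx'; linarith [hx'.1])
      (by linarith [hy'.2])
      (by
        have h5 : (I.card : ℝ) ≤ C' * I.card := by nlinarith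
        linarith [hh'.2])
    linarith [hm.2]
  have hcard := (card_le_card hsub).trans ((card_union_le _ _).trans
    (Nat.add_le_add_left (card_union_le _ _) _))
  have hcard' : (((range M).filter fun m => ((I.filter fun j => R j m).card : ℝ) <
      1 / (8 * C * C') * I.card).card : ℝ) ≤ EX.card + (EY.card + EH.card) := by
    exact_mod_cast hcard
  refine hcard'.trans ?_
  have hCC : 0 ≤ C * (C' + 1) := by positivity
  have h6 : ((1 + 2 * 1) * (2 * δ) + C * (C' + 1) / I.card) / (1 / 8) ^ 2 * M ≤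
      64 * (6 + C * (C' + 1)) / I.card * M := by
    apply mul_le_mul_of_nonneg_right _ hM0
    have h7 : 64 * (6 + C * (C' + 1)) / I.card = 64 * (6 * (1 / I.card) + C * (C' + 1) / I.card) := by
      ring
    rw [h7]
    have h8 : ((1 + 2 * 1) * (2 * δ) + C * (C' + 1) / I.card) / (1 / 8) ^ 2 =
        64 * (6 * δ + C * (C' + 1) / I.card) := by ring
    rw [h8]
    linarith
  have h9 : ((1 + 2 * C') * δ + B / I.card) / 1 ^ 2 * M ≤ (1 + 2 * C' + B) / I.card * M := by
    apply mul_le_mul_of_nonneg_right _ hM0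
    have h10 : (1 + 2 * C' + B) / (I.card : ℝ) = (1 + 2 * C') * (1 / I.card) + B / I.card := by ring
    rw [h10, one_pow, div_one]
    have h11 : (1 + 2 * C') * δ ≤ (1 + 2 * C') * (1 / I.card) :=
      mul_le_mul_of_nonneg_left hδn (by linarith)
    linarith
  have h12 := hcX.trans h6
  have h13 := hcY.trans h6
  have h14 := hcH.trans h9
  have h15 : (128 * (6 + C * (C' + 1)) + (1 + 2 * C' + B)) / (I.card : ℝ) * M =
      64 * (6 + C * (C' + 1)) / I.card * M + (64 * (6 + C * (C' + 1)) / I.card * M +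
        (1 + 2 * C' + B) / I.card * M) := by ring
  rw [h15]
  exact add_le_add h12 (add_le_add h13 h14)

theorem M10_killed {z k1 c m : ℕ} {S : Finset ℕ} (hk1 : 1 ≤ k1) (hz : 1 ≤ z) (hwz : wf z ≤ z)
    (hR : ¬ Killed (z ^ k1) S (c + primorial (wf z) * m)) :
    Nb (wf z) z (z ^ k1) (fun a : SC (primorial (wf z)) c S => (a : ℕ))
      (c + primorial (wf z) * m) ≠ 0 := by
  intro hNb
  apply hR
  set n := c + primorial (wf z) * m with hndef
  have hzk : z ≤ z ^ k1 := by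
    calc z = z ^ 1 := (pow_one z).symm
      _ ≤ z ^ k1 := Nat.pow_le_pow_right (by omega) hk1
  intro s hs
  by_cases hc : (c + s).Coprime (primorial (wf z))
  · have haS : s ∈ SC (primorial (wf z)) c S := mem_filter.2 ⟨hs, hc⟩
    unfold Nb at hNb
    rw [Finset.card_eq_zero, Finset.filter_eq_empty_iff] at hNb
    have h1 := hNb (Finset.mem_univ (⟨s, haS⟩ : SC (primorial (wf z)) c S))
    by_contra hcon
    push Not at hcon
    apply h1
    refine ⟨fun r hr hd => ?_, fun r hr hd => ?_⟩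
    · rw [PP, Finset.mem_filter, Finset.mem_Ioc] at hr
      exact hcon r hr.2 (hr.1.2.trans hzk) hd
    · rw [PP, Finset.mem_filter, Finset.mem_Ioc] at hr
      exact hcon r hr.2 hr.1.2 hd
  · obtain ⟨r, hr, hr1, hr2⟩ := Nat.Prime.not_coprime_iff_dvd.mp hc
    have h3 : r ≤ wf z := (Nat.Prime.dvd_primorial_iff hr).mp hr2
    refine ⟨r, hr, (h3.trans hwz).trans hzk, ?_⟩
    have h5 : n + s = (c + s) + primorial (wf z) * m := by rw [hndef]; ring
    rw [h5]
    exact Dvd.dvd.add hr1 (Dvd.dvd.mul_right hr2 m)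

theorem M10_sum {M : ℕ} (hM : 0 < M) (F : ℕ → ℝ) : ∑ m ∈ range M, F m = avg M F * M := by
  have hM' : (0 : ℝ) < M := by exact_mod_cast hM
  rw [avg, div_mul_cancel₀ _ hM'.ne']

open scoped Classical in
theorem class_thm (l : ℝ) (hl : 1 ≤ l) (A : ℕ) : ∃ (k1 : ℕ) (c0 C0 : ℝ), 8 ≤ k1 ∧ 0 < c0 ∧ 0 < C0 ∧
    ∀ J : ℕ, 1 ≤ J → ∀ᶠ z : ℕ in atTop, ∀ (c M : ℕ) (I : Finset ℕ) (S : ℕ → Finset ℕ), I.Nonempty →
      I.card ≤ J → (∀ i ∈ I, ∀ j ∈ I, i ≠ j → Disjoint (S i) (S j)) →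
      (∀ j ∈ I, ∀ s ∈ S j, 1 ≤ s ∧ (s : ℝ) ≤ Real.log z ^ 2) →
      (∀ j ∈ I, ((SC (primorial (wf z)) c (S j)).card : ℝ) * V1 (wf z) z ≤ 64 * l * k1) →
      z ^ (32 * k1 - 1) ≤ M → (∀ m < M, c + primorial (wf z) * m ≤ z ^ (32 * k1 * (A + 1))) →
      (((range M).filter fun m =>
        ((I.filter fun j => Killed (z ^ k1) (S j) (c + primorial (wf z) * m)).card : ℝ) <
          c0 * I.card).card : ℝ) ≤ C0 / I.card * M := by
  obtain ⟨q0, k1, K, h⟩ := exists_par l hl
  have hk1 := h.hk1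
  obtain ⟨C', hC', hev1⟩ := DTH_le l hl k1 (4 * (K + 1))
  obtain ⟨C, hC, hev2⟩ := fourth h (32 * k1 * A)
  obtain ⟨B, hB, hev3⟩ := TH_sq l hl (32 * k1 * A) k1 (4 * (K + 1)) hk1
  have hC0 : 0 < 128 * (6 + C * (C' + 1)) + (1 + 2 * C' + B) := by positivity
  refine ⟨k1, 1 / (8 * C * C'), 128 * (6 + C * (C' + 1)) + (1 + 2 * C' + B), hk1, by positivity,
    hC0, fun J hJ => ?_⟩
  have hJ0 : (0 : ℝ) < J := by exact_mod_cast hJ
  have hδ : (0 : ℝ) < 1 / J := by positivity
  have hwz : ∀ᶠ z : ℕ in atTop, 4 ≤ z ∧ wf z ≤ z := by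
    filter_upwards [eventually_ge_atTop 4] with z hz
    refine ⟨hz, ?_⟩
    unfold wf
    have h2 : Nat.log 2 (Nat.log 2 z) ≤ Nat.log 2 z := Nat.log_le_self 2 _
    have h3 : Nat.log 2 z ≤ z := Nat.log_le_self 2 _
    omega
  filter_upwards [hev1, hev2, hev3, diag h, X_mean h (32 * k1 * A) hδ,
    X_pair h (32 * k1 * A) hδ, Y_mean h (32 * k1 * A) hδ, Y_pair h (32 * k1 * A) hδ,
    TH_mean l hl (32 * k1 * A) k1 (4 * (K + 1)) hk1 hδ, TH_pair l hl (32 * k1 * A) k1 (4 * (K + 1)) hk1 hδ, hwz] with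
    z e1 e2 e3 e4 e5 e6 e7 e8 e9 e10 e11
  intro c M I S hI hIJ hdis hS hcard hM1 hcM
  rcases Nat.eq_zero_or_pos M with hM0 | hM0
  · rw [hM0]
    simp
  set W := primorial (wf z) with hW
  have hWin : ∀ j ∈ I, Win l k1 z (fun a : SC W c (S j) => (a : ℕ)) := by
    intro j hj
    refine ⟨Subtype.val_injective, fun a => hS j hj a (mem_filter.1 a.2).1, ?_⟩
    rw [Fintype.card_coe]
    exact hcard j hj
  have hDat : Dat (32 * k1 * A) k1 z c M := ⟨hM1, fun m hm => (hcM m hm).trans (le_of_eq (by ring))⟩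
  have hIn : (I.card : ℝ) ≤ J := by exact_mod_cast hIJ
  refine M10_core (M := M) I hI
    (fun j m => PHT z q0 k1 (k1 / 2) (fun a : SC W c (S j) => (a : ℕ)) (c + W * m) ^ 2)
    (fun j m => YT z q0 k1 (k1 / 2) (fun a : SC W c (S j) => (a : ℕ)) (c + W * m))
    (fun j m => TH z (k1 / 2) (4 * (K + 1)) (fun a : SC W c (S j) => (a : ℕ)) (c + W * m))
    (fun j m => Killed (z ^ k1) (S j) (c + W * m))
    (fun j => DT z q0 k1 (k1 / 2) (fun a : SC W c (S j) => (a : ℕ)))
    (fun j => DY z q0 k1 (k1 / 2) (fun a : SC W c (S j) => (a : ℕ)))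
    (fun j => DTH z (k1 / 2) (4 * (K + 1)) (fun a : SC W c (S j) => (a : ℕ)))
    (δ := 1 / J) hC hC' (by linarith) hδ.le ?_ ?_ ?_ ?_ ?_ ?_ ?_ ?_ ?_ ?_ ?_ ?_ ?_ ?_ ?_ ?_ ?_
  · rw [div_mul_eq_mul_div, div_le_one hJ0]
    linarith
  · intro j _ m _
    exact sq_nonneg _
  · intro j _ m _
    exact sum_nonneg fun i _ => sq_nonneg _
  · intro j _ m _
    exact TH_nonneg _ _ _ _ _
  · intro j hj
    exact (e4 _ _ (hWin j hj)).1
  · intro j hj
    have := e4 _ _ (hWin j hj)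
    exact ⟨sum_nonneg fun i _ => this.2.1 i, this.2.2⟩
  · intro j hj
    exact e1 _ _ (hWin j hj)
  · intro j hj
    have h1 := e5 _ _ c M (hWin j hj) hDat
    have hM' : (0 : ℝ) < M := by exact_mod_cast hM0
    rw [M10_sum hM0, ← sub_mul, abs_mul, abs_of_pos hM']
    exact mul_le_mul_of_nonneg_right h1 hM'.le
  · intro j hj
    have h1 := e7 _ _ c M (hWin j hj) hDat
    have hM' : (0 : ℝ) < M := by exact_mod_cast hM0
    rw [M10_sum hM0, ← sub_mul, abs_mul, abs_of_pos hM']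
    exact mul_le_mul_of_nonneg_right h1 hM'.le
  · intro j hj
    have h1 := e9 _ _ c M (hWin j hj) hDat
    have hM' : (0 : ℝ) < M := by exact_mod_cast hM0
    rw [M10_sum hM0, ← sub_mul, abs_mul, abs_of_pos hM']
    exact mul_le_mul_of_nonneg_right h1 hM'.le
  · intro i hi j hj hij
    have h1 := e6 _ _ _ _ c M (hWin i hi) (hWin j hj) (B1_inj (hdis i hi j hj hij)) hDat
    rw [M10_sum hM0]
    exact mul_le_mul_of_nonneg_right h1 (Nat.cast_nonneg M)
  · intro i hi j hj hij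
    have h1 := e8 _ _ _ _ c M (hWin i hi) (hWin j hj) (B1_inj (hdis i hi j hj hij)) hDat
    rw [M10_sum hM0]
    exact mul_le_mul_of_nonneg_right h1 (Nat.cast_nonneg M)
  · intro i hi j hj hij
    have h1 := e10 _ _ _ _ c M (hWin i hi) (hWin j hj) (B1_inj (hdis i hi j hj hij)) hDat
    rw [M10_sum hM0]
    exact mul_le_mul_of_nonneg_right h1 (Nat.cast_nonneg M)
  · intro j hj m hm
    have h1 := (e2 _ _ c M (hWin j hj) hDat m hm).1
    rw [← pow_mul]
    exact h1
  · intro j hj m hm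
    exact (e2 _ _ c M (hWin j hj) hDat m hm).2
  · intro j hj
    have h1 := e3 _ _ c M (hWin j hj) hDat
    rw [M10_sum hM0]
    exact mul_le_mul_of_nonneg_right h1 (Nat.cast_nonneg M)
  · intro j hj m hm hR
    exact PHT_sq_le z q0 k1 (k1 / 2) (by omega) _ _ (M10_killed (by omega) (by omega) e11.2 hR)

end Pool.Agent.LibUF16
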