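import Pool.Agent.LibUF16.M10

/-!
Row M11a: all `n` in an interval `[X, X + N)`, sets of small diameter (follow the proof of `LibVO95.B3_blocks`): `W = primorial (wf z)`, `W ≤ z/2` for large `z`, `M = N / W`
(`z^(32 k1 - 1) ≤ M` because `z^(32 k1) ≤ 2 N`), `n = (X + c) + W m`, `c < W`; the `n ≥ X + W M` are at most `z`. Sum of `class_thm` (class `X + c`) over `c < W` with
`I = range J`. For every class the number of `a ∈ S j` with `(X + c + a, W) = 1` is at most `φ(W) (h/W + 2)`, `h = 32 l k1 log z` (`S j` is contained in an integer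
interval `[min, min + ⌊h⌋]`; `Nat.Ico_filter_coprime_le`, as in `LibLG5.FIN_card`), times `V1`: `≤ (h + 2 W)/log z ≤ 64 l k1` (`NT_V`, `primorial_wf_le`). Final
constant e.g. `C0 + 1` (`z ≤ N/J` for large `z`).
-/

open Finset Filter

namespace Pool.Agent.LibUF16

open Pool.Agent.LibRG87 Pool.Agent.LibLG5 Pool.Agent.LibVO95

theorem M11a_card {W c : ℕ} (hW : W ≠ 0) (S : Finset ℕ) {H : ℝ} (hH : 0 ≤ H)
    (hS : ∀ s ∈ S, ∀ s' ∈ S, (s : ℝ) ≤ s' + H) :
    ((SC W c S).card : ℝ) ≤ W.totient * ((H + 1) / W + 1) := by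
  rcases S.eq_empty_or_nonempty with rfl | hne
  · have h1 : SC W c ∅ = ∅ := by
      unfold SC
      exact filter_empty _
    rw [h1, card_empty, Nat.cast_zero]
    positivity
  have h1 : (SC W c S).card ≤ W.totient * ((⌊H⌋₊ + 1) / W + 1) := by
    refine le_trans ?_ (Nat.Ico_filter_coprime_le (c + S.min' hne) (⌊H⌋₊ + 1) hW)
    refine Finset.card_le_card_of_injOn (fun a => c + a) ?_ ?_
    · intro a ha
      rw [Finset.mem_coe, SC, Finset.mem_filter] at ha
      rw [Finset.mem_coe, Finset.mem_filter, Finset.mem_Ico]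
      have h2 := S.min'_le a ha.1
      have h3 := hS a ha.1 (S.min' hne) (S.min'_mem hne)
      have h4 : a - S.min' hne ≤ ⌊H⌋₊ := by
        apply Nat.le_floor
        rw [Nat.cast_sub h2]
        linarith
      refine ⟨⟨?_, ?_⟩, Nat.Coprime.symm ha.2⟩
      · show c + S.min' hne ≤ c + a
        omega
      · show c + a < c + S.min' hne + (⌊H⌋₊ + 1)
        omega
    · intro a _ a' _ h
      exact Nat.add_left_cancel h
  have h2 : ((SC W c S).card : ℝ) ≤ ((W.totient * ((⌊H⌋₊ + 1) / W + 1) : ℕ) : ℝ) := by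
    exact_mod_cast h1
  refine h2.trans ?_
  rw [Nat.cast_mul, Nat.cast_add, Nat.cast_one]
  refine mul_le_mul_of_nonneg_left ?_ (Nat.cast_nonneg _)
  have h3 : (((⌊H⌋₊ + 1) / W : ℕ) : ℝ) ≤ ((⌊H⌋₊ + 1 : ℕ) : ℝ) / W := Nat.cast_div_le
  have h4 : ((⌊H⌋₊ + 1 : ℕ) : ℝ) ≤ H + 1 := by
    push_cast
    linarith [Nat.floor_le hH]
  have h5 : ((⌊H⌋₊ + 1 : ℕ) : ℝ) / W ≤ (H + 1) / W :=
    div_le_div_of_nonneg_right h4 (Nat.cast_nonneg _)
  linarith

open scoped Classical in
theorem scale_int (l : ℝ) (hl : 1 ≤ l) (A : ℕ) : ∃ (k1 : ℕ) (c0 C0 : ℝ), 8 ≤ k1 ∧ 0 < c0 ∧ 0 < C0 ∧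
    ∀ J : ℕ, 1 ≤ J → ∀ᶠ z : ℕ in atTop, ∀ (X N : ℕ) (S : ℕ → Finset ℕ),
      X + N ≤ z ^ (32 * k1 * (A + 1)) → z ^ (32 * k1) ≤ 2 * N →
      (∀ i < J, ∀ j < J, i ≠ j → Disjoint (S i) (S j)) →
      (∀ j < J, ∀ s ∈ S j, 1 ≤ s ∧ (s : ℝ) ≤ Real.log z ^ 2) →
      (∀ j < J, ∀ s ∈ S j, ∀ s' ∈ S j, (s : ℝ) ≤ s' + 32 * l * k1 * Real.log z) →
      (((Ico X (X + N)).filter fun n =>
        (((range J).filter fun j => Killed (z ^ k1) (S j) n).card : ℝ) < c0 * J).card : ℝ) ≤
        C0 / J * N := by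
  obtain ⟨k1, c0, C0, hk1, hc0, hC0, hcl⟩ := class_thm l hl A
  refine ⟨k1, c0, C0 + 1, hk1, hc0, by linarith, ?_⟩
  intro J hJ
  have hJR : (1 : ℝ) ≤ J := by exact_mod_cast hJ
  have hJ0 : (0 : ℝ) < J := by linarith
  have hlog : Tendsto (fun n : ℕ => Real.log n) atTop atTop :=
    Real.tendsto_log_atTop.comp tendsto_natCast_atTop_atTop
  filter_upwards [hcl J hJ, eventually_ge_atTop 8, eventually_ge_atTop J,
    hlog.eventually_ge_atTop 2] with z hz hz8 hzJ hzlog
  intro X N S hXN hN hdis hS hdiam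
  have hz4 : 4 ≤ z := by omega
  obtain ⟨W, hWdef⟩ : ∃ W : ℕ, W = primorial (wf z) := ⟨_, rfl⟩
  rw [← hWdef] at hz
  have hW0 : 0 < W := by rw [hWdef]; exact primorial_pos _
  have hW0' : (0 : ℝ) < W := by exact_mod_cast hW0
  have hW1' : (1 : ℝ) ≤ W := by exact_mod_cast hW0
  have hwz : wf z ≤ z := by
    unfold wf
    have h2 : Nat.log 2 (Nat.log 2 z) ≤ Nat.log 2 z := Nat.log_le_self 2 _
    have h3 : Nat.log 2 z ≤ z := Nat.log_le_self 2 _
    omega
  have hz4' : (4 : ℝ) ≤ z := by exact_mod_cast hz4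
  have hz0 : (0 : ℝ) < z := by linarith
  have hlogz : Real.log z ≤ z := (Real.log_le_sub_one_of_pos hz0).trans (by linarith)
  have hlz0 : 0 < Real.log z := by linarith
  have hW2 : (W : ℝ) ^ 2 ≤ 2 * Real.log z := by
    have h1 := primorial_wf_le hz4
    rw [← hWdef] at h1
    have hlog2 : (1 / 2 : ℝ) < Real.log 2 := by
      have := Real.log_two_gt_d9
      linarith
    refine h1.trans ?_
    rw [div_le_iff₀ (by linarith)]
    nlinarith
  have hz8' : (8 : ℝ) ≤ z := by exact_mod_cast hz8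
  have h2Wz : 2 * W ≤ z := by
    have : 2 * (W : ℝ) ≤ z := by
      refine (pow_le_pow_iff_left₀ (by positivity) hz0.le two_ne_zero).mp ?_
      rw [mul_pow]
      nlinarith
    exact_mod_cast this
  have hWz : W ≤ z := by omega
  obtain ⟨M, hM⟩ : ∃ M : ℕ, M = N / W := ⟨_, rfl⟩
  have hM1 : z ^ (32 * k1 - 1) ≤ M := by
    rw [hM, Nat.le_div_iff_mul_le hW0]
    have h1 : z ^ (32 * k1 - 1) * (2 * W) ≤ 2 * N := by
      calc z ^ (32 * k1 - 1) * (2 * W) ≤ z ^ (32 * k1 - 1) * z := Nat.mul_le_mul_left _ h2Wz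
        _ = z ^ (32 * k1) := by
            rw [← pow_succ]
            congr 1
            omega
        _ ≤ 2 * N := hN
    have h2 : z ^ (32 * k1 - 1) * (2 * W) = 2 * (z ^ (32 * k1 - 1) * W) := by ring
    omega
  have hWM : W * M ≤ N := by rw [hM]; exact Nat.mul_div_le N W
  have hNW : N - W * M ≤ z := by
    have h5 := Nat.div_add_mod N W
    rw [← hM] at h5
    have h6 := Nat.mod_lt N hW0
    omega
  have hcM : ∀ c < W, ∀ m < M, X + c + W * m ≤ z ^ (32 * k1 * (A + 1)) := by
    intro c hc m hm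
    have h1 : W * (m + 1) ≤ W * M := Nat.mul_le_mul_left W hm
    have h3 : W * (m + 1) = W * m + W := by ring
    refine le_trans ?_ hXN
    omega
  have hk1' : (8 : ℝ) ≤ k1 := by exact_mod_cast hk1
  have hV := (V1_pos (wf z) z).le
  have hNT := NT_V (by omega : 2 ≤ z) hwz
  rw [← hWdef] at hNT
  have hcardS : ∀ c j, j < J → ((SC W c (S j)).card : ℝ) * V1 (wf z) z ≤ 64 * l * k1 := by
    intro c j hj
    have hH : 0 ≤ 32 * l * k1 * Real.log z := by positivity
    have h1 := M11a_card (c := c) hW0.ne' (S j) hH (hdiam j hj)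
    have e1 : (W.totient : ℝ) * V1 (wf z) z ≤ W / Real.log z := by
      have : (W.totient : ℝ) * V1 (wf z) z = W * ((W.totient : ℝ) / W * V1 (wf z) z) := by
        field_simp
      rw [this]
      calc (W : ℝ) * ((W.totient : ℝ) / W * V1 (wf z) z) ≤ W * (1 / Real.log z) :=
            mul_le_mul_of_nonneg_left hNT hW0'.le
        _ = W / Real.log z := by ring
    have hlk : (8 : ℝ) ≤ l * k1 := by nlinarith
    have hlkL : 8 * Real.log z ≤ l * k1 * Real.log z := mul_le_mul_of_nonneg_right hlk hlz0.le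
    have hWL : (W : ℝ) ≤ 2 * Real.log z := by nlinarith
    calc ((SC W c (S j)).card : ℝ) * V1 (wf z) z ≤
        (W.totient * ((32 * l * k1 * Real.log z + 1) / W + 1)) * V1 (wf z) z :=
          mul_le_mul_of_nonneg_right h1 hV
      _ = (W.totient * V1 (wf z) z) * ((32 * l * k1 * Real.log z + 1) / W + 1) := by ring
      _ ≤ W / Real.log z * ((32 * l * k1 * Real.log z + 1) / W + 1) :=
          mul_le_mul_of_nonneg_right e1 (by positivity)
      _ = (32 * l * k1 * Real.log z + 1 + W) / Real.log z := by field_simp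
      _ ≤ 64 * l * k1 := by
          rw [div_le_iff₀ hlz0]
          nlinarith
  obtain ⟨P, hP⟩ : ∃ P : ℕ → Prop, P = fun n =>
    (((range J).filter fun j => Killed (z ^ k1) (S j) n).card : ℝ) < c0 * J := ⟨_, rfl⟩
  have hclass : ∀ c < W, (((range M).filter fun m => P (X + c + W * m)).card : ℝ) ≤
      C0 / J * M := by
    intro c hc
    have h1 := hz (X + c) M (range J) S (nonempty_range_iff.2 (by omega)) (by rw [card_range])
      (fun i hi j hj hij => hdis i (mem_range.1 hi) j (mem_range.1 hj) hij)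
      (fun j hj => hS j (mem_range.1 hj))
      (fun j hj => hcardS (X + c) j (mem_range.1 hj)) hM1 (hcM c hc)
    rw [card_range] at h1
    rw [hP]
    exact h1
  have hsub : ((Ico X (X + N)).filter fun n => P n) ⊆
      Ico (X + W * M) (X + N) ∪ (range W).biUnion fun c =>
        ((range M).filter fun m => P (X + c + W * m)).image fun m => X + c + W * m := by
    intro n hn
    rw [mem_filter, mem_Ico] at hn
    by_cases a2 : X + W * M ≤ n
    · exact mem_union.2 (Or.inl (mem_Ico.2 ⟨a2, hn.1.2⟩))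
    obtain ⟨k, hk⟩ : ∃ k, n = X + k := ⟨n - X, by omega⟩
    refine mem_union.2 (Or.inr (mem_biUnion.2 ⟨k % W, mem_range.2 (Nat.mod_lt _ hW0), ?_⟩))
    have e1 : X + k % W + W * (k / W) = n := by
      rw [hk, add_assoc, Nat.mod_add_div k W]
    have a3 : k / W < M := by
      rw [Nat.div_lt_iff_lt_mul hW0, mul_comm]
      omega
    refine mem_image.2 ⟨k / W, mem_filter.2 ⟨mem_range.2 a3, ?_⟩, e1⟩
    rw [e1]
    exact hn.2
  have hcardN := (card_le_card hsub).trans ((card_union_le _ _).trans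
    (Nat.add_le_add_left card_biUnion_le _))
  rw [Nat.card_Ico, Nat.add_sub_add_left] at hcardN
  have hone : ∀ c ∈ range W, ((((range M).filter fun m => P (X + c + W * m)).image
      fun m => X + c + W * m).card : ℝ) ≤ C0 / J * M := by
    intro c hc
    have h1 : ((((range M).filter fun m => P (X + c + W * m)).image
      fun m => X + c + W * m).card : ℝ) ≤
        ((range M).filter fun m => P (X + c + W * m)).card := by
      exact_mod_cast card_image_le
    exact h1.trans (hclass c (mem_range.1 hc))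
  have hsum : ((∑ c ∈ range W, (((range M).filter fun m => P (X + c + W * m)).image
      fun m => X + c + W * m).card : ℕ) : ℝ) ≤ W * (C0 / J * M) := by
    push_cast
    refine (sum_le_sum hone).trans ?_
    rw [sum_const, card_range, nsmul_eq_mul]
  have hfin : (((Ico X (X + N)).filter fun n => P n).card : ℝ) ≤ z + W * (C0 / J * M) := by
    have h7 : (((Ico X (X + N)).filter fun n => P n).card : ℝ) ≤
        ((N - W * M + ∑ c ∈ range W, (((range M).filter fun m =>
          P (X + c + W * m)).image fun m => X + c + W * m).card : ℕ) : ℝ) := by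
      exact_mod_cast hcardN
    refine h7.trans ?_
    rw [Nat.cast_add]
    have h8 : ((N - W * M : ℕ) : ℝ) ≤ z := by exact_mod_cast hNW
    linarith
  have hgoal : (((Ico X (X + N)).filter fun n => P n).card : ℝ) ≤ (C0 + 1) / J * N := by
    refine hfin.trans ?_
    have hWMR : (W : ℝ) * M ≤ N := by exact_mod_cast hWM
    have hNz : (z : ℝ) * z ≤ N := by
      have h9 : z ^ 2 ≤ N := by
        have h91 : z ^ 3 ≤ z ^ (32 * k1) := Nat.pow_le_pow_right (by omega) (by omega)
        have h92 : 2 * z ^ 2 ≤ z ^ 3 := by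
          rw [pow_succ z 2, mul_comm]
          exact Nat.mul_le_mul_left _ (by omega)
        omega
      have : ((z ^ 2 : ℕ) : ℝ) ≤ N := by exact_mod_cast h9
      push_cast at this
      nlinarith
    have hzJ' : (J : ℝ) ≤ z := by exact_mod_cast hzJ
    have h9 : (z : ℝ) ≤ N / J := by
      rw [le_div_iff₀ hJ0]
      nlinarith
    have h10 : (W : ℝ) * (C0 / J * M) = C0 / J * (W * M) := by ring
    have h11 : C0 / J * (W * M) ≤ C0 / J * N := mul_le_mul_of_nonneg_left hWMR (by positivity)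
    have h12 : (C0 + 1) / J * (N : ℝ) = C0 / J * N + N / J := by ring
    rw [h10, h12]
    linarith
  rw [hP] at hgoal
  exact hgoal

end Pool.Agent.LibUF16
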