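import Pool.Agent.LibUF16.M10
import Pool.Agent.LibVO95.B2

/-!
Row M11b: all `n` in an interval `[X, X + N)`, arbitrary sets (follow the proof of `LibVO95.B3_blocks`): `W = primorial (wf z)`, `W ≤ z/2` for large `z`, `M = N / W`
(`z^(32 k1 - 1) ≤ M` because `z^(32 k1) ≤ 2 N`), `n = (X + c) + W m`, `c < W`; the `n ≥ X + W M` are at most `z`. `B2_classes` for the shifted sets `S' j = (S j).image (X + ·)`
(`#SC W c (S' j) = #SC W (X + c) (S j)`) with `t = 64 (8 l/δ) k1` as there: for all but `(δ/8) W` classes `c < W` `#(good c) ≥ J/2`,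
`good c = {j < J | #SC W (X + c) (S j) V1 ≤ t}`; `class_thm (8 l/δ)` with `I = good c` (`#I ≤ J`): exceptional proportion `≤ 2 C0/J ≤ δ/8` for `J ≥ J0`, and
outside it at least `c0 #(good c) ≥ (c0/2) J` of the `j` are killed (final constant `c0/2`).
-/

open Finset Filter

namespace Pool.Agent.LibUF16

open Pool.Agent.LibRG87 Pool.Agent.LibLG5 Pool.Agent.LibVO95

/-- the sum over the classes -/
private theorem M11b_count {N W M z : ℕ} {δ : ℝ} (hδ : 0 < δ) (Bad G : ℕ → Prop)
    [DecidablePred Bad] [DecidablePred G] (hW0 : 0 < W) (hNW : N - W * M ≤ z)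
    (hclass : ∀ c < W, G c → (((range M).filter fun m => Bad (c + W * m)).card : ℝ) ≤ δ / 4 * M)
    (hcls : (((range W).filter fun c => ¬ G c).card : ℝ) ≤ δ / 8 * W) :
    (((range N).filter fun n => Bad n).card : ℝ) ≤ z + (W * (δ / 4 * M) + (δ / 8 * W) * M) := by
  classical
  have hsub : ((range N).filter fun n => Bad n) ⊆
      Ico (W * M) N ∪ (range W).biUnion fun c =>
        ((range M).filter fun m => Bad (c + W * m)).image fun m => c + W * m := by
    intro n hn
    rw [mem_filter, mem_range] at hn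
    by_cases a2 : W * M ≤ n
    · exact mem_union.2 (Or.inl (mem_Ico.2 ⟨a2, hn.1⟩))
    refine mem_union.2 (Or.inr (mem_biUnion.2 ⟨n % W, mem_range.2 (Nat.mod_lt _ hW0), ?_⟩))
    have e1 : n % W + W * (n / W) = n := Nat.mod_add_div n W
    have a3 : n / W < M := by
      rw [Nat.div_lt_iff_lt_mul hW0, mul_comm]
      exact Nat.lt_of_not_le a2
    refine mem_image.2 ⟨n / W, mem_filter.2 ⟨mem_range.2 a3, ?_⟩, e1⟩
    rw [e1]
    exact hn.2
  have hcardN := (card_le_card hsub).trans ((card_union_le _ _).trans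
    (Nat.add_le_add_left card_biUnion_le _))
  rw [Nat.card_Ico] at hcardN
  have hMr : (0 : ℝ) ≤ M := Nat.cast_nonneg M
  have hone : ∀ c ∈ range W, ((((range M).filter fun m => Bad (c + W * m)).image
      fun m => c + W * m).card : ℝ) ≤ δ / 4 * M + (if ¬ G c then (M : ℝ) else 0) := by
    intro c hc
    have h1 : ((((range M).filter fun m => Bad (c + W * m)).image fun m => c + W * m).card : ℝ) ≤
        ((range M).filter fun m => Bad (c + W * m)).card := by
      exact_mod_cast card_image_le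
    by_cases hg : G c
    · rw [if_neg (not_not.2 hg), add_zero]
      exact h1.trans (hclass c (mem_range.1 hc) hg)
    · rw [if_pos hg]
      have h2 : (((range M).filter fun m => Bad (c + W * m)).card : ℝ) ≤ M := by
        have := card_filter_le (range M) fun m => Bad (c + W * m)
        rw [card_range] at this
        exact_mod_cast this
      have h3 : 0 ≤ δ / 4 * M := by positivity
      linarith
  have hsum : ((∑ c ∈ range W, (((range M).filter fun m => Bad (c + W * m)).image
      fun m => c + W * m).card : ℕ) : ℝ) ≤ W * (δ / 4 * M) + (δ / 8 * W) * M := by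
    push_cast
    refine (sum_le_sum hone).trans ?_
    rw [sum_add_distrib, sum_const, card_range, nsmul_eq_mul]
    have h4 : (∑ c ∈ range W, if ¬ G c then (M : ℝ) else 0) =
        (((range W).filter fun c => ¬ G c).card : ℝ) * M := by
      rw [← sum_filter, sum_const, nsmul_eq_mul]
    rw [h4]
    have h6 := mul_le_mul_of_nonneg_right hcls hMr
    linarith
  have h7 : (((range N).filter fun n => Bad n).card : ℝ) ≤
      ((N - W * M + ∑ c ∈ range W, (((range M).filter fun m =>
        Bad (c + W * m)).image fun m => c + W * m).card : ℕ) : ℝ) := by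
    exact_mod_cast hcardN
  refine h7.trans ?_
  rw [Nat.cast_add]
  have h8 : ((N - W * M : ℕ) : ℝ) ≤ z := by exact_mod_cast hNW
  linarith

/-- the shifted sets -/
private theorem M11b_SC (W X c : ℕ) (S : Finset ℕ) :
    (SC W c (S.image fun a => X + a)).card = (SC W (X + c) S).card := by
  have h1 : SC W c (S.image fun a => X + a) = (SC W (X + c) S).image fun a => X + a := by
    ext b
    unfold SC
    simp only [mem_filter, mem_image]
    constructor
    · rintro ⟨⟨a, ha, rfl⟩, hb⟩
      refine ⟨a, ⟨ha, ?_⟩, rfl⟩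
      have e : X + c + a = c + (X + a) := by omega
      rw [e]
      exact hb
    · rintro ⟨a, ⟨ha, hb⟩, rfl⟩
      refine ⟨⟨a, ha, rfl⟩, ?_⟩
      have e : c + (X + a) = X + c + a := by omega
      rw [e]
      exact hb
  rw [h1, card_image_of_injective _ (add_right_injective X)]

private theorem M11b_Ico (X N : ℕ) (Bad : ℕ → Prop) [DecidablePred Bad] :
    ((Ico X (X + N)).filter fun n => Bad n).card ≤
      ((range N).filter fun n => Bad (X + n)).card := by
  have hsub : ((Ico X (X + N)).filter fun n => Bad n) ⊆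
      ((range N).filter fun n => Bad (X + n)).image fun n => X + n := by
    intro n hn
    rw [mem_filter, mem_Ico] at hn
    refine mem_image.2 ⟨n - X, mem_filter.2 ⟨mem_range.2 (by omega), ?_⟩, by omega⟩
    have e : X + (n - X) = n := by omega
    rw [e]
    exact hn.2
  exact (card_le_card hsub).trans card_image_le

open scoped Classical in
theorem scale_sets (l δ : ℝ) (hl : 1 ≤ l) (hδ : 0 < δ) (hδ1 : δ ≤ 1) (A : ℕ) :
    ∃ (k1 J0 : ℕ) (c0 : ℝ), 8 ≤ k1 ∧ 1 ≤ J0 ∧ 0 < c0 ∧
    ∀ J : ℕ, J0 ≤ J → ∀ᶠ z : ℕ in atTop, ∀ (X N : ℕ) (S : ℕ → Finset ℕ),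
      X + N ≤ z ^ (32 * k1 * (A + 1)) → z ^ (32 * k1) ≤ 2 * N →
      (∀ i < J, ∀ j < J, i ≠ j → Disjoint (S i) (S j)) →
      (∀ j < J, ∀ s ∈ S j, 1 ≤ s ∧ (s : ℝ) ≤ Real.log z ^ 2) →
      (∀ j < J, ((S j).card : ℝ) ≤ 32 * l * k1 * Real.log z) →
      (((Ico X (X + N)).filter fun n =>
        (((range J).filter fun j => Killed (z ^ k1) (S j) n).card : ℝ) < c0 * J).card : ℝ) ≤
        δ * N := by
  obtain ⟨k1, c1, C0, hk1, hc1, hC0, hcl⟩ := class_thm (8 * l / δ)
    (by rw [le_div_iff₀ hδ]; linarith) A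
  obtain ⟨J0, hJ0⟩ := exists_nat_ge (max 1 (16 * C0 / δ))
  have hJ01 : (1 : ℝ) ≤ J0 := (le_max_left _ _).trans hJ0
  have hJ00 : 1 ≤ J0 := by exact_mod_cast hJ01
  refine ⟨k1, J0, c1 / 2, hk1, hJ00, by positivity, ?_⟩
  intro J hJJ
  have hJ1 : (1 : ℝ) ≤ J := hJ01.trans (by exact_mod_cast hJJ)
  have hJpos : 0 < J := lt_of_lt_of_le hJ00 hJJ
  have hBJ : 2 * C0 / J ≤ δ / 8 := by
    rw [div_le_iff₀ (by linarith)]
    have h1 := (le_max_right _ _).trans hJ0
    rw [div_le_iff₀ hδ] at h1
    have h2 : (J0 : ℝ) ≤ J := by exact_mod_cast hJJ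
    nlinarith
  obtain ⟨z1, hz1⟩ := exists_nat_ge (8 / δ)
  have hlog : Tendsto (fun n : ℕ => Real.log n) atTop atTop :=
    Real.tendsto_log_atTop.comp tendsto_natCast_atTop_atTop
  filter_upwards [hcl J hJpos, eventually_ge_atTop 8, eventually_ge_atTop z1,
    hlog.eventually_ge_atTop 2] with z hz hz8 hzz1 hzlog
  intro X N S hXN hzN hdis hS hcard
  have hz4 : 4 ≤ z := by omega
  obtain ⟨W, hWdef⟩ : ∃ W, W = primorial (wf z) := ⟨_, rfl⟩
  rw [← hWdef] at hz
  have hW0 : 0 < W := by rw [hWdef]; exact primorial_pos _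
  have hW0' : (0 : ℝ) < W := by exact_mod_cast hW0
  have hwz : wf z ≤ z := by
    unfold wf
    have h2 : Nat.log 2 (Nat.log 2 z) ≤ Nat.log 2 z := Nat.log_le_self 2 _
    have h3 : Nat.log 2 z ≤ z := Nat.log_le_self 2 _
    omega
  have hz4' : (4 : ℝ) ≤ z := by exact_mod_cast hz4
  have hz0 : (0 : ℝ) < z := by linarith
  have hlogz : Real.log z ≤ z := (Real.log_le_sub_one_of_pos hz0).trans (by linarith)
  have hz8' : (8 : ℝ) ≤ z := by exact_mod_cast hz8
  have hWz : 2 * W ≤ z := by
    have h1 := primorial_wf_le hz4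
    rw [← hWdef] at h1
    have hlog2 : (1 / 2 : ℝ) < Real.log 2 := by
      have := Real.log_two_gt_d9
      linarith
    have hW2 : (W : ℝ) ^ 2 ≤ 2 * Real.log z := by
      refine h1.trans ?_
      rw [div_le_iff₀ (by linarith)]
      nlinarith
    have : (2 * W : ℝ) ≤ z := by
      refine (pow_le_pow_iff_left₀ (by positivity) hz0.le two_ne_zero).mp ?_
      have h2 : (2 * (W : ℝ)) ^ 2 = 4 * (W : ℝ) ^ 2 := by ring
      rw [h2]
      nlinarith
    exact_mod_cast this
  obtain ⟨M, hM⟩ : ∃ M : ℕ, M = N / W := ⟨_, rfl⟩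
  have hM1 : z ^ (32 * k1 - 1) ≤ M := by
    rw [hM, Nat.le_div_iff_mul_le hW0]
    have h1 : z ^ (32 * k1 - 1) * (2 * W) ≤ z ^ (32 * k1) := by
      calc z ^ (32 * k1 - 1) * (2 * W) ≤ z ^ (32 * k1 - 1) * z := Nat.mul_le_mul_left _ hWz
        _ = z ^ (32 * k1) := by
          rw [← pow_succ]
          congr 1
          omega
    have h2 : z ^ (32 * k1 - 1) * (2 * W) = 2 * (z ^ (32 * k1 - 1) * W) := by ring
    omega
  have hWM : W * M ≤ N := by rw [hM]; exact Nat.mul_div_le N W
  have hNW : N - W * M ≤ z := by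
    have h5 := Nat.div_add_mod N W
    rw [← hM] at h5
    have h6 := Nat.mod_lt N hW0
    omega
  have hcM : ∀ c < W, ∀ m < M, X + c + W * m ≤ z ^ (32 * k1 * (A + 1)) := by
    intro c hc m hm
    have h1 : W * (m + 1) ≤ W * M := Nat.mul_le_mul_left W hm
    have h3 : W * (m + 1) = W * m + W := by ring
    refine le_trans ?_ hXN
    omega
  -- thresholds
  have hk1' : (8 : ℝ) ≤ k1 := by exact_mod_cast hk1
  obtain ⟨t, ht⟩ : ∃ t : ℝ, t = 64 * (8 * l / δ) * k1 := ⟨_, rfl⟩
  have ht0 : 0 < t := by rw [ht]; positivity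
  have hV := (V1_pos (wf z) z).le
  have hNT := NT_V (by omega : 2 ≤ z) hwz
  rw [← hWdef] at hNT
  have hlz0 : 0 < Real.log z := by linarith
  have hB : ∀ j < J, (W.totient : ℝ) * (S j).card * V1 (wf z) z ≤ δ / 16 * W * t := by
    intro j hj
    have e1 : (W.totient : ℝ) * V1 (wf z) z ≤ W / Real.log z := by
      have : (W.totient : ℝ) * V1 (wf z) z = W * ((W.totient : ℝ) / W * V1 (wf z) z) := by
        field_simp
      rw [this]
      calc (W : ℝ) * ((W.totient : ℝ) / W * V1 (wf z) z) ≤ W * (1 / Real.log z) :=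
            mul_le_mul_of_nonneg_left hNT hW0'.le
        _ = W / Real.log z := by ring
    calc (W.totient : ℝ) * (S j).card * V1 (wf z) z = (W.totient * V1 (wf z) z) * (S j).card := by ring
      _ ≤ W / Real.log z * (32 * l * k1 * Real.log z) :=
          mul_le_mul e1 (hcard j hj) (Nat.cast_nonneg _) (by positivity)
      _ = 32 * l * k1 * W := by field_simp
      _ = δ / 16 * W * t := by
          rw [ht]
          field_simp
          ring
  have hcls := B2_classes (W := W) (fun j => (S j).image fun a => X + a) hV ht0 (by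
    intro j hj
    rw [card_image_of_injective _ (add_right_injective X)]
    exact hB j hj) hJpos
  simp only [M11b_SC] at hcls
  -- one class
  obtain ⟨good, hgood⟩ : ∃ good : ℕ → Finset ℕ, good =
    fun c => (range J).filter fun j => ((SC W (X + c) (S j)).card : ℝ) * V1 (wf z) z ≤ t := ⟨_, rfl⟩
  have hclass : ∀ c < W, (J : ℝ) ≤ 2 * ((good c).card : ℝ) →
      (((range M).filter fun m => (((range J).filter fun j =>
        Killed (z ^ k1) (S j) (X + c + W * m)).card : ℝ) < c1 / 2 * J).card : ℝ) ≤ δ / 4 * M := by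
    intro c hc hg
    have hgpos : 0 < (good c).card := by
      have : (0 : ℝ) < (good c).card := by linarith
      exact_mod_cast this
    have hgsub : good c ⊆ range J := by rw [hgood]; exact filter_subset _ _
    have hgJ : (good c).card ≤ J := by
      have h1 := card_le_card hgsub
      rwa [card_range] at h1
    have h1 := hz (X + c) M (good c) S (card_pos.1 hgpos) hgJ
      (fun i hi j hj hij => hdis i (mem_range.1 (hgsub hi)) j (mem_range.1 (hgsub hj)) hij)
      (fun j hj => hS j (mem_range.1 (hgsub hj)))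
      (fun j hj => by
        rw [hgood] at hj
        rw [← ht]
        exact (mem_filter.1 hj).2) hM1 (hcM c hc)
    have h2 : ((range M).filter fun m => (((range J).filter fun j =>
          Killed (z ^ k1) (S j) (X + c + W * m)).card : ℝ) < c1 / 2 * J) ⊆
        ((range M).filter fun m => (((good c).filter fun j =>
          Killed (z ^ k1) (S j) (X + c + W * m)).card : ℝ) < c1 * (good c).card) := by
      intro m hm
      rw [mem_filter] at hm ⊢
      refine ⟨hm.1, ?_⟩
      have h3 : ((good c).filter fun j => Killed (z ^ k1) (S j) (X + c + W * m)).card ≤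
          ((range J).filter fun j => Killed (z ^ k1) (S j) (X + c + W * m)).card :=
        card_le_card (filter_subset_filter _ hgsub)
      have h4 : (((good c).filter fun j => Killed (z ^ k1) (S j) (X + c + W * m)).card : ℝ) ≤
          (((range J).filter fun j => Killed (z ^ k1) (S j) (X + c + W * m)).card : ℝ) := by
        exact_mod_cast h3
      have h5 := hm.2
      nlinarith
    refine (Nat.cast_le.2 (card_le_card h2)).trans (h1.trans ?_)
    apply mul_le_mul_of_nonneg_right _ (Nat.cast_nonneg M)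
    have h3 : C0 / ((good c).card : ℝ) ≤ 2 * C0 / J := by
      have hg0 : (0 : ℝ) < (good c).card := by exact_mod_cast hgpos
      rw [div_le_div_iff₀ hg0 (by linarith)]
      nlinarith
    linarith
  have hclass' : ∀ c < W, (J : ℝ) ≤ 2 * ((good c).card : ℝ) →
      (((range M).filter fun m => (((range J).filter fun j =>
        Killed (z ^ k1) (S j) (X + (c + W * m))).card : ℝ) < c1 / 2 * J).card : ℝ) ≤ δ / 4 * M := by
    intro c hc hg
    have h1 := hclass c hc hg
    simp only [Nat.add_assoc] at h1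
    exact h1
  have hfin := M11b_count (N := N) (M := M) (z := z) hδ
    (fun n => (((range J).filter fun j => Killed (z ^ k1) (S j) (X + n)).card : ℝ) < c1 / 2 * J)
    (fun c => (J : ℝ) ≤ 2 * ((good c).card : ℝ)) hW0 hNW hclass' (by
      rw [hgood]
      refine hcls.trans (le_of_eq ?_)
      ring)
  refine (Nat.cast_le.2 (M11b_Ico X N fun n =>
    (((range J).filter fun j => Killed (z ^ k1) (S j) n).card : ℝ) < c1 / 2 * J)).trans
    (hfin.trans ?_)
  have hWMR : (W : ℝ) * M ≤ N := by exact_mod_cast hWM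
  have hNz : (z : ℝ) * z ≤ 2 * N := by
    have h9 : z ^ 2 ≤ 2 * N := (Nat.pow_le_pow_right (by omega) (by omega)).trans hzN
    have : ((z ^ 2 : ℕ) : ℝ) ≤ ((2 * N : ℕ) : ℝ) := by exact_mod_cast h9
    push_cast at this
    nlinarith
  have hz9 : 8 / δ ≤ z := hz1.trans (by exact_mod_cast hzz1)
  rw [div_le_iff₀ hδ] at hz9
  have hz' : (z : ℝ) ≤ δ / 4 * N := by nlinarith
  have h10 : (W : ℝ) * (δ / 4 * M) + (δ / 8 * W) * M = 3 * δ / 8 * (W * M) := by ring
  rw [h10]
  have h11 : 3 * δ / 8 * (W * M) ≤ 3 * δ / 8 * N := mul_le_mul_of_nonneg_left hWMR (by positivity)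
  have hN0 : (0 : ℝ) ≤ N := Nat.cast_nonneg N
  nlinarith

end Pool.Agent.LibUF16
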