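import Pool.Agent.LibUF16.M11a
import Pool.Agent.LibUF16.M11b
import Pool.Agent.LibVO95.B4

/-!
Row M12: all intervals `[X, X + y)`, `X ≤ y^A`, `y` large (follow the proof of `LibVO95.sets_all`, B4, with `32` for `16` and `1/31` for `1/15`): `B4_scale` with `q = 32 k1`,
`x = y` gives `z` with `y ≤ z^q ≤ 2 y`, so `log y ≤ q log z`, `(log y)^(3/2) ≤ log² z`, `l log y ≤ 32 l k1 log z`, `z^k1 ≤ y^(1/31)` (`u^32 ≤ 2 y`, `u ≥ 2`), so a set killed at the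
level `z^k1` is killed at the level `y^(1/31)`; `X + y ≤ y^A + y ≤ y^(A+2) ≤ z^(q (A+2))` (`y ≥ 2`): use M11a/M11b with `A + 1`, `N = y`. Reduce to `l ≥ 1` by `max l 1`, to
`δ ≤ 1` by `min δ 1`.
-/

open Finset Filter

namespace Pool.Agent.LibUF16

open Pool.Agent.LibRG87 Pool.Agent.LibLG5 Pool.Agent.LibVO95

theorem M12_common (k1 : ℕ) (hk1 : 8 ≤ k1) (P : ℕ → Prop) (hP : ∀ᶠ z : ℕ in atTop, P z) :
    ∃ x₀ : ℕ, ∀ x : ℕ, x₀ ≤ x → ∃ z : ℕ, P z ∧ 2 ≤ x ∧ x ≤ z ^ (32 * k1) ∧ z ^ (32 * k1) ≤ 2 * x ∧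
      0 ≤ Real.log x ∧ 0 ≤ Real.log z ∧ Real.log x ≤ 32 * k1 * Real.log z ∧
      Real.log x ^ (3 / 2 : ℝ) ≤ Real.log z ^ 2 ∧ ((z ^ k1 : ℕ) : ℝ) ≤ (x : ℝ) ^ (1 / 31 : ℝ) := by
  obtain ⟨q, hq⟩ : ∃ q : ℕ, q = 32 * k1 := ⟨_, rfl⟩
  have hlog : Tendsto (fun n : ℕ => Real.log n) atTop atTop :=
    Real.tendsto_log_atTop.comp tendsto_natCast_atTop_atTop
  obtain ⟨x1, hx1⟩ := B4_scale q (by omega) _
    (hP.and (hlog.eventually_ge_atTop (max 1 ((q : ℝ) ^ 3))))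
  refine ⟨max x1 2, fun x hx => ?_⟩
  obtain ⟨z, ⟨hz, hzlog⟩, hz2, hxz, hzx⟩ := hx1 x ((le_max_left _ _).trans hx)
  have hx2 : 2 ≤ x := (le_max_right _ _).trans hx
  have hx2' : (2 : ℝ) ≤ x := by exact_mod_cast hx2
  have hx0 : (0 : ℝ) < x := by linarith
  have hlz1 : 1 ≤ Real.log z := (le_max_left _ _).trans hzlog
  have hlz3 : (q : ℝ) ^ 3 ≤ Real.log z := (le_max_right _ _).trans hzlog
  have hlx : Real.log x ≤ q * Real.log z := by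
    rw [← Real.log_pow]
    exact Real.log_le_log hx0 (by exact_mod_cast hxz)
  have hlx0 : 0 ≤ Real.log x := Real.log_natCast_nonneg x
  refine ⟨z, hz, hx2, by rw [← hq]; exact hxz, by rw [← hq]; exact hzx, hlx0, by linarith, ?_, ?_, ?_⟩
  · rw [hq] at hlx
    push_cast at hlx
    exact hlx
  · have e1 : Real.log x ^ (3 / 2 : ℝ) ≤ (q * Real.log z) ^ (3 / 2 : ℝ) :=
      Real.rpow_le_rpow hlx0 hlx (by norm_num)
    refine e1.trans ?_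
    have e2 : 0 ≤ (q * Real.log z) ^ (3 / 2 : ℝ) := by positivity
    refine (pow_le_pow_iff_left₀ e2 (by positivity) two_ne_zero).mp ?_
    rw [← Real.rpow_natCast, ← Real.rpow_mul (by positivity)]
    norm_num
    calc (q * Real.log z) ^ 3 = q ^ 3 * Real.log z ^ 3 := by ring
      _ ≤ Real.log z * Real.log z ^ 3 := mul_le_mul_of_nonneg_right hlz3 (by positivity)
      _ = (Real.log z ^ 2) ^ 2 := by ring
  · set u : ℕ := z ^ k1 with hudef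
    have hu2 : 2 ≤ u := by
      calc 2 ≤ z := hz2
        _ = z ^ 1 := (pow_one z).symm
        _ ≤ z ^ k1 := Nat.pow_le_pow_right (by omega) (by omega)
    have e1 : u ^ 32 = z ^ q := by
      rw [hudef, ← pow_mul, hq, mul_comm]
    have e2 : u ^ 31 ≤ x := by
      have e3 : u * u ^ 31 ≤ 2 * x := by
        calc u * u ^ 31 = u ^ 32 := by ring
          _ = z ^ q := e1
          _ ≤ 2 * x := hzx
      have e4 : 2 * u ^ 31 ≤ u * u ^ 31 := Nat.mul_le_mul_right _ hu2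
      omega
    have e5 : ((u : ℝ) ^ (31 : ℕ)) ≤ x := by exact_mod_cast e2
    calc (u : ℝ) = ((u : ℝ) ^ (31 : ℕ)) ^ (1 / 31 : ℝ) := by
          rw [← Real.rpow_natCast, ← Real.rpow_mul (Nat.cast_nonneg u)]
          norm_num
      _ ≤ (x : ℝ) ^ (1 / 31 : ℝ) := Real.rpow_le_rpow (by positivity) e5 (by norm_num)

/-- the size of the interval -/
private theorem M12_size {X y z q A : ℕ} (hy : 2 ≤ y) (hX : X ≤ y ^ A) (hyz : y ≤ z ^ q) :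
    X + y ≤ z ^ (q * (A + 1 + 1)) := by
  have h1 : y ^ A ≤ y ^ (A + 1) := Nat.pow_le_pow_right (by omega) (by omega)
  have h2 : y ≤ y ^ (A + 1) := by
    calc y = y ^ 1 := (pow_one y).symm
      _ ≤ y ^ (A + 1) := Nat.pow_le_pow_right (by omega) (by omega)
  have h3 : 2 * y ^ (A + 1) ≤ y ^ (A + 1 + 1) := by
    rw [pow_succ y (A + 1), mul_comm]
    exact Nat.mul_le_mul_left _ hy
  calc X + y ≤ y ^ (A + 1) + y ^ (A + 1) := Nat.add_le_add (hX.trans h1) h2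
    _ = 2 * y ^ (A + 1) := by ring
    _ ≤ y ^ (A + 1 + 1) := h3
    _ ≤ (z ^ q) ^ (A + 1 + 1) := Nat.pow_le_pow_left hyz _
    _ = z ^ (q * (A + 1 + 1)) := (pow_mul z q _).symm

open scoped Classical in
theorem M12_sub {X y z k1 J : ℕ} {c : ℝ} {S : ℕ → Finset ℕ}
    (hu : ((z ^ k1 : ℕ) : ℝ) ≤ (y : ℝ) ^ (1 / 31 : ℝ)) :
    ((Ico X (X + y)).filter fun n : ℕ => (((range J).filter fun j => ∀ s ∈ S j, ∃ p : ℕ, p.Prime ∧
      (p : ℝ) ≤ (y : ℝ) ^ (1 / 31 : ℝ) ∧ p ∣ n + s).card : ℝ) < c * J) ⊆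
    (Ico X (X + y)).filter fun n =>
        (((range J).filter fun j => Killed (z ^ k1) (S j) n).card : ℝ) < c * J := by
  intro n hn
  have hn' := mem_filter.1 hn
  refine mem_filter.2 ⟨hn'.1, lt_of_le_of_lt ?_ hn'.2⟩
  refine Nat.cast_le.2 (card_le_card ?_)
  intro j hj
  have hj' := mem_filter.1 hj
  refine mem_filter.2 ⟨hj'.1, fun s hs => ?_⟩
  obtain ⟨p, hp, hpu, hpd⟩ := hj'.2 s hs
  refine ⟨p, hp, ?_, hpd⟩
  have h2 : (p : ℝ) ≤ ((z ^ k1 : ℕ) : ℝ) := by exact_mod_cast hpu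
  linarith

open scoped Classical in
theorem sets_unif (l : ℝ) (A : ℕ) : ∃ c C : ℝ, 0 < c ∧ 0 < C ∧ ∀ J : ℕ, 1 ≤ J → ∃ y₀ : ℕ,
    ∀ X y : ℕ, y₀ ≤ y → X ≤ y ^ A →
    ∀ S : ℕ → Finset ℕ, (∀ i < J, ∀ j < J, i ≠ j → Disjoint (S i) (S j)) →
    (∀ j < J, ∀ s ∈ S j, 1 ≤ s ∧ (s : ℝ) ≤ Real.log y ^ (3 / 2 : ℝ)) →
    (∀ j < J, ∀ s ∈ S j, ∀ s' ∈ S j, (s : ℝ) ≤ s' + l * Real.log y) →
    (((Ico X (X + y)).filter fun n : ℕ => (((range J).filter fun j => ∀ s ∈ S j, ∃ p : ℕ, p.Prime ∧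
      (p : ℝ) ≤ (y : ℝ) ^ (1 / 31 : ℝ) ∧ p ∣ n + s).card : ℝ) < c * J).card : ℝ) ≤ C / J * y := by
  obtain ⟨l', hl'1, hll'⟩ : ∃ l' : ℝ, 1 ≤ l' ∧ l ≤ l' := ⟨max l 1, le_max_right _ _, le_max_left _ _⟩
  obtain ⟨k1, c0, C0, hk1, hc0, hC0, hJ⟩ := scale_int l' hl'1 (A + 1)
  refine ⟨c0, C0, hc0, hC0, fun J hJ1 => ?_⟩
  obtain ⟨x₀, hx₀⟩ := M12_common k1 hk1 _ (hJ J hJ1)
  refine ⟨x₀, fun X x hx hXA S hdis hS hint => ?_⟩
  obtain ⟨z, hz, hx2, hxz, hzx, hlx0, hlz0, hlx, hlx32, hu⟩ := hx₀ x hx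
  have hmain := hz X x S (M12_size hx2 hXA hxz) hzx hdis
    (fun j hj s hs => ⟨(hS j hj s hs).1, (hS j hj s hs).2.trans hlx32⟩)
    (fun j hj s hs s' hs' => by
      refine (hint j hj s hs s' hs').trans ?_
      have e1 : l * Real.log x ≤ l' * (32 * k1 * Real.log z) := by
        calc l * Real.log x ≤ l' * Real.log x := mul_le_mul_of_nonneg_right hll' hlx0
          _ ≤ l' * (32 * k1 * Real.log z) := mul_le_mul_of_nonneg_left hlx (by linarith)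
      linarith)
  exact (Nat.cast_le.2 (card_le_card (M12_sub hu))).trans hmain

open scoped Classical in
theorem sets_freq (l δ : ℝ) (hδ : 0 < δ) (A : ℕ) : ∃ (c : ℝ) (J₀ : ℕ), 0 < c ∧ 1 ≤ J₀ ∧
    ∀ J : ℕ, J₀ ≤ J → ∃ y₀ : ℕ, ∀ X y : ℕ, y₀ ≤ y → X ≤ y ^ A →
    ∀ S : ℕ → Finset ℕ, (∀ i < J, ∀ j < J, i ≠ j → Disjoint (S i) (S j)) →
    (∀ j < J, ∀ s ∈ S j, 1 ≤ s ∧ (s : ℝ) ≤ Real.log y ^ (3 / 2 : ℝ)) →
    (∀ j < J, ((S j).card : ℝ) ≤ l * Real.log y) →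
    (((Ico X (X + y)).filter fun n : ℕ => (((range J).filter fun j => ∀ s ∈ S j, ∃ p : ℕ, p.Prime ∧
      (p : ℝ) ≤ (y : ℝ) ^ (1 / 31 : ℝ) ∧ p ∣ n + s).card : ℝ) < c * J).card : ℝ) ≤ δ * y := by
  obtain ⟨l', hl'1, hll'⟩ : ∃ l' : ℝ, 1 ≤ l' ∧ l ≤ l' := ⟨max l 1, le_max_right _ _, le_max_left _ _⟩
  obtain ⟨δ', hδ'0, hδ'1, hδ'δ⟩ : ∃ δ' : ℝ, 0 < δ' ∧ δ' ≤ 1 ∧ δ' ≤ δ :=
    ⟨min δ 1, lt_min hδ one_pos, min_le_right _ _, min_le_left _ _⟩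
  obtain ⟨k1, J0, c0, hk1, hJ0, hc0, hJ⟩ := scale_sets l' δ' hl'1 hδ'0 hδ'1 (A + 1)
  refine ⟨c0, J0, hc0, hJ0, fun J hJ1 => ?_⟩
  obtain ⟨x₀, hx₀⟩ := M12_common k1 hk1 _ (hJ J hJ1)
  refine ⟨x₀, fun X x hx hXA S hdis hS hcard => ?_⟩
  obtain ⟨z, hz, hx2, hxz, hzx, hlx0, hlz0, hlx, hlx32, hu⟩ := hx₀ x hx
  have hmain := hz X x S (M12_size hx2 hXA hxz) hzx hdis
    (fun j hj s hs => ⟨(hS j hj s hs).1, (hS j hj s hs).2.trans hlx32⟩)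
    (fun j hj => by
      refine (hcard j hj).trans ?_
      calc l * Real.log x ≤ l' * Real.log x := mul_le_mul_of_nonneg_right hll' hlx0
        _ ≤ l' * (32 * k1 * Real.log z) := mul_le_mul_of_nonneg_left hlx (by linarith)
        _ = 32 * l' * k1 * Real.log z := by ring)
  refine (Nat.cast_le.2 (card_le_card (M12_sub hu))).trans (hmain.trans ?_)
  have hx0 : (0 : ℝ) ≤ x := Nat.cast_nonneg x
  exact mul_le_mul_of_nonneg_right hδ'δ hx0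

end Pool.Agent.LibUF16
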