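import Pool.Agent.LibUF16.M12

/-!
Row M13: frequency of prime free intervals from `sets_unif`. `T' = 2 max T 1`, `h = ⌈T' log x⌉`, `S j = Ioc (j h) (j h + h)`, `l = T' + 1`, `c, C` from `sets_unif`. If
`H < 4 T'` the bound is trivial when the new constant is `≥ 4 T'`. Otherwise `J = ⌊H/(2 T')⌋ ≥ H/(4 T')`, `J h ≤ H log x`, `≤ (log x)^(3/2)` for large `x`. If at least `c J` of
the `j` are killed and `n > x^(1/31)`, then for killed `j` every `m ∈ (n + j h, n + j h + h]` with `m + T log x ≤ n + j h + h` is counted (a prime `p` in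
`(m, m + T log x]` has only the prime factor `p > x^(1/31)`): at least `h - T log x - 1 ≥ (T'/4) log x` values; different `j` give different `m`. So the
count is `≥ c J (T'/4) log x ≥ (c/16) H log x`. The `n ≤ x^(1/31)` are at most `x^(1/31) + 1 ≤ x/H` for large `x`.
-/

open Finset Filter

namespace Pool.Agent.LibUF16

theorem M13_count (n h g J : ℕ) (hg : g ≤ h) (K : Finset ℕ) (hK : K ⊆ range J)
    (A : Finset ℕ) (hA : ∀ j ∈ K, ∀ m ∈ Ioc (n + j * h) (n + j * h + g), m ∈ A) :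
    K.card * g ≤ A.card := by
  have hdisj : (K : Set ℕ).PairwiseDisjoint (fun j => Ioc (n + j * h) (n + j * h + g)) := by
    intro i _ j _ hij
    rw [Function.onFun, Finset.disjoint_left]
    intro m hm hm'
    rw [Finset.mem_Ioc] at hm hm'
    rcases Nat.lt_or_gt_of_ne hij with hlt | hlt
    · have h1 : (i + 1) * h ≤ j * h := Nat.mul_le_mul_right h hlt
      have h2 : (i + 1) * h = i * h + h := by ring
      omega
    · have h1 : (j + 1) * h ≤ i * h := Nat.mul_le_mul_right h hlt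
      have h2 : (j + 1) * h = j * h + h := by ring
      omega
  have h1 : (K.biUnion fun j => Ioc (n + j * h) (n + j * h + g)).card = K.card * g := by
    rw [Finset.card_biUnion hdisj]
    simp
  rw [← h1]
  apply Finset.card_le_card
  intro m hm
  obtain ⟨j, hj, hmj⟩ := Finset.mem_biUnion.1 hm
  exact hA j hj m hmj

open scoped Classical in
theorem gaps_unif (T : ℝ) (A : ℕ) : ∃ c C : ℝ, 0 < c ∧ 0 < C ∧ ∀ H : ℝ, 1 ≤ H → ∃ y₀ : ℕ,
    ∀ X y : ℕ, y₀ ≤ y → X ≤ y ^ A →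
    (((Ico X (X + y)).filter fun n : ℕ =>
      (((Ioc n (n + ⌊H * Real.log y⌋₊)).filter fun m : ℕ =>
        ∀ p : ℕ, p.Prime → m < p → (m : ℝ) + T * Real.log y < p).card : ℝ) <
        c * (H * Real.log y)).card : ℝ) ≤ C / H * y := by
  obtain ⟨T', hT'2, hTT'⟩ : ∃ T' : ℝ, 2 ≤ T' ∧ T ≤ T' / 2 :=
    ⟨2 * max T 1, by linarith [le_max_right T 1], by linarith [le_max_left T 1]⟩
  obtain ⟨c0, C0, hc0, hC0, hS⟩ := sets_unif T' A
  refine ⟨c0 / 16, 4 * T' + 1 + 4 * T' * C0, by positivity, by positivity, fun H hH => ?_⟩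
  have hH0 : 0 < H := by linarith
  rcases lt_or_ge H (4 * T') with h1 | h1
  · refine ⟨0, fun X x _ _ => ?_⟩
    have h2 : (1 : ℝ) ≤ (4 * T' + 1 + 4 * T' * C0) / H := by
      rw [le_div_iff₀ hH0]
      nlinarith [mul_pos (show (0 : ℝ) < 4 * T' by linarith) hC0]
    calc _ ≤ ((Ico X (X + x)).card : ℝ) := Nat.cast_le.2 (Finset.card_filter_le _ _)
      _ = 1 * x := by rw [Nat.card_Ico, Nat.add_sub_cancel_left, one_mul]
      _ ≤ _ := mul_le_mul_of_nonneg_right h2 (Nat.cast_nonneg x)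
  obtain ⟨J, hJ⟩ : ∃ J, J = ⌊H / (2 * T')⌋₊ := ⟨_, rfl⟩
  have hq2 : 2 ≤ H / (2 * T') := by rw [le_div_iff₀ (by linarith)]; linarith
  have hJle : (J : ℝ) ≤ H / (2 * T') := by rw [hJ]; exact Nat.floor_le (by linarith)
  have hJge : H / (4 * T') ≤ J := by
    have h2 : H / (2 * T') < J + 1 := by rw [hJ]; exact Nat.lt_floor_add_one _
    have h3 : H / (2 * T') = 2 * (H / (4 * T')) := by field_simp; ring
    linarith
  have hJ1 : 1 ≤ J := by
    have h2 : (0 : ℝ) < J := by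
      have : 0 < H / (4 * T') := by positivity
      linarith
    exact_mod_cast h2
  obtain ⟨x₁, hx₁⟩ := hS J hJ1
  refine ⟨max x₁ (⌈Real.exp (max 2 (H ^ 2))⌉₊ + ⌈4 * H ^ 2⌉₊), fun X x hx hXA => ?_⟩
  have hxx1 : x₁ ≤ x := (le_max_left _ _).trans hx
  have hxx2 : ⌈Real.exp (max 2 (H ^ 2))⌉₊ + ⌈4 * H ^ 2⌉₊ ≤ x := (le_max_right _ _).trans hx
  have hxexp : Real.exp (max 2 (H ^ 2)) ≤ x :=
    (Nat.le_ceil _).trans (Nat.cast_le.2 (by omega))
  have hx4 : 4 * H ^ 2 ≤ x := (Nat.le_ceil _).trans (Nat.cast_le.2 (by omega))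
  have hx0 : (0 : ℝ) < x := (Real.exp_pos _).trans_le hxexp
  obtain ⟨L, hLdef⟩ : ∃ L, L = Real.log x := ⟨_, rfl⟩
  have hLmax : max 2 (H ^ 2) ≤ L := by
    rw [hLdef, Real.le_log_iff_exp_le hx0]; exact hxexp
  have hL2 : 2 ≤ L := (le_max_left _ _).trans hLmax
  have hLH : H ^ 2 ≤ L := (le_max_right _ _).trans hLmax
  have hL0 : 0 < L := by linarith
  have hx1 : (1 : ℝ) ≤ x := by nlinarith
  obtain ⟨h, hh⟩ : ∃ h, h = ⌈T' * L⌉₊ := ⟨_, rfl⟩
  have hTL : 0 < T' * L := by positivity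
  have hhge : T' * L ≤ h := by rw [hh]; exact Nat.le_ceil _
  have hhlt : (h : ℝ) < T' * L + 1 := by rw [hh]; exact Nat.ceil_lt_add_one hTL.le
  have hJh : ((J * h : ℕ) : ℝ) ≤ H * L := by
    push_cast
    have h2 : (h : ℝ) ≤ 2 * (T' * L) := by nlinarith
    calc (J : ℝ) * h ≤ H / (2 * T') * (2 * (T' * L)) :=
          mul_le_mul hJle h2 (Nat.cast_nonneg _) (by positivity)
      _ = H * L := by field_simp
  have hJhfl : J * h ≤ ⌊H * L⌋₊ := Nat.le_floor hJh
  have hHL : H * L ≤ L ^ (3 / 2 : ℝ) := by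
    have h2 : L ^ (3 / 2 : ℝ) = L ^ (1 / 2 : ℝ) * L := by
      rw [show (3 / 2 : ℝ) = 1 / 2 + 1 by norm_num, Real.rpow_add hL0, Real.rpow_one]
    rw [h2]
    apply mul_le_mul_of_nonneg_right _ hL0.le
    rw [← Real.sqrt_eq_rpow]
    exact Real.le_sqrt_of_sq_le hLH
  obtain ⟨g, hg⟩ : ∃ g, g = ⌊T' / 2 * L⌋₊ := ⟨_, rfl⟩
  have hgle : (g : ℝ) ≤ T' / 2 * L := by rw [hg]; exact Nat.floor_le (by positivity)
  have hgge : T' / 4 * L ≤ g := by
    have h2 : T' / 2 * L < g + 1 := by rw [hg]; exact Nat.lt_floor_add_one _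
    have h3 : 1 ≤ T' / 4 * L := by nlinarith
    linarith
  have hgh : g ≤ h := by
    have : (g : ℝ) ≤ h := by nlinarith
    exact_mod_cast this
  have hmain := hx₁ X x hxx1 hXA (fun j => Ioc (j * h) (j * h + h)) (by
    intro i _ j _ hij
    rw [Finset.disjoint_left]
    intro m hm hm'
    rw [Finset.mem_Ioc] at hm hm'
    rcases Nat.lt_or_gt_of_ne hij with hlt | hlt
    · have h1 : (i + 1) * h ≤ j * h := Nat.mul_le_mul_right h hlt
      have h2 : (i + 1) * h = i * h + h := by ring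
      omega
    · have h1 : (j + 1) * h ≤ i * h := Nat.mul_le_mul_right h hlt
      have h2 : (j + 1) * h = j * h + h := by ring
      omega) (by
    intro j hj s hs
    rw [Finset.mem_Ioc] at hs
    refine ⟨by omega, ?_⟩
    have h2 : (j + 1) * h ≤ J * h := Nat.mul_le_mul_right h hj
    have h3 : (j + 1) * h = j * h + h := by ring
    have h4 : (s : ℝ) ≤ ((J * h : ℕ) : ℝ) := Nat.cast_le.2 (by omega)
    rw [← hLdef]
    exact h4.trans (hJh.trans hHL)) (by
    intro j hj s hs s' hs'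
    rw [Finset.mem_Ioc] at hs hs'
    rw [← hLdef]
    have h2 : s + 1 ≤ s' + h := by omega
    have h3 : (s : ℝ) + 1 ≤ s' + h := by exact_mod_cast h2
    linarith)
  -- inclusion
  have hsub : ((Ico X (X + x)).filter fun n : ℕ =>
      (((Ioc n (n + ⌊H * Real.log x⌋₊)).filter fun m : ℕ =>
        ∀ p : ℕ, p.Prime → m < p → (m : ℝ) + T * Real.log x < p).card : ℝ) <
        c0 / 16 * (H * Real.log x)) ⊆
      (range (⌊(x : ℝ) ^ (1 / 31 : ℝ)⌋₊ + 1)) ∪
      ((Ico X (X + x)).filter fun n : ℕ => (((range J).filter fun j => ∀ s ∈ Ioc (j * h) (j * h + h),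
        ∃ p : ℕ, p.Prime ∧ (p : ℝ) ≤ (x : ℝ) ^ (1 / 31 : ℝ) ∧ p ∣ n + s).card : ℝ) <
          c0 * J) := by
    intro n hn
    rw [Finset.mem_filter] at hn
    obtain ⟨hnx, hn⟩ := hn
    rw [Finset.mem_union]
    by_cases hns : n ∈ range (⌊(x : ℝ) ^ (1 / 31 : ℝ)⌋₊ + 1)
    · exact Or.inl hns
    right
    rw [Finset.mem_filter]
    refine ⟨hnx, ?_⟩
    by_contra hcon
    have hcon := not_lt.1 hcon
    rw [Finset.mem_range, not_lt] at hns
    have hnbig : (x : ℝ) ^ (1 / 31 : ℝ) < n := (Nat.lt_floor_add_one _).trans_le (by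
      exact_mod_cast hns)
    have hcnt := M13_count n h g J hgh ((range J).filter fun j => ∀ s ∈ Ioc (j * h) (j * h + h),
        ∃ p : ℕ, p.Prime ∧ (p : ℝ) ≤ (x : ℝ) ^ (1 / 31 : ℝ) ∧ p ∣ n + s) (Finset.filter_subset _ _)
      ((Ioc n (n + ⌊H * Real.log x⌋₊)).filter fun m : ℕ =>
        ∀ p : ℕ, p.Prime → m < p → (m : ℝ) + T * Real.log x < p) (by
      intro j hj m hm
      rw [Finset.mem_filter, Finset.mem_range] at hj
      obtain ⟨hjJ, hkill⟩ := hj
      rw [Finset.mem_Ioc] at hm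
      have h2 : (j + 1) * h ≤ J * h := Nat.mul_le_mul_right h hjJ
      have h3 : (j + 1) * h = j * h + h := by ring
      rw [Finset.mem_filter, Finset.mem_Ioc, ← hLdef]
      refine ⟨⟨by omega, by omega⟩, fun p hp hmp => ?_⟩
      have h4 : n + (j * h + h) < p := by
        by_contra hc
        obtain ⟨q, hq, hqx, hqd⟩ := hkill (p - n) (by
          rw [Finset.mem_Ioc]
          constructor <;> omega)
        have h5 : n + (p - n) = p := by omega
        rw [h5] at hqd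
        have h6 : q = p := (Nat.prime_dvd_prime_iff_eq hq hp).1 hqd
        rw [h6] at hqx
        have h7 : (n : ℝ) < p := by
          have : n < p := by omega
          exact_mod_cast this
        linarith
      have h5 : (m : ℝ) ≤ n + j * h + g := by exact_mod_cast hm.2
      have h6 : ((n : ℝ) + (j * h + h)) < p := by exact_mod_cast h4
      have h7 : T * L ≤ T' / 2 * L := mul_le_mul_of_nonneg_right hTT' hL0.le
      linarith)
    have h8 : ((((range J).filter fun j => ∀ s ∈ Ioc (j * h) (j * h + h),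
        ∃ p : ℕ, p.Prime ∧ (p : ℝ) ≤ (x : ℝ) ^ (1 / 31 : ℝ) ∧ p ∣ n + s).card : ℝ) * g) ≤
      (((Ioc n (n + ⌊H * Real.log x⌋₊)).filter fun m : ℕ =>
        ∀ p : ℕ, p.Prime → m < p → (m : ℝ) + T * Real.log x < p).card : ℝ) := by
      exact_mod_cast hcnt
    have h9 : c0 * (H / (4 * T')) * (T' / 4 * L) ≤ (((range J).filter fun j =>
        ∀ s ∈ Ioc (j * h) (j * h + h),
        ∃ p : ℕ, p.Prime ∧ (p : ℝ) ≤ (x : ℝ) ^ (1 / 31 : ℝ) ∧ p ∣ n + s).card : ℝ) * g := by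
      apply mul_le_mul _ hgge (by positivity) (Nat.cast_nonneg _)
      exact (mul_le_mul_of_nonneg_left hJge hc0.le).trans hcon
    have h10 : c0 * (H / (4 * T')) * (T' / 4 * L) = c0 / 16 * (H * L) := by
      field_simp
      ring
    rw [← hLdef] at hn h8
    linarith
  have hcard := (Nat.cast_le (α := ℝ)).2 ((Finset.card_le_card hsub).trans
    (Finset.card_union_le _ _))
  rw [Nat.cast_add, Finset.card_range] at hcard
  refine hcard.trans ?_
  have h2 : C0 / J * x ≤ 4 * T' * C0 / H * x := by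
    apply mul_le_mul_of_nonneg_right _ hx0.le
    rw [div_le_div_iff₀ (by exact_mod_cast hJ1) hH0]
    have h3 : H ≤ 4 * T' * J := by
      have := (div_le_iff₀ (by linarith : (0 : ℝ) < 4 * T')).1 hJge
      linarith
    calc C0 * H ≤ C0 * (4 * T' * J) := mul_le_mul_of_nonneg_left h3 hC0.le
      _ = 4 * T' * C0 * J := by ring
  have h3 : ((⌊(x : ℝ) ^ (1 / 31 : ℝ)⌋₊ + 1 : ℕ) : ℝ) ≤ 1 / H * x := by
    push_cast
    have h4 : (⌊(x : ℝ) ^ (1 / 31 : ℝ)⌋₊ : ℝ) ≤ (x : ℝ) ^ (1 / 31 : ℝ) :=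
      Nat.floor_le (by positivity)
    have h5 : (x : ℝ) ^ (1 / 31 : ℝ) ≤ (x : ℝ) ^ (1 / 2 : ℝ) :=
      Real.rpow_le_rpow_of_exponent_le hx1 (by norm_num)
    have h6 : (1 : ℝ) ≤ (x : ℝ) ^ (1 / 2 : ℝ) := Real.one_le_rpow hx1 (by norm_num)
    have h7 : (x : ℝ) ^ (1 / 2 : ℝ) * (x : ℝ) ^ (1 / 2 : ℝ) = x := by
      rw [← Real.rpow_add hx0]; norm_num
    have h8 : 2 * H ≤ (x : ℝ) ^ (1 / 2 : ℝ) := by
      rw [← Real.sqrt_eq_rpow]
      apply Real.le_sqrt_of_sq_le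
      nlinarith
    have h9 : 2 * (x : ℝ) ^ (1 / 2 : ℝ) ≤ 1 / H * x := by
      rw [div_mul_eq_mul_div, le_div_iff₀ hH0, one_mul]
      nlinarith
    linarith
  have h4 : 0 ≤ 4 * T' / H * x := by positivity
  calc ((⌊(x : ℝ) ^ (1 / 31 : ℝ)⌋₊ + 1 : ℕ) : ℝ) + _ ≤ 1 / H * x + C0 / J * x :=
        add_le_add h3 hmain
    _ ≤ 1 / H * x + 4 * T' * C0 / H * x + 4 * T' / H * x := by linarith
    _ = (4 * T' + 1 + 4 * T' * C0) / H * x := by ring

end Pool.Agent.LibUF16
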