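import Pool.Agent.LibUF16.M0

/-!
Row M5a: the mean `DTH` is bounded. `#(B.image b) = #B` (`b` injective), `RR 4 ≤ C VV ≤ 2 C V1^#B` (`RR_le_C K' 4`, `LibLG5.VV_le_pow K'`); the number of sets `B` of
size `j` is `C(N, j) ≤ N^j`, `N = card ι`, so `DTH ≤ 2 C ∑_{j ≤ K'} (N V1)^j ≤ 2 C (K'+1) (1 + 64 l k1)^K'`.
-/

open Finset Filter

namespace Pool.Agent.LibUF16

open Pool.Agent.LibRG87 Pool.Agent.LibLG5

theorem DTH_le (l : ℝ) (hl : 1 ≤ l) (k1 K' : ℕ) : ∃ C : ℝ, 1 ≤ C ∧ ∀ᶠ z : ℕ in atTop,
    ∀ (ι : Type) [Fintype ι] [DecidableEq ι] (b : ι → ℕ), Win l k1 z b →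
      0 ≤ DTH z (k1 / 2) K' b ∧ DTH z (k1 / 2) K' b ≤ C := by
  obtain ⟨C4, hC4, hev⟩ := RR_le_C K' 4 (by norm_num)
  have hexp : 1 ≤ Real.exp (64 * l * k1) := Real.one_le_exp (by positivity)
  refine ⟨2 * C4 * Real.exp (64 * l * k1), by nlinarith, ?_⟩
  filter_upwards [hev, VV_le_pow K'] with z h1 h2
  intro ι _ _ b hb
  have hV : 0 ≤ V1 (wf z) z := (V1_pos (wf z) z).le
  refine ⟨?_, ?_⟩
  · unfold DTH
    apply sum_nonneg
    intro B _
    unfold RR mean
    apply div_nonneg _ (Nat.cast_nonneg _)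
    apply sum_nonneg
    intro n _
    exact (show Even 4 by decide).pow_nonneg _
  · unfold DTH
    calc ∑ B ∈ (univ : Finset (Finset ι)).filter (fun B => B.card ≤ K'),
          RR (wf z) z (k1 / 2) 4 (B.image b)
        ≤ ∑ B ∈ (univ : Finset (Finset ι)).filter (fun B => B.card ≤ K'),
          2 * C4 * (V1 (wf z) z ^ B.card * 1 ^ (Fintype.card ι - B.card)) := by
          refine sum_le_sum fun B hB => ?_
          have hBc : (B.image b).card = B.card := card_image_of_injective B hb.inj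
          have hBK : (B.image b).card ≤ K' := by rw [hBc]; exact (mem_filter.1 hB).2
          have h3 := h1 (k1 / 2) (B.image b) hBK
          have h4 := h2 (B.image b) hBK (by
            intro a ha
            obtain ⟨i, -, rfl⟩ := mem_image.1 ha
            exact (hb.bd i).2)
          rw [hBc] at h4
          refine h3.trans ((mul_le_mul_of_nonneg_left h4 (by linarith)).trans (le_of_eq ?_))
          rw [one_pow]
          ring
      _ ≤ ∑ B : Finset ι, 2 * C4 * (V1 (wf z) z ^ B.card * 1 ^ (Fintype.card ι - B.card)) := by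
          refine sum_le_sum_of_subset_of_nonneg (filter_subset _ _) fun B _ _ => ?_
          positivity
      _ = 2 * C4 * (V1 (wf z) z + 1) ^ Fintype.card ι := by
          rw [← mul_sum, Fintype.sum_pow_mul_eq_add_pow]
      _ ≤ 2 * C4 * Real.exp (64 * l * k1) := by
          apply mul_le_mul_of_nonneg_left _ (by linarith)
          calc (V1 (wf z) z + 1) ^ Fintype.card ι ≤ Real.exp (V1 (wf z) z) ^ Fintype.card ι :=
                pow_le_pow_left₀ (by linarith) (Real.add_one_le_exp _) _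
            _ = Real.exp (Fintype.card ι * V1 (wf z) z) := by rw [← Real.exp_nat_mul]
            _ ≤ Real.exp (64 * l * k1) := Real.exp_le_exp.2 hb.card

end Pool.Agent.LibUF16
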