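import Pool.Agent.LibUF16.Defs

/-!
Row N1: closure properties of `NormLe`. All index types live in `Type`: sums use `κ ⊕ κ'`, products `κ × κ'`.
`mul`: the product of the indicators of `n % D = r` and `n % D' = r'` is identically `0` or (Chinese remainder) the indicator of one class
modulo `lcm D D'`: if some `n0` satisfies both, then `n` satisfies both iff `n % lcm = n0 % lcm` (`Nat.ModEq`, `Nat.lcm_dvd`); otherwise use the
coefficient `0` (or the residue `r = D`, which no remainder takes). `lcm D D' ∣ Q`. `sum`, `prod`: induction on `s`.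
-/

open Finset Filter

namespace Pool.Agent.LibUF16

open Pool.Agent.LibRG87 Pool.Agent.LibLG5

theorem N1_lcm {m n a b : ℕ} (h : a ≡ b [MOD m]) (h' : a ≡ b [MOD n]) :
    a ≡ b [MOD Nat.lcm m n] := by
  rw [Nat.modEq_iff_dvd] at h h' ⊢
  have h1 := lcm_dvd h h'
  rwa [← Int.coe_lcm, Int.lcm_natCast_natCast] at h1

theorem NormLe.nonneg {Q : ℕ} {A : ℝ} {F : ℕ → ℝ} (h : NormLe Q A F) : 0 ≤ A := by
  obtain ⟨κ, _, α, D, r, h1, h2, h3⟩ := h
  exact le_trans (Finset.sum_nonneg fun i _ => abs_nonneg _) h2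

theorem NormLe.mono {Q : ℕ} {A A' : ℝ} {F : ℕ → ℝ} (h : NormLe Q A F) (hA : A ≤ A') : NormLe Q A' F := by
  obtain ⟨κ, i1, α, D, r, h1, h2, h3⟩ := h
  exact ⟨κ, i1, α, D, r, h1, h2.trans hA, h3⟩

theorem NormLe.congr {Q : ℕ} {A : ℝ} {F G : ℕ → ℝ} (h : NormLe Q A F) (hFG : ∀ n, F n = G n) :
    NormLe Q A G := by
  obtain ⟨κ, i1, α, D, r, h1, h2, h3⟩ := h
  exact ⟨κ, i1, α, D, r, h1, h2, fun n => (hFG n).symm.trans (h3 n)⟩

theorem NormLe.dvd {Q Q' : ℕ} {A : ℝ} {F : ℕ → ℝ} (h : NormLe Q A F) (hQ : Q ∣ Q') : NormLe Q' A F := by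
  obtain ⟨κ, i1, α, D, r, h1, h2, h3⟩ := h
  exact ⟨κ, i1, α, D, r, fun i => ⟨(h1 i).1, (h1 i).2.trans hQ⟩, h2, h3⟩

theorem NormLe.const (Q : ℕ) (c : ℝ) : NormLe Q |c| (fun _ => c) := by
  refine ⟨Unit, inferInstance, fun _ => c, fun _ => 1, fun _ => 0, fun _ => ⟨one_pos, one_dvd _⟩, ?_, ?_⟩
  · simp
  · intro n
    simp [Nat.mod_one]

theorem NormLe.smul {Q : ℕ} {A : ℝ} {F : ℕ → ℝ} (c : ℝ) (h : NormLe Q A F) :
    NormLe Q (|c| * A) (fun n => c * F n) := by
  obtain ⟨κ, i1, α, D, r, h1, h2, h3⟩ := h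
  refine ⟨κ, i1, fun i => c * α i, D, r, h1, ?_, ?_⟩
  · simp only [abs_mul]
    rw [← Finset.mul_sum]
    exact mul_le_mul_of_nonneg_left h2 (abs_nonneg c)
  · intro n
    change c * F n = ∑ i, c * α i * _
    rw [h3 n, Finset.mul_sum]
    refine Finset.sum_congr rfl fun i _ => ?_
    ring

theorem NormLe.add {Q : ℕ} {A A' : ℝ} {F F' : ℕ → ℝ} (h : NormLe Q A F) (h' : NormLe Q A' F') :
    NormLe Q (A + A') (fun n => F n + F' n) := by
  obtain ⟨κ, i1, α, D, r, h1, h2, h3⟩ := h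
  obtain ⟨κ', i1', α', D', r', h1', h2', h3'⟩ := h'
  refine ⟨κ ⊕ κ', inferInstance, Sum.elim α α', Sum.elim D D', Sum.elim r r', ?_, ?_, ?_⟩
  · rintro (i | i)
    · exact h1 i
    · exact h1' i
  · rw [Fintype.sum_sum_type]
    exact add_le_add h2 h2'
  · intro n
    change F n + F' n = _
    rw [Fintype.sum_sum_type, h3 n, h3' n]
    rfl

theorem NormLe.mul {Q : ℕ} {A A' : ℝ} {F F' : ℕ → ℝ} (h : NormLe Q A F) (h' : NormLe Q A' F') :
    NormLe Q (A * A') (fun n => F n * F' n) := by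
  classical
  obtain ⟨κ, i1, α, D, r, h1, h2, h3⟩ := h
  obtain ⟨κ', i1', α', D', r', h1', h2', h3'⟩ := h'
  have key : ∀ p : κ × κ', ∃ (a : ℝ) (E s : ℕ), (0 < E ∧ E ∣ Q) ∧ |a| ≤ |α p.1| * |α' p.2| ∧
      ∀ n, (α p.1 * (if n % D p.1 = r p.1 then 1 else 0)) *
        (α' p.2 * (if n % D' p.2 = r' p.2 then 1 else 0)) = a * (if n % E = s then 1 else 0) := by
    intro p
    by_cases hp : ∃ n0, n0 % D p.1 = r p.1 ∧ n0 % D' p.2 = r' p.2
    · obtain ⟨n0, hn1, hn2⟩ := hp
      refine ⟨α p.1 * α' p.2, Nat.lcm (D p.1) (D' p.2), n0 % Nat.lcm (D p.1) (D' p.2),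
        ⟨Nat.lcm_pos (h1 p.1).1 (h1' p.2).1, Nat.lcm_dvd (h1 p.1).2 (h1' p.2).2⟩,
        (abs_mul _ _).le, ?_⟩
      intro n
      have hiff : n % Nat.lcm (D p.1) (D' p.2) = n0 % Nat.lcm (D p.1) (D' p.2) ↔
          n % D p.1 = r p.1 ∧ n % D' p.2 = r' p.2 := by
        constructor
        · intro h
          have h' : n ≡ n0 [MOD Nat.lcm (D p.1) (D' p.2)] := h
          have h8 : n % D p.1 = n0 % D p.1 := h'.of_dvd (Nat.dvd_lcm_left _ _)
          have h9 : n % D' p.2 = n0 % D' p.2 := h'.of_dvd (Nat.dvd_lcm_right _ _)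
          exact ⟨h8.trans hn1, h9.trans hn2⟩
        · rintro ⟨h4, h5⟩
          have h6 : n ≡ n0 [MOD D p.1] := h4.trans hn1.symm
          have h7 : n ≡ n0 [MOD D' p.2] := h5.trans hn2.symm
          exact N1_lcm h6 h7
      by_cases h4 : n % D p.1 = r p.1
      · by_cases h5 : n % D' p.2 = r' p.2
        · rw [if_pos h4, if_pos h5, if_pos (hiff.2 ⟨h4, h5⟩)]
          ring
        · rw [if_neg h5, if_neg (fun h => h5 (hiff.1 h).2)]
          ring
      · rw [if_neg h4, if_neg (fun h => h4 (hiff.1 h).1)]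
        ring
    · refine ⟨0, D p.1, 0, h1 p.1, by rw [abs_zero]; positivity, ?_⟩
      intro n
      by_cases h4 : n % D p.1 = r p.1
      · have h5 : ¬ n % D' p.2 = r' p.2 := fun h5 => hp ⟨n, h4, h5⟩
        rw [if_neg h5]
        ring
      · rw [if_neg h4]
        ring
  choose a E s hE ha hn using key
  refine ⟨κ × κ', inferInstance, a, E, s, hE, ?_, ?_⟩
  · refine (Finset.sum_le_sum fun p _ => ha p).trans ?_
    rw [Fintype.sum_prod_type]
    change ∑ x, ∑ y, |α x| * |α' y| ≤ A * A'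
    rw [← Fintype.sum_mul_sum]
    exact mul_le_mul h2 h2' (Finset.sum_nonneg fun i _ => abs_nonneg _)
      (le_trans (Finset.sum_nonneg fun i _ => abs_nonneg _) h2)
  · intro n
    change F n * F' n = _
    rw [h3 n, h3' n, Fintype.sum_mul_sum, ← Fintype.sum_prod_type']
    exact Finset.sum_congr rfl fun p _ => hn p n

theorem NormLe.pow {Q : ℕ} {A : ℝ} {F : ℕ → ℝ} (h : NormLe Q A F) (k : ℕ) :
    NormLe Q (A ^ k) (fun n => F n ^ k) := by
  induction k with
  | zero =>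
    have h1 := NormLe.const Q 1
    rw [abs_one] at h1
    rw [pow_zero]
    exact h1.congr fun n => (pow_zero _).symm
  | succ k ih =>
    rw [pow_succ]
    exact (ih.mul h).congr fun n => (pow_succ _ _).symm

theorem NormLe.sum {Q : ℕ} {α : Type*} (s : Finset α) (F : α → ℕ → ℝ) (A : α → ℝ)
    (h : ∀ i ∈ s, NormLe Q (A i) (F i)) : NormLe Q (∑ i ∈ s, A i) (fun n => ∑ i ∈ s, F i n) := by
  classical
  induction s using Finset.induction_on with
  | empty =>
    have h1 := NormLe.const Q 0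
    rw [abs_zero] at h1
    rw [Finset.sum_empty]
    exact h1.congr fun n => Finset.sum_empty.symm
  | insert i s hi ih =>
    rw [Finset.sum_insert hi]
    refine ((h i (Finset.mem_insert_self _ _)).add
      (ih fun j hj => h j (Finset.mem_insert_of_mem hj))).congr fun n => ?_
    rw [Finset.sum_insert hi]

theorem NormLe.prod {Q : ℕ} {α : Type*} (s : Finset α) (F : α → ℕ → ℝ) (A : α → ℝ)
    (h : ∀ i ∈ s, NormLe Q (A i) (F i)) : NormLe Q (∏ i ∈ s, A i) (fun n => ∏ i ∈ s, F i n) := by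
  classical
  induction s using Finset.induction_on with
  | empty =>
    have h1 := NormLe.const Q 1
    rw [abs_one] at h1
    rw [Finset.prod_empty]
    exact h1.congr fun n => Finset.prod_empty.symm
  | insert i s hi ih =>
    rw [Finset.prod_insert hi]
    refine ((h i (Finset.mem_insert_self _ _)).mul
      (ih fun j hj => h j (Finset.mem_insert_of_mem hj))).congr fun n => ?_
    rw [Finset.prod_insert hi]

end Pool.Agent.LibUF16
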