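import Pool.Agent.LibUF16.N1

/-!
Row N2: periodic functions, and the average along a progression.
`per`: `κ = Fin p`, `α i = F i`, `D = p`, `r i = i`. `avg`: for each term the function `n ↦ [n % D = r]` has the period `D`, the sum over a period is
`1` or `0`, and `LibLG5.sum_progression` (S1) gives `|∑_{m<M} [..] - M/D| ≤ 1`; the mean over `Q` equals the mean over `D` because `D ∣ Q`
(`mean_dvd`; `sum_blocks` with `W = 1`, `c = 0`, or `Finset.sum_range` splitting). Then the triangle inequality.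
-/

open Finset Filter

namespace Pool.Agent.LibUF16

open Pool.Agent.LibRG87 Pool.Agent.LibLG5

theorem mean_dvd {q Q : ℕ} (hQ : 0 < Q) (hq : q ∣ Q) (F : ℕ → ℝ) (hF : Function.Periodic F q) :
    mean Q F = mean q F := by
  obtain ⟨t, rfl⟩ := hq
  have hq0 : 0 < q := Nat.pos_of_mul_pos_right hQ
  have ht0 : 0 < t := Nat.pos_of_mul_pos_left hQ
  have h := sum_blocks q hq0 1 0 (Nat.coprime_one_left q) F hF t
  simp only [zero_add, one_mul] at h
  have hqR : (q : ℝ) ≠ 0 := by exact_mod_cast hq0.ne'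
  have htR : (t : ℝ) ≠ 0 := by exact_mod_cast ht0.ne'
  unfold mean
  rw [h]
  push_cast
  field_simp

theorem N2_per (D r Q : ℕ) (h : D ∣ Q) :
    Function.Periodic (fun n => if n % D = r then (1 : ℝ) else 0) Q := by
  intro n
  obtain ⟨t, rfl⟩ := h
  simp only [Nat.add_mul_mod_self_left]

theorem NormLe.periodic {Q : ℕ} {A : ℝ} {F : ℕ → ℝ} (h : NormLe Q A F) : Function.Periodic F Q := by
  obtain ⟨κ, _, α, D, r, hD, -, hF⟩ := h
  intro n
  rw [hF, hF]
  exact Finset.sum_congr rfl fun i _ =>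
    congrArg (fun x => α i * x) (N2_per (D i) (r i) Q (hD i).2 n)

theorem NormLe.per {Q p : ℕ} (hp : 0 < p) (hpQ : p ∣ Q) (F : ℕ → ℝ) (hF : Function.Periodic F p) :
    NormLe Q (∑ x ∈ range p, |F x|) F := by
  refine ⟨Fin p, inferInstance, fun i => F i, fun _ => p, fun i => i, fun _ => ⟨hp, hpQ⟩, ?_, ?_⟩
  · rw [Finset.sum_range]
  · intro n
    have h1 : ∀ i : Fin p, F i * (if n % p = (i : ℕ) then (1 : ℝ) else 0) =
        if i = ⟨n % p, Nat.mod_lt n hp⟩ then F n else 0 := by
      intro i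
      by_cases hi : n % p = (i : ℕ)
      · have h2 : i = ⟨n % p, Nat.mod_lt n hp⟩ := Fin.ext hi.symm
        rw [if_pos hi, if_pos h2, mul_one, ← hi, hF.map_mod_nat]
      · have h2 : i ≠ ⟨n % p, Nat.mod_lt n hp⟩ := fun h => hi (by rw [h])
        rw [if_neg hi, if_neg h2, mul_zero]
    rw [Finset.sum_congr rfl fun i _ => h1 i, Finset.sum_ite_eq' univ, if_pos (mem_univ _)]

theorem N2_ind {Q W : ℕ} (hQ : 0 < Q) (hW : W.Coprime Q) (D r : ℕ) (hD : 0 < D) (hDQ : D ∣ Q)
    (c M : ℕ) : |∑ m ∈ range M, (if (c + W * m) % D = r then (1 : ℝ) else 0) -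
      M * mean Q (fun n => if n % D = r then (1 : ℝ) else 0)| ≤ 1 := by
  have hper := N2_per D r D dvd_rfl
  rw [mean_dvd hQ hDQ _ hper]
  refine (sum_progression D hD W c (Nat.Coprime.coprime_dvd_right hDQ hW) _ hper M).trans ?_
  have h1 : ∀ x ∈ range D, |(if x % D = r then (1 : ℝ) else 0)| = if x = r then 1 else 0 := by
    intro x hx
    rw [Nat.mod_eq_of_lt (Finset.mem_range.1 hx)]
    split_ifs <;> simp
  rw [Finset.sum_congr rfl h1, Finset.sum_ite_eq']
  split_ifs <;> norm_num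

theorem NormLe.avg {Q W : ℕ} (hQ : 0 < Q) (hW : W.Coprime Q) {A : ℝ} {F : ℕ → ℝ} (h : NormLe Q A F)
    (c M : ℕ) : |∑ m ∈ range M, F (c + W * m) - M * mean Q F| ≤ A := by
  obtain ⟨κ, _, α, D, r, hD, hA, hF⟩ := h
  have h1 : ∑ m ∈ range M, F (c + W * m) - M * mean Q F =
      ∑ i, α i * (∑ m ∈ range M, (if (c + W * m) % D i = r i then (1 : ℝ) else 0) -
        M * mean Q (fun n => if n % D i = r i then (1 : ℝ) else 0)) := by
    have h2 : ∑ m ∈ range M, F (c + W * m) =
        ∑ i, α i * ∑ m ∈ range M, (if (c + W * m) % D i = r i then (1 : ℝ) else 0) := by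
      rw [Finset.sum_congr rfl fun m _ => hF (c + W * m), Finset.sum_comm]
      exact Finset.sum_congr rfl fun i _ => (Finset.mul_sum _ _ _).symm
    have h3 : mean Q F = ∑ i, α i * mean Q (fun n => if n % D i = r i then (1 : ℝ) else 0) := by
      unfold mean
      rw [Finset.sum_congr rfl fun m _ => hF m, Finset.sum_comm, Finset.sum_div]
      refine Finset.sum_congr rfl fun i _ => ?_
      rw [← Finset.mul_sum, mul_div_assoc]
    rw [h2, h3, Finset.mul_sum, ← Finset.sum_sub_distrib]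
    exact Finset.sum_congr rfl fun i _ => by ring
  rw [h1]
  calc |∑ i, α i * (∑ m ∈ range M, (if (c + W * m) % D i = r i then (1 : ℝ) else 0) -
        M * mean Q (fun n => if n % D i = r i then (1 : ℝ) else 0))|
      ≤ ∑ i, |α i * (∑ m ∈ range M, (if (c + W * m) % D i = r i then (1 : ℝ) else 0) -
        M * mean Q (fun n => if n % D i = r i then (1 : ℝ) else 0))| :=
        Finset.abs_sum_le_sum_abs _ _
    _ ≤ ∑ i, |α i| := by
        refine Finset.sum_le_sum fun i _ => ?_
        rw [abs_mul]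
        exact mul_le_of_le_one_right (abs_nonneg _)
          (N2_ind hQ hW (D i) (r i) (hD i).1 (hD i).2 c M)
    _ ≤ A := hA

end Pool.Agent.LibUF16
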