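import Pool.Agent.LibUF16.E1

/-!
Row Q1: means and norms of `ee β * ee β'`.
-/

open Finset Filter

namespace Pool.Agent.LibUF16

open Pool.Agent.LibRG87 Pool.Agent.LibLG5

variable {ι : Type} [Fintype ι] [DecidableEq ι]

/-- the local factor, extended by `1` -/
noncomputable def Q1_G (P : Finset ℕ) (b : ι → ℕ) (β β' : P → Option ι) (p n : ℕ) : ℝ :=
  Q2G P (fun p o o' => loc b p o n * loc b p o' n) β β' p

theorem Q1_all (P : Finset ℕ) (h : ℕ → Option ι → Option ι → ℝ) (β β' : P → Option ι) :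
    ∏ p : P, h (p : ℕ) (β p) (β' p) = ∏ p ∈ P, Q2G P h β β' p := by
  have h1 : ∏ p : P, h (p : ℕ) (β p) (β' p) = ∏ p : P, Q2G P h β β' (p : ℕ) := by
    refine Finset.prod_congr rfl fun p _ => ?_
    rw [Q2G, dif_pos p.2]
  rw [h1, Finset.prod_coe_sort P (fun p => Q2G P h β β' p)]

theorem Q1_ee (P : Finset ℕ) (b : ι → ℕ) (β β' : P → Option ι) (n : ℕ) :
    ee P b β n * ee P b β' n = ∏ p ∈ P, Q1_G P b β β' p n := by
  unfold Q1_G
  rw [← Q1_all P (fun p o o' => loc b p o n * loc b p o' n) β β', ee, ee,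
    Finset.prod_mul_distrib]

theorem Q1_per (P : Finset ℕ) (b : ι → ℕ) (β β' : P → Option ι) (p : ℕ) (hp : p ∈ P) :
    Function.Periodic (Q1_G P b β β' p) p := by
  intro n
  simp only [Q1_G, Q2G, dif_pos hp, loc_per]

theorem ee_periodic (P : Finset ℕ) (b : ι → ℕ) (β : P → Option ι) :
    Function.Periodic (ee P b β) (∏ p ∈ P, p) := by
  have h1 : ee P b β = fun n => ∏ p ∈ P, Q1_G P b β (fun _ => none) p n := by
    funext n
    rw [← Q1_ee]
    have h2 : ee P b (fun _ => none) n = 1 := by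
      unfold ee
      exact Finset.prod_eq_one fun p _ => rfl
    rw [h2, mul_one]
  rw [h1]
  exact periodic_prod P (fun p n => Q1_G P b β (fun _ => none) p n)
    (fun p hp => Q1_per P b β (fun _ => none) p hp)

theorem ee_mean (P : Finset ℕ) (hP : ∀ p ∈ P, p.Prime ∧ 3 ≤ p) (b : ι → ℕ)
    (hb : ∀ p ∈ P, ∀ i j : ι, i ≠ j → ¬ b i ≡ b j [MOD p]) (β β' : P → Option ι) :
    mean (∏ p ∈ P, p) (fun n => ee P b β n * ee P b β' n) = KK P β β' := by
  unfold mean
  simp only [Q1_ee]
  rw [sum_prod_period P (fun p hp => (hP p hp).1) (fun p n => Q1_G P b β β' p n)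
    (fun p hp => Q1_per P b β β' p hp), Nat.cast_prod, ← Finset.prod_div_distrib, KK,
    Q1_all P (fun p o o' => gg p o o') β β']
  refine Finset.prod_congr rfl fun p hp => ?_
  simp only [Q1_G, Q2G, dif_pos hp]
  exact loc_avg b (hP p hp).1 (hP p hp).2 (hb p hp) _ _

theorem ee_norm (P : Finset ℕ) (hP : ∀ p ∈ P, p.Prime) (b : ι → ℕ) (β β' : P → Option ι) :
    NormLe (∏ p ∈ P, p) (2 ^ ((sp P β).card + (sp P β').card)) (fun n => ee P b β n * ee P b β' n) := by
  have hTP : ∀ p ∈ sp P β ∪ sp P β', p ∈ P := fun p hp =>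
    Finset.union_subset (sp_subset P β) (sp_subset P β') hp
  have h1 := NormLe.prod (Q := ∏ p ∈ P, p) (sp P β ∪ sp P β') (fun p n => Q1_G P b β β' p n)
    (fun _ => (2 : ℝ)) (by
      intro p hp
      have hpP := hTP p hp
      refine (NormLe.per (hP p hpP).pos (Finset.dvd_prod_of_mem (fun p => p) hpP) _
        (Q1_per P b β β' p hpP)).mono ?_
      simp only [Q1_G, Q2G, dif_pos hpP]
      refine tot_le b (hP p hpP) _ _ ?_
      rintro ⟨h2, h3⟩
      rw [Finset.mem_union, mem_sp, mem_sp] at hp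
      rcases hp with ⟨h4, h5⟩ | ⟨h4, h5⟩
      · exact h5 h2
      · exact h5 h3)
  rw [Finset.prod_const] at h1
  refine (h1.mono (pow_le_pow_right₀ (by norm_num) (Finset.card_union_le _ _))).congr fun n => ?_
  have h2 := Q2_prod P (fun p o o' => loc b p o n * loc b p o' n)
      (fun p _ => by simp [loc]) β β'
  unfold Q1_G
  rw [← h2, ee, ee, Finset.prod_mul_distrib]

theorem coprime_QS_QL (w z k1 : ℕ) : Nat.Coprime (QS w z) (QL z k1) := by
  unfold QS QL PP
  apply Nat.Coprime.prod_left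
  intro p hp
  apply Nat.Coprime.prod_right
  intro q hq
  rw [mem_filter, mem_Ioc] at hp hq
  exact (Nat.coprime_primes hp.2 hq.2).2 (by omega)

theorem Q1_wf_le (z : ℕ) : wf z ≤ z := by
  unfold wf
  refine (Nat.div_le_self _ _).trans ?_
  exact (Nat.log_le_self 2 _).trans (Nat.log_le_self 2 z)

theorem coprime_W (z k1 : ℕ) : Nat.Coprime (primorial (wf z)) (QS (wf z) z * QL z k1) := by
  have hw := Q1_wf_le z
  apply Nat.Coprime.mul_right
  · unfold QS PP primorial
    apply Nat.Coprime.prod_left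
    intro p hp
    apply Nat.Coprime.prod_right
    intro q hq
    rw [mem_filter, mem_range] at hp
    rw [mem_filter, mem_Ioc] at hq
    exact (Nat.coprime_primes hp.2 hq.2).2 (by omega)
  · unfold QL PP primorial
    apply Nat.Coprime.prod_left
    intro p hp
    apply Nat.Coprime.prod_right
    intro q hq
    rw [mem_filter, mem_range] at hp
    rw [mem_filter, mem_Ioc] at hq
    exact (Nat.coprime_primes hp.2 hq.2).2 (by omega)

theorem mean_T_ee (w z k1 : ℕ) (hz : 2 ≤ z) (b : ι → ℕ)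
    (hb : ∀ p ∈ PP z (z ^ k1), ∀ i j : ι, i ≠ j → ¬ b i ≡ b j [MOD p])
    (β β' : PP z (z ^ k1) → Option ι) (T : ℕ → ℝ) (hT : Function.Periodic T (QS w z)) :
    mean (QS w z * QL z k1)
      (fun n => T n * (ee (PP z (z ^ k1)) b β n * ee (PP z (z ^ k1)) b β' n)) =
      mean (QS w z) T * KK (PP z (z ^ k1)) β β' := by
  have hP : ∀ p ∈ PP z (z ^ k1), p.Prime ∧ 3 ≤ p := by
    intro p hp
    unfold PP at hp
    rw [mem_filter, mem_Ioc] at hp
    exact ⟨hp.2, by omega⟩
  have h1 : 0 < QS w z := by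
    unfold QS PP
    exact Finset.prod_pos fun p hp => (mem_filter.1 hp).2.pos
  have h2 : 0 < QL z k1 := by
    unfold QL
    exact Finset.prod_pos fun p hp => (hP p hp).1.pos
  have hper : Function.Periodic
      (fun n => ee (PP z (z ^ k1)) b β n * ee (PP z (z ^ k1)) b β' n) (QL z k1) := by
    intro n
    have h3 := ee_periodic (PP z (z ^ k1)) b β n
    have h4 := ee_periodic (PP z (z ^ k1)) b β' n
    unfold QL
    dsimp only
    rw [h3, h4]
  rw [mean_mul h1 h2 (coprime_QS_QL w z k1) T _ hT hper]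
  congr 1
  exact ee_mean (PP z (z ^ k1)) hP b hb β β'

end Pool.Agent.LibUF16
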