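import Pool.Agent.LibUF16.T2

/-!
Row Q6: products of two windows (general form of `LibLG5.PhiR_mul`, P1; `lft`, `rgt`, `P1mk`, `P1_su`, `P1_ee`, `P1_disj`, `P1_sp` are there).
-/

open Finset Filter

namespace Pool.Agent.LibUF16

open Pool.Agent.LibRG87 Pool.Agent.LibLG5

variable {ι ι' : Type} [Fintype ι] [DecidableEq ι] [Fintype ι'] [DecidableEq ι'] (P : Finset ℕ)

/-- coefficients of the product -/
noncomputable def yP (y : (P → Option ι) → ℝ) (y' : (P → Option ι') → ℝ) (γ : P → Option (ι ⊕ ι')) : ℝ :=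
  y (lft P γ) * y' (rgt P γ)

/-- functions of the product -/
noncomputable def TP (T : (P → Option ι) → ℕ → ℝ) (T' : (P → Option ι') → ℕ → ℝ)
    (γ : P → Option (ι ⊕ ι')) (n : ℕ) : ℝ := T (lft P γ) n * T' (rgt P γ) n

open scoped Classical in
/-- the pairs sharing a prime -/
noncomputable def PsiG (b : ι → ℕ) (b' : ι' → ℕ) (y : (P → Option ι) → ℝ) (y' : (P → Option ι') → ℝ)
    (T : (P → Option ι) → ℕ → ℝ) (T' : (P → Option ι') → ℕ → ℝ) (n : ℕ) : ℝ :=
  ∑ β : P → Option ι, ∑ β' : P → Option ι', if Disjoint (sp P β) (sp P β') then 0 else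
    (y β * T β n * ee P b β n) * (y' β' * T' β' n * ee P b' β' n)

theorem PhiG_mul (b : ι → ℕ) (b' : ι' → ℕ) (y : (P → Option ι) → ℝ) (y' : (P → Option ι') → ℝ)
    (T : (P → Option ι) → ℕ → ℝ) (T' : (P → Option ι') → ℕ → ℝ) (n : ℕ) :
    PhiG P b y T n * PhiG P b' y' T' n =
      PhiG P (Sum.elim b b') (yP P y y') (TP P T T') n + PsiG P b b' y y' T T' n := by
  classical
  set g : (P → Option ι) → (P → Option ι') → ℝ := fun β β' =>
    (y β * T β n * ee P b β n) * (y' β' * T' β' n * ee P b' β' n) with hg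
  have h1 : PhiG P b y T n * PhiG P b' y' T' n =
      ∑ β : P → Option ι, ∑ β' : P → Option ι', g β β' := by
    unfold PhiG
    rw [Finset.sum_mul_sum]
  have h2 : PsiG P b b' y y' T T' n =
      ∑ x : (P → Option ι) × (P → Option ι'), if Disjoint (sp P x.1) (sp P x.2) then 0
        else g x.1 x.2 := by
    unfold PsiG
    rw [Fintype.sum_prod_type]
  have h3 : PhiG P (Sum.elim b b') (yP P y y') (TP P T T') n =
      ∑ x : (P → Option ι) × (P → Option ι'), if Disjoint (sp P x.1) (sp P x.2) then g x.1 x.2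
        else 0 := by
    rw [← Finset.sum_filter]
    unfold PhiG
    refine Finset.sum_nbij' (fun γ => (lft P γ, rgt P γ)) (fun x => P1mk P x.1 x.2) ?_ ?_ ?_ ?_ ?_
    · intro γ _
      rw [Finset.mem_filter]
      exact ⟨Finset.mem_univ _, P1_disj P γ⟩
    · intro x _
      exact Finset.mem_univ _
    · intro γ _
      exact P1mk_lft_rgt P γ
    · rintro ⟨β, β'⟩ hx
      rw [Finset.mem_filter] at hx
      exact Prod.ext (P1_lft_mk P β β') (P1_rgt_mk P β β' hx.2)
    · intro γ _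
      simp only [hg]
      rw [P1_ee]
      unfold yP TP
      ring
  rw [h1, h2, h3, ← Finset.sum_add_distrib, ← Fintype.sum_prod_type']
  refine Finset.sum_congr rfl fun x _ => ?_
  split_ifs <;> simp

theorem yP_abs_le (y : (P → Option ι) → ℝ) (y' : (P → Option ι') → ℝ) (hy : ∀ β, |y β| ≤ 1)
    (hy' : ∀ β, |y' β| ≤ 1) (γ : P → Option (ι ⊕ ι')) : |yP P y y' γ| ≤ 1 := by
  unfold yP
  rw [abs_mul]
  exact mul_le_one₀ (hy _) (abs_nonneg _) (hy' _)

theorem yP_supp (hP : ∀ p ∈ P, Nat.Prime p) {z a a' : ℕ} (y : (P → Option ι) → ℝ)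
    (y' : (P → Option ι') → ℝ) (hy : ∀ β, y β ≠ 0 → rr (sp P β) ≤ (z : ℝ) ^ a)
    (hy' : ∀ β, y' β ≠ 0 → rr (sp P β) ≤ (z : ℝ) ^ a') (γ : P → Option (ι ⊕ ι'))
    (h : yP P y y' γ ≠ 0) : rr (sp P γ) ≤ (z : ℝ) ^ (a + a') := by
  unfold yP at h
  obtain ⟨h1, h2⟩ := mul_ne_zero_iff.1 h
  have h3 : rr (sp P γ) = rr (sp P (lft P γ)) * rr (sp P (rgt P γ)) := by
    rw [P1_sp]
    unfold rr
    exact Finset.prod_union (P1_disj P γ)
  rw [h3, pow_add]
  exact mul_le_mul (hy _ h1) (hy' _ h2) (rr_pos P hP (sp_subset P _)).le (by positivity)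

end Pool.Agent.LibUF16
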