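import Pool.Agent.LibUF16.Defs

/-!
Row T1: the numbers `tau r N = ∑_{t ≤ 2r} (-1)^t C(N,t)`. For `N ≥ 1`: `tau r N = C(N-1, 2r)`
(`Int.alternating_sum_range_choose_eq_choose` or induction on the upper limit with `Nat.succ_sub_one`, `Nat.choose_succ_succ`).
`tau_four`: all `x i = 0` gives `N = 0`, both sides are `1`; some `1 ≤ x i ≤ 2r`: the left side is `0`; otherwise some `x i > 2r`, so
`N > 2r` and every factor is `≤ tau r N` (those with `x i = 0` are `1 ≤ tau r N`).
-/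

open Finset Filter

namespace Pool.Agent.LibUF16

theorem tau_zero (r : ℕ) : tau r 0 = 1 := by
  rw [tau, Finset.sum_range_succ']
  have h : ∀ t ∈ range (2 * r), (-1 : ℝ) ^ (t + 1) * ((0 : ℕ).choose (t + 1) : ℝ) = 0 := by
    intro t _
    rw [Nat.choose_eq_zero_of_lt (Nat.succ_pos t), Nat.cast_zero, mul_zero]
  rw [Finset.sum_eq_zero h]
  simp

theorem tau_eq (r N : ℕ) (hN : 1 ≤ N) : tau r N = ((N - 1).choose (2 * r) : ℝ) := by
  obtain ⟨n, rfl⟩ : ∃ n, N = n + 1 := ⟨N - 1, by omega⟩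
  have h := Int.alternating_sum_range_choose_eq_choose (n := n) (m := 2 * r)
  rw [Even.neg_one_pow (even_two_mul r), one_mul] at h
  rw [tau, Nat.add_sub_cancel]
  exact_mod_cast h

theorem tau_eq_zero (r N : ℕ) (h1 : 1 ≤ N) (h2 : N ≤ 2 * r) : tau r N = 0 := by
  rw [tau_eq r N h1, Nat.choose_eq_zero_of_lt (by omega), Nat.cast_zero]

theorem tau_nonneg (r N : ℕ) : 0 ≤ tau r N := by
  rcases Nat.eq_zero_or_pos N with rfl | h
  · rw [tau_zero]
    exact zero_le_one
  · rw [tau_eq r N h]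
    exact Nat.cast_nonneg _

theorem tau_le (r N : ℕ) : tau r N ≤ 2 ^ N := by
  rcases Nat.eq_zero_or_pos N with rfl | h
  · rw [tau_zero, pow_zero]
  · rw [tau_eq r N h]
    have h1 : (N - 1).choose (2 * r) ≤ 2 ^ N :=
      (Nat.choose_le_two_pow (N - 1) (2 * r)).trans
        (Nat.pow_le_pow_right (by norm_num) (Nat.sub_le N 1))
    exact_mod_cast h1

theorem one_le_tau (r N : ℕ) (h : 2 * r < N) : 1 ≤ tau r N := by
  rw [tau_eq r N (by omega)]
  have h1 : 1 ≤ (N - 1).choose (2 * r) := Nat.choose_pos (by omega)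
  exact_mod_cast h1

theorem tau_mono (r : ℕ) {N N' : ℕ} (h : 1 ≤ N) (h' : N ≤ N') : tau r N ≤ tau r N' := by
  rw [tau_eq r N h, tau_eq r N' (h.trans h')]
  exact_mod_cast Nat.choose_le_choose (2 * r) (Nat.sub_le_sub_right h' 1)

theorem tau_four (r N : ℕ) (x : Fin 4 → ℕ) (h1 : ∀ i, x i ≤ N) (h2 : N ≤ ∑ i, x i) :
    ∏ i, tau r (x i) ≤ tau r N ^ 4 := by
  by_cases h0 : ∃ i, 1 ≤ x i ∧ x i ≤ 2 * r
  · obtain ⟨i, hi1, hi2⟩ := h0
    rw [Finset.prod_eq_zero (Finset.mem_univ i) (tau_eq_zero r (x i) hi1 hi2)]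
    exact pow_nonneg (tau_nonneg r N) 4
  · push Not at h0
    by_cases h3 : ∀ i, x i = 0
    · have hN : N = 0 := by
        rw [Finset.sum_eq_zero fun i _ => h3 i] at h2
        omega
      rw [Finset.prod_eq_one fun i _ => by rw [h3 i, tau_zero], hN, tau_zero, one_pow]
    · push Not at h3
      obtain ⟨i, hi⟩ := h3
      have hN : 2 * r < N := (h0 i (by omega)).trans_le (h1 i)
      have h4 : ∀ i, tau r (x i) ≤ tau r N := by
        intro i
        rcases Nat.eq_zero_or_pos (x i) with hx | hx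
        · rw [hx, tau_zero]
          exact one_le_tau r N hN
        · exact tau_mono r hx (h1 i)
      calc ∏ i, tau r (x i) ≤ ∏ _i : Fin 4, tau r N :=
            Finset.prod_le_prod (fun i _ => tau_nonneg r _) fun i _ => h4 i
        _ = tau r N ^ 4 := by rw [Finset.prod_const, Finset.card_univ, Fintype.card_fin]

end Pool.Agent.LibUF16
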