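import Pool.Agent.LibUF16.T2

/-!
Row T5: fourth power of the sum over the small sets. `(∑_B T_B)^4 = ∑_{(B_1,..,B_4)} ∏ T_{B_i}` (`Finset.sum_pow'` / `Fintype.piFinset`, or
`Finset.prod_univ_sum` with `Fin 4`), `∏ T_{B_i} ≤ T_U^4` with `U = ⋃ B_i` (`TU_four`, `Finset.image_biUnion`), `#U ≤ 4K`, and for a given `U` there are at
most `(2^(4K))^4` quadruples of subsets of `U`.
-/

open Finset Filter

namespace Pool.Agent.LibUF16

open Pool.Agent.LibRG87 Pool.Agent.LibLG5

private theorem T5_fiber {ι : Type} [Fintype ι] [DecidableEq ι] (K : ℕ)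
    (s : Finset (Fin 4 → Finset ι)) (U : Finset ι) (hU : U.card ≤ 4 * K) :
    (((s.filter fun g => (univ : Finset (Fin 4)).biUnion g = U).card : ℕ) : ℝ) ≤ 2 ^ (16 * K) := by
  have h1 : (s.filter fun g => (univ : Finset (Fin 4)).biUnion g = U) ⊆
      Fintype.piFinset (fun _ : Fin 4 => U.powerset) := by
    intro g hg
    rw [Fintype.mem_piFinset]
    intro i
    rw [Finset.mem_powerset, ← (Finset.mem_filter.1 hg).2]
    exact Finset.subset_biUnion_of_mem g (Finset.mem_univ i)
  have h2 := Finset.card_le_card h1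
  rw [Fintype.card_piFinset] at h2
  simp only [Finset.card_powerset, Finset.prod_const, Finset.card_univ, Fintype.card_fin] at h2
  have h3 : (2 ^ U.card) ^ 4 ≤ 2 ^ (16 * K) := by
    rw [← pow_mul]
    exact Nat.pow_le_pow_right (by norm_num) (by omega)
  exact_mod_cast h2.trans h3

theorem sum_TU_four {ι : Type} [Fintype ι] [DecidableEq ι] (w z r0 K : ℕ) (b : ι → ℕ) (n : ℕ) :
    (∑ B ∈ (univ : Finset (Finset ι)).filter (fun B => B.card ≤ K), TU w z r0 (B.image b) n) ^ 4 ≤
      2 ^ (16 * K) * ∑ B ∈ (univ : Finset (Finset ι)).filter (fun B => B.card ≤ 4 * K),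
        TU w z r0 (B.image b) n ^ 4 := by
  classical
  rw [Finset.sum_pow']
  have hmap : ∀ g ∈ Fintype.piFinset (fun _ : Fin 4 =>
      (univ : Finset (Finset ι)).filter (fun B => B.card ≤ K)),
      (univ : Finset (Fin 4)).biUnion g ∈
        (univ : Finset (Finset ι)).filter (fun B => B.card ≤ 4 * K) := by
    intro g hg
    rw [Fintype.mem_piFinset] at hg
    rw [Finset.mem_filter]
    refine ⟨Finset.mem_univ _, ?_⟩
    refine Finset.card_biUnion_le.trans ?_
    have h1 : ∀ i ∈ (univ : Finset (Fin 4)), (g i).card ≤ K := fun i _ =>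
      (Finset.mem_filter.1 (hg i)).2
    refine (Finset.sum_le_sum h1).trans ?_
    simp
  calc ∑ g ∈ Fintype.piFinset (fun _ : Fin 4 =>
        (univ : Finset (Finset ι)).filter (fun B => B.card ≤ K)), ∏ i, TU w z r0 ((g i).image b) n
      ≤ ∑ g ∈ Fintype.piFinset (fun _ : Fin 4 =>
        (univ : Finset (Finset ι)).filter (fun B => B.card ≤ K)),
          TU w z r0 (((univ : Finset (Fin 4)).biUnion g).image b) n ^ 4 := by
        refine Finset.sum_le_sum fun g _ => ?_
        have h1 := TU_four w z r0 (fun i => (g i).image b) n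
        rw [← Finset.biUnion_image] at h1
        exact h1
    _ = ∑ U ∈ (univ : Finset (Finset ι)).filter (fun B => B.card ≤ 4 * K),
        ∑ g ∈ (Fintype.piFinset (fun _ : Fin 4 =>
          (univ : Finset (Finset ι)).filter (fun B => B.card ≤ K))).filter
            (fun g => (univ : Finset (Fin 4)).biUnion g = U),
          TU w z r0 (((univ : Finset (Fin 4)).biUnion g).image b) n ^ 4 :=
        (Finset.sum_fiberwise_of_maps_to hmap _).symm
    _ ≤ ∑ U ∈ (univ : Finset (Finset ι)).filter (fun B => B.card ≤ 4 * K),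
        2 ^ (16 * K) * TU w z r0 (U.image b) n ^ 4 := by
        refine Finset.sum_le_sum fun U hU => ?_
        have h1 : ∑ g ∈ (Fintype.piFinset (fun _ : Fin 4 =>
            (univ : Finset (Finset ι)).filter (fun B => B.card ≤ K))).filter
              (fun g => (univ : Finset (Fin 4)).biUnion g = U),
            TU w z r0 (((univ : Finset (Fin 4)).biUnion g).image b) n ^ 4 =
            ∑ g ∈ (Fintype.piFinset (fun _ : Fin 4 =>
              (univ : Finset (Finset ι)).filter (fun B => B.card ≤ K))).filter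
              (fun g => (univ : Finset (Fin 4)).biUnion g = U),
            TU w z r0 (U.image b) n ^ 4 := by
          refine Finset.sum_congr rfl fun g hg => ?_
          rw [(Finset.mem_filter.1 hg).2]
        rw [h1, Finset.sum_const, nsmul_eq_mul]
        exact mul_le_mul_of_nonneg_right (T5_fiber K _ U (Finset.mem_filter.1 hU).2)
          (pow_nonneg (TU_nonneg _ _ _ _ _) 4)
    _ = 2 ^ (16 * K) * ∑ B ∈ (univ : Finset (Finset ι)).filter (fun B => B.card ≤ 4 * K),
        TU w z r0 (B.image b) n ^ 4 := by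
        rw [Finset.mul_sum]

end Pool.Agent.LibUF16
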